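import Pool.Agent.LL.Pts
import Pool.Agent.Helper29.LG.Lnk

/-! Long-range Lefschetz: the two moment estimates in the form of the assembly. -/

set_option autoImplicit false
set_option linter.unusedSectionVars false

namespace Pool.Agent.LL

open Finset
open Pool.Agent.Helper28.TC (WW WW_nonneg up up_cast)
open Pool.Agent.Helper28.TL (ZZ ZZ_nonneg)
open Pool.Agent.Helper29.LN
open Pool.Agent.Helper29.LG (Est)

lemma card_XU {R : Type} [CommRing R] {r c k : ℕ} {h : Fin c → MvPolynomial (Fin (r + 4)) R}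
    {g : Fin k → MvPolynomial (Fin (r + 4)) R} {C₀ : ℝ} (hC : 0 ≤ C₀) {p : ℕ} [Fact p.Prime]
    (φ : R →+* ZMod p) (hW : |points φ (Set.range h) - (p : ℝ) ^ 3| ≤ C₀ * (p : ℝ) ^ 2) :
    ((XU h g φ).card : ℝ) ≤ (1 + C₀) * (((p : ℝ) - 1) * (p : ℝ) ^ 3) := by
  have hp1 : (1 : ℝ) ≤ p := by exact_mod_cast (Fact.out : p.Prime).one_le
  have hp2 : (2 : ℝ) ≤ p := by exact_mod_cast (Fact.out : p.Prime).two_le
  have h1 : points φ (Set.range h) ≤ (1 + C₀) * (p : ℝ) ^ 3 := by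
    have h2 := (abs_le.1 hW).2
    have h3 : (p : ℝ) ^ 2 ≤ (p : ℝ) ^ 3 := pow_le_pow_right₀ hp1 (by norm_num)
    nlinarith
  rw [points_W] at h1
  have h2 : (0 : ℝ) < (p : ℝ) - 1 := by linarith
  rw [div_le_iff₀ h2] at h1
  have h3 := card_XW h g φ
  have h4 : (0 : ℝ) ≤ (XZ h g φ).card := Nat.cast_nonneg _
  calc ((XU h g φ).card : ℝ) ≤ (XW h φ).card := by rw [h3]; linarith
    _ ≤ _ := h1
    _ = _ := by ring

/-- **The moment estimates.** -/
theorem est2 {R : Type} [CommRing R] {r c k s d m : ℕ} (b : Module.Basis (Fin d) ℤ R)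
    (h : Fin c → MvPolynomial (Fin (r + 4)) R) (g : Fin k → MvPolynomial (Fin (r + 4)) R)
    {C₀ : ℝ} (hW : ∀ p : ℕ, p.Prime → ∀ φ : R →+* ZMod p,
      |points φ (Set.range h) - (p : ℝ) ^ 3| ≤ C₀ * (p : ℝ) ^ 2)
    (hm : 2 ≤ m) (hms : m + 1 ≤ s)
    (hD : ∀ j, 1 ≤ j → j + 1 ≤ m → 2 * (r + 3) * ((m - j) * (j + 1)) ≤ (m + 2) * (s + 1 - 2 * j)) :
    ∃ C₁ C₂ : ℝ, ∀ (M H K : ℕ) [NeZero M], K ^ 2 * (s * H) ^ m < M ^ m → 1 ≤ H →
      (∀ p, p.Prime → p ≤ K → p ∣ M) → Est (s := s) h g b M H K C₁ C₂ := by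
  obtain ⟨C, hC, h1⟩ := ho b h g hm hms hD
  obtain ⟨C', hC', h2⟩ := hd b h g hm hms hD
  refine ⟨C, d * (d * (C' + (1 + |C₀|))), fun M H K _ hsize hH hdvd => ⟨hC, by positivity, ?_, ?_⟩⟩
  · intro p _ hpK _ w hw
    have hp := (Fact.out : p.Prime)
    have hcard : (Fintype.card (R →+* ZMod p) : ℝ) ≤ d := by exact_mod_cast card_hom_le b
    have hs : p * p * (s * H) ^ m < M ^ m := by
      refine lt_of_le_of_lt (Nat.mul_le_mul_right _ ?_) hsize
      rw [sq]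
      exact Nat.mul_le_mul hpK hpK
    have h3 : ∀ φ : R →+* ZMod p, ∑ a : (Fin k × Mono (r + 4) s) × Fin d → ZMod M,
        WW H a * DP b h g φ (up a) ^ 2 ≤
        ZZ ((Fin k × Mono (r + 4) s) × Fin d) M H * ((C' + (1 + |C₀|)) * (p : ℝ) ^ 4) := by
      intro φ
      have h4 : |points φ (Set.range h) - (p : ℝ) ^ 3| ≤ |C₀| * (p : ℝ) ^ 2 :=
        (hW p hp φ).trans (mul_le_mul_of_nonneg_right (le_abs_self _) (by positivity))
      exact h2 p M (hdvd p hp hpK) H hs φ (1 + |C₀|) (by positivity)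
        (card_XU (abs_nonneg _) φ h4)
    have h4 : ∀ a : (Fin k × Mono (r + 4) s) × Fin d → ZMod M, WW H a *
        (∑ φ : R →+* ZMod p, w φ * DD (XU h g φ) (gv g φ) fun j => φ (coord b (up a) j)) ^ 2 ≤
        d * ∑ φ : R →+* ZMod p, WW H a * DP b h g φ (up a) ^ 2 := by
      intro a
      rw [← Finset.mul_sum, mul_left_comm]
      apply mul_le_mul_of_nonneg_left _ (WW_nonneg H a)
      refine (sq_sum_le_card_mul_sum_sq).trans ?_
      rw [Finset.card_univ]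
      apply mul_le_mul hcard _ (Finset.sum_nonneg fun _ _ => sq_nonneg _) (Nat.cast_nonneg _)
      refine Finset.sum_le_sum fun φ _ => ?_
      rw [mul_pow]
      have h5 : w φ ^ 2 ≤ 1 := by
        rw [← sq_abs]
        exact pow_le_one₀ (abs_nonneg _) (hw φ)
      exact mul_le_of_le_one_left (sq_nonneg _) h5
    refine (Finset.sum_le_sum fun a _ => h4 a).trans ?_
    rw [← Finset.mul_sum, Finset.sum_comm]
    have hZ : 0 ≤ ZZ ((Fin k × Mono (r + 4) s) × Fin d) M H := ZZ_nonneg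
    calc (d : ℝ) * _ ≤ d * ∑ _φ : R →+* ZMod p,
          ZZ ((Fin k × Mono (r + 4) s) × Fin d) M H * ((C' + (1 + |C₀|)) * (p : ℝ) ^ 4) :=
          mul_le_mul_of_nonneg_left (Finset.sum_le_sum fun φ _ => h3 φ) (Nat.cast_nonneg _)
      _ = d * (Fintype.card (R →+* ZMod p) *
            (ZZ ((Fin k × Mono (r + 4) s) × Fin d) M H * ((C' + (1 + |C₀|)) * (p : ℝ) ^ 4))) := by
          rw [Finset.sum_const, Finset.card_univ, nsmul_eq_mul]
      _ ≤ d * (d * (ZZ ((Fin k × Mono (r + 4) s) × Fin d) M H *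
            ((C' + (1 + |C₀|)) * (p : ℝ) ^ 4))) := by
          apply mul_le_mul_of_nonneg_left _ (Nat.cast_nonneg _)
          exact mul_le_mul_of_nonneg_right hcard (by positivity)
      _ = _ := by ring
  · intro p q _ _ hpq hpK hqK φ φ'
    have hp := (Fact.out : p.Prime)
    have hq := (Fact.out : q.Prime)
    have hs : p * q * (s * H) ^ m < M ^ m := by
      refine lt_of_le_of_lt (Nat.mul_le_mul_right _ ?_) hsize
      rw [sq]
      exact Nat.mul_le_mul hpK hqK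
    exact h1 p q hpq M (hdvd p hp hpK) (hdvd q hq hqK) H hs φ φ'

/-- The moment estimates with a stronger condition. -/
theorem est {R : Type} [CommRing R] {r c k s d m : ℕ} (b : Module.Basis (Fin d) ℤ R)
    (h : Fin c → MvPolynomial (Fin (r + 4)) R) (g : Fin k → MvPolynomial (Fin (r + 4)) R)
    {C₀ : ℝ} (hW : ∀ p : ℕ, p.Prime → ∀ φ : R →+* ZMod p,
      |points φ (Set.range h) - (p : ℝ) ^ 3| ≤ C₀ * (p : ℝ) ^ 2)
    (hm : 2 ≤ m) (hms : m + 1 ≤ s)
    (hD : ∀ j, 1 ≤ j → j + 1 ≤ m → 2 * (r + 3) * ((m - j) * (j + 1)) ≤ (m + 2) * (s + 2 - m - j)) :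
    ∃ C₁ C₂ : ℝ, ∀ (M H K : ℕ) [NeZero M], K ^ 2 * (s * H) ^ m < M ^ m → 1 ≤ H →
      (∀ p, p.Prime → p ≤ K → p ∣ M) → Est (s := s) h g b M H K C₁ C₂ :=
  est2 b h g hW hm hms fun j h1 h2 =>
    (hD j h1 h2).trans (Nat.mul_le_mul_left _ (by omega))

end Pool.Agent.LL
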