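import Pool.Agent.LL.Main

/-!
Classes without span cores, for every threshold `2^(-2^k)`, in every abelian group.
-/

set_option autoImplicit false
set_option linter.unusedSectionVars false

namespace Pool.Agent.LL

open Finset
open scoped ENNReal

variable {ι : Type*} [Fintype ι] [DecidableEq ι] {Γ : Type*} [AddCommGroup Γ]

/-- The span relation with threshold `2^(-2^k)`. -/
theorem Spn_half (b : ι → Γ) (k : ℕ) {v : ι} {B : Finset ι}
    (h : Spn b ((1 / 2 : ℝ) ^ (2 ^ k)) v B) :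
    ENNReal.ofReal (1 / 2) * Z b (Real.log 2 / 2 ^ k) B 0 ≤ Z b (Real.log 2 / 2 ^ k) B (b v) := by
  have hβe : Real.exp (-Real.log 2) = 1 / 2 := by
    rw [Real.exp_neg, Real.exp_log (by norm_num)]; norm_num
  have h1 := scale b (Real.log_pos (by norm_num : (1 : ℝ) < 2))
    (show (0 : ℝ) < (1 / 2) ^ (2 ^ k) by positivity) B (b v) (Spn_gauss b hβe h) k
  have h2 : ((1 / 2 : ℝ) ^ (2 ^ k)) ^ ((1 / 2 : ℝ) ^ k) = 1 / 2 := by
    rw [← Real.rpow_natCast, ← Real.rpow_mul (by norm_num)]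
    have : (((2 : ℕ) ^ k : ℕ) : ℝ) * (1 / 2) ^ k = 1 := by
      push_cast
      rw [← mul_pow]
      norm_num
    rw [this, Real.rpow_one]
  rwa [h2] at h1

/-- The volume bound for a dissociated set in the span. -/
theorem dis_bound (b : ι → Γ) (k : ℕ) (D B : Finset ι) (hDis : Dis b D)
    (hD : ∀ u ∈ D, Spn b ((1 / 2 : ℝ) ^ (2 ^ k)) u B) :
    D.card ≤ 2 * (k + 2) * B.card := by
  have hlog : (0.69 : ℝ) < Real.log 2 := by
    have := Real.log_two_gt_d9
    linarith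
  have hβ : 0 < Real.log 2 / 2 ^ k := by positivity
  have h1 := MM_lower b hβ B (ENNReal.ofReal (1 / 2)) D (fun u hu => Spn_half b k (hD u hu))
  have h2 := MM_upper b (Real.log 2 / 2 ^ k) B D D hDis
  have h3 : (3 : ℝ) ^ D.card ≤ 2 ^ D.card * ((2 : ℝ) ^ (k + 2)) ^ B.card := by
    have h4 : ENNReal.ofReal (3 ^ D.card) ≤ ENNReal.ofReal (2 ^ D.card *
        (1 + 2 / (Real.log 2 / 2 ^ k)) ^ B.card) := by
      calc ENNReal.ofReal (3 ^ D.card) = (2 * (1 + ENNReal.ofReal (1 / 2))) ^ D.card := by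
            rw [ENNReal.ofReal_pow (by norm_num)]
            congr 1
            rw [← ENNReal.ofReal_one, ← ENNReal.ofReal_add (by norm_num) (by norm_num),
              ← ENNReal.ofReal_ofNat 2, ← ENNReal.ofReal_mul (by norm_num)]
            norm_num
        _ ≤ (2 * (1 + ENNReal.ofReal (1 / 2))) ^ D.card * Z b (Real.log 2 / 2 ^ k) B 0 :=
            le_mul_of_one_le_right' (Z_zero_ge b _ B)
        _ ≤ _ := h1
        _ ≤ _ := h2
        _ ≤ (2 : ℝ≥0∞) ^ (2 * (D \ D).card + D.card) *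
            ENNReal.ofReal ((1 + 2 / (Real.log 2 / 2 ^ k)) ^ B.card) :=
            mul_le_mul_right (E_mass hβ B) _
        _ = _ := by
            rw [Finset.sdiff_self, Finset.card_empty, mul_zero, zero_add,
              ENNReal.ofReal_mul (pow_nonneg (by norm_num) _),
              ENNReal.ofReal_pow (show (0 : ℝ) ≤ 2 by norm_num)]
            simp
    rw [ENNReal.ofReal_le_ofReal_iff (by positivity)] at h4
    refine h4.trans ?_
    gcongr
    have h5 : 2 / (Real.log 2 / 2 ^ k) = 2 * 2 ^ k / Real.log 2 := by field_simp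
    have h6 : (1 : ℝ) ≤ 2 ^ k := one_le_pow₀ (by norm_num)
    have h7 : 2 * 2 ^ k / Real.log 2 ≤ 3 * 2 ^ k := by
      rw [div_le_iff₀ (by linarith)]
      nlinarith
    rw [h5]
    calc 1 + 2 * 2 ^ k / Real.log 2 ≤ 2 ^ k + 3 * 2 ^ k := by linarith
      _ = 2 ^ (k + 2) := by ring
  by_contra hcon
  push Not at hcon
  -- 3^d > 2^d 2^((k+2) b) if d > 2 (k+2) b, as 9 > 8
  have h8 : (9 : ℝ) ^ D.card ≤ 4 ^ D.card * 2 ^ (2 * (k + 2) * B.card) := by
    calc (9 : ℝ) ^ D.card = (3 ^ D.card) ^ 2 := by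
          rw [← pow_mul, mul_comm D.card 2, pow_mul]; norm_num
      _ ≤ (2 ^ D.card * ((2 : ℝ) ^ (k + 2)) ^ B.card) ^ 2 := by gcongr
      _ = 4 ^ D.card * 2 ^ (2 * (k + 2) * B.card) := by
          have e1 : ((2 : ℝ) ^ D.card) ^ 2 = 4 ^ D.card := by
            rw [← pow_mul, mul_comm D.card 2, pow_mul]; norm_num
          have e2 : (((2 : ℝ) ^ (k + 2)) ^ B.card) ^ 2 = 2 ^ (2 * (k + 2) * B.card) := by
            rw [← pow_mul, ← pow_mul]; congr 1; ring
          rw [mul_pow, e1, e2]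
  have h9 : (4 : ℝ) ^ D.card * 2 ^ (2 * (k + 2) * B.card) ≤ 4 ^ D.card * 2 ^ D.card := by
    gcongr
    norm_num
  have h10 : (4 : ℝ) ^ D.card * 2 ^ D.card = 8 ^ D.card := by
    rw [← mul_pow]; norm_num
  have h11 : (8 : ℝ) ^ D.card < 9 ^ D.card := by
    apply pow_lt_pow_left₀ (by norm_num) (by norm_num)
    omega
  linarith

/-- The classes. -/
theorem classes (b : ι → Γ) (C k K : ℕ)
    (hP : ∀ B : Finset ι, ∃ D ⊆ B, Dis b D ∧ B.card ≤ C * D.card)
    (hK : 4 * C * (k + 2) + 2 ≤ K) :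
    ∃ g : ι → Fin K, ∀ B : Finset ι, B.Nonempty → (∀ x ∈ B, ∀ y ∈ B, g x = g y) →
      ∃ u ∈ B, T b (1 / 4) (B.erase u) (b u) ≤
        ENNReal.ofReal ((1 / 2) ^ (2 ^ k)) * T b (1 / 4) (B.erase u) 0 := by
  obtain ⟨g, hg⟩ := Pool.Agent.S12.absorb (univ : Finset ι)
    (fun S u => Spn b ((1 / 2 : ℝ) ^ (2 ^ k)) u (S.erase u))
    (fun S T u hST h => Spn_mono b _ u (Finset.erase_subset_erase u hST) h)
    (2 * C * (k + 2)) K (by
      have : ((4 * C * (k + 2) + 2 : ℕ) : ℝ) ≤ K := by exact_mod_cast hK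
      push_cast at this
      linarith) (by omega) (by
      intro S T _ _ hT
      obtain ⟨D, hDT, hDis, hcard⟩ := hP T
      have h1 := dis_bound b k D S hDis (fun u hu => Spn_mono b _ u (Finset.erase_subset _ _)
        (hT u (hDT hu)))
      have h2 : T.card ≤ 2 * C * (k + 2) * S.card := by
        calc T.card ≤ C * D.card := hcard
          _ ≤ C * (2 * (k + 2) * S.card) := Nat.mul_le_mul_left _ h1
          _ = _ := by ring
      exact_mod_cast h2)
  refine ⟨g, fun B hB hmono => ?_⟩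
  obtain ⟨u, hu, hnot⟩ := hg B (Finset.subset_univ _) hB hmono
  refine ⟨u, hu, ?_⟩
  rw [Finset.erase_idem] at hnot
  by_contra hcon
  rw [not_le] at hcon
  exact hnot ⟨B.erase u, Finset.Subset.refl _, hcon.le⟩

theorem T_mono_real (b : ι → Γ) (k : ℕ) (B : Finset ι)
    (h : ∀ C' ⊆ B, C'.Nonempty → ∃ u ∈ C', T b (1 / 4) (C'.erase u) (b u) ≤
        ENNReal.ofReal ((1 / 2) ^ (2 ^ k)) * T b (1 / 4) (C'.erase u) 0) :
    T b (1 / 4) B 0 ≤ ENNReal.ofReal (Real.exp (B.card * ((1 / 2) * (1 / 2) ^ (2 ^ k)))) := by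
  have h1 := T_core_bound b (1 / 4) (ENNReal.ofReal ((1 / 2) ^ (2 ^ k))) B h
  have h2 : (1 + 2 * (1 / 4) * ENNReal.ofReal ((1 / 2) ^ (2 ^ k))) =
      ENNReal.ofReal (1 + (1 / 2) * (1 / 2) ^ (2 ^ k)) := by
    rw [ENNReal.ofReal_add (by norm_num) (by positivity), ENNReal.ofReal_one,
      ENNReal.ofReal_mul (by norm_num)]
    congr 2
    rw [ENNReal.ofReal_div_of_pos (by norm_num)]
    simp only [ENNReal.ofReal_one, ENNReal.ofReal_ofNat]
    rw [one_div, one_div]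
    have h4 : (4 : ℝ≥0∞) = 2 * 2 := by norm_num
    rw [h4, ENNReal.mul_inv (by norm_num) (by norm_num), ← mul_assoc,
      ENNReal.mul_inv_cancel (by norm_num) (by norm_num), one_mul]
  rw [h2, ← ENNReal.ofReal_pow (by positivity)] at h1
  refine h1.trans (ENNReal.ofReal_le_ofReal ?_)
  rw [Real.exp_nat_mul]
  gcongr
  have := Real.add_one_le_exp ((1 / 2) * (1 / 2 : ℝ) ^ (2 ^ k))
  linarith

/-- Classes of moderate size are unions of four dissociated sets. -/
theorem four (b : ι → Γ) (k : ℕ) (B : Finset ι) (hB : 4 * B.card ≤ 2 ^ (2 ^ k))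
    (h : ∀ C' ⊆ B, C'.Nonempty → ∃ u ∈ C', T b (1 / 4) (C'.erase u) (b u) ≤
        ENNReal.ofReal ((1 / 2) ^ (2 ^ k)) * T b (1 / 4) (C'.erase u) 0) :
    ∃ f : ι → Fin 4, ∀ i, Dis b (B.filter (fun x => f x = i)) := by
  apply exists_four
  refine lt_of_le_of_lt (T_mono_real b k B h) ?_
  have h7 : (5 / 4 : ℝ≥0∞) = ENNReal.ofReal (5 / 4) := by
    rw [ENNReal.ofReal_div_of_pos (by norm_num)]
    simp
  rw [h7, ENNReal.ofReal_lt_ofReal_iff (by norm_num)]
  have h1 : (B.card : ℝ) * ((1 / 2) * (1 / 2) ^ (2 ^ k)) ≤ 1 / 8 := by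
    have h2 : (4 : ℝ) * B.card ≤ 2 ^ (2 ^ k) := by exact_mod_cast hB
    have h3 : (0 : ℝ) < 2 ^ (2 ^ k) := by positivity
    rw [one_div_pow, one_div_mul_one_div, mul_one_div, div_le_div_iff₀ (by positivity)
      (by norm_num)]
    linarith
  calc Real.exp (B.card * ((1 / 2) * (1 / 2) ^ (2 ^ k))) ≤ Real.exp (1 / 8) :=
        Real.exp_le_exp.2 h1
    _ < 5 / 4 := by
      have h5 : Real.exp (1 / 8) ≤ 1 / (1 - 1 / 8) := by
        have := Real.add_one_le_exp (-(1 / 8 : ℝ))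
        rw [Real.exp_neg] at this
        rw [le_div_iff₀ (by norm_num)]
        have hpos := Real.exp_pos (1 / 8 : ℝ)
        have h6 : (-(1 / 8 : ℝ) + 1) * Real.exp (1 / 8) ≤ 1 := by
          calc (-(1 / 8 : ℝ) + 1) * Real.exp (1 / 8) ≤
                (Real.exp (1 / 8))⁻¹ * Real.exp (1 / 8) :=
                mul_le_mul_of_nonneg_right this hpos.le
            _ = 1 := inv_mul_cancel₀ hpos.ne'
        linarith
      linarith

/-- Small sets without cores are dissociated. -/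
theorem short (b : ι → Γ) (k : ℕ) (B : Finset ι) (hB : 3 * B.card ≤ 2 ^ k)
    (h : ∀ C' ⊆ B, C'.Nonempty → ∃ u ∈ C', T b (1 / 4) (C'.erase u) (b u) ≤
        ENNReal.ofReal ((1 / 2) ^ (2 ^ k)) * T b (1 / 4) (C'.erase u) 0) :
    Dis b B := by
  intro X Y hX hY hXY
  by_contra hne
  set c : ι → ℤ := fun i => (if i ∈ X then 1 else 0) - (if i ∈ Y then 1 else 0) with hc
  have hspc : sp c ⊆ B := by
    intro i hi
    simp only [sp, Finset.mem_filter, Finset.mem_univ, true_and] at hi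
    by_cases h1 : i ∈ X
    · exact hX h1
    · by_cases h2 : i ∈ Y
      · exact hY h2
      · exact absurd (by simp [hc, h1, h2]) hi
  have hc0 : c ≠ 0 := by
    intro h0
    apply hne
    ext i
    have := congrFun h0 i
    by_cases h1 : i ∈ X <;> by_cases h2 : i ∈ Y <;> simp [hc, h1, h2] at this ⊢
  have hphi : phi b c = 0 := by
    rw [phi_apply]
    have : ∀ i, c i • b i = (if i ∈ X then b i else 0) - (if i ∈ Y then b i else 0) := by
      intro i
      by_cases h1 : i ∈ X <;> by_cases h2 : i ∈ Y <;> simp [hc, h1, h2]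
    simp_rw [this]
    rw [Finset.sum_sub_distrib, Finset.sum_ite_mem, Finset.sum_ite_mem, Finset.univ_inter,
      Finset.univ_inter, hXY, sub_self]
  have hval : ∀ i, c i = 0 ∨ c i = 1 ∨ c i = -1 := by
    intro i
    by_cases h1 : i ∈ X <;> by_cases h2 : i ∈ Y <;> simp [hc, h1, h2]
  classical
  have h1 : ∑ d ∈ ({0, c} : Finset (ι → ℤ)), (if phi b d = 0 then tw (1 / 4) B d else 0) ≤
      T b (1 / 4) B 0 := ENNReal.sum_le_tsum _
  rw [Finset.sum_pair hc0.symm, if_pos (map_zero _), if_pos hphi, tw_quarter hval hspc] at h1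
  have h2 : tw (1 / 4) B (0 : ι → ℤ) = 1 := by simp [tw]
  rw [h2] at h1
  have hl : (sp c).card ≤ B.card := Finset.card_le_card hspc
  have h3 := h1.trans (T_mono_real b k B h)
  have h4 : (1 : ℝ≥0∞) + (1 / 4) ^ (sp c).card = ENNReal.ofReal (1 + (1 / 4) ^ (sp c).card) := by
    rw [ENNReal.ofReal_add (by norm_num) (by positivity), ENNReal.ofReal_one,
      ENNReal.ofReal_pow (by norm_num), ENNReal.ofReal_div_of_pos (by norm_num)]
    simp
  rw [h4, ENNReal.ofReal_le_ofReal_iff (Real.exp_nonneg _)] at h3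
  have hBpos : 0 < B.card := by
    have : (sp c).Nonempty := by
      by_contra hemp
      rw [Finset.not_nonempty_iff_eq_empty] at hemp
      apply hc0
      funext i
      by_contra hi
      have : i ∈ sp c := by
        simp only [sp, Finset.mem_filter, Finset.mem_univ, true_and]; exact hi
      rw [hemp] at this
      exact absurd this (Finset.notMem_empty i)
    exact lt_of_lt_of_le this.card_pos hl
  -- numerics
  set l := B.card with hldef
  have e1 : (1 / 4 : ℝ) ^ l ≤ (1 / 4) ^ (sp c).card :=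
    pow_le_pow_of_le_one (by norm_num) (by norm_num) hl
  have e2 : ((1 : ℝ) / 2) ^ (2 ^ k) ≤ (1 / 8) ^ l := by
    calc ((1 : ℝ) / 2) ^ (2 ^ k) ≤ (1 / 2) ^ (3 * l) :=
          pow_le_pow_of_le_one (by norm_num) (by norm_num) hB
      _ = (1 / 8) ^ l := by rw [pow_mul]; norm_num
  have e3 : (l : ℝ) < 2 ^ l := by exact_mod_cast Nat.lt_two_pow_self
  have e4 : (l : ℝ) * ((1 / 2) * (1 / 2) ^ (2 ^ k)) < (1 / 2) * (1 / 4) ^ l := by
    have e5 : (l : ℝ) * (1 / 8) ^ l < (1 / 4) ^ l := by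
      have : ((1 : ℝ) / 4) ^ l = 2 ^ l * (1 / 8) ^ l := by
        rw [← mul_pow]; norm_num
      rw [this]
      have h8 : (0 : ℝ) < (1 / 8) ^ l := by positivity
      nlinarith
    have e6 : (l : ℝ) * (1 / 2) ^ (2 ^ k) ≤ l * (1 / 8) ^ l := by gcongr
    linarith
  have e7 : (1 / 4 : ℝ) ^ l ≤ 1 := pow_le_one₀ (by norm_num) (by norm_num)
  set x : ℝ := (l : ℝ) * ((1 / 2) * (1 / 2) ^ (2 ^ k)) with hx
  have hx0 : 0 ≤ x := by positivity
  have hx1 : x ≤ 1 / 2 := by linarith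
  have e8 : Real.exp x ≤ 1 + 2 * x := by
    have := Real.add_one_le_exp (-x)
    rw [Real.exp_neg] at this
    have hpos := Real.exp_pos x
    have h6 : (-x + 1) * Real.exp x ≤ 1 := by
      calc (-x + 1) * Real.exp x ≤ (Real.exp x)⁻¹ * Real.exp x :=
            mul_le_mul_of_nonneg_right this hpos.le
        _ = 1 := inv_mul_cancel₀ hpos.ne'
    have h7 : 1 ≤ (1 - x) * (1 + 2 * x) := by nlinarith
    have h8 : 0 < 1 - x := by linarith
    nlinarith
  linarith

/-- The two conclusions together. -/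
theorem main_pair (b : ι → Γ) (C L K : ℕ) (hL : 1 ≤ L)
    (hP : ∀ B : Finset ι, ∃ D ⊆ B, Dis b D ∧ B.card ≤ C * D.card)
    (hK : 4 * C * (Nat.clog 2 (3 * L) + 2) + 2 ≤ K) :
    ∃ g : ι → Fin K, ∀ B : Finset ι, (∀ x ∈ B, ∀ y ∈ B, g x = g y) →
      (B.card ≤ L → Dis b B) ∧
      (B.card ≤ 2 ^ L → ∃ f : ι → Fin 4, ∀ i, Dis b (B.filter (fun x => f x = i))) := by
  obtain ⟨g, hg⟩ := classes b C (Nat.clog 2 (3 * L)) K hP hK
  have hk : 3 * L ≤ 2 ^ Nat.clog 2 (3 * L) := Nat.le_pow_clog (by norm_num) _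
  refine ⟨g, fun B hB => ?_⟩
  have h : ∀ C' ⊆ B, C'.Nonempty → ∃ u ∈ C', T b (1 / 4) (C'.erase u) (b u) ≤
        ENNReal.ofReal ((1 / 2) ^ (2 ^ Nat.clog 2 (3 * L))) * T b (1 / 4) (C'.erase u) 0 :=
    fun C' hC' hne => hg C' hne (fun x hx y hy => hB x (hC' hx) y (hC' hy))
  refine ⟨fun hBL => short b _ B (by omega) h, fun hBL => four b _ B ?_ h⟩
  calc 4 * B.card ≤ 4 * 2 ^ L := Nat.mul_le_mul_left _ hBL
    _ = 2 ^ (L + 2) := by ring
    _ ≤ 2 ^ (2 ^ Nat.clog 2 (3 * L)) := Nat.pow_le_pow_right (by norm_num) (by omega)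

end Pool.Agent.LL
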