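import Pool.Agent.LL.Comp

/-!
The size of closures at high temperature.
-/

set_option autoImplicit false
set_option linter.unusedSectionVars false

namespace Pool.Agent.LL

open Finset
open scoped ENNReal

theorem ga_theta {β : ℝ} (hβ : 0 < β) : ∑' j : ℤ, ga β j ≤ ENNReal.ofReal (1 + 2 / β) := by
  have hr0 : 0 ≤ Real.exp (-β) := (Real.exp_pos _).le
  have hr1 : Real.exp (-β) < 1 := by
    rw [Real.exp_lt_one_iff]; linarith
  have hgeo : ∑' n : ℕ, ga β ((n : ℤ) + 1) ≤ ENNReal.ofReal (1 / β) := by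
    have h1 : ∀ n : ℕ, ga β ((n : ℤ) + 1) ≤
        ENNReal.ofReal (Real.exp (-β) * Real.exp (-β) ^ n) := by
      intro n
      unfold ga
      apply ENNReal.ofReal_le_ofReal
      rw [← pow_succ', ← Real.exp_nat_mul]
      apply Real.exp_le_exp.2
      push_cast
      have hn : (0 : ℝ) ≤ n := Nat.cast_nonneg n
      nlinarith [mul_nonneg hβ.le hn, mul_nonneg (mul_nonneg hβ.le hn) hn]
    have hs : Summable (fun n : ℕ => Real.exp (-β) * Real.exp (-β) ^ n) :=
      (summable_geometric_of_lt_one hr0 hr1).mul_left _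
    calc ∑' n : ℕ, ga β ((n : ℤ) + 1) ≤ ∑' n : ℕ,
          ENNReal.ofReal (Real.exp (-β) * Real.exp (-β) ^ n) := ENNReal.tsum_le_tsum h1
      _ = ENNReal.ofReal (∑' n : ℕ, Real.exp (-β) * Real.exp (-β) ^ n) :=
          (ENNReal.ofReal_tsum_of_nonneg (fun n => by positivity) hs).symm
      _ ≤ ENNReal.ofReal (1 / β) := by
          apply ENNReal.ofReal_le_ofReal
          rw [tsum_mul_left, tsum_geometric_of_lt_one hr0 hr1]
          have h2 : β + 1 ≤ Real.exp β := Real.add_one_le_exp β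
          have h3 : Real.exp (-β) = (Real.exp β)⁻¹ := Real.exp_neg β
          have hpos : 0 < Real.exp β := Real.exp_pos β
          rw [h3]
          have h4 : (Real.exp β)⁻¹ * (1 - (Real.exp β)⁻¹)⁻¹ = 1 / (Real.exp β - 1) := by
            have h5 : Real.exp β - 1 ≠ 0 := by linarith
            have h6 : 1 - (Real.exp β)⁻¹ = (Real.exp β - 1) / Real.exp β := by
              field_simp
            rw [h6]
            field_simp
          rw [h4]
          apply one_div_le_one_div_of_le hβ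
          linarith
  have hsum : HasSum (fun j : ℤ => ga β j)
      ((∑' n : ℕ, ga β (n : ℤ)) + ∑' n : ℕ, ga β (-((n : ℤ) + 1))) :=
    HasSum.of_nat_of_neg_add_one ENNReal.summable.hasSum ENNReal.summable.hasSum
  rw [hsum.tsum_eq, tsum_eq_zero_add' ENNReal.summable]
  have e1 : ga β ((0 : ℕ) : ℤ) = 1 := ga_zero β
  have e2 : ∑' n : ℕ, ga β (-((n : ℤ) + 1)) = ∑' n : ℕ, ga β ((n : ℤ) + 1) :=
    tsum_congr fun n => ga_neg β _
  have e3 : ∑' n : ℕ, ga β ((n + 1 : ℕ) : ℤ) = ∑' n : ℕ, ga β ((n : ℤ) + 1) :=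
    tsum_congr fun n => by push_cast; rfl
  rw [e1, e2, e3]
  calc 1 + ∑' n : ℕ, ga β ((n : ℤ) + 1) + ∑' n : ℕ, ga β ((n : ℤ) + 1)
      ≤ 1 + ENNReal.ofReal (1 / β) + ENNReal.ofReal (1 / β) := by gcongr
    _ = ENNReal.ofReal (1 + 2 / β) := by
        rw [← ENNReal.ofReal_one, ← ENNReal.ofReal_add (by norm_num) (by positivity),
          ← ENNReal.ofReal_add (by positivity) (by positivity)]
        congr 1
        ring

variable {ι : Type*} [Fintype ι] [DecidableEq ι] {Γ : Type*} [AddCommGroup Γ]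

/-- Row 4a. -/
theorem E_mass {β : ℝ} (hβ : 0 < β) (B : Finset ι) :
    ∑' c : ι → ℤ, E β B (cst c) ≤ ENNReal.ofReal ((1 + 2 / β) ^ B.card) := by
  simp_rw [E_prod]
  rw [← prod_tsum (fun i j => if i ∈ B then ga β j else if j = 0 then (1 : ℝ≥0∞) else 0)]
  have e : ∀ i : ι, (∑' j : ℤ, if i ∈ B then ga β j else if j = 0 then (1 : ℝ≥0∞) else 0) =
      if i ∈ B then ∑' j : ℤ, ga β j else 1 := by
    intro i
    by_cases hi : i ∈ B
    · simp only [hi, if_true]
    · simp only [hi, if_false]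
      rw [tsum_eq_single 0 (fun j hj => if_neg hj), if_pos rfl]
  simp_rw [e]
  rw [Finset.prod_ite_mem, Finset.univ_inter, Finset.prod_const,
    ENNReal.ofReal_pow (by positivity)]
  exact pow_le_pow_left' (ga_theta hβ) _

/-- Row 4b. -/
theorem Z_zero_ge (b : ι → Γ) (β : ℝ) (B : Finset ι) : 1 ≤ Z b β B 0 := by
  unfold Z
  refine le_trans ?_ (ENNReal.le_tsum (0 : ι → ℤ))
  rw [if_pos (map_zero _)]
  simp [E]

theorem Z_le_mass (b : ι → Γ) (β : ℝ) (B : Finset ι) (y : Γ) :
    Z b β B y ≤ ∑' c : ι → ℤ, E β B (cst c) := by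
  unfold Z
  refine ENNReal.tsum_le_tsum fun c => ?_
  split_ifs
  · exact le_rfl
  · exact zero_le

theorem Z_ne_top (b : ι → Γ) {β : ℝ} (hβ : 0 < β) (B : Finset ι) (y : Γ) :
    Z b β B y ≠ ⊤ :=
  ne_top_of_le_ne_top ENNReal.ofReal_ne_top ((Z_le_mass b β B y).trans (E_mass hβ B))

open Classical in
theorem Z_neg (b : ι → Γ) (β : ℝ) (B : Finset ι) (y : Γ) : Z b β B (-y) = Z b β B y := by
  unfold Z
  rw [← (Equiv.neg (ι → ℤ)).tsum_eq (fun c => if phi b c = -y then E β B (cst c) else 0)]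
  refine tsum_congr fun c => ?_
  simp only [Equiv.neg_apply, map_neg, neg_inj, cst_neg, E_neg]

/-- The sum over pairs of subsets. -/
noncomputable def MM (b : ι → Γ) (β : ℝ) (B L : Finset ι) : ℝ≥0∞ :=
  ∑ X ∈ L.powerset, ∑ Y ∈ L.powerset, Z b β B (∑ i ∈ X, b i - ∑ i ∈ Y, b i)

theorem MM_lower (b : ι → Γ) {β : ℝ} (hβ : 0 < β) (B : Finset ι) (t : ℝ≥0∞) (L : Finset ι)
    (hL : ∀ l ∈ L, t * Z b β B 0 ≤ Z b β B (b l)) :
    (2 * (1 + t)) ^ L.card * Z b β B 0 ≤ MM b β B L := by
  induction L using Finset.induction_on with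
  | empty => simp [MM]
  | insert l L hl ih =>
    have ih' := ih (fun l' hl' => hL l' (Finset.mem_insert_of_mem hl'))
    have hkey : ∀ y : Γ, 2 * (1 + t) * Z b β B y ≤
        Z b β B y + Z b β B (y - b l) + (Z b β B (y + b l) + Z b β B (y + b l - b l)) := by
      intro y
      have h0 : Z b β B 0 ≠ 0 := (lt_of_lt_of_le zero_lt_one (Z_zero_ge b β B)).ne'
      have h1 : Z b β B 0 * (2 * (t * Z b β B y)) ≤
          Z b β B 0 * (Z b β B (y + b l) + Z b β B (y - b l)) := by
        calc Z b β B 0 * (2 * (t * Z b β B y)) = 2 * (Z b β B y * (t * Z b β B 0)) := by ring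
          _ ≤ 2 * (Z b β B y * Z b β B (b l)) := by
              gcongr
              exact hL l (Finset.mem_insert_self _ _)
          _ ≤ _ := Z_rsd b β B y (b l)
      have h2 := (ENNReal.mul_le_mul_iff_right h0 (Z_ne_top b hβ B 0)).1 h1
      calc 2 * (1 + t) * Z b β B y = Z b β B y + Z b β B y + 2 * (t * Z b β B y) := by ring
        _ ≤ Z b β B y + Z b β B y + (Z b β B (y + b l) + Z b β B (y - b l)) := by gcongr
        _ = _ := by rw [add_sub_cancel_right]; ring
    have hMM : MM b β B (insert l L) = ∑ X ∈ L.powerset, ∑ Y ∈ L.powerset,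
        (Z b β B (∑ i ∈ X, b i - ∑ i ∈ Y, b i) + Z b β B (∑ i ∈ X, b i - ∑ i ∈ Y, b i - b l) +
          (Z b β B (∑ i ∈ X, b i - ∑ i ∈ Y, b i + b l) +
            Z b β B (∑ i ∈ X, b i - ∑ i ∈ Y, b i + b l - b l))) := by
      unfold MM
      rw [Finset.sum_powerset_insert hl, ← Finset.sum_add_distrib]
      refine Finset.sum_congr rfl fun X hX => ?_
      have hlX : l ∉ X := fun h => hl (Finset.mem_powerset.1 hX h)
      rw [Finset.sum_powerset_insert hl, Finset.sum_powerset_insert hl, ← Finset.sum_add_distrib,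
        ← Finset.sum_add_distrib, ← Finset.sum_add_distrib]
      refine Finset.sum_congr rfl fun Y hY => ?_
      have hlY : l ∉ Y := fun h => hl (Finset.mem_powerset.1 hY h)
      rw [Finset.sum_insert hlX, Finset.sum_insert hlY]
      congr 1
      · congr 2; abel
      · congr 2 <;> abel
    rw [Finset.card_insert_of_notMem hl, hMM]
    calc (2 * (1 + t)) ^ (L.card + 1) * Z b β B 0
        = 2 * (1 + t) * ((2 * (1 + t)) ^ L.card * Z b β B 0) := by ring
      _ ≤ 2 * (1 + t) * MM b β B L := by gcongr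
      _ = ∑ X ∈ L.powerset, ∑ Y ∈ L.powerset,
          2 * (1 + t) * Z b β B (∑ i ∈ X, b i - ∑ i ∈ Y, b i) := by
          unfold MM
          rw [Finset.mul_sum]
          exact Finset.sum_congr rfl fun X _ => Finset.mul_sum _ _ _
      _ ≤ _ := Finset.sum_le_sum fun X _ => Finset.sum_le_sum fun Y _ => hkey _

open Classical in
theorem MM_upper (b : ι → Γ) (β : ℝ) (B L D : Finset ι) (hDis : Dis b D) :
    MM b β B L ≤ (2 : ℝ≥0∞) ^ (2 * (L \ D).card + D.card) * ∑' c : ι → ℤ, E β B (cst c) := by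
  have hcount : ∀ y : Γ, (((L.powerset ×ˢ L.powerset).filter
      (fun p => y = ∑ i ∈ p.1, b i - ∑ i ∈ p.2, b i)).card : ℝ≥0∞) ≤
        (2 : ℝ≥0∞) ^ (2 * (L \ D).card + D.card) := by
    intro y
    have hc : ((L.powerset ×ˢ L.powerset).filter
        (fun p => y = ∑ i ∈ p.1, b i - ∑ i ∈ p.2, b i)).card ≤
          ((L \ D).powerset ×ˢ (L \ D).powerset ×ˢ D.powerset).card := by
      apply Finset.card_le_card_of_injOn (fun p => (p.1 \ D, p.2 \ D, p.1 ∩ D))
      · rintro ⟨X, Y⟩ hp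
        simp only [Finset.coe_filter, Finset.mem_product, Finset.mem_powerset,
          Set.mem_ofPred_eq] at hp
        simp only [Finset.coe_product, Set.mem_prod, Finset.mem_coe, Finset.mem_powerset]
        exact ⟨Finset.sdiff_subset_sdiff hp.1.1 (Finset.Subset.refl _),
          Finset.sdiff_subset_sdiff hp.1.2 (Finset.Subset.refl _), Finset.inter_subset_right⟩
      · rintro ⟨X, Y⟩ hp ⟨X', Y'⟩ hp' heq
        simp only [Finset.coe_filter, Finset.mem_product, Finset.mem_powerset,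
          Set.mem_ofPred_eq] at hp hp'
        simp only [Prod.mk.injEq] at heq
        obtain ⟨h1, h2, h3⟩ := heq
        have hX : X = X' := by
          rw [← Finset.sdiff_union_inter X D, h1, h3, Finset.sdiff_union_inter]
        subst hX
        have hsum : ∑ i ∈ Y, b i = ∑ i ∈ Y', b i := by
          have := hp.2.symm.trans hp'.2
          exact sub_right_injective this
        have hsumD : ∑ i ∈ Y ∩ D, b i = ∑ i ∈ Y' ∩ D, b i := by
          have e1 := Finset.sum_inter_add_sum_sdiff Y D b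
          have e2 := Finset.sum_inter_add_sum_sdiff Y' D b
          rw [h2, hsum, ← e2] at e1
          exact add_right_cancel e1
        have hYD := hDis _ _ Finset.inter_subset_right Finset.inter_subset_right hsumD
        have hY : Y = Y' := by
          rw [← Finset.sdiff_union_inter Y D, h2, hYD, Finset.sdiff_union_inter]
        rw [hY]
    rw [Finset.card_product, Finset.card_product, Finset.card_powerset, Finset.card_powerset] at hc
    calc _ ≤ ((2 ^ (L \ D).card * (2 ^ (L \ D).card * 2 ^ D.card) : ℕ) : ℝ≥0∞) := by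
            exact_mod_cast hc
      _ = _ := by
            push_cast
            ring
  unfold MM Z
  calc ∑ X ∈ L.powerset, ∑ Y ∈ L.powerset, ∑' c : ι → ℤ,
        (if phi b c = ∑ i ∈ X, b i - ∑ i ∈ Y, b i then E β B (cst c) else 0)
      = ∑' c : ι → ℤ, ∑ p ∈ L.powerset ×ˢ L.powerset,
        (if phi b c = ∑ i ∈ p.1, b i - ∑ i ∈ p.2, b i then E β B (cst c) else 0) := by
        rw [← Finset.sum_product', Summable.tsum_finsetSum (fun _ _ => ENNReal.summable)]
    _ = ∑' c : ι → ℤ, (((L.powerset ×ˢ L.powerset).filter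
          (fun p => phi b c = ∑ i ∈ p.1, b i - ∑ i ∈ p.2, b i)).card : ℝ≥0∞) *
            E β B (cst c) := by
        refine tsum_congr fun c => ?_
        rw [← Finset.sum_filter, Finset.sum_const, nsmul_eq_mul]
    _ ≤ ∑' c : ι → ℤ, (2 : ℝ≥0∞) ^ (2 * (L \ D).card + D.card) * E β B (cst c) :=
        ENNReal.tsum_le_tsum fun c => mul_le_mul_left (hcount _) _
    _ = _ := ENNReal.tsum_mul_left

/-- Row 4c. -/
theorem closure_bound (b : ι → Γ) {β c : ℝ} (hβ : 0 < β) (hc : 0 < c) (hc1 : c ≤ 1)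
    (L B D : Finset ι) (hD : D ⊆ L) (hDis : Dis b D) (hcard : c * (L.card : ℝ) ≤ D.card)
    (hL : ∀ l ∈ L, ENNReal.ofReal (1 - c / 2) * Z b β B 0 ≤ Z b β B (b l)) :
    (L.card : ℝ) ≤ 3 / c * Real.log (1 + 2 / β) * B.card := by
  have h1 := MM_lower b hβ B (ENNReal.ofReal (1 - c / 2)) L hL
  have h2 := MM_upper b β B L D hDis
  have hΘ : 1 < 1 + 2 / β := by
    have : 0 < 2 / β := by positivity
    linarith
  have h3 : ENNReal.ofReal ((2 * (1 + (1 - c / 2))) ^ L.card) ≤
      ENNReal.ofReal (2 ^ (2 * (L \ D).card + D.card) * (1 + 2 / β) ^ B.card) := by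
    calc ENNReal.ofReal ((2 * (1 + (1 - c / 2))) ^ L.card)
        = (2 * (1 + ENNReal.ofReal (1 - c / 2))) ^ L.card := by
          rw [ENNReal.ofReal_pow (by nlinarith), ENNReal.ofReal_mul (by norm_num),
            ENNReal.ofReal_add (by norm_num) (by linarith)]
          simp
      _ ≤ (2 * (1 + ENNReal.ofReal (1 - c / 2))) ^ L.card * Z b β B 0 :=
          le_mul_of_one_le_right' (Z_zero_ge b β B)
      _ ≤ _ := h1
      _ ≤ _ := h2
      _ ≤ (2 : ℝ≥0∞) ^ (2 * (L \ D).card + D.card) * ENNReal.ofReal ((1 + 2 / β) ^ B.card) :=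
          mul_le_mul_right (E_mass hβ B) _
      _ = _ := by
          rw [ENNReal.ofReal_mul (pow_nonneg (by norm_num) _),
            ENNReal.ofReal_pow (show (0 : ℝ) ≤ 2 by norm_num)]
          simp
  have h4 : (2 * (1 + (1 - c / 2))) ^ L.card ≤
      2 ^ (2 * (L \ D).card + D.card) * (1 + 2 / β) ^ B.card := by
    rwa [ENNReal.ofReal_le_ofReal_iff (mul_nonneg (by positivity) (pow_nonneg (by linarith) _))] at h3
  have hcard2 : (L \ D).card = L.card - D.card := Finset.card_sdiff_of_subset hD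
  have hDL : D.card ≤ L.card := Finset.card_le_card hD
  have hlog := Real.log_le_log (by apply pow_pos; nlinarith) h4
  rw [Real.log_pow, Real.log_mul (pow_ne_zero _ (by norm_num))
    (pow_ne_zero _ (by linarith : (1 + 2 / β) ≠ 0)), Real.log_pow, Real.log_pow] at hlog
  have hcast : ((2 * (L \ D).card + D.card : ℕ) : ℝ) = 2 * (L.card : ℝ) - D.card := by
    rw [hcard2]
    push_cast [Nat.cast_sub hDL]
    ring
  rw [hcast] at hlog
  have h5 : Real.log (2 * (1 + (1 - c / 2))) = 2 * Real.log 2 + Real.log (1 - c / 4) := by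
    have : 2 * (1 + (1 - c / 2)) = 2 * 2 * (1 - c / 4) := by ring
    rw [this, Real.log_mul (by norm_num) (by linarith), Real.log_mul (by norm_num) (by norm_num)]
    ring
  have h6 : -(c / 3) ≤ Real.log (1 - c / 4) := by
    have h7 := Real.one_sub_inv_le_log_of_pos (show 0 < 1 - c / 4 by linarith)
    have h8 : (1 - c / 4)⁻¹ ≤ 1 + c / 3 := by
      rw [inv_le_iff_one_le_mul₀ (by linarith)]
      nlinarith
    linarith
  have hlog2 := Real.log_two_gt_d9
  have hlogΘ : 0 ≤ Real.log (1 + 2 / β) := Real.log_nonneg hΘ.le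
  rw [h5] at hlog
  have hLnn : (0 : ℝ) ≤ L.card := Nat.cast_nonneg _
  have hBnn : (0 : ℝ) ≤ B.card := Nat.cast_nonneg _
  have h9 : (D.card : ℝ) * Real.log 2 ≤ B.card * Real.log (1 + 2 / β) + L.card * (c / 3) := by
    nlinarith [mul_le_mul_of_nonneg_left h6 hLnn]
  have h10 : c * (L.card : ℝ) * Real.log 2 ≤
      B.card * Real.log (1 + 2 / β) + L.card * (c / 3) :=
    (mul_le_mul_of_nonneg_right hcard (by linarith)).trans h9
  have h11 : c * (L.card : ℝ) * (1 / 3) ≤ B.card * Real.log (1 + 2 / β) := by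
    nlinarith [mul_nonneg hc.le hLnn]
  have h12 : (L.card : ℝ) = 3 / c * (c * (L.card : ℝ) * (1 / 3)) := by
    field_simp
  rw [h12]
  calc 3 / c * (c * (L.card : ℝ) * (1 / 3)) ≤ 3 / c * (B.card * Real.log (1 + 2 / β)) := by
        gcongr
    _ = _ := by ring

end Pool.Agent.LL
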