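import Pool.Agent.LL.Min

/-! Long-range Lefschetz: the height of the minimal annihilator. -/

set_option autoImplicit false

namespace Pool.Agent.LL

open Polynomial Finset
open Pool.Agent.Helper28.TL (lam lam_add lam_C_mul lam_sum lam_mul exists_primitive pigeon)

lemma exists_min {L : ℕ} {θ : ℕ → ℤ} (hex : ∃ P : ℤ[X], P ≠ 0 ∧ Ann L θ P) :
    ∃ G : ℤ[X], G.IsPrimitive ∧ Ann L θ G ∧
      (∀ P : ℤ[X], P ≠ 0 → Ann L θ P → G.natDegree ≤ P.natDegree) ∧
      ∀ P : ℤ[X], Ann L θ P → P.natDegree + G.natDegree ≤ L + 1 → G ∣ P := by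
  classical
  have hinj : Function.Injective (Int.castRingHom ℚ) := Int.cast_injective
  obtain ⟨P0, hP0, hA0⟩ := hex
  have hexn : ∃ n, ∃ P : ℚ[X], P ≠ 0 ∧ AnnQ L θ P ∧ P.natDegree = n :=
    ⟨_, P0.map (Int.castRingHom ℚ), (Polynomial.map_ne_zero_iff hinj).2 hP0, ann_iff.1 hA0, rfl⟩
  obtain ⟨g, hg0, hgA, hgd⟩ := Nat.find_spec hexn
  have hmin : ∀ R : ℚ[X], R ≠ 0 → AnnQ L θ R → g.natDegree ≤ R.natDegree := by
    intro R hR hRA
    rw [hgd]
    exact Nat.find_min' hexn ⟨R, hR, hRA, rfl⟩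
  obtain ⟨G, hG, c, hc, hGg⟩ := exists_primitive hg0
  have hd : G.natDegree = g.natDegree := by
    rw [← natDegree_map_eq_of_injective hinj G, hGg, natDegree_C_mul hc]
  refine ⟨G, hG, ?_, ?_, ?_⟩
  · rw [ann_iff, hGg]
    exact annQ_C_mul hc hgA
  · intro P hP hPA
    rw [hd, ← natDegree_map_eq_of_injective hinj P]
    exact hmin _ ((Polynomial.map_ne_zero_iff hinj).2 hP) (ann_iff.1 hPA)
  · intro P hPA hdeg
    rw [IsPrimitive.Int.dvd_iff_map_cast_dvd_map_cast G P hG]
    have h1 : g ∣ P.map (Int.castRingHom ℚ) := by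
      refine annQ_dvd hg0 hgA hmin (ann_iff.1 hPA) ?_
      rw [natDegree_map_eq_of_injective hinj P, ← hd]
      exact hdeg
    obtain ⟨r, hr⟩ := h1
    refine ⟨C c⁻¹ * r, ?_⟩
    rw [hGg, hr]
    have : C c * g * (C c⁻¹ * r) = C (c * c⁻¹) * (g * r) := by rw [C_mul]; ring
    rw [this, mul_inv_cancel₀ hc, C_1, one_mul]

/-- the polynomial with the given coefficients -/
noncomputable def pol {n : ℕ} (c : Fin n → ℤ) : ℤ[X] := ∑ i : Fin n, C (c i) * X ^ (i : ℕ)

lemma pol_coeff {n : ℕ} (c : Fin n → ℤ) (k : ℕ) :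
    (pol c).coeff k = if h : k < n then c ⟨k, h⟩ else 0 := by
  unfold pol
  rw [finsetSum_coeff]
  by_cases h : k < n
  · rw [dif_pos h, Finset.sum_eq_single (⟨k, h⟩ : Fin n)]
    · rw [coeff_C_mul, coeff_X_pow, if_pos rfl, mul_one]
    · intro j _ hj
      rw [coeff_C_mul, coeff_X_pow, if_neg, mul_zero]
      intro h'
      exact hj (Fin.ext h'.symm)
    · intro h'; exact absurd (Finset.mem_univ _) h'
  · rw [dif_neg h]
    refine Finset.sum_eq_zero fun j _ => ?_
    rw [coeff_C_mul, coeff_X_pow, if_neg, mul_zero]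
    intro h'
    exact h (h' ▸ j.2)

lemma pol_sub {n : ℕ} (c c' : Fin n → ℤ) : pol (fun i => c i - c' i) = pol c - pol c' := by
  ext k
  rw [coeff_sub, pol_coeff, pol_coeff, pol_coeff]
  split_ifs <;> simp

lemma pol_natDegree {n : ℕ} (c : Fin (n + 1) → ℤ) : (pol c).natDegree ≤ n := by
  rw [natDegree_le_iff_coeff_eq_zero]
  intro k hk
  rw [pol_coeff, dif_neg (by omega)]

lemma pol_inj {n : ℕ} {c c' : Fin n → ℤ} (h : pol c = pol c') : c = c' := by
  funext i
  have h1 := pol_coeff c i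
  have h2 := pol_coeff c' i
  rw [h] at h1
  rw [h1, dif_pos i.2, dif_pos i.2] at h2
  exact h2

/-- the Mahler measure of an integer polynomial -/
noncomputable def mah (G : ℤ[X]) : ℝ := (G.map (Int.castRingHom ℂ)).mahlerMeasure

lemma mah_mul (F G : ℤ[X]) : mah (F * G) = mah F * mah G := by
  unfold mah
  rw [Polynomial.map_mul, mahlerMeasure_mul]

lemma one_le_mah {G : ℤ[X]} (hG : G ≠ 0) : 1 ≤ mah G := one_le_mahlerMeasure_of_ne_zero hG

lemma mah_le {G : ℤ[X]} {m q : ℕ} (hm : G.natDegree < m) (hq : ∀ n, |G.coeff n| ≤ (q : ℤ)) :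
    mah G ≤ m * q := by
  refine (mahlerMeasure_le_sum_norm_coeff _).trans ?_
  rw [Polynomial.sum_over_range' (n := m) _ (fun n => norm_zero)
    (lt_of_le_of_lt natDegree_map_le hm)]
  calc _ ≤ ∑ _i ∈ range m, (q : ℝ) := by
        refine Finset.sum_le_sum fun i _ => ?_
        rw [coeff_map, eq_intCast, Complex.norm_intCast]
        exact_mod_cast hq i
    _ = m * q := by rw [Finset.sum_const, Finset.card_range, nsmul_eq_mul]

lemma coeff_le_mah {G : ℤ[X]} {K : ℕ} (hG : G.natDegree ≤ K) (n : ℕ) :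
    |((G.coeff n : ℤ) : ℝ)| ≤ 2 ^ K * mah G := by
  have h1 := norm_coeff_le_choose_mul_mahlerMeasure n (G.map (Int.castRingHom ℂ))
  rw [coeff_map, eq_intCast, Complex.norm_intCast] at h1
  refine h1.trans (mul_le_mul_of_nonneg_right ?_ (mahlerMeasure_nonneg _))
  have h5 : (G.map (Int.castRingHom ℂ)).natDegree.choose n ≤ 2 ^ K :=
    (Nat.choose_le_two_pow _ _).trans
      (Nat.pow_le_pow_right (by norm_num) (natDegree_map_le.trans hG))
  exact_mod_cast h5

/-- the number of the short polynomials with the same value at `τ` -/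
lemma card_fibre {𝓡 : Type} [CommRing 𝓡] {τ : 𝓡} {e q : ℕ} {G : ℤ[X]} (hG0 : G ≠ 0)
    (hGe : G.natDegree ≤ e)
    (hdvd : ∀ P : ℤ[X], P.natDegree ≤ e → (∀ n, |P.coeff n| ≤ (q : ℤ)) → aeval τ P = 0 → G ∣ P)
    (S : Finset (Fin (e + 1) → Fin (q + 1)))
    (hS : ∀ c ∈ S, ∀ c' ∈ S, aeval τ (pol fun i => ((c i : ℕ) : ℤ)) =
      aeval τ (pol fun i => ((c' i : ℕ) : ℤ))) :
    S.card ≤ (2 * ⌊2 ^ e * ((e + 1) * q) / mah G⌋₊ + 1) ^ (e + 1 - G.natDegree) := by
  classical
  obtain ⟨K, hK⟩ : ∃ K, K = ⌊2 ^ e * ((e + 1) * q) / mah G⌋₊ := ⟨_, rfl⟩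
  rw [← hK]
  by_cases hne : S.Nonempty
  swap
  · rw [Finset.not_nonempty_iff_eq_empty] at hne
    rw [hne, Finset.card_empty]
    exact Nat.zero_le _
  obtain ⟨c0, hc0⟩ := hne
  have hF : ∀ c : Fin (e + 1) → Fin (q + 1), ∃ F : ℤ[X], c ∈ S →
      pol (fun i => ((c i : ℕ) : ℤ) - ((c0 i : ℕ) : ℤ)) = G * F := by
    intro c
    by_cases hc : c ∈ S
    · have h1 : G ∣ pol (fun i => ((c i : ℕ) : ℤ) - ((c0 i : ℕ) : ℤ)) := by
        apply hdvd
        · exact pol_natDegree _
        · intro n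
          rw [pol_coeff]
          split_ifs with hn
          · have h1 := (c ⟨n, hn⟩).2
            have h2 := (c0 ⟨n, hn⟩).2
            rw [abs_le]
            constructor <;> omega
          · simp
        · rw [pol_sub, map_sub, hS c hc c0 hc0, sub_self]
      obtain ⟨F, hF⟩ := h1
      exact ⟨F, fun _ => hF⟩
    · exact ⟨0, fun h => absurd h hc⟩
  choose F hF using hF
  have hmah : 0 < mah G := lt_of_lt_of_le one_pos (one_le_mah hG0)
  have hFdeg : ∀ c ∈ S, (F c).natDegree ≤ e - G.natDegree := by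
    intro c hc
    by_cases h0 : F c = 0
    · rw [h0, natDegree_zero]; exact Nat.zero_le _
    · have h1 := hF c hc
      have h2 := pol_natDegree (fun i => ((c i : ℕ) : ℤ) - ((c0 i : ℕ) : ℤ))
      rw [h1, natDegree_mul hG0 h0] at h2
      omega
  have hFco : ∀ c ∈ S, ∀ n, |(F c).coeff n| ≤ (K : ℤ) := by
    intro c hc n
    have h1 := hF c hc
    have h2 : mah (pol fun i => ((c i : ℕ) : ℤ) - ((c0 i : ℕ) : ℤ)) ≤ ((e + 1 : ℕ) : ℝ) * q := by
      apply mah_le
      · exact Nat.lt_succ_of_le (pol_natDegree _)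
      · intro n
        rw [pol_coeff]
        split_ifs with hn
        · have h1 := (c ⟨n, hn⟩).2
          have h2 := (c0 ⟨n, hn⟩).2
          rw [abs_le]
          constructor <;> omega
        · simp
    rw [h1, mah_mul] at h2
    have h3 : mah (F c) ≤ ((e + 1 : ℕ) : ℝ) * q / mah G := by
      rw [le_div_iff₀ hmah, mul_comm]; exact h2
    have h4 : |(((F c).coeff n : ℤ) : ℝ)| ≤ 2 ^ e * ((e + 1) * q) / mah G := by
      have h5 := coeff_le_mah (K := e) ((hFdeg c hc).trans (Nat.sub_le _ _)) n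
      refine h5.trans ?_
      have h6 : (0 : ℝ) ≤ 2 ^ e := by positivity
      have h7 := mul_le_mul_of_nonneg_left h3 h6
      refine h7.trans (le_of_eq ?_)
      push_cast
      ring
    have h5 : (|(F c).coeff n|.toNat : ℝ) ≤ 2 ^ e * ((e + 1) * q) / mah G := by
      have : ((|(F c).coeff n|.toNat : ℕ) : ℝ) = |(((F c).coeff n : ℤ) : ℝ)| := by
        have h6 : ((|(F c).coeff n|.toNat : ℕ) : ℤ) = |(F c).coeff n| :=
          Int.toNat_of_nonneg (abs_nonneg _)
        have h7 : (((|(F c).coeff n|.toNat : ℕ) : ℤ) : ℝ) = ((|(F c).coeff n| : ℤ) : ℝ) := by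
          rw [h6]
        push_cast at h7
        exact h7
      rw [this]; exact h4
    have h6 := Nat.le_floor h5
    rw [← hK] at h6
    have h7 : ((|(F c).coeff n|.toNat : ℕ) : ℤ) = |(F c).coeff n| :=
      Int.toNat_of_nonneg (abs_nonneg _)
    rw [← h7]
    exact_mod_cast h6
  have hcard : S.card ≤ (Fintype.piFinset fun _ : Fin (e + 1 - G.natDegree) =>
      Finset.Icc (-(K : ℤ)) (K : ℤ)).card := by
    apply Finset.card_le_card_of_injOn
      (fun c => (fun i : Fin (e + 1 - G.natDegree) => (F c).coeff (i : ℕ)))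
    · intro c hc
      rw [Finset.mem_coe, Fintype.mem_piFinset]
      intro i
      rw [Finset.mem_Icc]
      exact abs_le.1 (hFco c hc i)
    · intro c hc c' hc' hcc
      have h1 : F c = F c' := by
        ext n
        by_cases hn : n < e + 1 - G.natDegree
        · exact congrFun hcc ⟨n, hn⟩
        · have := hFdeg c hc
          have := hFdeg c' hc'
          rw [coeff_eq_zero_of_natDegree_lt (by omega), coeff_eq_zero_of_natDegree_lt (by omega)]
      have h2 := (hF c hc).trans ((congrArg (fun z => G * z) h1).trans (hF c' hc').symm)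
      have h3 := pol_inj h2
      funext i
      have h4 := congrFun h3 i
      apply Fin.ext
      have h5 : ((c i : ℕ) : ℤ) = ((c' i : ℕ) : ℤ) := by linarith
      exact_mod_cast h5
  rw [Fintype.card_piFinset, Finset.prod_const, Finset.card_univ, Fintype.card_fin,
    Int.card_Icc] at hcard
  refine hcard.trans (le_of_eq ?_)
  congr 1
  omega

end Pool.Agent.LL
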