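import Pool.Agent.LL.Closure

/-!
Colouring a set without span cores.
-/

set_option autoImplicit false
set_option linter.unusedSectionVars false

namespace Pool.Agent.LL

open Finset
open scoped ENNReal

variable {ι : Type*} [Fintype ι] [DecidableEq ι] {Γ : Type*} [AddCommGroup Γ]

theorem T_zero_ge (b : ι → Γ) (w : ℝ≥0∞) (B : Finset ι) : 1 ≤ T b w B 0 := by
  unfold T
  refine le_trans ?_ (ENNReal.le_tsum (0 : ι → ℤ))
  rw [if_pos (map_zero _)]
  simp [tw]

/-- The unit vector. -/
def ev (v : ι) : ι → ℤ := Pi.single v 1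

theorem phi_ev (b : ι → Γ) (v : ι) : phi b (ev v) = b v := by
  rw [phi_apply, Finset.sum_eq_single v]
  · simp [ev]
  · intro i _ hi
    simp [ev, hi]
  · intro h
    exact absurd (Finset.mem_univ v) h

theorem tw_insert_le (w : ℝ≥0∞) {C : Finset ι} {v : ι} (hv : v ∉ C) (c : ι → ℤ) :
    tw w (insert v C) c ≤ tw w C c + w * tw w C (c - ev v) + w * tw w C (c + ev v) := by
  have hfac : ∀ (d : ι → ℤ), (∀ i, i ≠ v → d i = c i) →
      ∏ i ∈ univ.erase v, (if c i = 0 then (1 : ℝ≥0∞) else
        if i ∈ insert v C ∧ (c i = 1 ∨ c i = -1) then w else 0) =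
      ∏ i ∈ univ.erase v, (if d i = 0 then (1 : ℝ≥0∞) else
        if i ∈ C ∧ (d i = 1 ∨ d i = -1) then w else 0) := by
    intro d hd
    refine Finset.prod_congr rfl fun i hi => ?_
    have hi' : i ≠ v := Finset.ne_of_mem_erase hi
    rw [hd i hi']
    simp [Finset.mem_insert, hi']
  have hsplit : ∀ (C' : Finset ι) (d : ι → ℤ), tw w C' d =
      (if d v = 0 then (1 : ℝ≥0∞) else if v ∈ C' ∧ (d v = 1 ∨ d v = -1) then w else 0) *
      ∏ i ∈ univ.erase v, (if d i = 0 then (1 : ℝ≥0∞) else
        if i ∈ C' ∧ (d i = 1 ∨ d i = -1) then w else 0) := by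
    intro C' d
    unfold tw
    rw [Finset.mul_prod_erase _ (fun i => (if d i = 0 then (1 : ℝ≥0∞) else
        if i ∈ C' ∧ (d i = 1 ∨ d i = -1) then w else 0)) (Finset.mem_univ v)]
  by_cases h0 : c v = 0
  · have : tw w (insert v C) c = tw w C c := by
      rw [hsplit, hsplit, if_pos h0, if_pos h0, hfac c (fun _ _ => rfl)]
    rw [this, add_assoc]
    exact le_self_add
  · by_cases h1 : c v = 1
    · have : tw w (insert v C) c = w * tw w C (c - ev v) := by
        have e : (c - ev v) v = 0 := by simp [ev, h1]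
        rw [hsplit, hsplit, if_neg h0, if_pos ⟨Finset.mem_insert_self _ _, Or.inl h1⟩, if_pos e,
          one_mul, hfac (c - ev v) (fun i hi => by simp [ev, hi])]
      rw [this, add_assoc, add_comm (w * tw w C (c - ev v)), ← add_assoc]
      exact le_add_self
    · by_cases h2 : c v = -1
      · have : tw w (insert v C) c = w * tw w C (c + ev v) := by
          have e : (c + ev v) v = 0 := by simp [ev, h2]
          rw [hsplit, hsplit, if_neg h0, if_pos ⟨Finset.mem_insert_self _ _, Or.inr h2⟩, if_pos e,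
            one_mul, hfac (c + ev v) (fun i hi => by simp [ev, hi])]
        rw [this]
        exact le_add_self
      · rw [hsplit, if_neg h0, if_neg (by
          rintro ⟨_, h | h⟩
          · exact h1 h
          · exact h2 h), zero_mul]
        exact zero_le

open Classical in
theorem T_insert_le (b : ι → Γ) (w : ℝ≥0∞) {C : Finset ι} {v : ι} (hv : v ∉ C) (y : Γ) :
    T b w (insert v C) y ≤ T b w C y + w * T b w C (y - b v) + w * T b w C (y + b v) := by
  have s1 : T b w C (y - b v) =
      ∑' c : ι → ℤ, if phi b c = y then tw w C (c - ev v) else 0 := by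
    unfold T
    rw [← (Equiv.subRight (ev v)).tsum_eq (fun c => if phi b c = y - b v then tw w C c else 0)]
    refine tsum_congr fun c => ?_
    simp only [Equiv.subRight_apply, map_sub, phi_ev, sub_left_inj]
  have s2 : T b w C (y + b v) =
      ∑' c : ι → ℤ, if phi b c = y then tw w C (c + ev v) else 0 := by
    unfold T
    rw [← (Equiv.addRight (ev v)).tsum_eq (fun c => if phi b c = y + b v then tw w C c else 0)]
    refine tsum_congr fun c => ?_
    simp only [Equiv.coe_addRight, map_add, phi_ev, add_left_inj]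
  rw [s1, s2, ← ENNReal.tsum_mul_left, ← ENNReal.tsum_mul_left]
  unfold T
  rw [← ENNReal.tsum_add, ← ENNReal.tsum_add]
  refine ENNReal.tsum_le_tsum fun c => ?_
  by_cases hc : phi b c = y
  · simp only [hc, if_true]
    exact tw_insert_le w hv c
  · simp only [hc, if_false]
    simp

theorem tw_neg (w : ℝ≥0∞) (C : Finset ι) (c : ι → ℤ) : tw w C (-c) = tw w C c := by
  unfold tw
  refine Finset.prod_congr rfl fun i _ => ?_
  have e1 : ((-c) i = 0) ↔ (c i = 0) := by simp
  have e2 : ((-c) i = 1 ∨ (-c) i = -1) ↔ (c i = 1 ∨ c i = -1) := by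
    simp only [Pi.neg_apply]; omega
  simp only [e1, e2]

open Classical in
theorem T_neg (b : ι → Γ) (w : ℝ≥0∞) (C : Finset ι) (y : Γ) : T b w C (-y) = T b w C y := by
  unfold T
  rw [← (Equiv.neg (ι → ℤ)).tsum_eq (fun c => if phi b c = -y then tw w C c else 0)]
  refine tsum_congr fun c => ?_
  simp only [Equiv.neg_apply, map_neg, neg_inj, tw_neg]

theorem T_core_bound (b : ι → Γ) (w d : ℝ≥0∞) (C : Finset ι)
    (hcore : ∀ C' ⊆ C, C'.Nonempty → ∃ v ∈ C', T b w (C'.erase v) (b v) ≤
      d * T b w (C'.erase v) 0) :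
    T b w C 0 ≤ (1 + 2 * w * d) ^ C.card := by
  induction C using Finset.strongInduction with
  | H C ih =>
    rcases C.eq_empty_or_nonempty with rfl | hne
    · rw [Finset.card_empty, pow_zero]
      unfold T
      rw [tsum_eq_single (0 : ι → ℤ)]
      · rw [if_pos (map_zero _)]
        simp [tw]
      · intro c hc
        have : ∃ i, c i ≠ 0 := by
          by_contra h
          push Not at h
          exact hc (funext h)
        obtain ⟨i, hi⟩ := this
        have : tw w ∅ c = 0 := by
          unfold tw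
          apply Finset.prod_eq_zero (Finset.mem_univ i)
          rw [if_neg hi, if_neg (by simp)]
        rw [this]
        simp
    · obtain ⟨v, hvC, hv⟩ := hcore C (Finset.Subset.refl _) hne
      have h1 := ih (C.erase v) (Finset.erase_ssubset hvC)
        (fun C' hC' hne' => hcore C' (hC'.trans (Finset.erase_subset _ _)) hne')
      have h2 := T_insert_le b w (Finset.notMem_erase v C) 0
      rw [Finset.insert_erase hvC, zero_sub, zero_add, T_neg] at h2
      have hcard : C.card = (C.erase v).card + 1 := (Finset.card_erase_add_one hvC).symm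
      calc T b w C 0 ≤ T b w (C.erase v) 0 + w * T b w (C.erase v) (b v) +
            w * T b w (C.erase v) (b v) := h2
        _ ≤ T b w (C.erase v) 0 + w * (d * T b w (C.erase v) 0) +
            w * (d * T b w (C.erase v) 0) := by gcongr
        _ = (1 + 2 * w * d) * T b w (C.erase v) 0 := by ring
        _ ≤ (1 + 2 * w * d) * (1 + 2 * w * d) ^ (C.erase v).card := by gcongr
        _ = _ := by rw [hcard]; ring

/-- The support. -/
def sp (c : ι → ℤ) : Finset ι := univ.filter (fun i => c i ≠ 0)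

theorem tw_quarter {C : Finset ι} {c : ι → ℤ} (h1 : ∀ i, c i = 0 ∨ c i = 1 ∨ c i = -1)
    (h2 : sp c ⊆ C) : tw (1 / 4) C c = (1 / 4) ^ (sp c).card := by
  unfold tw
  have : ∀ i : ι, (if c i = 0 then (1 : ℝ≥0∞) else if i ∈ C ∧ (c i = 1 ∨ c i = -1) then 1 / 4
      else 0) = if i ∈ sp c then 1 / 4 else 1 := by
    intro i
    by_cases hi : c i = 0
    · rw [if_pos hi, if_neg (by simp [sp, hi])]
    · have hmem : i ∈ sp c := by simp [sp, hi]
      rw [if_neg hi, if_pos ⟨h2 hmem, (h1 i).resolve_left hi⟩, if_pos hmem]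
  simp_rw [this]
  rw [Finset.prod_ite_mem, Finset.univ_inter, Finset.prod_const]

/-- The number of colourings which are constant on a nonempty set. -/
theorem card_mono (S : Finset ι) (hS : S.Nonempty) :
    ((univ : Finset (ι → Fin 4)).filter
      (fun f => ∀ x ∈ S, ∀ y ∈ S, f x = f y)).card * 4 ^ S.card ≤ 4 * 4 ^ Fintype.card ι := by
  classical
  obtain ⟨s, hs⟩ := hS
  have h1 : ((univ : Finset (ι → Fin 4)).filter
      (fun f => ∀ x ∈ S, ∀ y ∈ S, f x = f y)).card ≤
        Fintype.card (Fin 4 × ({x // x ∈ Sᶜ} → Fin 4)) := by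
    rw [← Finset.card_univ]
    apply Finset.card_le_card_of_injOn (fun f => (f s, fun x => f x.1)) (fun _ _ => by simp)
    intro f hf g hg hfg
    simp only [Finset.coe_filter, Finset.mem_univ, true_and, Set.mem_ofPred_eq] at hf hg
    simp only [Prod.mk.injEq] at hfg
    funext x
    by_cases hx : x ∈ S
    · rw [hf x hx s hs, hg x hx s hs, hfg.1]
    · exact congrFun hfg.2 ⟨x, by simpa using hx⟩
  have h2 : Fintype.card (Fin 4 × ({x // x ∈ Sᶜ} → Fin 4)) = 4 * 4 ^ (Sᶜ).card := by
    simp [Finset.card_compl]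
  rw [h2] at h1
  calc _ ≤ (4 * 4 ^ (Sᶜ).card) * 4 ^ S.card := Nat.mul_le_mul_right _ h1
    _ = 4 * 4 ^ Fintype.card ι := by
      rw [mul_assoc, ← pow_add, Finset.card_compl_add_card]

open Classical in
theorem exists_four (b : ι → Γ) (C : Finset ι) (hT : T b (1 / 4) C 0 < 5 / 4) :
    ∃ f : ι → Fin 4, ∀ k, Dis b (C.filter (fun i => f i = k)) := by
  classical
  -- the nonzero ternary relations
  set Rl : Finset (ι → ℤ) := (Fintype.piFinset (fun _ : ι => ({0, 1, -1} : Finset ℤ))).filter
    (fun c => phi b c = 0 ∧ sp c ⊆ C ∧ c ≠ 0) with hRl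
  have hmem : ∀ c, c ∈ Rl ↔ (∀ i, c i = 0 ∨ c i = 1 ∨ c i = -1) ∧ phi b c = 0 ∧ sp c ⊆ C ∧ c ≠ 0 := by
    intro c
    rw [hRl, Finset.mem_filter, Fintype.mem_piFinset]
    simp
  have hsum : ∑ c ∈ Rl, ((1 / 4 : ℝ≥0∞)) ^ (sp c).card < 1 / 4 := by
    have h0 : (0 : ι → ℤ) ∉ Rl := fun h => ((hmem 0).1 h).2.2.2 rfl
    have h1 : ∑ c ∈ insert 0 Rl, (if phi b c = 0 then tw (1 / 4) C c else 0) ≤
        T b (1 / 4) C 0 := ENNReal.sum_le_tsum _
    rw [Finset.sum_insert h0, if_pos (map_zero _)] at h1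
    have h2 : tw (1 / 4) C (0 : ι → ℤ) = 1 := by simp [tw]
    have h3 : ∑ c ∈ Rl, (if phi b c = 0 then tw (1 / 4) C c else 0) =
        ∑ c ∈ Rl, ((1 / 4 : ℝ≥0∞)) ^ (sp c).card := by
      refine Finset.sum_congr rfl fun c hc => ?_
      obtain ⟨ha, hb, hc1, _⟩ := (hmem c).1 hc
      rw [if_pos hb, tw_quarter ha hc1]
    rw [h2, h3] at h1
    have h4 : 1 + ∑ c ∈ Rl, ((1 / 4 : ℝ≥0∞)) ^ (sp c).card < 1 + 1 / 4 := by
      refine lt_of_le_of_lt h1 (lt_of_lt_of_eq hT ?_)
      have : (5 : ℝ≥0∞) = 4 + 1 := by norm_num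
      rw [this, ENNReal.add_div, ENNReal.div_self (by norm_num) (by norm_num)]
    exact (ENNReal.add_lt_add_iff_left (by norm_num)).1 h4
  have hex : ∃ f : ι → Fin 4, ∀ c ∈ Rl, ¬ (∀ x ∈ sp c, ∀ y ∈ sp c, f x = f y) := by
    by_contra hcon
    push Not at hcon
    have hcover : (univ : Finset (ι → Fin 4)) ⊆ Rl.biUnion (fun c => univ.filter
        (fun f => ∀ x ∈ sp c, ∀ y ∈ sp c, f x = f y)) := by
      intro f _
      obtain ⟨c, hc, hf⟩ := hcon f
      rw [Finset.mem_biUnion]
      exact ⟨c, hc, Finset.mem_filter.2 ⟨Finset.mem_univ _, hf⟩⟩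
    have hcard := (Finset.card_le_card hcover).trans Finset.card_biUnion_le
    have hle : (4 : ℝ≥0∞) ^ Fintype.card ι ≤
        ∑ c ∈ Rl, 4 * 4 ^ Fintype.card ι * (1 / 4 : ℝ≥0∞) ^ (sp c).card := by
      calc (4 : ℝ≥0∞) ^ Fintype.card ι = (((univ : Finset (ι → Fin 4)).card : ℕ) : ℝ≥0∞) := by
            rw [Finset.card_univ, Fintype.card_fun, Fintype.card_fin]; push_cast; rfl
        _ ≤ ((∑ c ∈ Rl, ((univ : Finset (ι → Fin 4)).filter
              (fun f => ∀ x ∈ sp c, ∀ y ∈ sp c, f x = f y)).card : ℕ) : ℝ≥0∞) := by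
            exact_mod_cast hcard
        _ = ∑ c ∈ Rl, ((((univ : Finset (ι → Fin 4)).filter
              (fun f => ∀ x ∈ sp c, ∀ y ∈ sp c, f x = f y)).card : ℕ) : ℝ≥0∞) := by
            push_cast; rfl
        _ ≤ _ := by
            refine Finset.sum_le_sum fun c hc => ?_
            have hcne : (sp c).Nonempty := by
              obtain ⟨_, _, _, hne⟩ := (hmem c).1 hc
              by_contra hemp
              rw [Finset.not_nonempty_iff_eq_empty] at hemp
              apply hne
              funext i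
              by_contra hi
              have : i ∈ sp c := by simp only [sp, Finset.mem_filter, Finset.mem_univ, true_and]; exact hi
              rw [hemp] at this
              exact absurd this (Finset.notMem_empty i)
            have hm := card_mono (sp c) hcne
            have hm' : ((((univ : Finset (ι → Fin 4)).filter
              (fun f => ∀ x ∈ sp c, ∀ y ∈ sp c, f x = f y)).card : ℕ) : ℝ≥0∞) *
                4 ^ (sp c).card ≤ 4 * 4 ^ Fintype.card ι := by exact_mod_cast hm
            have h4 : (4 : ℝ≥0∞) ^ (sp c).card * (1 / 4 : ℝ≥0∞) ^ (sp c).card = 1 := by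
              rw [← mul_pow, one_div, ENNReal.mul_inv_cancel (by norm_num) (by norm_num), one_pow]
            calc _ = _ * ((4 : ℝ≥0∞) ^ (sp c).card * (1 / 4 : ℝ≥0∞) ^ (sp c).card) := by
                  rw [h4, mul_one]
              _ = _ * (4 : ℝ≥0∞) ^ (sp c).card * (1 / 4 : ℝ≥0∞) ^ (sp c).card := by
                  rw [mul_assoc]
              _ ≤ _ := mul_le_mul_left hm' _
    rw [← Finset.mul_sum] at hle
    have h5 : 4 * (4 : ℝ≥0∞) ^ Fintype.card ι * ∑ c ∈ Rl, (1 / 4 : ℝ≥0∞) ^ (sp c).card <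
        4 * (4 : ℝ≥0∞) ^ Fintype.card ι * (1 / 4) := by
      apply (ENNReal.mul_lt_mul_iff_right _ _).2 hsum
      · positivity
      · exact ENNReal.mul_ne_top (by norm_num) (ENNReal.pow_ne_top (by norm_num))
    have h6 : 4 * (4 : ℝ≥0∞) ^ Fintype.card ι * (1 / 4) = 4 ^ Fintype.card ι := by
      rw [mul_comm (4 : ℝ≥0∞), mul_assoc, one_div, ENNReal.mul_inv_cancel (by norm_num)
        (by norm_num), mul_one]
    rw [h6] at h5
    exact absurd hle (not_le.2 h5)
  obtain ⟨f, hf⟩ := hex
  refine ⟨f, fun k X Y hX hY hXY => ?_⟩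
  by_contra hne
  set c : ι → ℤ := fun i => (if i ∈ X then 1 else 0) - (if i ∈ Y then 1 else 0) with hc
  have hspc : ∀ i ∈ sp c, i ∈ C.filter (fun i => f i = k) := by
    intro i hi
    simp only [sp, Finset.mem_filter, Finset.mem_univ, true_and] at hi
    by_cases h1 : i ∈ X
    · exact hX h1
    · by_cases h2 : i ∈ Y
      · exact hY h2
      · exact absurd (by simp [hc, h1, h2]) hi
  have hcR : c ∈ Rl := by
    rw [hmem]
    refine ⟨?_, ?_, ?_, ?_⟩
    · intro i
      by_cases h1 : i ∈ X <;> by_cases h2 : i ∈ Y <;> simp [hc, h1, h2]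
    · rw [phi_apply]
      have : ∀ i, c i • b i = (if i ∈ X then b i else 0) - (if i ∈ Y then b i else 0) := by
        intro i
        by_cases h1 : i ∈ X <;> by_cases h2 : i ∈ Y <;> simp [hc, h1, h2]
      simp_rw [this]
      rw [Finset.sum_sub_distrib, Finset.sum_ite_mem, Finset.sum_ite_mem, Finset.univ_inter,
        Finset.univ_inter, hXY, sub_self]
    · intro i hi
      exact (Finset.mem_filter.1 (hspc i hi)).1
    · intro h0
      apply hne
      ext i
      have := congrFun h0 i
      by_cases h1 : i ∈ X <;> by_cases h2 : i ∈ Y <;> simp [hc, h1, h2] at this ⊢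
  apply hf c hcR
  intro x hx y hy
  rw [(Finset.mem_filter.1 (hspc x hx)).2, (Finset.mem_filter.1 (hspc y hy)).2]

end Pool.Agent.LL
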