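import Pool.Agent.LL.Rsd

/-!
Comparison of the ternary gas with the Gaussian gas.
-/

set_option autoImplicit false
set_option linter.unusedSectionVars false

namespace Pool.Agent.LL

open Finset
open scoped ENNReal

theorem prod_tsum_fin {α : Type*} (n : ℕ) (f : Fin n → α → ℝ≥0∞) :
    ∏ i, ∑' j, f i j = ∑' J : Fin n → α, ∏ i, f i (J i) := by
  induction n with
  | zero =>
    rw [tsum_eq_single (Fin.elim0 : Fin 0 → α)]
    · simp
    · intro J hJ
      exact absurd (Subsingleton.elim _ _) hJ
  | succ n ih =>
    rw [Fin.prod_univ_succ, ih (fun i => f i.succ), ← ENNReal.tsum_mul_right,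
      ← (Fin.consEquiv (fun _ : Fin (n + 1) => α)).tsum_eq, ENNReal.tsum_prod']
    refine tsum_congr fun j => ?_
    rw [← ENNReal.tsum_mul_left]
    refine tsum_congr fun J => ?_
    rw [Fin.prod_univ_succ]
    simp [Fin.consEquiv]

theorem prod_tsum {ι α : Type*} [Fintype ι] (f : ι → α → ℝ≥0∞) :
    ∏ i, ∑' j, f i j = ∑' J : ι → α, ∏ i, f i (J i) := by
  classical
  let e := Fintype.equivFin ι
  rw [← Equiv.prod_comp e.symm, prod_tsum_fin,
    ← (Equiv.arrowCongr e (Equiv.refl α)).tsum_eq]
  refine tsum_congr fun J => ?_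
  rw [← Equiv.prod_comp e.symm]
  simp [Equiv.arrowCongr]

variable {ι : Type*} [Fintype ι] [DecidableEq ι] {Γ : Type*} [AddCommGroup Γ]

open Classical in
theorem coset_sum (b : ι → Γ) (W : (ι → ℤ) → ℝ≥0∞) (a : ι → ℤ) :
    (∑' c : ι → ℤ, if phi b c = phi b a then W c else 0) =
      ∑' l : (phi b).ker, W (a + (l : ι → ℤ)) := by
  have hinj : Function.Injective (fun l : (phi b).ker => a + (l : ι → ℤ)) := by
    intro l m hlm
    exact Subtype.ext (add_left_cancel hlm)
  rw [← hinj.tsum_eq (f := fun c : ι → ℤ => if phi b c = phi b a then W c else 0)]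
  · refine tsum_congr fun l => ?_
    have hl : phi b (l : ι → ℤ) = 0 := l.2
    rw [if_pos (by rw [map_add, hl, add_zero])]
  · intro c hc
    have hc' : phi b c = phi b a := by
      by_contra hne
      exact hc (if_neg hne)
    refine ⟨⟨c - a, ?_⟩, ?_⟩
    · rw [AddMonoidHom.mem_ker, map_sub, hc', sub_self]
    · simp

open Classical in
/-- The general comparison lemma. -/
theorem comp_gen (b : ι → Γ) (g r : ι → ℤ → ℝ≥0∞) (h : ι → ℤ → ℤ → ℝ≥0∞) (k : ι → ℝ≥0∞)
    (hgr : ∀ i x y, g i x * r i y = k i * ∑' j, h i j (x + y) * h i j (x - y))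
    (hsym : ∀ i j p, h i j (-p) = h i (-j) p) (v : Γ) :
    (∑' c : ι → ℤ, if phi b c = v then ∏ i, r i (c i) else 0) *
      (∑' c : ι → ℤ, if phi b c = 0 then ∏ i, g i (c i) else 0) ≤
    (∑' c : ι → ℤ, if phi b c = v then ∏ i, g i (c i) else 0) *
      (∑' c : ι → ℤ, if phi b c = 0 then ∏ i, r i (c i) else 0) := by
  by_cases hv : ∃ a : ι → ℤ, phi b a = v
  · obtain ⟨a, rfl⟩ := hv
    have h0 : (0 : Γ) = phi b 0 := (map_zero _).symm
    rw [h0, coset_sum, coset_sum, coset_sum, coset_sum]
    simp only [zero_add]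
    set P : (ι → ℤ) → (ι → ℤ) → ℝ≥0∞ := fun J p => ∏ i, h i (J i) (p i) with hP
    have hprod : ∀ x y : ι → ℤ, (∏ i, g i (x i)) * (∏ i, r i (y i)) =
        (∏ i, k i) * ∑' J : ι → ℤ, P J (x + y) * P J (x - y) := by
      intro x y
      rw [← Finset.prod_mul_distrib]
      have e1 : ∀ J : ι → ℤ, P J (x + y) * P J (x - y) =
          ∏ i, h i (J i) (x i + y i) * h i (J i) (x i - y i) := by
        intro J
        rw [hP]
        simp only [Pi.add_apply, Pi.sub_apply]
        rw [Finset.prod_mul_distrib]
      simp_rw [e1]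
      rw [← prod_tsum (fun i j => h i j (x i + y i) * h i j (x i - y i)),
        ← Finset.prod_mul_distrib]
      exact Finset.prod_congr rfl fun i _ => hgr i _ _
    have hPneg : ∀ J p, P J (-p) = P (-J) p := by
      intro J p
      simp only [hP, Pi.neg_apply, hsym]
    have L1 : (∑' l : (phi b).ker, ∏ i, r i ((a + (l : ι → ℤ)) i)) *
        (∑' m : (phi b).ker, ∏ i, g i ((m : ι → ℤ) i)) =
        (∏ i, k i) * ∑' J : ι → ℤ, ∑' (l : (phi b).ker) (m : (phi b).ker),
          P J (a + ((l + m : (phi b).ker) : ι → ℤ)) *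
            P (-J) (a + ((l - m : (phi b).ker) : ι → ℤ)) := by
      calc _ = ∑' (l : (phi b).ker) (m : (phi b).ker), (∏ i, g i ((m : ι → ℤ) i)) *
            (∏ i, r i ((a + (l : ι → ℤ)) i)) := by
            rw [← ENNReal.tsum_mul_right]
            refine tsum_congr fun l => ?_
            rw [← ENNReal.tsum_mul_left]
            exact tsum_congr fun m => mul_comm _ _
        _ = ∑' (l : (phi b).ker) (m : (phi b).ker), (∏ i, k i) * ∑' J : ι → ℤ,
            P J (a + ((l + m : (phi b).ker) : ι → ℤ)) *
              P (-J) (a + ((l - m : (phi b).ker) : ι → ℤ)) := by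
            refine tsum_congr fun l => tsum_congr fun m => ?_
            rw [hprod]
            congr 1
            refine tsum_congr fun J => ?_
            congr 1
            · congr 1
              rw [AddSubgroup.coe_add]; abel
            · rw [← hPneg]
              congr 1
              rw [AddSubgroup.coe_sub]; abel
        _ = (∏ i, k i) * ∑' (l : (phi b).ker) (m : (phi b).ker) (J : ι → ℤ),
            P J (a + ((l + m : (phi b).ker) : ι → ℤ)) *
              P (-J) (a + ((l - m : (phi b).ker) : ι → ℤ)) := by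
            rw [← ENNReal.tsum_mul_left]
            refine tsum_congr fun l => ?_
            rw [← ENNReal.tsum_mul_left]
        _ = _ := by
            congr 1
            rw [ENNReal.tsum_comm (f := fun (J : ι → ℤ) (l : (phi b).ker) =>
              ∑' (m : (phi b).ker), P J (a + ((l + m : (phi b).ker) : ι → ℤ)) *
                P (-J) (a + ((l - m : (phi b).ker) : ι → ℤ)))]
            refine tsum_congr fun l => ?_
            rw [ENNReal.tsum_comm]
    have L2 : (∑' l : (phi b).ker, ∏ i, g i ((a + (l : ι → ℤ)) i)) *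
        (∑' m : (phi b).ker, ∏ i, r i ((m : ι → ℤ) i)) =
        (∏ i, k i) * ∑' J : ι → ℤ, ∑' (l : (phi b).ker) (m : (phi b).ker),
          P J (a + ((l + m : (phi b).ker) : ι → ℤ)) *
            P J (a + ((l - m : (phi b).ker) : ι → ℤ)) := by
      calc _ = ∑' (l : (phi b).ker) (m : (phi b).ker), (∏ i, g i ((a + (l : ι → ℤ)) i)) *
            (∏ i, r i ((m : ι → ℤ) i)) := by
            rw [← ENNReal.tsum_mul_right]
            refine tsum_congr fun l => ?_
            rw [← ENNReal.tsum_mul_left]
        _ = ∑' (l : (phi b).ker) (m : (phi b).ker), (∏ i, k i) * ∑' J : ι → ℤ,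
            P J (a + ((l + m : (phi b).ker) : ι → ℤ)) *
              P J (a + ((l - m : (phi b).ker) : ι → ℤ)) := by
            refine tsum_congr fun l => tsum_congr fun m => ?_
            rw [hprod]
            congr 1
            refine tsum_congr fun J => ?_
            congr 1
            · congr 1
              rw [AddSubgroup.coe_add]; abel
            · congr 1
              rw [AddSubgroup.coe_sub]; abel
        _ = (∏ i, k i) * ∑' (l : (phi b).ker) (m : (phi b).ker) (J : ι → ℤ),
            P J (a + ((l + m : (phi b).ker) : ι → ℤ)) *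
              P J (a + ((l - m : (phi b).ker) : ι → ℤ)) := by
            rw [← ENNReal.tsum_mul_left]
            refine tsum_congr fun l => ?_
            rw [← ENNReal.tsum_mul_left]
        _ = _ := by
            congr 1
            rw [ENNReal.tsum_comm (f := fun (J : ι → ℤ) (l : (phi b).ker) =>
              ∑' (m : (phi b).ker), P J (a + ((l + m : (phi b).ker) : ι → ℤ)) *
                P J (a + ((l - m : (phi b).ker) : ι → ℤ)))]
            refine tsum_congr fun l => ?_
            rw [ENNReal.tsum_comm]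
    rw [L1, L2]
    refine mul_le_mul_right ?_ _
    set S : (ι → ℤ) → (ι → ℤ) → ℝ≥0∞ := fun J J' => ∑' (l : (phi b).ker) (m : (phi b).ker),
          P J (a + ((l + m : (phi b).ker) : ι → ℤ)) *
            P J' (a + ((l - m : (phi b).ker) : ι → ℤ)) with hS
    have hgl : ∀ J, 2 * S J (-J) ≤ S J J + S (-J) (-J) := by
      intro J
      exact gl (ker_tors b) (fun l => P J (a + (l : ι → ℤ))) (fun l => P (-J) (a + (l : ι → ℤ)))
    have hfin : 2 * ∑' J, S J (-J) ≤ 2 * ∑' J, S J J := by
      calc 2 * ∑' J, S J (-J) = ∑' J, 2 * S J (-J) := by rw [ENNReal.tsum_mul_left]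
        _ ≤ ∑' J, (S J J + S (-J) (-J)) := ENNReal.tsum_le_tsum hgl
        _ = ∑' J, S J J + ∑' J, S (-J) (-J) := ENNReal.tsum_add
        _ = ∑' J, S J J + ∑' J, S J J := by
            congr 1
            exact (Equiv.neg (ι → ℤ)).tsum_eq (fun J => S J J)
        _ = 2 * ∑' J, S J J := (two_mul _).symm
    exact (ENNReal.mul_le_mul_iff_right (by norm_num) (by norm_num)).1 hfin
  · have : (∑' c : ι → ℤ, if phi b c = v then ∏ i, r i (c i) else 0) = 0 := by
      rw [ENNReal.tsum_eq_zero]
      intro c
      exact if_neg (fun hc => hv ⟨c, hc⟩)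
    rw [this, zero_mul]
    exact zero_le

/-- The one-dimensional Gaussian weight. -/
noncomputable def ga (β : ℝ) (x : ℤ) : ℝ≥0∞ := ENNReal.ofReal (Real.exp (-(β * (x : ℝ) ^ 2)))

theorem ga_zero (β : ℝ) : ga β 0 = 1 := by simp [ga]

theorem ga_neg (β : ℝ) (x : ℤ) : ga β (-x) = ga β x := by simp [ga]

theorem ga_mul (β : ℝ) (x y : ℤ) : ga (β / 2) (x + y) * ga (β / 2) (x - y) = ga β x * ga β y := by
  unfold ga
  rw [← ENNReal.ofReal_mul (Real.exp_nonneg _), ← ENNReal.ofReal_mul (Real.exp_nonneg _),
    ← Real.exp_add, ← Real.exp_add]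
  congr 2
  push_cast
  ring

open Classical in
theorem E_prod (β : ℝ) (B : Finset ι) (c : ι → ℤ) :
    E β B (cst c) = ∏ i, (if i ∈ B then ga β (c i) else if c i = 0 then 1 else 0) := by
  unfold E
  by_cases h : ∀ i ∉ B, cst c i = 0
  · have h' : ∀ i ∉ B, c i = 0 := fun i hi => by
      have := h i hi
      simpa [cst] using this
    rw [if_pos h]
    have e : ∀ i, (if i ∈ B then ga β (c i) else if c i = 0 then 1 else 0) = ga β (c i) := by
      intro i
      by_cases hi : i ∈ B
      · rw [if_pos hi]
      · rw [if_neg hi, if_pos (h' i hi), h' i hi, ga_zero]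
    simp_rw [e]
    unfold ga
    rw [← ENNReal.ofReal_prod_of_nonneg (fun i _ => Real.exp_nonneg _), ← Real.exp_sum]
    congr 2
    rw [Finset.mul_sum, ← Finset.sum_neg_distrib]
    rfl
  · rw [if_neg h]
    push Not at h
    obtain ⟨i, hi, hci⟩ := h
    symm
    apply Finset.prod_eq_zero (Finset.mem_univ i)
    have hci' : c i ≠ 0 := by
      intro h0
      apply hci
      simp [cst, h0]
    rw [if_neg hi, if_neg hci']

open Classical in
/-- The Gram kernels. -/
noncomputable def hk (β : ℝ) (B' B : Finset ι) (i : ι) (j p : ℤ) : ℝ≥0∞ :=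
  if i ∈ B' then (if p = j + 1 ∨ p = j - 1 then ga (β / 2) p else 0)
  else if i ∈ B then (if p = j then ga (β / 2) p else 0)
  else (if p = 0 ∧ j = 0 then 1 else 0)

theorem hk_neg (β : ℝ) (B' B : Finset ι) (i : ι) (j p : ℤ) :
    hk β B' B i j (-p) = hk β B' B i (-j) p := by
  unfold hk
  split_ifs with h1 h2 h3 h4 h5 h6 h7 h8 h9 <;> first | rfl | (exfalso; omega) | rw [ga_neg]

theorem ternary_gram {β : ℝ} (hβ : Real.exp (-β) = 1 / 2) (x y : ℤ) :
    ga β x * (if y = 0 then 1 else if y = 1 ∨ y = -1 then (1 / 4 : ℝ≥0∞) else 0) =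
      (1 / 2 : ℝ≥0∞) * ∑' j : ℤ, (if x + y = j + 1 ∨ x + y = j - 1 then ga (β / 2) (x + y) else 0) *
        (if x - y = j + 1 ∨ x - y = j - 1 then ga (β / 2) (x - y) else 0) := by
  have hga : ga β 1 = 1 / 2 := by
    unfold ga
    have : -(β * ((1 : ℤ) : ℝ) ^ 2) = -β := by norm_num
    rw [this, hβ, ENNReal.ofReal_div_of_pos (by norm_num)]
    simp
  by_cases h0 : y = 0
  · subst h0
    rw [if_pos rfl, mul_one, add_zero, sub_zero]
    rw [tsum_eq_sum (s := {x - 1, x + 1})]
    · rw [Finset.sum_pair (by omega)]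
      rw [if_pos (by omega), if_pos (by omega)]
      have := ga_mul β x 0
      rw [add_zero, sub_zero, ga_zero, mul_one] at this
      rw [this, ← two_mul, ← mul_assoc]
      rw [one_div, ENNReal.inv_mul_cancel (by norm_num) (by norm_num), one_mul]
    · intro j hj
      simp only [Finset.mem_insert, Finset.mem_singleton, not_or] at hj
      rw [if_neg (by omega), zero_mul]
  · by_cases h1 : y = 1 ∨ y = -1
    · rw [if_neg h0, if_pos h1, tsum_eq_single x]
      · rw [if_pos (by omega), if_pos (by omega), ga_mul]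
        have : ga β y = 1 / 2 := by
          rcases h1 with rfl | rfl
          · exact hga
          · rw [ga_neg, hga]
        rw [this, mul_left_comm]
        congr 1
        rw [one_div, one_div, ← ENNReal.mul_inv (by norm_num) (by norm_num)]
        norm_num
      · intro j hj
        by_cases h2 : x + y = j + 1 ∨ x + y = j - 1
        · rw [if_neg (by omega : ¬ (x - y = j + 1 ∨ x - y = j - 1)), mul_zero]
        · rw [if_neg h2, zero_mul]
    · rw [if_neg h0, if_neg h1, mul_zero]
      symm
      rw [mul_eq_zero]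
      right
      rw [ENNReal.tsum_eq_zero]
      intro j
      by_cases h2 : x + y = j + 1 ∨ x + y = j - 1
      · rw [if_neg (by omega : ¬ (x - y = j + 1 ∨ x - y = j - 1)), mul_zero]
      · rw [if_neg h2, zero_mul]

/-- Row 2. -/
theorem comp (b : ι → Γ) {β : ℝ} (hβ : Real.exp (-β) = 1 / 2) {B' B : Finset ι} (hB : B' ⊆ B)
    (v : Γ) :
    T b (1 / 4) B' v * Z b β B 0 ≤ Z b β B v * T b (1 / 4) B' 0 := by
  classical
  have key := comp_gen b
    (fun i x => if i ∈ B then ga β x else if x = 0 then 1 else 0)
    (fun i y => if y = 0 then 1 else if i ∈ B' ∧ (y = 1 ∨ y = -1) then (1 / 4 : ℝ≥0∞) else 0)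
    (hk β B' B) (fun i => if i ∈ B' then (1 / 2 : ℝ≥0∞) else 1) ?_ (hk_neg β B' B) v
  · unfold T Z tw
    simp_rw [E_prod]
    convert key
  · intro i x y
    unfold hk
    by_cases hi' : i ∈ B'
    · have hi : i ∈ B := hB hi'
      simp only [hi, hi', if_true, true_and]
      exact ternary_gram hβ x y
    · by_cases hi : i ∈ B
      · simp only [hi, hi', if_true, if_false, false_and, one_mul]
        by_cases h0 : y = 0
        · subst h0
          rw [if_pos rfl, mul_one, add_zero, sub_zero, tsum_eq_single x]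
          · rw [if_pos rfl]
            have := ga_mul β x 0
            rw [add_zero, sub_zero, ga_zero, mul_one] at this
            rw [this]
          · intro j hj
            rw [if_neg (fun h => hj h.symm), zero_mul]
        · rw [if_neg h0, mul_zero]
          symm
          rw [ENNReal.tsum_eq_zero]
          intro j
          by_cases h2 : x + y = j
          · rw [if_neg (by omega : ¬ (x - y = j)), mul_zero]
          · rw [if_neg h2, zero_mul]
      · simp only [hi, hi', if_false, false_and, one_mul]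
        by_cases hxy : x = 0 ∧ y = 0
        · obtain ⟨rfl, rfl⟩ := hxy
          rw [tsum_eq_single 0]
          · simp
          · intro j hj
            simp [hj]
        · have hL : (if x = 0 then (1 : ℝ≥0∞) else 0) * (if y = 0 then 1 else 0) = 0 := by
            by_cases hx : x = 0
            · have hy : y ≠ 0 := fun hy => hxy ⟨hx, hy⟩
              rw [if_neg hy, mul_zero]
            · rw [if_neg hx, zero_mul]
          rw [hL]
          symm
          rw [ENNReal.tsum_eq_zero]
          intro j
          by_cases h2 : x + y = 0 ∧ j = 0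
          · rw [if_neg (by omega : ¬ (x - y = 0 ∧ j = 0)), mul_zero]
          · rw [if_neg h2, zero_mul]

end Pool.Agent.LL
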