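import Pool.Agent.Helper28.TL.Wt
import Pool.Agent.Helper28.TL.Cnt
import Pool.Agent.Helper28.TC.Abs

/-! Long-range Lefschetz: centred indicators of linear forms and their frequencies. -/

set_option autoImplicit false
set_option linter.unusedSectionVars false

namespace Pool.Agent.LL

open Finset
open Pool.Agent.Helper28.TC (WW WW_nonneg)
open Pool.Agent.Helper28.TL (eth eth_add exists_eth ZZ ZZ_nonneg)

section Ind

variable {M : ℕ} [NeZero M] {J : Type} [Fintype J] [DecidableEq J] {p q : ℕ} [Fact p.Prime]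
  [Fact q.Prime] (hM : p ∣ M) (hM' : q ∣ M)

/-- the value of the linear form with coefficients `c` modulo `p` -/
def lin (c : J → ZMod p) (a : J → ZMod M) : ZMod p := ∑ e, ZMod.castHom hM (ZMod p) (a e) * c e

lemma lin_add (c : J → ZMod p) (a b : J → ZMod M) : lin hM c (a + b) = lin hM c a + lin hM c b := by
  unfold lin
  rw [← Finset.sum_add_distrib]
  refine Finset.sum_congr rfl fun e _ => ?_
  rw [Pi.add_apply, map_add, add_mul]

lemma lin_single (c : J → ZMod p) (e : J) : lin hM c (Pi.single e 1) = c e := by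
  unfold lin
  rw [Finset.sum_eq_single e]
  · rw [Pi.single_eq_same, map_one, one_mul]
  · intro j _ hj
    rw [Pi.single_eq_of_ne hj, map_zero, zero_mul]
  · intro h; exact absurd (Finset.mem_univ _) h

open Classical in
/-- the centred indicator of the zeros of the linear form -/
noncomputable def ind (c : J → ZMod p) (a : J → ZMod M) : ℝ :=
  (if lin hM c a = 0 then (1 : ℝ) else 0) - 1 / p

lemma ind_abs (c : J → ZMod p) (a : J → ZMod M) : |ind hM c a| ≤ 1 := by
  have hp : (1 : ℝ) ≤ p := by exact_mod_cast (Fact.out : p.Prime).one_le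
  have h1 : 0 ≤ 1 / (p : ℝ) := by positivity
  have h2 : 1 / (p : ℝ) ≤ 1 := by rw [div_le_one (by linarith)]; exact hp
  unfold ind
  rw [abs_le]
  split_ifs <;> constructor <;> linarith

/-- the character with the frequency `l` times `c` -/
noncomputable def chr (c : J → ZMod p) (l : ZMod p) (a : J → ZMod M) : ℂ :=
  ZMod.stdAddChar (l * lin hM c a)

lemma chr_add (c : J → ZMod p) (l : ZMod p) (a b : J → ZMod M) :
    chr hM c l (a + b) = chr hM c l a * chr hM c l b := by
  unfold chr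
  rw [lin_add, mul_add, AddChar.map_add_eq_mul]

lemma ind_eq (c : J → ZMod p) (a : J → ZMod M) :
    (ind hM c a : ℂ) = (1 / (p : ℂ)) * ∑ l ∈ (univ : Finset (ZMod p)).erase 0, chr hM c l a := by
  classical
  have hp : (p : ℂ) ≠ 0 := by exact_mod_cast (Fact.out : p.Prime).ne_zero
  have h1 := AddChar.sum_mulShift (lin hM c a) (ZMod.isPrimitive_stdAddChar p)
  rw [ZMod.card] at h1
  have h2 : ∑ l ∈ (univ : Finset (ZMod p)).erase 0, chr hM c l a =
      (if lin hM c a = 0 then (p : ℂ) else 0) - 1 := by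
    have h3 := Finset.add_sum_erase univ (fun l : ZMod p => chr hM c l a) (Finset.mem_univ 0)
    have h4 : chr hM c 0 a = 1 := by
      unfold chr
      rw [zero_mul, AddChar.map_zero_eq_one]
    rw [h4] at h3
    have h5 : ∑ l : ZMod p, chr hM c l a = if lin hM c a = 0 then (p : ℂ) else 0 := by
      unfold chr
      rw [h1]
      split_ifs <;> simp
    rw [h5] at h3
    rw [← h3]; ring
  rw [h2]
  unfold ind
  split_ifs
  · push_cast; field_simp
  · push_cast; field_simp; ring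

/-- a multiplicative function with nonzero sum is trivial -/
lemma eq_one_of_sum {A : Type} [AddGroup A] [Fintype A] {f : A → ℂ}
    (hf : ∀ a b, f (a + b) = f a * f b) (h : ∑ a, f a ≠ 0) (v : A) : f v = 1 := by
  have h1 : ∑ a, f a = (∑ a, f a) * f v := by
    conv_lhs => rw [← Equiv.sum_comp (Equiv.addRight v)]
    rw [Finset.sum_mul]
    refine Finset.sum_congr rfl fun a _ => ?_
    rw [Equiv.coe_addRight, hf]
  have h2 : (∑ a, f a) * (f v - 1) = 0 := by rw [mul_sub, ← h1, mul_one, sub_self]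
  rcases mul_eq_zero.1 h2 with h3 | h3
  · exact absurd h3 h
  · exact sub_eq_zero.1 h3

lemma eth_single (θ : J → ℤ) (e : J) :
    eth θ (Pi.single e 1 : J → ZMod M) = ZMod.stdAddChar ((θ e : ℤ) : ZMod M) := by
  unfold eth
  congr 1
  rw [Finset.sum_eq_single e]
  · rw [Pi.single_eq_same, mul_one]
  · intro j _ hj
    rw [Pi.single_eq_of_ne hj, mul_zero]
  · intro h; exact absurd (Finset.mem_univ _) h

/-- the frequencies of a product of two centred indicators -/
theorem freq2 {H : ℕ} {c : J → ZMod p} {c' : J → ZMod q}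
    (h : ∑ a : J → ZMod M, WW H a * (ind hM c a * ind hM' c' a) ≠ 0) :
    ∃ (θ : J → ℤ) (l : ZMod p) (l' : ZMod q), (∀ e, |θ e| ≤ (H : ℤ)) ∧ l ≠ 0 ∧ l' ≠ 0 ∧
      ∀ e, ZMod.stdAddChar ((θ e : ℤ) : ZMod M) =
        ZMod.stdAddChar (l * c e) * ZMod.stdAddChar (l' * c' e) := by
  classical
  obtain ⟨θ, hθ, hS⟩ := exists_eth h
  have h1 : ∑ a : J → ZMod M, eth θ a * ((ind hM c a * ind hM' c' a : ℝ) : ℂ) =
      (1 / (p : ℂ)) * (1 / (q : ℂ)) * ∑ l ∈ (univ : Finset (ZMod p)).erase 0,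
        ∑ l' ∈ (univ : Finset (ZMod q)).erase 0,
          ∑ a : J → ZMod M, eth θ a * chr hM c l a * chr hM' c' l' a := by
    have h2 : ∀ a : J → ZMod M, eth θ a * ((ind hM c a * ind hM' c' a : ℝ) : ℂ) =
        (1 / (p : ℂ)) * (1 / (q : ℂ)) * ∑ l ∈ (univ : Finset (ZMod p)).erase 0,
          ∑ l' ∈ (univ : Finset (ZMod q)).erase 0,
            eth θ a * chr hM c l a * chr hM' c' l' a := by
      intro a
      rw [Complex.ofReal_mul, ind_eq, ind_eq]
      have h3 : ∑ l ∈ (univ : Finset (ZMod p)).erase 0,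
          ∑ l' ∈ (univ : Finset (ZMod q)).erase 0, eth θ a * chr hM c l a * chr hM' c' l' a =
          eth θ a * ((∑ l ∈ (univ : Finset (ZMod p)).erase 0, chr hM c l a) *
            ∑ l' ∈ (univ : Finset (ZMod q)).erase 0, chr hM' c' l' a) := by
        rw [Finset.sum_mul_sum, Finset.mul_sum]
        refine Finset.sum_congr rfl fun l _ => ?_
        rw [Finset.mul_sum]
        exact Finset.sum_congr rfl fun l' _ => by ring
      rw [h3]
      ring
    rw [Finset.sum_congr rfl fun a _ => h2 a, ← Finset.mul_sum]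
    congr 1
    rw [Finset.sum_comm]
    refine Finset.sum_congr rfl fun l _ => ?_
    rw [Finset.sum_comm]
  rw [h1] at hS
  have h2 : ∃ l ∈ (univ : Finset (ZMod p)).erase 0, ∃ l' ∈ (univ : Finset (ZMod q)).erase 0,
      ∑ a : J → ZMod M, eth θ a * chr hM c l a * chr hM' c' l' a ≠ 0 := by
    by_contra hcon
    push Not at hcon
    apply hS
    rw [Finset.sum_eq_zero, mul_zero]
    intro l hl
    exact Finset.sum_eq_zero fun l' hl' => hcon l hl l' hl'
  obtain ⟨l, hl, l', hl', hne⟩ := h2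
  have h3 := eq_one_of_sum (f := fun a : J → ZMod M => eth θ a * chr hM c l a * chr hM' c' l' a)
    (fun a b => by rw [eth_add, chr_add, chr_add]; ring) hne
  refine ⟨θ, -l, -l', hθ, neg_ne_zero.2 (Finset.ne_of_mem_erase hl),
    neg_ne_zero.2 (Finset.ne_of_mem_erase hl'), fun e => ?_⟩
  have h4 : eth θ (Pi.single e 1 : J → ZMod M) * chr hM c l (Pi.single e 1) *
      chr hM' c' l' (Pi.single e 1) = 1 := h3 (Pi.single e 1)
  rw [eth_single] at h4
  unfold chr at h4
  rw [lin_single, lin_single] at h4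
  have h5 : (ZMod.stdAddChar (l * c e) : ℂ) * ZMod.stdAddChar (-l * c e) = 1 := by
    rw [← AddChar.map_add_eq_mul, neg_mul, add_neg_cancel, AddChar.map_zero_eq_one]
  have h6 : (ZMod.stdAddChar (l' * c' e) : ℂ) * ZMod.stdAddChar (-l' * c' e) = 1 := by
    rw [← AddChar.map_add_eq_mul, neg_mul, add_neg_cancel, AddChar.map_zero_eq_one]
  calc (ZMod.stdAddChar ((θ e : ℤ) : ZMod M) : ℂ) = ZMod.stdAddChar ((θ e : ℤ) : ZMod M) *
        ((ZMod.stdAddChar (l * c e) * ZMod.stdAddChar (-l * c e)) *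
          (ZMod.stdAddChar (l' * c' e) * ZMod.stdAddChar (-l' * c' e))) := by
        rw [h5, h6, mul_one, mul_one]
    _ = (ZMod.stdAddChar ((θ e : ℤ) : ZMod M) * ZMod.stdAddChar (l * c e) *
          ZMod.stdAddChar (l' * c' e)) * (ZMod.stdAddChar (-l * c e) *
            ZMod.stdAddChar (-l' * c' e)) := by ring
    _ = _ := by rw [h4, one_mul]

/-- the frequencies of a centred indicator -/
theorem freq1 {H : ℕ} {c : J → ZMod p}
    (h : ∑ a : J → ZMod M, WW H a * ind hM c a ≠ 0) :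
    ∃ (θ : J → ℤ) (l : ZMod p), (∀ e, |θ e| ≤ (H : ℤ)) ∧ l ≠ 0 ∧
      ∀ e, ZMod.stdAddChar ((θ e : ℤ) : ZMod M) = (ZMod.stdAddChar (l * c e) : ℂ) := by
  classical
  obtain ⟨θ, hθ, hS⟩ := exists_eth h
  have h1 : ∑ a : J → ZMod M, eth θ a * ((ind hM c a : ℝ) : ℂ) =
      (1 / (p : ℂ)) * ∑ l ∈ (univ : Finset (ZMod p)).erase 0,
        ∑ a : J → ZMod M, eth θ a * chr hM c l a := by
    simp_rw [ind_eq, Finset.mul_sum]
    rw [Finset.sum_comm]
    refine Finset.sum_congr rfl fun l _ => Finset.sum_congr rfl fun a _ => by ring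
  rw [h1] at hS
  have h2 : ∃ l ∈ (univ : Finset (ZMod p)).erase 0,
      ∑ a : J → ZMod M, eth θ a * chr hM c l a ≠ 0 := by
    by_contra hcon
    push Not at hcon
    apply hS
    rw [Finset.sum_eq_zero fun l hl => hcon l hl, mul_zero]
  obtain ⟨l, hl, hne⟩ := h2
  have h3 := eq_one_of_sum (f := fun a : J → ZMod M => eth θ a * chr hM c l a)
    (fun a b => by rw [eth_add, chr_add]; ring) hne
  refine ⟨θ, -l, hθ, neg_ne_zero.2 (Finset.ne_of_mem_erase hl), fun e => ?_⟩
  have h4 : eth θ (Pi.single e 1 : J → ZMod M) * chr hM c l (Pi.single e 1) = 1 :=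
    h3 (Pi.single e 1)
  rw [eth_single] at h4
  unfold chr at h4
  rw [lin_single] at h4
  have h5 : (ZMod.stdAddChar (l * c e) : ℂ) * ZMod.stdAddChar (-l * c e) = 1 := by
    rw [← AddChar.map_add_eq_mul, neg_mul, add_neg_cancel, AddChar.map_zero_eq_one]
  calc (ZMod.stdAddChar ((θ e : ℤ) : ZMod M) : ℂ) = ZMod.stdAddChar ((θ e : ℤ) : ZMod M) *
        (ZMod.stdAddChar (l * c e) * ZMod.stdAddChar (-l * c e)) := by
        rw [h5, mul_one]
    _ = (ZMod.stdAddChar ((θ e : ℤ) : ZMod M) * ZMod.stdAddChar (l * c e)) *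
          ZMod.stdAddChar (-l * c e) := by ring
    _ = _ := by rw [h4, one_mul]

end Ind

section Comb

variable {M : ℕ} [NeZero M] {J : Type} {p q : ℕ} [Fact p.Prime] [Fact q.Prime]

/-- integer combinations -/
lemma comb2 {θ : J → ℤ} {c : J → ZMod p} {c' : J → ZMod q} {l : ZMod p} {l' : ZMod q}
    (h : ∀ e, ZMod.stdAddChar ((θ e : ℤ) : ZMod M) =
      (ZMod.stdAddChar (l * c e) * ZMod.stdAddChar (l' * c' e) : ℂ)) {ι : Type} (S : Finset ι)
    (P : ι → ℤ) (e : ι → J) :
    (ZMod.stdAddChar ((∑ j ∈ S, P j * θ (e j) : ℤ) : ZMod M) : ℂ) =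
      ZMod.stdAddChar (l * ∑ j ∈ S, (P j : ZMod p) * c (e j)) *
        ZMod.stdAddChar (l' * ∑ j ∈ S, (P j : ZMod q) * c' (e j)) := by
  classical
  induction S using Finset.induction_on with
  | empty => simp
  | insert a S ha ih =>
      rw [Finset.sum_insert ha, Finset.sum_insert ha, Finset.sum_insert ha, mul_add, mul_add,
        AddChar.map_add_eq_mul, AddChar.map_add_eq_mul, Int.cast_add, AddChar.map_add_eq_mul, ih]
      have h1 : (ZMod.stdAddChar ((P a * θ (e a) : ℤ) : ZMod M) : ℂ) =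
          ZMod.stdAddChar (l * ((P a : ZMod p) * c (e a))) *
            ZMod.stdAddChar (l' * ((P a : ZMod q) * c' (e a))) := by
        have e1 : ((P a * θ (e a) : ℤ) : ZMod M) = P a • ((θ (e a) : ℤ) : ZMod M) := by
          rw [zsmul_eq_mul, Int.cast_mul]
        have e2 : l * ((P a : ZMod p) * c (e a)) = P a • (l * c (e a)) := by
          rw [zsmul_eq_mul]; ring
        have e3 : l' * ((P a : ZMod q) * c' (e a)) = P a • (l' * c' (e a)) := by
          rw [zsmul_eq_mul]; ring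
        rw [e1, e2, e3, AddChar.map_zsmul_eq_zpow, AddChar.map_zsmul_eq_zpow,
          AddChar.map_zsmul_eq_zpow, h, mul_zpow]
      rw [h1]
      ring

lemma comb1 {θ : J → ℤ} {c : J → ZMod p} {l : ZMod p}
    (h : ∀ e, ZMod.stdAddChar ((θ e : ℤ) : ZMod M) = (ZMod.stdAddChar (l * c e) : ℂ))
    {ι : Type} (S : Finset ι) (P : ι → ℤ) (e : ι → J) :
    (ZMod.stdAddChar ((∑ j ∈ S, P j * θ (e j) : ℤ) : ZMod M) : ℂ) =
      ZMod.stdAddChar (l * ∑ j ∈ S, (P j : ZMod p) * c (e j)) := by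
  have h1 := comb2 (q := p) (c' := fun _ => 0) (l' := 0) (θ := θ) (c := c) (l := l)
    (fun e => by rw [h e, mul_zero, AddChar.map_zero_eq_one, mul_one]) S P e
  rw [h1, zero_mul, AddChar.map_zero_eq_one, mul_one]

lemma dvd_iff (S : ℤ) : (M : ℤ) ∣ S ↔ (ZMod.stdAddChar ((S : ℤ) : ZMod M) : ℂ) = 1 := by
  rw [← ZMod.intCast_zmod_eq_zero_iff_dvd]
  constructor
  · intro h; rw [h, AddChar.map_zero_eq_one]
  · intro h
    apply ZMod.injective_stdAddChar
    rw [h, AddChar.map_zero_eq_one]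

lemma one_iff (x : ZMod p) : (ZMod.stdAddChar x : ℂ) = 1 ↔ x = 0 := by
  constructor
  · intro h
    apply ZMod.injective_stdAddChar
    rw [h, AddChar.map_zero_eq_one]
  · rintro rfl; rw [AddChar.map_zero_eq_one]

lemma prod_one_ne (hpq : p ≠ q) (x : ZMod p) (y : ZMod q) :
    (ZMod.stdAddChar x * ZMod.stdAddChar y : ℂ) = 1 ↔ x = 0 ∧ y = 0 := by
  have key : ∀ {p q : ℕ} [Fact p.Prime] [Fact q.Prime], p ≠ q → ∀ (x : ZMod p) (y : ZMod q),
      (ZMod.stdAddChar x * ZMod.stdAddChar y : ℂ) = 1 → y = 0 := by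
    intro p q _ _ hpq x y h
    have h1 : (ZMod.stdAddChar x * ZMod.stdAddChar y : ℂ) ^ p = 1 := by rw [h, one_pow]
    rw [mul_pow, ← AddChar.map_nsmul_eq_pow, ← AddChar.map_nsmul_eq_pow, nsmul_eq_mul,
      CharP.cast_eq_zero, zero_mul, AddChar.map_zero_eq_one, one_mul, one_iff, nsmul_eq_mul] at h1
    rcases mul_eq_zero.1 h1 with h2 | h2
    · exfalso
      rw [CharP.cast_eq_zero_iff (ZMod q) q] at h2
      exact hpq ((Nat.prime_dvd_prime_iff_eq (Fact.out : q.Prime) (Fact.out : p.Prime)).1 h2).symm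
    · exact h2
  constructor
  · intro h
    exact ⟨key hpq.symm y x (by rw [mul_comm]; exact h), key hpq x y h⟩
  · rintro ⟨rfl, rfl⟩
    rw [AddChar.map_zero_eq_one, AddChar.map_zero_eq_one, mul_one]

lemma prod_one_eq (x y : ZMod p) :
    (ZMod.stdAddChar x * ZMod.stdAddChar y : ℂ) = 1 ↔ x + y = 0 := by
  rw [← AddChar.map_add_eq_mul, one_iff]

end Comb

end Pool.Agent.LL
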