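import Pool.Agent.LL.Roots
import Pool.Agent.LL.Ind
import Pool.Agent.Helper29.LN.Ver

/-! Long-range Lefschetz: the coordinates on a line of monomials. -/

set_option autoImplicit false
set_option linter.unusedSectionVars false

namespace Pool.Agent.LL

open Polynomial Finset
open Pool.Agent.Helper29.LN (Mono ver)

section Coo

variable {n s : ℕ}

/-- the monomial `pre * x_k ^ (s' - j) * x_u ^ j` -/
noncomputable def mon {r' s' : ℕ} (pre : Mono n r') (hs : r' + s' = s) (k u : Fin n) (j : ℕ) :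
    Mono n s :=
  ⟨(pre : Fin n →₀ ℕ) + (Finsupp.single k (s' - min j s') + Finsupp.single u (min j s')), by
    have h1 := pre.2
    rw [Finset.mem_finsuppAntidiag] at h1 ⊢
    refine ⟨?_, Finset.subset_univ _⟩
    simp only [Finsupp.coe_add, Pi.add_apply, Finset.sum_add_distrib, Finsupp.single_apply,
      Finset.sum_ite_eq, Finset.mem_univ, if_true]
    rw [h1.1]
    omega⟩

variable {F : Type} [Field F]

lemma ver_mon {r' s' : ℕ} (pre : Mono n r') (hs : r' + s' = s) (k u : Fin n) (x : Fin n → F) {j : ℕ}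
    (hj : j ≤ s') : ver s x (mon pre hs k u j) = ver r' x pre * (x k ^ (s' - j) * x u ^ j) := by
  unfold ver mon
  simp only [Finsupp.coe_add, Pi.add_apply, pow_add, Finset.prod_mul_distrib]
  rw [min_eq_left hj]
  have h1 : ∀ (v : Fin n) (t : ℕ), ∏ i, x i ^ ((Finsupp.single v t : Fin n →₀ ℕ) i) = x v ^ t :=
    fun v t => Pool.Agent.Helper29.LN.prod_single x v t
  rw [h1, h1]

lemma ver_mon_ne {r' s' : ℕ} (pre : Mono n r') (hs : r' + s' = s) {k : Fin n} (u : Fin n)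
    {x : Fin n → F} (hx : x k ≠ 0) {j : ℕ} (hj : j ≤ s') :
    ver s x (mon pre hs k u j) = ver r' x pre * x k ^ s' * (x u / x k) ^ j := by
  rw [ver_mon pre hs k u x hj, div_pow]
  have h1 : x k ^ s' = x k ^ (s' - j) * x k ^ j := by rw [← pow_add]; congr 1; omega
  rw [h1]
  field_simp

/-- the coefficients of the linear form of the point `x` -/
def cof {k d : ℕ} (α : Fin k × Fin d → F) (x : Fin n → F) : (Fin k × Mono n s) × Fin d → F :=
  fun e => α (e.1.1, e.2) * ver s x e.1.2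

/-- the coordinates on the line -/
noncomputable def crd {k d r' s' : ℕ} (i : Fin k) (l : Fin d) (pre : Mono n r') (hs : r' + s' = s)
    (k₀ u : Fin n) (j : ℕ) : (Fin k × Mono n s) × Fin d := ((i, mon pre hs k₀ u j), l)

lemma sum_eval {L : ℕ} (t : F) {P : ℤ[X]} (hP : P.natDegree ≤ L) :
    ∑ j ∈ range (L + 1), (P.coeff j : F) * t ^ j = aeval t P := by
  rw [aeval_eq_sum_range' (Nat.lt_succ_of_le hP)]
  refine Finset.sum_congr rfl fun j _ => ?_
  rw [zsmul_eq_mul]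

/-- the values of the linear form of `x` on the polynomials, if `x k₀ ≠ 0` -/
lemma sum_cof {k d r' s' L : ℕ} (α : Fin k × Fin d → F) {x : Fin n → F} (i : Fin k) (l : Fin d)
    (pre : Mono n r') (hs : r' + s' = s) {k₀ : Fin n} (hx : x k₀ ≠ 0) (u : Fin n) (hL : L ≤ s')
    {P : ℤ[X]} (hP : P.natDegree ≤ L) :
    ∑ j ∈ range (L + 1), (P.coeff j : F) * cof α x (crd i l pre hs k₀ u j) =
      α (i, l) * (ver r' x pre * x k₀ ^ s') * aeval (x u / x k₀) P := by
  rw [← sum_eval _ hP, Finset.mul_sum]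
  refine Finset.sum_congr rfl fun j hj => ?_
  rw [Finset.mem_range] at hj
  unfold cof crd
  simp only
  rw [ver_mon_ne pre hs u hx (by omega)]
  ring

/-- the values of the linear form of `x` on the polynomials, if `x k₀ = 0` or the coefficient is
zero -/
lemma sum_cof_zero {k d r' s' L : ℕ} (α : Fin k × Fin d → F) {x : Fin n → F} (i : Fin k)
    (l : Fin d) (pre : Mono n r') (hs : r' + s' = s) {k₀ : Fin n} (u : Fin n) (hL : L < s')
    (h : x k₀ = 0 ∨ α (i, l) = 0) (P : ℤ[X]) :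
    ∑ j ∈ range (L + 1), (P.coeff j : F) * cof α x (crd i l pre hs k₀ u j) = 0 := by
  refine Finset.sum_eq_zero fun j hj => ?_
  rw [Finset.mem_range] at hj
  unfold cof crd
  simp only
  rcases h with h | h
  · rw [ver_mon pre hs k₀ u x (by omega), h, zero_pow (by omega)]
    ring
  · rw [h]; ring

/-- the empty monomial -/
noncomputable def mon0 (n : ℕ) : Mono n 0 := ⟨0, by simp [Finset.mem_finsuppAntidiag]⟩

/-- the monomial `x_v` -/
noncomputable def mon1 (v : Fin n) : Mono n 1 := ⟨Finsupp.single v 1, by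
  rw [Finset.mem_finsuppAntidiag]
  refine ⟨?_, Finset.subset_univ _⟩
  simp only [Finsupp.single_apply, Finset.sum_ite_eq, Finset.mem_univ, if_true]⟩

lemma ver_mon0 (x : Fin n → F) : ver 0 x (mon0 n) = 1 := by
  unfold ver mon0
  simp

lemma ver_mon1 (x : Fin n → F) (v : Fin n) : ver 1 x (mon1 v) = x v := by
  unfold ver mon1
  rw [Pool.Agent.Helper29.LN.prod_single x v 1, pow_one]

end Coo

section Types

lemma hom_aeval {A B : Type} [CommRing A] [CommRing B] (f : A →+* B) (x : A) (P : ℤ[X]) :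
    f (@aeval ℤ A _ _ (Ring.toIntAlgebra A) x P) = @aeval ℤ B _ _ (Ring.toIntAlgebra B) (f x) P := by
  rw [aeval_def, aeval_def, hom_eval₂]
  congr 1
  exact Subsingleton.elim _ _

lemma aeval_pair {A B : Type} [CommRing A] [CommRing B] (x : A) (y : B) (P : ℤ[X]) :
    @aeval ℤ (A × B) _ _ (Ring.toIntAlgebra (A × B)) (x, y) P = (aeval x P, aeval y P) := by
  apply Prod.ext
  · exact hom_aeval (RingHom.fst A B) (x, y) P
  · exact hom_aeval (RingHom.snd A B) (x, y) P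

variable {𝒢 : Finset ℤ[X]} {m L : ℕ} {p q : ℕ} [Fact p.Prime] [Fact q.Prime]

/-- single type -/
lemma sgl (hG : HitsRoot 𝒢 m L p) (hmL : m ≤ L) {θ : ℕ → ℤ} {H M : ℕ}
    (hθ : ∀ j ≤ L, |θ j| ≤ (H : ℤ)) (hM : p * ((L + 1) * H) ^ m < M ^ m) {A t : ZMod p}
    (hA : A ≠ 0) (h : ∀ P : ℤ[X], P.natDegree ≤ L →
      ((M : ℤ) ∣ ∑ j ∈ range (L + 1), P.coeff j * θ j ↔ A * aeval t P = 0)) :
    t ∈ allRts 𝒢 (ZMod p) := by
  rw [mem_allRts]
  refine hG (ZMod p) t θ H M (ZMod.card p) hθ hM ?_ ?_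
  · intro P hP hz
    rw [h P hP, hz, mul_zero]
  · intro P hP h0 _
    rw [h P (by omega)] at h0
    exact (mul_eq_zero.1 h0).resolve_left hA

/-- pair type, different primes -/
lemma prs_ne (hG : HitsRoot 𝒢 m L (p * q)) (hmL : m ≤ L) {θ : ℕ → ℤ} {H M : ℕ}
    (hθ : ∀ j ≤ L, |θ j| ≤ (H : ℤ)) (hM : p * q * ((L + 1) * H) ^ m < M ^ m) {t : ZMod p}
    {t' : ZMod q} (h : ∀ P : ℤ[X], P.natDegree ≤ L →
      ((M : ℤ) ∣ ∑ j ∈ range (L + 1), P.coeff j * θ j ↔ aeval t P = 0 ∧ aeval t' P = 0)) :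
    (t, t') ∈ allPairs 𝒢 (ZMod p) (ZMod q) := by
  rw [mem_allPairs]
  obtain ⟨G, hG1, hG2⟩ := hG (ZMod p × ZMod q) (t, t') θ H M (by
    rw [Fintype.card_prod, ZMod.card, ZMod.card]) hθ hM (by
    intro P hP hz
    rw [aeval_pair, Prod.mk_eq_zero] at hz
    rw [h P hP]
    exact hz) (by
    intro P hP h0 _
    rw [h P (by omega)] at h0
    rw [aeval_pair, Prod.mk_eq_zero]
    exact h0)
  rw [aeval_pair, Prod.mk_eq_zero] at hG2
  exact ⟨G, hG1, hG2⟩

/-- pair type, equal primes -/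
lemma prs_eq (hG : HitsRoot 𝒢 m L (p * p)) (hmL : m ≤ L) {θ : ℕ → ℤ} {H M : ℕ}
    (hθ : ∀ j ≤ L, |θ j| ≤ (H : ℤ)) (hM : p * p * ((L + 1) * H) ^ m < M ^ m) {t t' A B : ZMod p}
    (htt : t ≠ t') (hA : A ≠ 0) (hB : B ≠ 0) (h : ∀ P : ℤ[X], P.natDegree ≤ L →
      ((M : ℤ) ∣ ∑ j ∈ range (L + 1), P.coeff j * θ j ↔ A * aeval t P + B * aeval t' P = 0)) :
    (t, t') ∈ allPairs 𝒢 (ZMod p) (ZMod p) := by
  rw [mem_allPairs]
  obtain ⟨G, hG1, hG2⟩ := hG (ZMod p × ZMod p) (t, t') θ H M (by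
    rw [Fintype.card_prod, ZMod.card]) hθ hM (by
    intro P hP hz
    rw [aeval_pair, Prod.mk_eq_zero] at hz
    rw [h P hP, hz.1, hz.2, mul_zero, mul_zero, add_zero]) (by
    intro P hP h0 h1
    rw [h P (by omega)] at h0
    rw [h (X * P) (natDegree_mul_le.trans (by rw [natDegree_X]; omega)), map_mul, map_mul,
      aeval_X, aeval_X] at h1
    have h2 : A * (t - t') * aeval t P = 0 := by linear_combination h1 - t' * h0
    have h3 : aeval t P = 0 :=
      (mul_eq_zero.1 h2).resolve_left (mul_ne_zero hA (sub_ne_zero.2 htt))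
    rw [h3, mul_zero, zero_add] at h0
    rw [aeval_pair, Prod.mk_eq_zero]
    exact ⟨h3, (mul_eq_zero.1 h0).resolve_left hB⟩)
  rw [aeval_pair, Prod.mk_eq_zero] at hG2
  exact ⟨G, hG1, hG2⟩

end Types

end Pool.Agent.LL
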