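import Mathlib

/-!
Gaussian and ternary gases over the kernel lattice of a family in an abelian group.
-/

set_option autoImplicit false

namespace Pool.Agent.LL

open Finset
open scoped ENNReal

variable {ι : Type*} [Fintype ι] [DecidableEq ι] {Γ : Type*} [AddCommGroup Γ]

/-- The map `c ↦ ∑ c_i b_i`. -/
def phi (b : ι → Γ) : (ι → ℤ) →+ Γ where
  toFun c := ∑ i, c i • b i
  map_zero' := by simp
  map_add' c d := by simp [add_smul, Finset.sum_add_distrib]

open Classical in
/-- The Gaussian weight `exp (- β |x|²)` of a real vector supported in `B`. -/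
noncomputable def E (β : ℝ) (B : Finset ι) (x : ι → ℝ) : ℝ≥0∞ :=
  if ∀ i ∉ B, x i = 0 then ENNReal.ofReal (Real.exp (-(β * ∑ i, x i ^ 2))) else 0

/-- The integer vector as a real vector. -/
def cst (c : ι → ℤ) : ι → ℝ := fun i => (c i : ℝ)

open Classical in
/-- The Gaussian gas. -/
noncomputable def Z (b : ι → Γ) (β : ℝ) (B : Finset ι) (y : Γ) : ℝ≥0∞ :=
  ∑' c : ι → ℤ, if phi b c = y then E β B (cst c) else 0

/-- The Gaussian sum over a coset of the kernel lattice. -/
noncomputable def R (b : ι → Γ) (β : ℝ) (B : Finset ι) (x : ι → ℝ) : ℝ≥0∞ :=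
  ∑' l : (phi b).ker, E β B (x + cst (l : ι → ℤ))

/-- The ternary weight of an integer vector supported in `B`. -/
noncomputable def tw (w : ℝ≥0∞) (B : Finset ι) (c : ι → ℤ) : ℝ≥0∞ :=
  ∏ i, (if c i = 0 then 1 else if i ∈ B ∧ (c i = 1 ∨ c i = -1) then w else 0)

open Classical in
/-- The ternary gas. -/
noncomputable def T (b : ι → Γ) (w : ℝ≥0∞) (B : Finset ι) (y : Γ) : ℝ≥0∞ :=
  ∑' c : ι → ℤ, if phi b c = y then tw w B c else 0

/-- Dissociated: different subsets have different sums. -/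
def Dis (b : ι → Γ) (D : Finset ι) : Prop :=
  ∀ X Y : Finset ι, X ⊆ D → Y ⊆ D → ∑ i ∈ X, b i = ∑ i ∈ Y, b i → X = Y

end Pool.Agent.LL
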