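import Pool.Agent.LL.Off

/-! Long-range Lefschetz: the second moment of the sum over the points for one prime. -/

set_option autoImplicit false
set_option linter.unusedSectionVars false

namespace Pool.Agent.LL

open Finset Polynomial
open Pool.Agent.Helper28.TC (WW WW_nonneg)
open Pool.Agent.Helper28.TL (eth eth_add WW_eq ZZ ZZ_nonneg)
open Pool.Agent.Helper29.LN (Mono ver)

section One

variable {M : ℕ} [NeZero M] {J : Type} [Fintype J] [DecidableEq J] {p : ℕ} [Fact p.Prime]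

lemma ind_sq (hM : p ∣ M) (c : J → ZMod p) (a : J → ZMod M) :
    ind hM c a ^ 2 = ind hM c a * (1 - 2 / p) + (1 / p - 1 / (p : ℝ) ^ 2) := by
  have hp : (p : ℝ) ≠ 0 := by exact_mod_cast (Fact.out : p.Prime).ne_zero
  unfold ind
  split_ifs
  · field_simp; ring
  · field_simp; ring

lemma V_le (hM : p ∣ M) (H : ℕ) (c : J → ZMod p) :
    ∑ a : J → ZMod M, WW H a * ind hM c a ^ 2 ≤ ZZ J M H := by
  unfold ZZ
  refine Finset.sum_le_sum fun a _ => ?_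
  have h1 : ind hM c a ^ 2 ≤ 1 := by
    rw [← sq_abs]
    exact pow_le_one₀ (abs_nonneg _) (ind_abs hM c a)
  exact mul_le_of_le_one_right (WW_nonneg H a) h1

lemma V_eq (hM : p ∣ M) (H : ℕ) (c : J → ZMod p) (h : ∑ a : J → ZMod M, WW H a * ind hM c a = 0) :
    ∑ a : J → ZMod M, WW H a * ind hM c a ^ 2 ≤ ZZ J M H / p := by
  have h1 : ∑ a : J → ZMod M, WW H a * ind hM c a ^ 2 =
      (∑ a : J → ZMod M, WW H a * ind hM c a) * (1 - 2 / p) +
        ZZ J M H * (1 / p - 1 / (p : ℝ) ^ 2) := by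
    unfold ZZ
    rw [Finset.sum_mul, Finset.sum_mul, ← Finset.sum_add_distrib]
    refine Finset.sum_congr rfl fun a _ => ?_
    rw [ind_sq]; ring
  rw [h1, h, zero_mul, zero_add]
  calc ZZ J M H * (1 / p - 1 / (p : ℝ) ^ 2) ≤ ZZ J M H * (1 / p) := by
        apply mul_le_mul_of_nonneg_left _ ZZ_nonneg
        have : 0 ≤ 1 / (p : ℝ) ^ 2 := by positivity
        linarith
    _ = _ := by ring

lemma T_le (hM : p ∣ M) (H : ℕ) (c c' : J → ZMod p) :
    ∑ a : J → ZMod M, WW H a * (ind hM c a * ind hM c' a) ≤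
      (∑ a : J → ZMod M, WW H a * ind hM c a ^ 2) / 2 +
        (∑ a : J → ZMod M, WW H a * ind hM c' a ^ 2) / 2 := by
  rw [Finset.sum_div, Finset.sum_div, ← Finset.sum_add_distrib]
  refine Finset.sum_le_sum fun a _ => ?_
  have h1 := WW_nonneg H a
  nlinarith [mul_nonneg h1 (sq_nonneg (ind hM c a - ind hM c' a))]

lemma T_abs (hM : p ∣ M) (H : ℕ) (c c' : J → ZMod p) :
    |∑ a : J → ZMod M, WW H a * (ind hM c a * ind hM c' a)| ≤ ZZ J M H := by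
  refine (Finset.abs_sum_le_sum_abs _ _).trans ?_
  unfold ZZ
  refine Finset.sum_le_sum fun a _ => ?_
  rw [abs_mul, abs_mul, abs_of_nonneg (WW_nonneg H a)]
  exact mul_le_of_le_one_right (WW_nonneg H a)
    (mul_le_one₀ (ind_abs hM c a) (abs_nonneg _) (ind_abs hM c' a))

end One

section Dia

variable {n : ℕ} {p : ℕ} [Fact p.Prime]

/-- the sum over proportional pairs -/
lemma sum_prop [DecidableEq (Fin n → ZMod p)] (U : Finset (Fin n → ZMod p)) (hU : ∀ x ∈ U, x ≠ 0)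
    (V : (Fin n → ZMod p) → ℝ) (hV : ∀ x, 0 ≤ V x)
    [DecidablePred fun z : (Fin n → ZMod p) × (Fin n → ZMod p) => ∃ c : ZMod p, z.2 = c • z.1] :
    ∑ z ∈ (U ×ˢ U).filter (fun z : (Fin n → ZMod p) × (Fin n → ZMod p) =>
      ∃ c : ZMod p, z.2 = c • z.1), (V z.1 / 2 + V z.2 / 2) ≤ p * ∑ x ∈ U, V x := by
  classical
  have hcard : ∀ x : Fin n → ZMod p, ∀ B : Finset (Fin n → ZMod p),
      (∀ y ∈ B, ∃ c : ZMod p, y = c • x) → (B.card : ℝ) ≤ p := by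
    intro x B hB
    have h4 : B ⊆ (univ : Finset (ZMod p)).image fun c => c • x := by
      intro y hy
      obtain ⟨c, hc⟩ := hB y hy
      exact Finset.mem_image.2 ⟨c, Finset.mem_univ _, hc.symm⟩
    have h5 := (Finset.card_le_card h4).trans Finset.card_image_le
    rw [Finset.card_univ, ZMod.card] at h5
    exact_mod_cast h5
  have h1 : ∑ z ∈ (U ×ˢ U).filter (fun z : (Fin n → ZMod p) × (Fin n → ZMod p) =>
      ∃ c : ZMod p, z.2 = c • z.1), V z.1 / 2 ≤ p * ∑ x ∈ U, V x / 2 := by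
    rw [Finset.sum_filter, Finset.sum_product, Finset.mul_sum]
    refine Finset.sum_le_sum fun x hx => ?_
    simp only
    rw [← Finset.sum_filter, Finset.sum_const, nsmul_eq_mul]
    apply mul_le_mul_of_nonneg_right _ (by linarith [hV x])
    exact hcard x _ fun y hy => (Finset.mem_filter.1 hy).2
  have h2 : ∑ z ∈ (U ×ˢ U).filter (fun z : (Fin n → ZMod p) × (Fin n → ZMod p) =>
      ∃ c : ZMod p, z.2 = c • z.1), V z.2 / 2 ≤ p * ∑ x ∈ U, V x / 2 := by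
    rw [Finset.sum_filter, Finset.sum_product_right, Finset.mul_sum]
    refine Finset.sum_le_sum fun y hy => ?_
    simp only
    rw [← Finset.sum_filter, Finset.sum_const, nsmul_eq_mul]
    apply mul_le_mul_of_nonneg_right _ (by linarith [hV y])
    refine hcard y _ fun x hx => ?_
    obtain ⟨c, hc⟩ := (Finset.mem_filter.1 hx).2
    have hc0 : c ≠ 0 := by
      rintro rfl
      rw [zero_smul] at hc
      exact hU y hy hc
    exact ⟨c⁻¹, by rw [hc, smul_smul, inv_mul_cancel₀ hc0, one_smul]⟩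
  rw [Finset.sum_add_distrib]
  refine (add_le_add h1 h2).trans (le_of_eq ?_)
  rw [← mul_add, ← Finset.sum_add_distrib]
  congr 1
  exact Finset.sum_congr rfl fun x _ => by ring

lemma pow_two_le {Q p m : ℕ} (hm : 2 ≤ m) (hQ : 1 ≤ Q) (h : Q ^ m ≤ p) : (Q : ℝ) ^ 2 ≤ p := by
  have h1 : Q ^ 2 ≤ p := (Nat.pow_le_pow_right hQ hm).trans h
  exact_mod_cast h1

/-- **The second moment for one prime.** -/
theorem dia {n s m k d : ℕ} (hn : 2 ≤ n) (hm : 2 ≤ m) (hms : m + 1 ≤ s)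
    (hD : ∀ j, 1 ≤ j → j + 1 ≤ m → 2 * (n - 1) * ((m - j) * (j + 1)) ≤ (m + 2) * (s + 1 - 2 * j)) :
    ∃ C : ℝ, 0 ≤ C ∧ ∀ (p : ℕ) [Fact p.Prime] (M : ℕ) [NeZero M] (hM : p ∣ M) (H : ℕ),
      p * p * (s * H) ^ m < M ^ m → ∀ (U : Finset (Fin n → ZMod p))
        (α : (Fin n → ZMod p) → Fin k × Fin d → ZMod p) (C₁ : ℝ),
        (∀ x ∈ U, x ≠ 0 ∧ ∃ i j, α x (i, j) ≠ 0) →
        0 ≤ C₁ → (U.card : ℝ) ≤ C₁ * (((p : ℝ) - 1) * (p : ℝ) ^ 3) →
        ∑ a : (Fin k × Mono n s) × Fin d → ZMod M, WW H a * SS hM U α a ^ 2 ≤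
          ZZ ((Fin k × Mono n s) × Fin d) M H * ((C + C₁) * (p : ℝ) ^ 4) := by
  classical
  obtain ⟨L, hL⟩ : ∃ L, s = L + 1 := ⟨s - 1, by omega⟩
  have hmL : m ≤ L := by omega
  obtain ⟨C, hC⟩ := hits2 (m := m) (D := 2 * (n - 1)) (L := L) (t := 2)
    (by omega) hmL (by omega) (fun j h1 h2 => by
      have := hD j h1 h2
      have e : L + 2 - 2 * j = s + 1 - 2 * j := by omega
      rw [e]
      exact this)
  refine ⟨n * C + n * (2 ^ (n - 1) * (2 * C)) + n ^ 2 * C ^ 2, by positivity, ?_⟩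
  intro p _ M _ hM H hsize U α C₁ hU hC₁ hUc
  have hp := (Fact.out : p.Prime)
  have hM0 : 0 < M := Nat.pos_of_ne_zero (NeZero.ne M)
  have hs1 : 1 ≤ s := by omega
  obtain ⟨Qp, hQp1, hQp2, 𝒢p, hp1, -, hp3⟩ := hC p hp.one_le
  obtain ⟨Q, hQ1, hQ2, 𝒢, -, hg2, hg3⟩ := hC (p * p) (Nat.mul_pos hp.pos hp.pos)
  have hsp : p * (s * H) ^ m < M ^ m := size_le hp.one_le hsize
  have s1 := sqrt_form (hg2 (ZMod p) (ZMod p))
  have s2 := sqrt_form (hp1 (ZMod p))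
  have hpr : (1 : ℝ) ≤ p := by exact_mod_cast hp.one_le
  have hpp : (0 : ℝ) < p := by linarith
  have hp1c : ((p - 1 : ℕ) : ℝ) = (p : ℝ) - 1 := by rw [Nat.cast_sub hp.one_le, Nat.cast_one]
  have hCr : (0 : ℝ) ≤ C := Nat.cast_nonneg _
  have hnr : (0 : ℝ) ≤ n := Nat.cast_nonneg _
  -- sizes
  have u1 : Real.sqrt ((p * p : ℕ) : ℝ) * Q ≤ (p : ℝ) ^ 2 := by
    rw [Nat.cast_mul, Real.sqrt_mul_self hpp.le]
    have h1 := pow_two_le hm hQ1 hQ2
    rw [Nat.cast_mul, ← sq] at h1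
    have h2 : (Q : ℝ) ≤ p := (abs_le_of_sq_le_sq' h1 hpp.le).2
    nlinarith
  have u2 : Real.sqrt (p : ℝ) * Qp ≤ p := by
    have h1 := pow_two_le hm hQp1 hQp2
    have h2 : (Qp : ℝ) ≤ Real.sqrt p := Real.le_sqrt_of_sq_le h1
    calc Real.sqrt (p : ℝ) * Qp ≤ Real.sqrt p * Real.sqrt p :=
          mul_le_mul_of_nonneg_left h2 (Real.sqrt_nonneg _)
      _ = p := Real.mul_self_sqrt hpp.le
  have v1 : ((allPairs 𝒢 (ZMod p) (ZMod p)).card : ℝ) ^ (n - 1) ≤ C * (p : ℝ) ^ 2 :=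
    s1.trans (mul_le_mul_of_nonneg_left u1 hCr)
  have v2 : ((allRts 𝒢p (ZMod p)).card : ℝ) ^ (n - 1) ≤ C * p :=
    s2.trans (mul_le_mul_of_nonneg_left u2 hCr)
  obtain ⟨Zt, hZt⟩ : ∃ Zt, Zt = ZZ ((Fin k × Mono n s) × Fin d) M H := ⟨_, rfl⟩
  have hZ0 : 0 ≤ Zt := by rw [hZt]; exact ZZ_nonneg
  -- the values
  obtain ⟨V, hV⟩ : ∃ V : (Fin n → ZMod p) → ℝ, V = fun x =>
      ∑ a : (Fin k × Mono n s) × Fin d → ZMod M, WW H a * ind hM (cof (α x) x) a ^ 2 := ⟨_, rfl⟩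
  have hV0 : ∀ x, 0 ≤ V x := by
    intro x
    rw [hV]
    exact Finset.sum_nonneg fun a _ => mul_nonneg (WW_nonneg H a) (sq_nonneg _)
  obtain ⟨T, hT⟩ : ∃ T : (Fin n → ZMod p) × (Fin n → ZMod p) → ℝ, T = fun z =>
      ∑ a : (Fin k × Mono n s) × Fin d → ZMod M,
        WW H a * (ind hM (cof (α z.1) z.1) a * ind hM (cof (α z.2) z.2) a) := ⟨_, rfl⟩
  have hsum : ∑ a : (Fin k × Mono n s) × Fin d → ZMod M, WW H a * SS hM U α a ^ 2 =
      ∑ z ∈ U ×ˢ U, T z := by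
    simp_rw [sq, hT]
    exact sum_SS_SS hM hM H U U α α
  -- the exceptional points
  obtain ⟨E, hE⟩ : ∃ E, E = U.filter fun x => Sg 𝒢p x := ⟨_, rfl⟩
  have hEc : (E.card : ℝ) ≤ n * (((p : ℝ) - 1) * (C * p)) := by
    have h3 := cnt_sg E fun x hx => by rw [hE] at hx; exact (Finset.mem_filter.1 hx).2
    have h6 : (E.card : ℝ) ≤ n * (((p - 1 : ℕ) : ℝ) *
        ((allRts 𝒢p (ZMod p)).card : ℝ) ^ (n - 1)) := by exact_mod_cast h3
    rw [hp1c] at h6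
    refine h6.trans (mul_le_mul_of_nonneg_left ?_ hnr)
    exact mul_le_mul_of_nonneg_left v2 (by linarith)
  have hVb : ∀ x ∈ U, V x ≤ Zt / p + if x ∈ E then Zt else 0 := by
    intro x hx
    by_cases hxE : x ∈ E
    · rw [if_pos hxE, hV, hZt]
      have h1 := V_le (M := M) hM H (cof (s := s) (α x) x)
      have h2 : 0 ≤ ZZ ((Fin k × Mono n s) × Fin d) M H / p := div_nonneg ZZ_nonneg hpp.le
      linarith
    · rw [if_neg hxE, add_zero, hV, hZt]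
      apply V_eq
      by_contra hne
      apply hxE
      obtain ⟨θ, l, hθ, hl, h⟩ := freq1 hM hne
      rw [hE, Finset.mem_filter]
      exact ⟨hx, exc_one (L := L) hp3 hmL hL (hU x hx).2 (hU x hx).1 hθ hl h
        (by rw [← hL]; exact hsp)⟩
  have hVs : ∑ x ∈ U, V x ≤ Zt * (U.card / p + E.card) := by
    refine (Finset.sum_le_sum hVb).trans ?_
    rw [Finset.sum_add_distrib, Finset.sum_const, nsmul_eq_mul, ← Finset.sum_filter,
      Finset.sum_const, nsmul_eq_mul]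
    have h1 : ((U.filter fun x => x ∈ E).card : ℝ) ≤ E.card := by
      exact_mod_cast Finset.card_le_card fun x hx => (Finset.mem_filter.1 hx).2
    calc (U.card : ℝ) * (Zt / p) + ((U.filter fun x => x ∈ E).card : ℝ) * Zt ≤
          (U.card : ℝ) * (Zt / p) + E.card * Zt := by
          have := mul_le_mul_of_nonneg_right h1 hZ0
          linarith
      _ = _ := by ring
  -- proportional pairs
  have hprop : ∑ z ∈ (U ×ˢ U).filter (fun z : (Fin n → ZMod p) × (Fin n → ZMod p) =>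
      ∃ c : ZMod p, z.2 = c • z.1), T z ≤ Zt * ((C₁ + n * C) * (p : ℝ) ^ 4) := by
    have h1 : ∀ z, T z ≤ V z.1 / 2 + V z.2 / 2 := by
      intro z
      rw [hT, hV]
      exact T_le hM H _ _
    refine (Finset.sum_le_sum fun z _ => h1 z).trans ?_
    refine (sum_prop U (fun x hx => (hU x hx).1) V hV0).trans ?_
    calc (p : ℝ) * ∑ x ∈ U, V x ≤ p * (Zt * (U.card / p + E.card)) :=
          mul_le_mul_of_nonneg_left hVs hpp.le
      _ = Zt * (U.card + p * E.card) := by field_simp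
      _ ≤ Zt * ((C₁ + n * C) * (p : ℝ) ^ 4) := by
          apply mul_le_mul_of_nonneg_left _ hZ0
          have a1 : C₁ * (((p : ℝ) - 1) * (p : ℝ) ^ 3) ≤ C₁ * (p : ℝ) ^ 4 := by
            apply mul_le_mul_of_nonneg_left _ hC₁
            have : (0 : ℝ) ≤ (p : ℝ) ^ 3 := by positivity
            have e2 : ((p : ℝ) - 1) * (p : ℝ) ^ 3 = (p : ℝ) ^ 4 - (p : ℝ) ^ 3 := by ring
            rw [e2]
            linarith
          have a2 : (p : ℝ) * (n * (((p : ℝ) - 1) * (C * p))) ≤ n * C * (p : ℝ) ^ 4 := by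
            have e1 : (p : ℝ) * (n * (((p : ℝ) - 1) * (C * p))) =
                n * C * (((p : ℝ) - 1) * (p : ℝ) ^ 2) := by ring
            rw [e1]
            apply mul_le_mul_of_nonneg_left _ (by positivity)
            have b1 : (0 : ℝ) ≤ (p : ℝ) ^ 2 := by positivity
            have b2 : (p : ℝ) ^ 3 ≤ (p : ℝ) ^ 4 := pow_le_pow_right₀ hpr (by norm_num)
            have e2 : ((p : ℝ) - 1) * (p : ℝ) ^ 2 = (p : ℝ) ^ 3 - (p : ℝ) ^ 2 := by ring
            rw [e2]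
            linarith
          have a3 := mul_le_mul_of_nonneg_left hEc hpp.le
          have e3 : (C₁ + n * C) * (p : ℝ) ^ 4 = C₁ * (p : ℝ) ^ 4 + n * C * (p : ℝ) ^ 4 := by ring
          rw [e3]
          linarith
  -- the other pairs
  obtain ⟨S, hS⟩ : ∃ S : Finset (ZMod p × ZMod p), S = allPairs 𝒢 (ZMod p) (ZMod p) ∪
      (allRts 𝒢p (ZMod p)).image fun t => (t, t) := ⟨_, rfl⟩
  have hSc : ((S.card : ℕ) : ℝ) ^ (n - 1) ≤ 2 ^ (n - 1) * (2 * C) * (p : ℝ) ^ 2 := by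
    have h1 : S.card ≤ (allPairs 𝒢 (ZMod p) (ZMod p)).card + (allRts 𝒢p (ZMod p)).card := by
      rw [hS]
      exact (Finset.card_union_le _ _).trans (Nat.add_le_add_left Finset.card_image_le _)
    have h2 : ((S.card : ℕ) : ℝ) ≤ ((allPairs 𝒢 (ZMod p) (ZMod p)).card : ℝ) +
        ((allRts 𝒢p (ZMod p)).card : ℝ) := by exact_mod_cast h1
    have h3 := pow_le_pow_left₀ (Nat.cast_nonneg _) h2 (n - 1)
    have h4 := add_pow_le (Nat.cast_nonneg ((allPairs 𝒢 (ZMod p) (ZMod p)).card) : (0 : ℝ) ≤ _)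
      (Nat.cast_nonneg ((allRts 𝒢p (ZMod p)).card) : (0 : ℝ) ≤ _) (n - 1)
    have h5 : (2 : ℝ) ^ (n - 1 - 1) ≤ 2 ^ (n - 1) := pow_le_pow_right₀ (by norm_num) (by omega)
    have h6 : (C : ℝ) * p ≤ C * (p : ℝ) ^ 2 := by
      apply mul_le_mul_of_nonneg_left _ hCr
      nlinarith
    calc ((S.card : ℕ) : ℝ) ^ (n - 1) ≤ 2 ^ (n - 1 - 1) *
          (((allPairs 𝒢 (ZMod p) (ZMod p)).card : ℝ) ^ (n - 1) +
            ((allRts 𝒢p (ZMod p)).card : ℝ) ^ (n - 1)) := h3.trans h4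
      _ ≤ 2 ^ (n - 1) * (C * (p : ℝ) ^ 2 + C * (p : ℝ) ^ 2) := by
          apply mul_le_mul h5 (add_le_add v1 (v2.trans h6)) (by positivity) (by positivity)
      _ = _ := by ring
  obtain ⟨P1, hP1⟩ : ∃ P1 : (Fin n → ZMod p) × (Fin n → ZMod p) → Prop, P1 = fun z =>
      ∃ k₀, z.1 k₀ ≠ 0 ∧ z.2 k₀ ≠ 0 ∧ ∀ u, u ≠ k₀ → (z.1 u / z.1 k₀, z.2 u / z.2 k₀) ∈ S :=
    ⟨_, rfl⟩
  obtain ⟨B₁, hB₁⟩ : ∃ B₁, B₁ = (U ×ˢ U).filter P1 := ⟨_, rfl⟩
  have c1 : (B₁.card : ℝ) ≤ n * (2 ^ (n - 1) * (2 * C)) * (p : ℝ) ^ 4 := by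
    have h1 := cnt_prs (S := S) B₁ fun z hz => by
      rw [hB₁, Finset.mem_filter, hP1] at hz
      exact hz.2
    have h2 : (B₁.card : ℝ) ≤ n * ((((p - 1 : ℕ) : ℝ) * ((p - 1 : ℕ) : ℝ)) *
        ((S.card : ℕ) : ℝ) ^ (n - 1)) := by exact_mod_cast h1
    rw [hp1c] at h2
    refine h2.trans ?_
    have h3 : ((p : ℝ) - 1) * ((p : ℝ) - 1) ≤ (p : ℝ) ^ 2 := by
      have e2 : ((p : ℝ) - 1) * ((p : ℝ) - 1) = (p : ℝ) ^ 2 - 2 * p + 1 := by ring
      rw [e2]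
      linarith
    calc (n : ℝ) * ((((p : ℝ) - 1) * ((p : ℝ) - 1)) * ((S.card : ℕ) : ℝ) ^ (n - 1)) ≤
          n * ((p : ℝ) ^ 2 * (2 ^ (n - 1) * (2 * C) * (p : ℝ) ^ 2)) := by
          apply mul_le_mul_of_nonneg_left _ hnr
          exact mul_le_mul h3 hSc (by positivity) (by positivity)
      _ = _ := by ring
  have c2 : ((E ×ˢ E).card : ℝ) ≤ n ^ 2 * C ^ 2 * (p : ℝ) ^ 4 := by
    rw [Finset.card_product, Nat.cast_mul]
    have h1 : (E.card : ℝ) ≤ n * C * (p : ℝ) ^ 2 := by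
      refine hEc.trans ?_
      have : (n : ℝ) * (((p : ℝ) - 1) * (C * p)) = n * C * (((p : ℝ) - 1) * p) := by ring
      rw [this]
      apply mul_le_mul_of_nonneg_left _ (by positivity)
      have e2 : ((p : ℝ) - 1) * p = (p : ℝ) ^ 2 - p := by ring
      rw [e2]
      linarith
    calc (E.card : ℝ) * E.card ≤ (n * C * (p : ℝ) ^ 2) * (n * C * (p : ℝ) ^ 2) :=
          mul_le_mul h1 h1 (Nat.cast_nonneg _) (by positivity)
      _ = _ := by ring
  have hTz : ∀ z, |T z| ≤ Zt := by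
    intro z
    rw [hT, hZt]
    exact T_abs hM H _ _
  have hnon : |∑ z ∈ (U ×ˢ U).filter (fun z : (Fin n → ZMod p) × (Fin n → ZMod p) =>
      ¬ ∃ c : ZMod p, z.2 = c • z.1), T z| ≤ B₁.card * Zt + (E ×ˢ E).card * Zt := by
    refine sum_two _ B₁ (E ×ˢ E) T hZ0 hZ0 (fun z _ => hTz z) (fun z _ => hTz z) ?_
    intro z hz hne
    rw [Finset.mem_filter] at hz
    obtain ⟨hz, hzc⟩ := hz
    rw [hT] at hne
    obtain ⟨θ, l, l', hθ, hl, hl', h⟩ := freq2 hM hM hne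
    rw [Finset.mem_product] at hz
    have h1 := exc_eq (L := L) hp3 hg3 hmL hL (hU z.1 hz.1).2 (hU z.2 hz.2).2 (hU z.1 hz.1).1
      (hU z.2 hz.2).1 hzc hθ hl hl' h (by rw [← hL]; exact hsize)
    rcases h1 with ⟨k₀, hk, hk', h1⟩ | ⟨h1, h2⟩
    · left
      rw [hB₁, Finset.mem_filter, hP1, Finset.mem_product]
      refine ⟨hz, k₀, hk, hk', fun u hu => ?_⟩
      rw [hS, Finset.mem_union]
      rcases h1 u hu with h2 | ⟨h2, h3⟩
      · exact Or.inl h2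
      · right
        rw [Finset.mem_image]
        exact ⟨_, h3, by rw [← h2]⟩
    · right
      rw [Finset.mem_product, hE, Finset.mem_filter, Finset.mem_filter]
      exact ⟨⟨hz.1, h1⟩, ⟨hz.2, h2⟩⟩
  rw [hsum, ← Finset.sum_filter_add_sum_filter_not (U ×ˢ U)
    (fun z : (Fin n → ZMod p) × (Fin n → ZMod p) => ∃ c : ZMod p, z.2 = c • z.1), ← hZt]
  have h3 := (le_abs_self _).trans hnon
  have h4 := mul_le_mul_of_nonneg_right c1 hZ0
  have h5 := mul_le_mul_of_nonneg_right c2 hZ0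
  calc _ ≤ Zt * ((C₁ + n * C) * (p : ℝ) ^ 4) + (n * (2 ^ (n - 1) * (2 * C)) * (p : ℝ) ^ 4 * Zt +
        n ^ 2 * C ^ 2 * (p : ℝ) ^ 4 * Zt) := by linarith
    _ = _ := by ring

end Dia

end Pool.Agent.LL
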