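import Pool.Agent.LL.Coo

/-! Long-range Lefschetz: the exceptional pairs of points. -/

set_option autoImplicit false
set_option linter.unusedSectionVars false

namespace Pool.Agent.LL

open Polynomial Finset
open Pool.Agent.Helper29.LN (Mono ver)

section Exc

variable {n s k d m L : ℕ} {p q : ℕ} [Fact p.Prime] [Fact q.Prime] {M : ℕ} [NeZero M] {H : ℕ}

/-- single type: all ratios of coordinates are roots -/
def Sg (𝒢 : Finset ℤ[X]) (x : Fin n → ZMod p) : Prop :=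
  ∃ k₀, x k₀ ≠ 0 ∧ ∀ u, u ≠ k₀ → x u / x k₀ ∈ allRts 𝒢 (ZMod p)

lemma dvd_crd {θ : (Fin k × Mono n s) × Fin d → ℤ} {c : (Fin k × Mono n s) × Fin d → ZMod p}
    {c' : (Fin k × Mono n s) × Fin d → ZMod q} {l : ZMod p} {l' : ZMod q}
    (h : ∀ e, ZMod.stdAddChar ((θ e : ℤ) : ZMod M) =
      (ZMod.stdAddChar (l * c e) * ZMod.stdAddChar (l' * c' e) : ℂ)) (P : ℤ[X])
    (e : ℕ → (Fin k × Mono n s) × Fin d) :
    ((M : ℤ) ∣ ∑ j ∈ range (L + 1), P.coeff j * θ (e j)) ↔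
      (ZMod.stdAddChar (l * ∑ j ∈ range (L + 1), (P.coeff j : ZMod p) * c (e j)) *
        ZMod.stdAddChar (l' * ∑ j ∈ range (L + 1), (P.coeff j : ZMod q) * c' (e j)) : ℂ) = 1 := by
  rw [dvd_iff, comb2 h (range (L + 1)) (fun j => P.coeff j) e]

lemma mul_ne {F : Type} [Field F] {l a b x : F} {t : ℕ} (hl : l ≠ 0) (ha : a ≠ 0) (hb : b ≠ 0)
    (hx : x ≠ 0) : l * (a * (b * x ^ t)) ≠ 0 :=
  mul_ne_zero hl (mul_ne_zero ha (mul_ne_zero hb (pow_ne_zero _ hx)))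

lemma mul_assoc_zero {F : Type} [Field F] {l a b x E : F} {t : ℕ} (hl : l ≠ 0) (ha : a ≠ 0)
    (hb : b ≠ 0) (hx : x ≠ 0) : l * (a * (b * x ^ t) * E) = 0 ↔ E = 0 := by
  constructor
  · intro h
    by_contra hE
    exact mul_ne_zero hl (mul_ne_zero (mul_ne_zero ha (mul_ne_zero hb (pow_ne_zero _ hx))) hE) h
  · rintro rfl
    ring

lemma size_le {a b X Y : ℕ} (hb : 1 ≤ b) (h : a * b * X < Y) : a * X < Y := by
  refine lt_of_le_of_lt ?_ h
  calc a * X = a * 1 * X := by ring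
    _ ≤ a * b * X := Nat.mul_le_mul_right _ (Nat.mul_le_mul_left _ hb)

lemma size_le' {a b X Y : ℕ} (ha : 1 ≤ a) (h : a * b * X < Y) : b * X < Y := by
  rw [mul_comm a b] at h
  exact size_le ha h

/-- the second linear form vanishes on the line -/
lemma sg_of_zero {𝒢 : Finset ℤ[X]} (h𝒢 : HitsRoot 𝒢 m L p) (hmL : m ≤ L) (hs : s = L + 1)
    {α : Fin k × Fin d → ZMod p} {α' : Fin k × Fin d → ZMod q} {x : Fin n → ZMod p}
    {y : Fin n → ZMod q} {θ : (Fin k × Mono n s) × Fin d → ℤ} {l : ZMod p} {l' : ZMod q}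
    (hθ : ∀ e, |θ e| ≤ (H : ℤ)) (hl : l ≠ 0)
    (h : ∀ e, ZMod.stdAddChar ((θ e : ℤ) : ZMod M) =
      (ZMod.stdAddChar (l * cof α x e) * ZMod.stdAddChar (l' * cof α' y e) : ℂ))
    (hM : p * ((L + 1) * H) ^ m < M ^ m) {k₀ : Fin n} (hx : x k₀ ≠ 0) {i : Fin k} {j₀ : Fin d}
    (hα : α (i, j₀) ≠ 0) (h0 : y k₀ = 0 ∨ α' (i, j₀) = 0) : Sg 𝒢 x := by
  refine ⟨k₀, hx, fun u _ => ?_⟩
  have h00 : 0 + s = s := Nat.zero_add s
  refine sgl h𝒢 hmL (θ := fun j => θ (crd i j₀ (mon0 n) h00 k₀ u j)) (fun j _ => hθ _) hM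
    (A := l * (α (i, j₀) * (1 * x k₀ ^ s))) (mul_ne hl hα one_ne_zero hx) ?_
  intro P hP
  rw [dvd_crd h, sum_cof α i j₀ (mon0 n) h00 hx u (by omega) hP, ver_mon0,
    sum_cof_zero α' i j₀ (mon0 n) h00 u (by omega) h0 P, mul_zero, AddChar.map_zero_eq_one, mul_one,
    one_iff, ← mul_assoc]

/-- the exceptional pairs for different primes -/
theorem exc_ne {𝒢p 𝒢q 𝒢 : Finset ℤ[X]} (hp : HitsRoot 𝒢p m L p) (hq : HitsRoot 𝒢q m L q)
    (h𝒢 : HitsRoot 𝒢 m L (p * q)) (hmL : m ≤ L) (hs : s = L + 1) (hpq : p ≠ q)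
    {α : Fin k × Fin d → ZMod p} {α' : Fin k × Fin d → ZMod q} {x : Fin n → ZMod p}
    {y : Fin n → ZMod q} (hα : ∃ i j, α (i, j) ≠ 0) (hα' : ∃ i j, α' (i, j) ≠ 0) (hx : x ≠ 0)
    (hy : y ≠ 0) {θ : (Fin k × Mono n s) × Fin d → ℤ} {l : ZMod p} {l' : ZMod q}
    (hθ : ∀ e, |θ e| ≤ (H : ℤ)) (hl : l ≠ 0) (hl' : l' ≠ 0)
    (h : ∀ e, ZMod.stdAddChar ((θ e : ℤ) : ZMod M) =
      (ZMod.stdAddChar (l * cof α x e) * ZMod.stdAddChar (l' * cof α' y e) : ℂ))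
    (hM : p * q * ((L + 1) * H) ^ m < M ^ m) :
    ((∃ k₀, x k₀ ≠ 0 ∧ y k₀ ≠ 0 ∧ ∀ u, u ≠ k₀ →
        (x u / x k₀, y u / y k₀) ∈ allPairs 𝒢 (ZMod p) (ZMod q)) ∧
      ∃ e : (Fin k × Mono n s) × Fin d, cof α x e ≠ 0 ∧ cof α' y e ≠ 0) ∨
    (Sg 𝒢p x ∧ Sg 𝒢q y ∧
      (∃ e : (Fin k × Mono n s) × Fin d, cof α x e ≠ 0 ∧ cof α' y e = 0) ∧
      ∃ e : (Fin k × Mono n s) × Fin d, cof α x e = 0 ∧ cof α' y e ≠ 0) := by
  have h00 : 0 + s = s := Nat.zero_add s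
  have hcof : ∀ {p : ℕ} [Fact p.Prime] (α : Fin k × Fin d → ZMod p) (x : Fin n → ZMod p) (i j₀ k₀),
      cof α x (crd i j₀ (mon0 n) h00 k₀ k₀ 0) = α (i, j₀) * x k₀ ^ s := by
    intro p _ α x i j₀ k₀
    unfold cof crd
    simp only
    rw [ver_mon _ _ _ _ _ (Nat.zero_le _), ver_mon0]
    simp
  by_cases hI : ∃ k₀ i j₀, x k₀ ≠ 0 ∧ y k₀ ≠ 0 ∧ α (i, j₀) ≠ 0 ∧ α' (i, j₀) ≠ 0
  · left
    obtain ⟨k₀, i, j₀, hxk, hyk, ha, ha'⟩ := hI
    refine ⟨⟨k₀, hxk, hyk, fun u _ => ?_⟩, crd i j₀ (mon0 n) h00 k₀ k₀ 0, ?_, ?_⟩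
    · refine prs_ne h𝒢 hmL (θ := fun j => θ (crd i j₀ (mon0 n) h00 k₀ u j)) (fun j _ => hθ _) hM ?_
      intro P hP
      rw [dvd_crd h, sum_cof α i j₀ (mon0 n) h00 hxk u (by omega) hP,
        sum_cof α' i j₀ (mon0 n) h00 hyk u (by omega) hP, ver_mon0, ver_mon0, prod_one_ne hpq,
        mul_assoc_zero hl ha one_ne_zero hxk, mul_assoc_zero hl' ha' one_ne_zero hyk]
    · rw [hcof]; exact mul_ne_zero ha (pow_ne_zero _ hxk)
    · rw [hcof]; exact mul_ne_zero ha' (pow_ne_zero _ hyk)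
  · right
    push Not at hI
    obtain ⟨k₀, hxk⟩ := Function.ne_iff.1 hx
    obtain ⟨k₁, hyk⟩ := Function.ne_iff.1 hy
    obtain ⟨i, j₀, ha⟩ := hα
    obtain ⟨i', j₁, ha'⟩ := hα'
    have e1 : y k₀ = 0 ∨ α' (i, j₀) = 0 := by
      by_cases h1 : y k₀ = 0
      · exact Or.inl h1
      · exact Or.inr (hI k₀ i j₀ hxk h1 ha)
    have e2 : x k₁ = 0 ∨ α (i', j₁) = 0 := by
      by_cases h1 : x k₁ = 0
      · exact Or.inl h1
      · right
        by_contra h2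
        exact ha' (hI k₁ i' j₁ h1 hyk h2)
    have hp1 : 1 ≤ p := (Fact.out : p.Prime).one_le
    have hq1 : 1 ≤ q := (Fact.out : q.Prime).one_le
    refine ⟨sg_of_zero hp hmL hs hθ hl h (size_le hq1 hM) hxk ha e1, ?_,
      ⟨crd i j₀ (mon0 n) h00 k₀ k₀ 0, ?_, ?_⟩, ⟨crd i' j₁ (mon0 n) h00 k₁ k₁ 0, ?_, ?_⟩⟩
    · exact sg_of_zero (α' := α) (y := x) (l' := l) hq hmL hs hθ hl'
        (fun e => by rw [h e, mul_comm]) (size_le' hp1 hM) hyk ha' e2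
    · rw [hcof]; exact mul_ne_zero ha (pow_ne_zero _ hxk)
    · rw [hcof]
      rcases e1 with e1 | e1
      · rw [e1, zero_pow (by omega), mul_zero]
      · rw [e1, zero_mul]
    · rw [hcof]
      rcases e2 with e2 | e2
      · rw [e2, zero_pow (by omega), mul_zero]
      · rw [e2, zero_mul]
    · rw [hcof]; exact mul_ne_zero ha' (pow_ne_zero _ hyk)

/-- the exceptional pairs for equal primes -/
theorem exc_eq {𝒢p 𝒢 : Finset ℤ[X]} (hp : HitsRoot 𝒢p m L p) (h𝒢 : HitsRoot 𝒢 m L (p * p))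
    (hmL : m ≤ L) (hs : s = L + 1) {α α' : Fin k × Fin d → ZMod p} {x y : Fin n → ZMod p}
    (hα : ∃ i j, α (i, j) ≠ 0) (hα' : ∃ i j, α' (i, j) ≠ 0) (hx : x ≠ 0) (hy : y ≠ 0)
    (hxy : ¬ ∃ c : ZMod p, y = c • x) {θ : (Fin k × Mono n s) × Fin d → ℤ} {l l' : ZMod p}
    (hθ : ∀ e, |θ e| ≤ (H : ℤ)) (hl : l ≠ 0) (hl' : l' ≠ 0)
    (h : ∀ e, ZMod.stdAddChar ((θ e : ℤ) : ZMod M) =
      (ZMod.stdAddChar (l * cof α x e) * ZMod.stdAddChar (l' * cof α' y e) : ℂ))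
    (hM : p * p * ((L + 1) * H) ^ m < M ^ m) :
    (∃ k₀, x k₀ ≠ 0 ∧ y k₀ ≠ 0 ∧ ∀ u, u ≠ k₀ →
        ((x u / x k₀, y u / y k₀) ∈ allPairs 𝒢 (ZMod p) (ZMod p) ∨
          (x u / x k₀ = y u / y k₀ ∧ x u / x k₀ ∈ allRts 𝒢p (ZMod p)))) ∨
    (Sg 𝒢p x ∧ Sg 𝒢p y) := by
  have h00 : 0 + s = s := Nat.zero_add s
  have h11 : 1 + L = s := by omega
  have hp1 : 1 ≤ p := (Fact.out : p.Prime).one_le
  by_cases hI : ∃ k₀ i j₀, x k₀ ≠ 0 ∧ y k₀ ≠ 0 ∧ α (i, j₀) ≠ 0 ∧ α' (i, j₀) ≠ 0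
  · left
    obtain ⟨k₀, i, j₀, hxk, hyk, ha, ha'⟩ := hI
    refine ⟨k₀, hxk, hyk, fun u _ => ?_⟩
    by_cases htu : x u / x k₀ = y u / y k₀
    · right
      refine ⟨htu, ?_⟩
      by_cases hAB : l * (α (i, j₀) * (1 * x k₀ ^ s)) + l' * (α' (i, j₀) * (1 * y k₀ ^ s)) = 0
      · -- use a coordinate where the ratios differ
        have hv : ∃ v, x v / x k₀ ≠ y v / y k₀ := by
          by_contra hcon
          push Not at hcon
          apply hxy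
          refine ⟨y k₀ / x k₀, ?_⟩
          funext v
          have h1 := hcon v
          rw [div_eq_div_iff hxk hyk] at h1
          rw [Pi.smul_apply, smul_eq_mul, div_mul_eq_mul_div, eq_div_iff hxk]
          rw [← h1]; ring
        obtain ⟨v, hv⟩ := hv
        refine sgl hp hmL (θ := fun j => θ (crd i j₀ (mon1 v) h11 k₀ u j)) (fun j _ => hθ _)
          (size_le hp1 hM) (A := l * (α (i, j₀) * (x v * x k₀ ^ L)) +
            l' * (α' (i, j₀) * (y v * y k₀ ^ L))) ?_ ?_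
        · intro hzero
          have e1 : x k₀ ^ s = x k₀ ^ L * x k₀ := by rw [← pow_succ]; congr 1
          have e2 : y k₀ ^ s = y k₀ ^ L * y k₀ := by rw [← pow_succ]; congr 1
          rw [e1, e2] at hAB
          have e3 : l * (α (i, j₀) * (x k₀ ^ L * x k₀)) * (x v / x k₀) =
              l * (α (i, j₀) * (x v * x k₀ ^ L)) := by field_simp
          have e4 : l' * (α' (i, j₀) * (y k₀ ^ L * y k₀)) * (y v / y k₀) =
              l' * (α' (i, j₀) * (y v * y k₀ ^ L)) := by field_simp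
          rw [← e3, ← e4] at hzero
          have e5 : l * (α (i, j₀) * (x k₀ ^ L * x k₀)) * (x v / x k₀ - y v / y k₀) = 0 := by
            linear_combination hzero - (y v / y k₀) * hAB
          rcases mul_eq_zero.1 e5 with e6 | e6
          · exact mul_ne_zero hl (mul_ne_zero ha (mul_ne_zero (pow_ne_zero _ hxk) hxk)) e6
          · exact hv (sub_eq_zero.1 e6)
        · intro P hP
          rw [dvd_crd h, sum_cof α i j₀ (mon1 v) h11 hxk u le_rfl hP,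
            sum_cof α' i j₀ (mon1 v) h11 hyk u le_rfl hP, ver_mon1, ver_mon1, prod_one_eq, ← htu]
          have : l * (α (i, j₀) * (x v * x k₀ ^ L) * (aeval (x u / x k₀)) P) +
              l' * (α' (i, j₀) * (y v * y k₀ ^ L) * (aeval (x u / x k₀)) P) =
              (l * (α (i, j₀) * (x v * x k₀ ^ L)) + l' * (α' (i, j₀) * (y v * y k₀ ^ L))) *
                (aeval (x u / x k₀)) P := by ring
          rw [this]
      · refine sgl hp hmL (θ := fun j => θ (crd i j₀ (mon0 n) h00 k₀ u j)) (fun j _ => hθ _)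
          (size_le hp1 hM) hAB ?_
        intro P hP
        rw [dvd_crd h, sum_cof α i j₀ (mon0 n) h00 hxk u (by omega) hP,
          sum_cof α' i j₀ (mon0 n) h00 hyk u (by omega) hP, ver_mon0, ver_mon0, prod_one_eq, ← htu]
        have : l * (α (i, j₀) * (1 * x k₀ ^ s) * (aeval (x u / x k₀)) P) +
            l' * (α' (i, j₀) * (1 * y k₀ ^ s) * (aeval (x u / x k₀)) P) =
            (l * (α (i, j₀) * (1 * x k₀ ^ s)) + l' * (α' (i, j₀) * (1 * y k₀ ^ s))) *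
              (aeval (x u / x k₀)) P := by ring
        rw [this]
    · left
      refine prs_eq h𝒢 hmL (θ := fun j => θ (crd i j₀ (mon0 n) h00 k₀ u j)) (fun j _ => hθ _) hM
        htu (A := l * (α (i, j₀) * (1 * x k₀ ^ s))) (B := l' * (α' (i, j₀) * (1 * y k₀ ^ s)))
        (mul_ne hl ha one_ne_zero hxk) (mul_ne hl' ha' one_ne_zero hyk) ?_
      intro P hP
      rw [dvd_crd h, sum_cof α i j₀ (mon0 n) h00 hxk u (by omega) hP,
        sum_cof α' i j₀ (mon0 n) h00 hyk u (by omega) hP, ver_mon0, ver_mon0, prod_one_eq]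
      have : l * (α (i, j₀) * (1 * x k₀ ^ s) * (aeval (x u / x k₀)) P) +
          l' * (α' (i, j₀) * (1 * y k₀ ^ s) * (aeval (y u / y k₀)) P) =
          (l * (α (i, j₀) * (1 * x k₀ ^ s))) * (aeval (x u / x k₀)) P +
            (l' * (α' (i, j₀) * (1 * y k₀ ^ s))) * (aeval (y u / y k₀)) P := by ring
      rw [this]
  · right
    push Not at hI
    obtain ⟨k₀, hxk⟩ := Function.ne_iff.1 hx
    obtain ⟨k₁, hyk⟩ := Function.ne_iff.1 hy
    obtain ⟨i, j₀, ha⟩ := hα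
    obtain ⟨i', j₁, ha'⟩ := hα'
    have e1 : y k₀ = 0 ∨ α' (i, j₀) = 0 := by
      by_cases h1 : y k₀ = 0
      · exact Or.inl h1
      · exact Or.inr (hI k₀ i j₀ hxk h1 ha)
    have e2 : x k₁ = 0 ∨ α (i', j₁) = 0 := by
      by_cases h1 : x k₁ = 0
      · exact Or.inl h1
      · right
        by_contra h2
        exact ha' (hI k₁ i' j₁ h1 hyk h2)
    exact ⟨sg_of_zero hp hmL hs hθ hl h (size_le hp1 hM) hxk ha e1,
      sg_of_zero (α' := α) (y := x) (l' := l) hp hmL hs hθ hl' (fun e => by rw [h e, mul_comm])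
        (size_le hp1 hM) hyk ha' e2⟩

/-- the exceptional points -/
theorem exc_one {𝒢p : Finset ℤ[X]} (hp : HitsRoot 𝒢p m L p) (hmL : m ≤ L) (hs : s = L + 1)
    {α : Fin k × Fin d → ZMod p} {x : Fin n → ZMod p} (hα : ∃ i j, α (i, j) ≠ 0) (hx : x ≠ 0)
    {θ : (Fin k × Mono n s) × Fin d → ℤ} {l : ZMod p} (hθ : ∀ e, |θ e| ≤ (H : ℤ)) (hl : l ≠ 0)
    (h : ∀ e, ZMod.stdAddChar ((θ e : ℤ) : ZMod M) = (ZMod.stdAddChar (l * cof α x e) : ℂ))
    (hM : p * ((L + 1) * H) ^ m < M ^ m) : Sg 𝒢p x := by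
  obtain ⟨k₀, hxk⟩ := Function.ne_iff.1 hx
  obtain ⟨i, j₀, ha⟩ := hα
  exact sg_of_zero (q := p) (α' := 0) (y := 0) (l' := 0) hp hmL hs hθ hl
    (fun e => by rw [h e, zero_mul, AddChar.map_zero_eq_one, mul_one]) hM hxk ha (Or.inl rfl)

end Exc

end Pool.Agent.LL
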