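import Pool.Agent.LL.Classes

/-!
The two conclusions for finite subsets of an abelian group.
-/

set_option autoImplicit false
set_option linter.unusedSectionVars false

namespace Pool.Agent.LL

open Finset

/-- Distinct subset sums. -/
def DS {G : Type*} [AddCommGroup G] (D : Finset G) : Prop :=
  ∀ X Y : Finset G, X ⊆ D → Y ⊆ D → X.sum id = Y.sum id → X = Y

theorem map_sum {G : Type*} [AddCommGroup G] {V : Finset G} (X : Finset {x // x ∈ V}) :
    (X.map (Function.Embedding.subtype _)).sum id = ∑ i ∈ X, (i : G) := by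
  rw [Finset.sum_map]
  rfl

/-- From families to sets. -/
theorem DS_of_Dis {G : Type*} [AddCommGroup G] [DecidableEq G] {V : Finset G}
    (D : Finset {x // x ∈ V}) (h : Dis (fun x : {x // x ∈ V} => (x : G)) D) :
    DS (D.map (Function.Embedding.subtype _)) := by
  intro X Y hX hY hXY
  have hXV : ∀ x ∈ X, x ∈ V := fun x hx => by
    obtain ⟨y, _, rfl⟩ := Finset.mem_map.1 (hX hx)
    exact y.2
  have hYV : ∀ x ∈ Y, x ∈ V := fun x hx => by
    obtain ⟨y, _, rfl⟩ := Finset.mem_map.1 (hY hx)
    exact y.2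
  have eX : (X.subtype (fun x => x ∈ V)).map (Function.Embedding.subtype _) = X := by
    rw [Finset.subtype_map, Finset.filter_true_of_mem hXV]
  have eY : (Y.subtype (fun x => x ∈ V)).map (Function.Embedding.subtype _) = Y := by
    rw [Finset.subtype_map, Finset.filter_true_of_mem hYV]
  have hsub : ∀ Z : Finset G, Z ⊆ D.map (Function.Embedding.subtype _) →
      Z.subtype (fun x => x ∈ V) ⊆ D := by
    intro Z hZ x hx
    obtain ⟨y, hy, hyx⟩ := Finset.mem_map.1 (hZ (Finset.mem_subtype.1 hx))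
    have : y = x := Subtype.ext hyx
    rwa [← this]
  rw [← eX, ← eY, h _ _ (hsub X hX) (hsub Y hY) (by rw [← map_sum, ← map_sum, eX, eY, hXY])]

theorem Dis_of_DS {G : Type*} [AddCommGroup G] [DecidableEq G] {V : Finset G}
    (D : Finset {x // x ∈ V}) (h : DS (D.map (Function.Embedding.subtype _))) :
    Dis (fun x : {x // x ∈ V} => (x : G)) D := by
  intro X Y hX hY hXY
  exact Finset.map_injective _ (h _ _ (Finset.map_subset_map.2 hX) (Finset.map_subset_map.2 hY)
    (by rw [map_sum, map_sum]; exact hXY))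

/-- The theorem for finite subsets of a group. -/
theorem fin_pair {G : Type*} [AddCommGroup G] [DecidableEq G] (V : Finset G) (C L K : ℕ)
    (hL : 1 ≤ L) (hP : ∀ B : Finset G, B ⊆ V → ∃ D : Finset G, D ⊆ B ∧ DS D ∧ B.card ≤ C * D.card)
    (hK : 4 * C * (Nat.clog 2 (3 * L) + 2) + 2 ≤ K) :
    ∃ g : G → Fin K, ∀ B : Finset G, B ⊆ V → (∀ x ∈ B, ∀ y ∈ B, g x = g y) →
      (B.card ≤ L → DS B) ∧
      (B.card ≤ 2 ^ L → ∃ f : G → Fin 4, ∀ i, DS (B.filter (fun x => f x = i))) := by
  classical
  have hKpos : 0 < K := by omega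
  obtain ⟨g, hg⟩ := main_pair (fun x : {x // x ∈ V} => (x : G)) C L K hL (by
    intro B
    obtain ⟨D, hD, hdis, hcard⟩ := hP (B.map (Function.Embedding.subtype _)) (by
      intro x hx
      obtain ⟨y, _, rfl⟩ := Finset.mem_map.1 hx
      exact y.2)
    have hDV : ∀ x ∈ D, x ∈ V := by
      intro x hx
      obtain ⟨y, _, rfl⟩ := Finset.mem_map.1 (hD hx)
      exact y.2
    have eD : (D.subtype (fun x => x ∈ V)).map (Function.Embedding.subtype _) = D := by
      rw [Finset.subtype_map, Finset.filter_true_of_mem hDV]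
    refine ⟨D.subtype (fun x => x ∈ V), ?_, ?_, ?_⟩
    · intro x hx
      obtain ⟨y, hy, hyx⟩ := Finset.mem_map.1 (hD (Finset.mem_subtype.1 hx))
      have : y = x := Subtype.ext hyx
      rwa [← this]
    · apply Dis_of_DS
      rw [eD]
      exact hdis
    · rw [Finset.card_map] at hcard
      rw [Finset.card_subtype, Finset.filter_true_of_mem hDV]
      exact hcard) hK
  refine ⟨fun v => if h : v ∈ V then g ⟨v, h⟩ else ⟨0, hKpos⟩, fun B hBV hmono => ?_⟩
  have hBV' : ∀ x ∈ B, x ∈ V := fun x hx => hBV hx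
  have eB : (B.subtype (fun x => x ∈ V)).map (Function.Embedding.subtype _) = B := by
    rw [Finset.subtype_map, Finset.filter_true_of_mem hBV']
  have hcardB : (B.subtype (fun x => x ∈ V)).card = B.card := by
    rw [Finset.card_subtype, Finset.filter_true_of_mem hBV']
  obtain ⟨h1, h2⟩ := hg (B.subtype (fun x => x ∈ V)) (by
    intro x hx y hy
    have := hmono x (Finset.mem_subtype.1 hx) y (Finset.mem_subtype.1 hy)
    simpa only [x.2, y.2, dif_pos] using this)
  rw [hcardB] at h1 h2
  refine ⟨fun hc => ?_, fun hc => ?_⟩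
  · have := DS_of_Dis _ (h1 hc)
    rwa [eB] at this
  · obtain ⟨f, hf⟩ := h2 hc
    refine ⟨fun v => if h : v ∈ V then f ⟨v, h⟩ else 0, fun i => ?_⟩
    have := DS_of_Dis _ (hf i)
    have e2 : ((B.subtype (fun x => x ∈ V)).filter (fun x => f x = i)).map
        (Function.Embedding.subtype _) =
        B.filter (fun x => (if h : x ∈ V then f ⟨x, h⟩ else 0) = i) := by
      ext x
      simp only [Finset.mem_map, Finset.mem_filter, Finset.mem_subtype,
        Function.Embedding.coe_subtype]
      constructor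
      · rintro ⟨y, ⟨hy, hfy⟩, rfl⟩
        refine ⟨hy, ?_⟩
        rw [dif_pos y.2]
        exact hfy
      · rintro ⟨hx, hfx⟩
        refine ⟨⟨x, hBV hx⟩, ⟨hx, ?_⟩, rfl⟩
        rwa [dif_pos (hBV hx)] at hfx
    rwa [e2] at this

end Pool.Agent.LL
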