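import Pool.Agent.LL.Defs

/-!
The rotation inequality on a group without 2-torsion.
-/

set_option autoImplicit false

namespace Pool.Agent.LL

open Finset
open scoped ENNReal

theorem two_mul_le_sq (a b : ℝ≥0∞) : 2 * (a * b) ≤ a * a + b * b := by
  rcases le_total a b with h | h
  · obtain ⟨d, rfl⟩ := exists_add_of_le h
    calc 2 * (a * (a + d)) ≤ 2 * (a * (a + d)) + d * d := le_self_add
      _ = a * a + (a + d) * (a + d) := by ring
  · obtain ⟨d, rfl⟩ := exists_add_of_le h
    calc 2 * ((b + d) * b) ≤ 2 * ((b + d) * b) + d * d := le_self_add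
      _ = (b + d) * (b + d) + b * b := by ring

section

variable {M : Type*} [AddCommGroup M]

/-- The subgroup of doubles. -/
def dbl (M : Type*) [AddCommGroup M] : AddSubgroup M := (nsmulAddMonoidHom (α := M) 2).range

theorem mem_dbl {m : M} : m ∈ dbl M ↔ ∃ y : M, y + y = m := by
  simp [dbl, AddMonoidHom.mem_range, two_nsmul]

open Classical in
/-- The sum over a class. -/
noncomputable def cs (f : M → ℝ≥0∞) (q : M ⧸ dbl M) : ℝ≥0∞ :=
  ∑' p : M, if (QuotientAddGroup.mk p : M ⧸ dbl M) = q then f p else 0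

open Classical in
theorem rot_eq (h2 : ∀ m : M, m + m = 0 → m = 0) (f h : M → ℝ≥0∞) :
    ∑' (x : M) (y : M), f (x + y) * h (x - y) = ∑' q, cs f q * cs h q := by
  have e1 : ∑' (x : M) (y : M), f (x + y) * h (x - y) =
      ∑' (p : M) (s : M),
        if (QuotientAddGroup.mk p : M ⧸ dbl M) = QuotientAddGroup.mk s then f p * h s else 0 := by
    rw [← ENNReal.tsum_prod (f := fun x y => f (x + y) * h (x - y)),
      ← ENNReal.tsum_prod (f := fun p s =>
        if (QuotientAddGroup.mk p : M ⧸ dbl M) = QuotientAddGroup.mk s then f p * h s else 0)]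
    let g : M × M → M × M := fun z => (z.1 + z.2, z.1 - z.2)
    have hg : Function.Injective g := by
      rintro ⟨x, y⟩ ⟨x', y'⟩ hxy
      simp only [g, Prod.mk.injEq] at hxy
      obtain ⟨ha, hb⟩ := hxy
      have hx : x = x' := by
        have : (x - x') + (x - x') = 0 := by
          have : (x + y) + (x - y) = (x' + y') + (x' - y') := by rw [ha, hb]
          have h3 : x + x = x' + x' := by
            calc x + x = (x + y) + (x - y) := by abel
              _ = (x' + y') + (x' - y') := this
              _ = x' + x' := by abel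
          calc (x - x') + (x - x') = (x + x) - (x' + x') := by abel
            _ = 0 := by rw [h3, sub_self]
        exact sub_eq_zero.1 (h2 _ this)
      subst hx
      have : y = y' := add_left_cancel ha
      rw [this]
    rw [← hg.tsum_eq (f := fun z : M × M =>
        if (QuotientAddGroup.mk z.1 : M ⧸ dbl M) = QuotientAddGroup.mk z.2 then f z.1 * h z.2 else 0)]
    · refine tsum_congr fun z => ?_
      have : (QuotientAddGroup.mk (g z).1 : M ⧸ dbl M) = QuotientAddGroup.mk (g z).2 := by
        rw [QuotientAddGroup.eq]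
        refine mem_dbl.2 ⟨-z.2, ?_⟩
        simp only [g]; abel
      rw [if_pos this]
    · rintro ⟨p, s⟩ hps
      have hps' : (QuotientAddGroup.mk p : M ⧸ dbl M) = QuotientAddGroup.mk s := by
        by_contra hne
        exact hps (if_neg hne)
      rw [QuotientAddGroup.eq] at hps'
      obtain ⟨y, hy⟩ := mem_dbl.1 hps'
      refine ⟨(p + y, -y), ?_⟩
      have hs : s = p + (y + y) := by rw [hy]; abel
      simp only [g, Prod.mk.injEq]
      refine ⟨by abel, ?_⟩
      rw [hs]; abel
  rw [e1]
  have e2 : ∀ p s : M, (if (QuotientAddGroup.mk p : M ⧸ dbl M) = QuotientAddGroup.mk s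
        then f p * h s else 0) =
      ∑' q : M ⧸ dbl M, (if (QuotientAddGroup.mk p : M ⧸ dbl M) = q then f p else 0) *
        (if (QuotientAddGroup.mk s : M ⧸ dbl M) = q then h s else 0) := by
    intro p s
    rw [tsum_eq_single (QuotientAddGroup.mk p : M ⧸ dbl M)]
    · rw [if_pos rfl]
      by_cases hps : (QuotientAddGroup.mk p : M ⧸ dbl M) = QuotientAddGroup.mk s
      · rw [if_pos hps, if_pos hps.symm]
      · rw [if_neg hps, if_neg (fun h => hps h.symm), mul_zero]
    · intro q hq
      rw [if_neg (fun h => hq h.symm), zero_mul]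
  simp_rw [e2]
  have e3 : ∀ p : M, ∑' s : M, ∑' q : M ⧸ dbl M,
      (if (QuotientAddGroup.mk p : M ⧸ dbl M) = q then f p else 0) *
        (if (QuotientAddGroup.mk s : M ⧸ dbl M) = q then h s else 0) =
      ∑' q : M ⧸ dbl M, (if (QuotientAddGroup.mk p : M ⧸ dbl M) = q then f p else 0) * cs h q := by
    intro p
    rw [ENNReal.tsum_comm]
    refine tsum_congr fun q => ?_
    rw [ENNReal.tsum_mul_left, cs]
  simp_rw [e3]
  rw [ENNReal.tsum_comm]
  refine tsum_congr fun q => ?_
  rw [ENNReal.tsum_mul_right]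
  rfl

/-- The rotation inequality. -/
theorem gl (h2 : ∀ m : M, m + m = 0 → m = 0) (f h : M → ℝ≥0∞) :
    2 * ∑' (x : M) (y : M), f (x + y) * h (x - y) ≤
      ∑' (x : M) (y : M), f (x + y) * f (x - y) + ∑' (x : M) (y : M), h (x + y) * h (x - y) := by
  rw [rot_eq h2 f h, rot_eq h2 f f, rot_eq h2 h h, ← ENNReal.tsum_mul_left, ← ENNReal.tsum_add]
  exact ENNReal.tsum_le_tsum fun q => two_mul_le_sq _ _

end

end Pool.Agent.LL
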