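import Pool.Agent.LL.Cnt

/-! Long-range Lefschetz: the key lemma on short recurrences. -/

set_option autoImplicit false

namespace Pool.Agent.LL

open Polynomial Finset
open Pool.Agent.Helper28.TL (pigeon)

/-- the height of the minimal annihilator -/
lemma height {𝓡 : Type} [CommRing 𝓡] [Fintype 𝓡] {τ : 𝓡} {m e q : ℕ} {G : ℤ[X]} (hq : 1 ≤ q)
    (hme : m ≤ e + 1) (hN : Fintype.card 𝓡 < (q + 1) ^ m) (hG0 : G ≠ 0) (hGm : G.natDegree < m)
    (hdvd : ∀ P : ℤ[X], P.natDegree ≤ e → (∀ n, |P.coeff n| ≤ (q : ℤ)) → aeval τ P = 0 → G ∣ P)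
    (hmah : mah G ≤ m * q) :
    mah G ^ (e + 1 - G.natDegree) ≤
      ((2 ^ (e + 1) * (e + 1) + m : ℕ) : ℝ) ^ (e + 1 - G.natDegree) * (q : ℝ) ^ (m - G.natDegree) := by
  classical
  obtain ⟨K, hK⟩ : ∃ K, K = ⌊2 ^ e * ((e + 1) * q) / mah G⌋₊ := ⟨_, rfl⟩
  obtain ⟨E, hE⟩ : ∃ E, E = e + 1 - G.natDegree := ⟨_, rfl⟩
  have hmu : 0 < mah G := lt_of_lt_of_le one_pos (one_le_mah hG0)
  have hq0 : (0 : ℝ) < q := by exact_mod_cast hq
  have h1 : (q + 1) ^ (e + 1) ≤ (2 * K + 1) ^ E * (univ.image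
      fun c : Fin (e + 1) → Fin (q + 1) => aeval τ (pol fun i => ((c i : ℕ) : ℤ))).card := by
    have h2 := Finset.card_le_mul_card_image (f := fun c : Fin (e + 1) → Fin (q + 1) =>
      aeval τ (pol fun i => ((c i : ℕ) : ℤ))) univ ((2 * K + 1) ^ E) (by
      intro y _
      rw [hK, hE]
      apply card_fibre hG0 (by omega) hdvd
      intro c hc c' hc'
      rw [(Finset.mem_filter.1 hc).2, (Finset.mem_filter.1 hc').2])
    rwa [Finset.card_univ, Fintype.card_fun, Fintype.card_fin, Fintype.card_fin] at h2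
  have h2 : (q + 1) ^ (e + 1) ≤ (2 * K + 1) ^ E * (q + 1) ^ m :=
    h1.trans (Nat.mul_le_mul_left _ ((Finset.card_le_univ _).trans hN.le))
  have h3 : (q + 1) ^ (e + 1 - m) ≤ (2 * K + 1) ^ E := by
    have h4 : (q + 1) ^ (e + 1) = (q + 1) ^ (e + 1 - m) * (q + 1) ^ m := by
      rw [← pow_add]; congr 1; omega
    rw [h4] at h2
    exact Nat.le_of_mul_le_mul_right h2 (by positivity)
  have h4 : q ^ (e + 1 - m) ≤ (2 * K + 1) ^ E := (Nat.pow_le_pow_left (Nat.le_succ q) _).trans h3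
  have h5 : ((2 * K + 1 : ℕ) : ℝ) * mah G ≤ ((2 ^ (e + 1) * (e + 1) + m : ℕ) : ℝ) * q := by
    have h6 : (K : ℝ) ≤ 2 ^ e * ((e + 1) * q) / mah G := by
      rw [hK]; exact Nat.floor_le (by positivity)
    rw [le_div_iff₀ hmu] at h6
    push_cast
    rw [pow_succ]
    nlinarith
  have h6 : (q : ℝ) ^ (e + 1 - m) * mah G ^ E ≤
      (((2 ^ (e + 1) * (e + 1) + m : ℕ) : ℝ) * q) ^ E := by
    calc (q : ℝ) ^ (e + 1 - m) * mah G ^ E ≤ ((2 * K + 1 : ℕ) : ℝ) ^ E * mah G ^ E := by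
          apply mul_le_mul_of_nonneg_right _ (by positivity)
          exact_mod_cast h4
      _ = (((2 * K + 1 : ℕ) : ℝ) * mah G) ^ E := by rw [mul_pow]
      _ ≤ _ := pow_le_pow_left₀ (by positivity) h5 _
  rw [← hE]
  have h7 : (q : ℝ) ^ E = (q : ℝ) ^ (e + 1 - m) * (q : ℝ) ^ (m - G.natDegree) := by
    rw [← pow_add]; congr 1; omega
  rw [mul_pow, h7] at h6
  have h8 : (0 : ℝ) < (q : ℝ) ^ (e + 1 - m) := by positivity
  refine le_of_mul_le_mul_left ?_ h8
  calc _ ≤ _ := h6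
    _ = _ := by ring

/-- the bound for the coefficients of the annihilators of degree `k` -/
def bnd (m e q k : ℕ) : ℕ := (2 ^ m * (2 ^ (e + 1) * (e + 1) + m)) ^ (e + 1 - k) * q ^ (m - k)

/-- the largest possible coefficient -/
def top (m e q k : ℕ) : ℕ := Nat.findGreatest (fun x => x ^ (e + 1 - k) ≤ bnd m e q k) (bnd m e q k)

open Classical in
/-- the finite set of polynomials of the key lemma -/
noncomputable def GG (m e q : ℕ) : Finset ℤ[X] :=
  (Finset.Ico 1 m).biUnion fun k => ((Fintype.piFinset fun _ : Fin (k + 1) =>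
    Finset.Icc (-(top m e q k : ℤ)) (top m e q k : ℤ)).image pol).filter fun G =>
      G.IsPrimitive ∧ 1 ≤ G.natDegree ∧ G.natDegree < m

lemma mem_GG {m e q : ℕ} {G : ℤ[X]} (hG : G.IsPrimitive) (h1 : 1 ≤ G.natDegree)
    (hm : G.natDegree < m) (he : G.natDegree ≤ e)
    (hb : ∀ n, |G.coeff n|.toNat ^ (e + 1 - G.natDegree) ≤ bnd m e q G.natDegree) : G ∈ GG m e q := by
  classical
  unfold GG
  rw [Finset.mem_biUnion]
  refine ⟨G.natDegree, Finset.mem_Ico.2 ⟨h1, hm⟩, ?_⟩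
  rw [Finset.mem_filter]
  refine ⟨?_, hG, h1, hm⟩
  rw [Finset.mem_image]
  refine ⟨fun j => G.coeff j, ?_, ?_⟩
  · rw [Fintype.mem_piFinset]
    intro j
    rw [Finset.mem_Icc, ← abs_le]
    have h2 : |G.coeff j|.toNat ≤ top m e q G.natDegree := by
      exact Nat.le_findGreatest
        (P := fun x => x ^ (e + 1 - G.natDegree) ≤ bnd m e q G.natDegree)
        ((Nat.le_self_pow (by omega) _).trans (hb j)) (hb j)
    have h3 : ((|G.coeff j|.toNat : ℕ) : ℤ) = |G.coeff j| := Int.toNat_of_nonneg (abs_nonneg _)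
    rw [← h3]
    exact_mod_cast h2
  · ext n
    rw [pol_coeff]
    split_ifs with hn
    · rfl
    · exact (coeff_eq_zero_of_natDegree_lt (by omega)).symm

lemma bnd_pos {m e q k : ℕ} (hq : 1 ≤ q) : 1 ≤ bnd m e q k := by
  unfold bnd
  apply Nat.one_le_iff_ne_zero.2
  positivity

lemma top_spec {m e q k : ℕ} (hq : 1 ≤ q) :
    top m e q k ^ (e + 1 - k) ≤ bnd m e q k ∧ 1 ≤ top m e q k := by
  constructor
  · unfold top
    apply Nat.findGreatest_spec (P := fun x => x ^ (e + 1 - k) ≤ bnd m e q k) (bnd_pos hq)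
    rw [one_pow]; exact bnd_pos hq
  · unfold top
    apply Nat.le_findGreatest (bnd_pos hq)
    rw [one_pow]; exact bnd_pos hq

lemma top_pow {m e q k D t : ℕ} (hq : 1 ≤ q) (hke : k ≤ e)
    (hD : D * ((m - k) * (k + 1)) ≤ (m + t) * (e + 1 - k)) :
    ((2 * top m e q k + 1) ^ (k + 1)) ^ D ≤
      (3 * (2 ^ m * (2 ^ (e + 1) * (e + 1) + m))) ^ ((k + 1) * D) * q ^ (m + t) := by
  obtain ⟨h1, h2⟩ := top_spec (m := m) (e := e) (k := k) hq
  obtain ⟨A, hA⟩ : ∃ A, A = 2 ^ m * (2 ^ (e + 1) * (e + 1) + m) := ⟨_, rfl⟩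
  have h3 : top m e q k ^ ((k + 1) * D) ≤ A ^ ((k + 1) * D) * q ^ (m + t) := by
    have hE : e + 1 - k ≠ 0 := by omega
    rw [← Nat.pow_le_pow_iff_left hE]
    calc (top m e q k ^ ((k + 1) * D)) ^ (e + 1 - k) =
          (top m e q k ^ (e + 1 - k)) ^ ((k + 1) * D) := by rw [← pow_mul, ← pow_mul, mul_comm]
      _ ≤ (bnd m e q k) ^ ((k + 1) * D) := Nat.pow_le_pow_left h1 _
      _ = (A ^ ((k + 1) * D)) ^ (e + 1 - k) * q ^ (D * ((m - k) * (k + 1))) := by
          unfold bnd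
          rw [← hA, mul_pow, ← pow_mul, ← pow_mul, ← pow_mul]
          congr 2 <;> ring
      _ ≤ (A ^ ((k + 1) * D)) ^ (e + 1 - k) * q ^ ((m + t) * (e + 1 - k)) :=
          Nat.mul_le_mul_left _ (Nat.pow_le_pow_right hq hD)
      _ = _ := by rw [mul_pow, ← pow_mul q]
  rw [← pow_mul, ← hA, mul_pow, mul_assoc]
  calc (2 * top m e q k + 1) ^ ((k + 1) * D) ≤ (3 * top m e q k) ^ ((k + 1) * D) :=
        Nat.pow_le_pow_left (by omega) _
    _ = 3 ^ ((k + 1) * D) * top m e q k ^ ((k + 1) * D) := mul_pow _ _ _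
    _ ≤ _ := Nat.mul_le_mul_left _ h3

lemma sum_pow_le {s : Finset ℕ} {b : ℕ → ℕ} {D B m : ℕ} (hs : s.card ≤ m) (hm : 1 ≤ m) (hB : 1 ≤ B)
    (hb : ∀ k ∈ s, b k ^ D ≤ B) : (∑ k ∈ s, b k) ^ D ≤ m ^ D * B := by
  by_cases hne : s.Nonempty
  · obtain ⟨k0, hk0, hmax⟩ := Finset.exists_max_image s b hne
    have h1 : ∑ k ∈ s, b k ≤ m * b k0 := by
      calc ∑ k ∈ s, b k ≤ ∑ _k ∈ s, b k0 := Finset.sum_le_sum hmax
        _ = s.card * b k0 := by rw [Finset.sum_const, smul_eq_mul]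
        _ ≤ _ := Nat.mul_le_mul_right _ hs
    calc (∑ k ∈ s, b k) ^ D ≤ (m * b k0) ^ D := Nat.pow_le_pow_left h1 _
      _ = m ^ D * b k0 ^ D := mul_pow _ _ _
      _ ≤ _ := Nat.mul_le_mul_left _ (hb k0 hk0)
  · rw [Finset.not_nonempty_iff_eq_empty] at hne
    rw [hne, Finset.sum_empty]
    calc 0 ^ D ≤ 1 := by
          rcases Nat.eq_zero_or_pos D with h | h
          · rw [h, pow_zero]
          · rw [zero_pow (by omega)]; exact Nat.zero_le _
      _ ≤ m ^ D * B := Nat.one_le_iff_ne_zero.2 (by positivity)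

/-- the key lemma: sequences with short recurrences modulo `M` are annihilated by one of few
polynomials of small degree -/
theorem key {m e D L t : ℕ} (hm : 1 ≤ m) (hme : m ≤ e + 1) (hL : L + 2 = e + m) (hD0 : 1 ≤ D)
    (hD : ∀ k, 1 ≤ k → k + 1 ≤ m → D * ((m - k) * (k + 1)) ≤ (m + t) * (e + 1 - k)) :
    ∃ C : ℕ, ∀ q : ℕ, 1 ≤ q → ∃ 𝒢 : Finset ℤ[X], 𝒢.card ^ D ≤ C * q ^ (m + t) ∧
      (∀ G ∈ 𝒢, G.IsPrimitive ∧ 1 ≤ G.natDegree ∧ G.natDegree < m) ∧
      ∀ (𝓡 : Type) [CommRing 𝓡] [Fintype 𝓡] (τ : 𝓡) (θ : ℕ → ℤ) (H M : ℕ),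
        Fintype.card 𝓡 < (q + 1) ^ m → (∀ j ≤ L, |θ j| ≤ (H : ℤ)) → (L + 1) * (q * H) < M →
        (∃ j ≤ L, θ j ≠ 0) →
        (∀ G : ℤ[X], aeval τ G = 0 → ∀ i, i + G.natDegree ≤ L →
          (M : ℤ) ∣ ∑ j ∈ range (G.natDegree + 1), G.coeff j * θ (i + j)) →
        ∃ G ∈ 𝒢, Ann L θ G := by
  classical
  have hke : ∀ k, 1 ≤ k → k + 1 ≤ m → k ≤ e := by
    intro k hk hkm
    by_contra hcon
    have h1 := hD k hk hkm
    have h2 : e + 1 - k = 0 := by omega
    rw [h2, mul_zero] at h1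
    have h3 : 0 < D * ((m - k) * (k + 1)) :=
      Nat.mul_pos hD0 (Nat.mul_pos (by omega) (Nat.succ_pos k))
    omega
  refine ⟨m ^ D * (3 * (2 ^ m * (2 ^ (e + 1) * (e + 1) + m))) ^ (m * D), fun q hq =>
    ⟨GG m e q, ?_, ?_, ?_⟩⟩
  · have h1 : (GG m e q).card ≤ ∑ k ∈ Finset.Ico 1 m, (2 * top m e q k + 1) ^ (k + 1) := by
      unfold GG
      refine Finset.card_biUnion_le.trans (Finset.sum_le_sum fun k _ => ?_)
      refine (Finset.card_filter_le _ _).trans (Finset.card_image_le.trans (le_of_eq ?_))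
      rw [Fintype.card_piFinset, Finset.prod_const, Finset.card_univ, Fintype.card_fin,
        Int.card_Icc]
      congr 1
      omega
    refine (Nat.pow_le_pow_left h1 D).trans ?_
    rw [mul_assoc]
    apply sum_pow_le
    · rw [Nat.card_Ico]; omega
    · exact hm
    · exact Nat.one_le_iff_ne_zero.2 (by positivity)
    · intro k hk
      rw [Finset.mem_Ico] at hk
      refine (top_pow hq (hke k hk.1 hk.2) (hD k hk.1 hk.2)).trans ?_
      apply Nat.mul_le_mul_right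
      apply Nat.pow_le_pow_right (Nat.one_le_iff_ne_zero.2 (by positivity))
      exact Nat.mul_le_mul_right _ hk.2
  · intro G hG
    unfold GG at hG
    obtain ⟨k, _, hk⟩ := Finset.mem_biUnion.1 hG
    exact (Finset.mem_filter.1 hk).2
  · intro 𝓡 _ _ τ θ H M hN hθ hM hne hdiv
    -- short polynomials annihilate
    have hshort : ∀ P : ℤ[X], (∀ n, |P.coeff n| ≤ (q : ℤ)) → aeval τ P = 0 → Ann L θ P := by
      intro P hP hτ i hi
      apply Int.eq_zero_of_abs_lt_dvd (hdiv P hτ i hi)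
      have h1 : |∑ j ∈ range (P.natDegree + 1), P.coeff j * θ (i + j)| ≤
          ∑ _j ∈ range (P.natDegree + 1), (q : ℤ) * H := by
        refine (Finset.abs_sum_le_sum_abs _ _).trans (Finset.sum_le_sum fun j hj => ?_)
        rw [Finset.mem_range] at hj
        rw [abs_mul]
        exact mul_le_mul (hP j) (hθ _ (by omega)) (abs_nonneg _) (by positivity)
      refine lt_of_le_of_lt h1 ?_
      rw [Finset.sum_const, Finset.card_range, nsmul_eq_mul]
      have h2 : (P.natDegree + 1) * (q * H) ≤ (L + 1) * (q * H) :=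
        Nat.mul_le_mul_right _ (by omega)
      have h3 := lt_of_le_of_lt h2 hM
      exact_mod_cast h3
    obtain ⟨Q, hQ0, hQm, hQb, hQτ⟩ := pigeon τ hN
    obtain ⟨G, hG, hGA, hGmin, hGdvd⟩ := exists_min ⟨Q, hQ0, hshort Q hQb hQτ⟩
    have hG0 : G ≠ 0 := hG.ne_zero
    have hGm : G.natDegree < m := lt_of_le_of_lt (hGmin Q hQ0 (hshort Q hQb hQτ)) hQm
    have hG1 : 1 ≤ G.natDegree := by
      by_contra hcon
      have h0 : G.natDegree = 0 := by omega
      obtain ⟨j, hj, hθj⟩ := hne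
      have h1 := hGA j (by omega)
      rw [h0, zero_add, Finset.sum_range_one, add_zero] at h1
      rcases mul_eq_zero.1 h1 with h2 | h2
      · apply hG0
        rw [eq_C_of_natDegree_eq_zero h0, h2, C_0]
      · exact hθj h2
    have hGe := hke _ hG1 hGm
    have hdvd : ∀ P : ℤ[X], P.natDegree ≤ e → (∀ n, |P.coeff n| ≤ (q : ℤ)) → aeval τ P = 0 →
        G ∣ P := by
      intro P hPe hPq hPτ
      exact hGdvd P (hshort P hPq hPτ) (by omega)
    have hmah : mah G ≤ m * q := by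
      obtain ⟨F, hF⟩ := hdvd Q (by omega) hQb hQτ
      have hF0 : F ≠ 0 := by
        rintro rfl
        exact hQ0 (by rw [hF, mul_zero])
      have h1 := mah_le hQm hQb
      rw [hF, mah_mul] at h1
      have h2 := one_le_mah hF0
      have h3 := one_le_mah hG0
      nlinarith
    have hht := height hq hme hN hG0 hGm hdvd hmah
    refine ⟨G, mem_GG hG hG1 hGm hGe ?_, hGA⟩
    intro n
    have h1 := coeff_le_mah (K := m) hGm.le n
    have h2 : ((|G.coeff n|.toNat : ℕ) : ℝ) = |((G.coeff n : ℤ) : ℝ)| := by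
      have h6 : ((|G.coeff n|.toNat : ℕ) : ℤ) = |G.coeff n| := Int.toNat_of_nonneg (abs_nonneg _)
      have h7 : (((|G.coeff n|.toNat : ℕ) : ℤ) : ℝ) = ((|G.coeff n| : ℤ) : ℝ) := by rw [h6]
      push_cast at h7
      exact h7
    have h3 : ((|G.coeff n|.toNat ^ (e + 1 - G.natDegree) : ℕ) : ℝ) ≤
        ((bnd m e q G.natDegree : ℕ) : ℝ) := by
      rw [Nat.cast_pow, h2]
      calc |((G.coeff n : ℤ) : ℝ)| ^ (e + 1 - G.natDegree) ≤
            (2 ^ m * mah G) ^ (e + 1 - G.natDegree) := pow_le_pow_left₀ (abs_nonneg _) h1 _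
        _ = (2 ^ m) ^ (e + 1 - G.natDegree) * mah G ^ (e + 1 - G.natDegree) := mul_pow _ _ _
        _ ≤ (2 ^ m) ^ (e + 1 - G.natDegree) * (((2 ^ (e + 1) * (e + 1) + m : ℕ) : ℝ) ^
            (e + 1 - G.natDegree) * (q : ℝ) ^ (m - G.natDegree)) :=
          mul_le_mul_of_nonneg_left hht (by positivity)
        _ = _ := by
          unfold bnd
          push_cast
          rw [mul_pow]
          ring
    exact_mod_cast h3

end Pool.Agent.LL
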