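import Pool.Agent.LL.Roots

/-! Long-range Lefschetz: a sharper form of the key lemma, where the length of the polynomials in
the counting argument depends on the degree of the annihilator. -/

set_option autoImplicit false

namespace Pool.Agent.LL

open Polynomial Finset
open Pool.Agent.Helper28.TL (pigeon)

open Classical in
/-- the finite set of polynomials of the key lemma -/
noncomputable def GG2 (m L q : ℕ) : Finset ℤ[X] :=
  (Finset.Ico 1 m).biUnion fun k => ((Fintype.piFinset fun _ : Fin (k + 1) =>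
    Finset.Icc (-(top m (L + 1 - k) q k : ℤ)) (top m (L + 1 - k) q k : ℤ)).image pol).filter fun G =>
      G.IsPrimitive ∧ 1 ≤ G.natDegree ∧ G.natDegree < m

lemma mem_GG2 {m L q : ℕ} {G : ℤ[X]} (hG : G.IsPrimitive) (h1 : 1 ≤ G.natDegree)
    (hm : G.natDegree < m) (he : G.natDegree ≤ L + 1 - G.natDegree)
    (hb : ∀ n, |G.coeff n|.toNat ^ (L + 1 - G.natDegree + 1 - G.natDegree) ≤
      bnd m (L + 1 - G.natDegree) q G.natDegree) : G ∈ GG2 m L q := by
  classical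
  unfold GG2
  rw [Finset.mem_biUnion]
  refine ⟨G.natDegree, Finset.mem_Ico.2 ⟨h1, hm⟩, ?_⟩
  rw [Finset.mem_filter]
  refine ⟨?_, hG, h1, hm⟩
  rw [Finset.mem_image]
  refine ⟨fun j => G.coeff j, ?_, ?_⟩
  · rw [Fintype.mem_piFinset]
    intro j
    rw [Finset.mem_Icc, ← abs_le]
    have h2 : |G.coeff j|.toNat ≤ top m (L + 1 - G.natDegree) q G.natDegree := by
      exact Nat.le_findGreatest
        (P := fun x => x ^ (L + 1 - G.natDegree + 1 - G.natDegree) ≤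
          bnd m (L + 1 - G.natDegree) q G.natDegree)
        ((Nat.le_self_pow (by omega) _).trans (hb j)) (hb j)
    have h3 : ((|G.coeff j|.toNat : ℕ) : ℤ) = |G.coeff j| := Int.toNat_of_nonneg (abs_nonneg _)
    rw [← h3]
    exact_mod_cast h2
  · ext n
    rw [pol_coeff]
    split_ifs with hn
    · rfl
    · exact (coeff_eq_zero_of_natDegree_lt (by omega)).symm

/-- the key lemma: sequences with short recurrences modulo `M` are annihilated by one of few
polynomials of small degree -/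
theorem key2 {m D L t : ℕ} (hm : 1 ≤ m) (hmL : m ≤ L + 1) (hD0 : 1 ≤ D)
    (hD : ∀ k, 1 ≤ k → k + 1 ≤ m → D * ((m - k) * (k + 1)) ≤ (m + t) * (L + 2 - 2 * k)) :
    ∃ C : ℕ, ∀ q : ℕ, 1 ≤ q → ∃ 𝒢 : Finset ℤ[X], 𝒢.card ^ D ≤ C * q ^ (m + t) ∧
      (∀ G ∈ 𝒢, G.IsPrimitive ∧ 1 ≤ G.natDegree ∧ G.natDegree < m) ∧
      ∀ (𝓡 : Type) [CommRing 𝓡] [Fintype 𝓡] (τ : 𝓡) (θ : ℕ → ℤ) (H M : ℕ),
        Fintype.card 𝓡 < (q + 1) ^ m → (∀ j ≤ L, |θ j| ≤ (H : ℤ)) → (L + 1) * (q * H) < M →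
        (∃ j ≤ L, θ j ≠ 0) →
        (∀ G : ℤ[X], aeval τ G = 0 → ∀ i, i + G.natDegree ≤ L →
          (M : ℤ) ∣ ∑ j ∈ range (G.natDegree + 1), G.coeff j * θ (i + j)) →
        ∃ G ∈ 𝒢, Ann L θ G := by
  classical
  have hke : ∀ k, 1 ≤ k → k + 1 ≤ m → k ≤ L + 1 - k := by
    intro k hk hkm
    by_contra hcon
    have h1 := hD k hk hkm
    have h2 : L + 2 - 2 * k = 0 := by omega
    rw [h2, mul_zero] at h1
    have h3 : 0 < D * ((m - k) * (k + 1)) :=
      Nat.mul_pos hD0 (Nat.mul_pos (by omega) (Nat.succ_pos k))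
    omega
  have hmk : ∀ k, 1 ≤ k → k + 1 ≤ m → m ≤ L + 1 - k + 1 := by
    intro k hk hkm
    have h1 := hke (m - 1) (by omega) (by omega)
    omega
  refine ⟨m ^ D * (3 * (2 ^ m * (2 ^ (L + 1) * (L + 1) + m))) ^ (m * D), fun q hq =>
    ⟨GG2 m L q, ?_, ?_, ?_⟩⟩
  · have h1 : (GG2 m L q).card ≤ ∑ k ∈ Finset.Ico 1 m, (2 * top m (L + 1 - k) q k + 1) ^ (k + 1) := by
      unfold GG2
      refine Finset.card_biUnion_le.trans (Finset.sum_le_sum fun k _ => ?_)
      refine (Finset.card_filter_le _ _).trans (Finset.card_image_le.trans (le_of_eq ?_))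
      rw [Fintype.card_piFinset, Finset.prod_const, Finset.card_univ, Fintype.card_fin,
        Int.card_Icc]
      congr 1
      omega
    refine (Nat.pow_le_pow_left h1 D).trans ?_
    rw [mul_assoc]
    apply sum_pow_le
    · rw [Nat.card_Ico]; omega
    · exact hm
    · exact Nat.one_le_iff_ne_zero.2 (by positivity)
    · intro k hk
      rw [Finset.mem_Ico] at hk
      have hDk : D * ((m - k) * (k + 1)) ≤ (m + t) * (L + 1 - k + 1 - k) := by
        have e1 : L + 1 - k + 1 - k = L + 2 - 2 * k := by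
          have := hke k hk.1 hk.2
          omega
        rw [e1]
        exact hD k hk.1 hk.2
      refine (top_pow hq (hke k hk.1 hk.2) hDk).trans ?_
      apply Nat.mul_le_mul_right
      have e2 : L + 1 - k + 1 ≤ L + 1 := by omega
      calc (3 * (2 ^ m * (2 ^ (L + 1 - k + 1) * (L + 1 - k + 1) + m))) ^ ((k + 1) * D) ≤
            (3 * (2 ^ m * (2 ^ (L + 1) * (L + 1) + m))) ^ ((k + 1) * D) := by
            apply Nat.pow_le_pow_left
            apply Nat.mul_le_mul_left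
            apply Nat.mul_le_mul_left
            apply Nat.add_le_add_right
            exact Nat.mul_le_mul (Nat.pow_le_pow_right (by norm_num) e2) e2
        _ ≤ _ := by
            apply Nat.pow_le_pow_right (Nat.one_le_iff_ne_zero.2 (by positivity))
            exact Nat.mul_le_mul_right _ hk.2
  · intro G hG
    unfold GG2 at hG
    obtain ⟨k, _, hk⟩ := Finset.mem_biUnion.1 hG
    exact (Finset.mem_filter.1 hk).2
  · intro 𝓡 _ _ τ θ H M hN hθ hM hne hdiv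
    -- short polynomials annihilate
    have hshort : ∀ P : ℤ[X], (∀ n, |P.coeff n| ≤ (q : ℤ)) → aeval τ P = 0 → Ann L θ P := by
      intro P hP hτ i hi
      apply Int.eq_zero_of_abs_lt_dvd (hdiv P hτ i hi)
      have h1 : |∑ j ∈ range (P.natDegree + 1), P.coeff j * θ (i + j)| ≤
          ∑ _j ∈ range (P.natDegree + 1), (q : ℤ) * H := by
        refine (Finset.abs_sum_le_sum_abs _ _).trans (Finset.sum_le_sum fun j hj => ?_)
        rw [Finset.mem_range] at hj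
        rw [abs_mul]
        exact mul_le_mul (hP j) (hθ _ (by omega)) (abs_nonneg _) (by positivity)
      refine lt_of_le_of_lt h1 ?_
      rw [Finset.sum_const, Finset.card_range, nsmul_eq_mul]
      have h2 : (P.natDegree + 1) * (q * H) ≤ (L + 1) * (q * H) :=
        Nat.mul_le_mul_right _ (by omega)
      have h3 := lt_of_le_of_lt h2 hM
      exact_mod_cast h3
    obtain ⟨Q, hQ0, hQm, hQb, hQτ⟩ := pigeon τ hN
    obtain ⟨G, hG, hGA, hGmin, hGdvd⟩ := exists_min ⟨Q, hQ0, hshort Q hQb hQτ⟩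
    have hG0 : G ≠ 0 := hG.ne_zero
    have hGm : G.natDegree < m := lt_of_le_of_lt (hGmin Q hQ0 (hshort Q hQb hQτ)) hQm
    have hG1 : 1 ≤ G.natDegree := by
      by_contra hcon
      have h0 : G.natDegree = 0 := by omega
      obtain ⟨j, hj, hθj⟩ := hne
      have h1 := hGA j (by omega)
      rw [h0, zero_add, Finset.sum_range_one, add_zero] at h1
      rcases mul_eq_zero.1 h1 with h2 | h2
      · apply hG0
        rw [eq_C_of_natDegree_eq_zero h0, h2, C_0]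
      · exact hθj h2
    have hGe := hke _ hG1 hGm
    have hmk' := hmk _ hG1 hGm
    obtain ⟨e, he⟩ : ∃ e, e = L + 1 - G.natDegree := ⟨_, rfl⟩
    have hme : m ≤ e + 1 := by omega
    have hdvd : ∀ P : ℤ[X], P.natDegree ≤ e → (∀ n, |P.coeff n| ≤ (q : ℤ)) → aeval τ P = 0 →
        G ∣ P := by
      intro P hPe hPq hPτ
      exact hGdvd P (hshort P hPq hPτ) (by omega)
    have hmah : mah G ≤ m * q := by
      obtain ⟨F, hF⟩ := hdvd Q (by omega) hQb hQτ
      have hF0 : F ≠ 0 := by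
        rintro rfl
        exact hQ0 (by rw [hF, mul_zero])
      have h1 := mah_le hQm hQb
      rw [hF, mah_mul] at h1
      have h2 := one_le_mah hF0
      have h3 := one_le_mah hG0
      nlinarith
    have hht := height hq hme hN hG0 hGm hdvd hmah
    refine ⟨G, mem_GG2 hG hG1 hGm hGe ?_, hGA⟩
    rw [← he]
    intro n
    have h1 := coeff_le_mah (K := m) hGm.le n
    have h2 : ((|G.coeff n|.toNat : ℕ) : ℝ) = |((G.coeff n : ℤ) : ℝ)| := by
      have h6 : ((|G.coeff n|.toNat : ℕ) : ℤ) = |G.coeff n| := Int.toNat_of_nonneg (abs_nonneg _)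
      have h7 : (((|G.coeff n|.toNat : ℕ) : ℤ) : ℝ) = ((|G.coeff n| : ℤ) : ℝ) := by rw [h6]
      push_cast at h7
      exact h7
    have h3 : ((|G.coeff n|.toNat ^ (e + 1 - G.natDegree) : ℕ) : ℝ) ≤
        ((bnd m e q G.natDegree : ℕ) : ℝ) := by
      rw [Nat.cast_pow, h2]
      calc |((G.coeff n : ℤ) : ℝ)| ^ (e + 1 - G.natDegree) ≤
            (2 ^ m * mah G) ^ (e + 1 - G.natDegree) := pow_le_pow_left₀ (abs_nonneg _) h1 _
        _ = (2 ^ m) ^ (e + 1 - G.natDegree) * mah G ^ (e + 1 - G.natDegree) := mul_pow _ _ _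
        _ ≤ (2 ^ m) ^ (e + 1 - G.natDegree) * (((2 ^ (e + 1) * (e + 1) + m : ℕ) : ℝ) ^
            (e + 1 - G.natDegree) * (q : ℝ) ^ (m - G.natDegree)) :=
          mul_le_mul_of_nonneg_left hht (by positivity)
        _ = _ := by
          unfold bnd
          push_cast
          rw [mul_pow]
          ring
    exact_mod_cast h3

/-- The key lemma with the size `N` of the ring: a set of polynomials with few roots. -/
theorem key2' {m D L t : ℕ} (hm : 1 ≤ m) (hmL : m ≤ L + 1) (hD0 : 1 ≤ D)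
    (hD : ∀ k, 1 ≤ k → k + 1 ≤ m → D * ((m - k) * (k + 1)) ≤ (m + t) * (L + 2 - 2 * k)) :
    ∃ C : ℕ, ∀ N : ℕ, 1 ≤ N → ∃ q : ℕ, 1 ≤ q ∧ q ^ m ≤ N ∧ ∃ 𝒢 : Finset ℤ[X],
      (∀ (F : Type) [Field F] [Fintype F], (allRts 𝒢 F).card ^ D ≤ C * (N * q ^ t)) ∧
      (∀ (F F' : Type) [Field F] [Fintype F] [Field F'] [Fintype F'],
        (allPairs 𝒢 F F').card ^ D ≤ C * (N * q ^ t)) ∧
      (∀ G ∈ 𝒢, G.IsPrimitive ∧ 1 ≤ G.natDegree ∧ G.natDegree < m) ∧
      ∀ (𝓡 : Type) [CommRing 𝓡] [Fintype 𝓡] (τ : 𝓡) (θ : ℕ → ℤ) (H M : ℕ),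
        Fintype.card 𝓡 = N → (∀ j ≤ L, |θ j| ≤ (H : ℤ)) → N * ((L + 1) * H) ^ m < M ^ m →
        (∃ j ≤ L, θ j ≠ 0) →
        (∀ G : ℤ[X], aeval τ G = 0 → ∀ i, i + G.natDegree ≤ L →
          (M : ℤ) ∣ ∑ j ∈ range (G.natDegree + 1), G.coeff j * θ (i + j)) →
        ∃ G ∈ 𝒢, Ann L θ G := by
  obtain ⟨C, hC⟩ := key2 hm hmL hD0 hD
  refine ⟨(m * m) ^ D * C, fun N hN => ?_⟩
  obtain ⟨q, hq1, hq2, hq3⟩ := exists_q hN hm
  obtain ⟨𝒢, h1, h2, h3⟩ := hC q hq1
  have hmain : ∀ n : ℕ, n ≤ 𝒢.card * (m * m) → n ^ D ≤ (m * m) ^ D * C * (N * q ^ t) := by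
    intro n hn
    calc n ^ D ≤ (𝒢.card * (m * m)) ^ D := Nat.pow_le_pow_left hn _
      _ = (m * m) ^ D * 𝒢.card ^ D := by rw [mul_pow, mul_comm]
      _ ≤ (m * m) ^ D * (C * q ^ (m + t)) := Nat.mul_le_mul_left _ h1
      _ ≤ (m * m) ^ D * (C * (N * q ^ t)) := by
          rw [pow_add]
          exact Nat.mul_le_mul_left _ (Nat.mul_le_mul_left _ (Nat.mul_le_mul_right _ hq2))
      _ = _ := by ring
  refine ⟨q, hq1, hq2, 𝒢, ?_, ?_, h2, ?_⟩
  · intro F _ _
    apply hmain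
    refine (card_allRts h2 F).trans (Nat.mul_le_mul_left _ (Nat.le_mul_of_pos_left _ hm))
  · intro F F' _ _ _ _
    exact hmain _ (card_allPairs h2 F F')
  · intro 𝓡 _ _ τ θ H M hcard hθ hM hne hdiv
    refine h3 𝓡 τ θ H M (by rw [hcard]; exact hq3) hθ ?_ hne hdiv
    have h4 : ((L + 1) * (q * H)) ^ m < M ^ m := by
      refine lt_of_le_of_lt ?_ hM
      calc ((L + 1) * (q * H)) ^ m = q ^ m * ((L + 1) * H) ^ m := by rw [← mul_pow]; ring
        _ ≤ _ := Nat.mul_le_mul_right _ hq2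
    exact lt_of_pow_lt_pow_left₀ m (Nat.zero_le _) h4

/-- **Key lemma.** -/
theorem hits2 {m D L t : ℕ} (hm : 1 ≤ m) (hmL : m ≤ L) (hD0 : 1 ≤ D)
    (hD : ∀ k, 1 ≤ k → k + 1 ≤ m → D * ((m - k) * (k + 1)) ≤ (m + t) * (L + 2 - 2 * k)) :
    ∃ C : ℕ, ∀ N : ℕ, 1 ≤ N → ∃ q : ℕ, 1 ≤ q ∧ q ^ m ≤ N ∧ ∃ 𝒢 : Finset ℤ[X],
      (∀ (F : Type) [Field F] [Fintype F], (allRts 𝒢 F).card ^ D ≤ C * (N * q ^ t)) ∧
      (∀ (F F' : Type) [Field F] [Fintype F] [Field F'] [Fintype F'],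
        (allPairs 𝒢 F F').card ^ D ≤ C * (N * q ^ t)) ∧ HitsRoot 𝒢 m L N := by
  obtain ⟨C, hC⟩ := key2' hm (by omega) hD0 hD
  refine ⟨C, fun N hN => ?_⟩
  obtain ⟨q, hq1, hq2, 𝒢, h1, h2, h3, h4⟩ := hC N hN
  refine ⟨q, hq1, hq2, 𝒢, h1, h2, ?_⟩
  intro 𝓡 _ _ _ τ θ H M hcard hθ hM hz hr
  have hne : ∃ j ≤ L, θ j ≠ 0 := by
    by_contra hcon
    push Not at hcon
    have h5 : ∀ P : ℤ[X], ∑ j ∈ range (L + 1), P.coeff j * θ j = 0 := by
      intro P
      refine Finset.sum_eq_zero fun j hj => ?_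
      rw [Finset.mem_range] at hj
      rw [hcon j (by omega), mul_zero]
    have h6 := hr 1 (by rw [natDegree_one]; omega) (by rw [h5]; exact dvd_zero _)
      (by rw [h5]; exact dvd_zero _)
    rw [map_one] at h6
    exact one_ne_zero h6
  obtain ⟨G, hG, hA⟩ := h4 𝓡 τ θ H M hcard hθ hM hne (by
    intro G hG i hi
    rw [← sum_shift θ hi]
    apply hz
    · refine natDegree_mul_le.trans ?_
      rw [natDegree_X_pow]; exact hi
    · rw [map_mul, hG, mul_zero])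
  obtain ⟨g1, g2, g3⟩ := h3 G hG
  refine ⟨G, hG, hr G g3 ?_ ?_⟩
  · have h5 := hA 0 (by omega)
    rw [← sum_shift (L := L) (i := 0) (P := G) θ (by omega), pow_zero, one_mul] at h5
    rw [h5]; exact dvd_zero _
  · have h5 := hA 1 (by omega)
    rw [← sum_shift (L := L) (i := 1) (P := G) θ (by omega), pow_one] at h5
    rw [h5]; exact dvd_zero _

end Pool.Agent.LL
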