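import Pool.Agent.LL.Exc

/-! Long-range Lefschetz: the number of frequencies of a product of two centred indicators. -/

set_option autoImplicit false
set_option linter.unusedSectionVars false

namespace Pool.Agent.LL

open Finset
open Pool.Agent.Helper28.TC (WW WW_nonneg)
open Pool.Agent.Helper28.TL (eth eth_add WW_eq ZZ ZZ_nonneg)

section Cx

variable {M : ℕ} [NeZero M] {J : Type} [Fintype J] [DecidableEq J]

/-- the frequencies of a character -/
lemma exists_freq {H : ℕ} {f : (J → ZMod M) → ℂ} (hf : ∀ a b, f (a + b) = f a * f b)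
    (h : ∑ a, (WW H a : ℂ) * f a ≠ 0) :
    ∃ θ : J → ℤ, (∀ j, |θ j| ≤ (H : ℤ)) ∧ ∀ v, eth θ v * f v = 1 := by
  by_contra hcon
  push Not at hcon
  apply h
  simp_rw [WW_eq, Finset.sum_mul]
  rw [Finset.sum_comm]
  refine Finset.sum_eq_zero fun z hz => ?_
  by_contra hne
  have hθ : ∀ j, |((z j).1 : ℤ) - ((z j).2 : ℤ)| ≤ (H : ℤ) := by
    intro j
    have h2 := Fintype.mem_piFinset.1 hz j
    rw [Finset.mem_product, Finset.mem_range, Finset.mem_range] at h2
    rw [abs_le]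
    constructor <;> omega
  obtain ⟨v, hv⟩ := hcon _ hθ
  exact hv (eq_one_of_sum (f := fun a : J → ZMod M =>
    eth (fun j => ((z j).1 : ℤ) - ((z j).2 : ℤ)) a * f a)
    (fun a b => by rw [eth_add, hf]; ring) hne v)

variable {p q : ℕ} [Fact p.Prime] [Fact q.Prime]

open Classical in
/-- the pairs of multipliers which give a frequency -/
noncomputable def Lam (M H : ℕ) [NeZero M] (c : J → ZMod p) (c' : J → ZMod q) :
    Finset (ZMod p × ZMod q) :=
  univ.filter fun z => z.1 ≠ 0 ∧ z.2 ≠ 0 ∧ ∃ θ : J → ℤ, (∀ e, |θ e| ≤ (H : ℤ)) ∧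
    ∀ e, ZMod.stdAddChar ((θ e : ℤ) : ZMod M) =
      (ZMod.stdAddChar (z.1 * c e) * ZMod.stdAddChar (z.2 * c' e) : ℂ)

lemma norm_chr (hM : p ∣ M) (c : J → ZMod p) (l : ZMod p) (a : J → ZMod M) : ‖chr hM c l a‖ = 1 := by
  unfold chr
  exact AddChar.norm_apply _ _

/-- the bound for one pair -/
lemma abs_pair (hM : p ∣ M) (hM' : q ∣ M) (H : ℕ) (c : J → ZMod p) (c' : J → ZMod q) :
    |∑ a : J → ZMod M, WW H a * (ind hM c a * ind hM' c' a)| ≤
      ZZ J M H * ((Lam M H c c').card / ((p : ℝ) * q)) := by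
  classical
  have hp : (0 : ℝ) < p := by exact_mod_cast (Fact.out : p.Prime).pos
  have hq : (0 : ℝ) < q := by exact_mod_cast (Fact.out : q.Prime).pos
  have e1 : ((∑ a : J → ZMod M, WW H a * (ind hM c a * ind hM' c' a) : ℝ) : ℂ) =
      (1 / ((p : ℂ) * q)) * ∑ z ∈ (univ : Finset (ZMod p)).erase 0 ×ˢ
        (univ : Finset (ZMod q)).erase 0,
          ∑ a : J → ZMod M, (WW H a : ℂ) * (chr hM c z.1 a * chr hM' c' z.2 a) := by
    push_cast
    simp_rw [ind_eq]
    rw [Finset.sum_comm, Finset.mul_sum]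
    refine Finset.sum_congr rfl fun a _ => ?_
    have h3 : ∑ z ∈ (univ : Finset (ZMod p)).erase 0 ×ˢ (univ : Finset (ZMod q)).erase 0,
        (WW H a : ℂ) * (chr hM c z.1 a * chr hM' c' z.2 a) =
        (WW H a : ℂ) * ((∑ l ∈ (univ : Finset (ZMod p)).erase 0, chr hM c l a) *
          ∑ l' ∈ (univ : Finset (ZMod q)).erase 0, chr hM' c' l' a) := by
      rw [Finset.sum_mul_sum, Finset.mul_sum, Finset.sum_product]
      refine Finset.sum_congr rfl fun l _ => ?_
      rw [Finset.mul_sum]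
    rw [h3]
    field_simp
  have e2 : ∀ z ∈ (univ : Finset (ZMod p)).erase 0 ×ˢ (univ : Finset (ZMod q)).erase 0,
      ‖∑ a : J → ZMod M, (WW H a : ℂ) * (chr hM c z.1 a * chr hM' c' z.2 a)‖ ≤
        if z ∈ Lam M H c c' then ZZ J M H else 0 := by
    intro z hz
    split_ifs with hzl
    · refine (norm_sum_le _ _).trans (Finset.sum_le_sum fun a _ => ?_)
      rw [norm_mul, norm_mul, norm_chr, norm_chr, mul_one, mul_one, Complex.norm_real,
        Real.norm_of_nonneg (WW_nonneg H a)]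
    · apply le_of_eq
      rw [norm_eq_zero]
      by_contra hne
      apply hzl
      obtain ⟨θ, hθ, h1⟩ := exists_freq (f := fun a => chr hM c z.1 a * chr hM' c' z.2 a)
        (fun a b => by rw [chr_add, chr_add]; ring) hne
      rw [Finset.mem_product] at hz
      unfold Lam
      rw [Finset.mem_filter]
      refine ⟨Finset.mem_univ _, Finset.ne_of_mem_erase hz.1, Finset.ne_of_mem_erase hz.2,
        fun e => -θ e, fun e => by rw [abs_neg]; exact hθ e, fun e => ?_⟩
      have h2 := h1 (Pi.single e 1)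
      rw [eth_single] at h2
      unfold chr at h2
      rw [lin_single, lin_single] at h2
      have h3 : (ZMod.stdAddChar (((-θ e : ℤ)) : ZMod M) : ℂ) *
          ZMod.stdAddChar ((θ e : ℤ) : ZMod M) = 1 := by
        rw [← AddChar.map_add_eq_mul, ← Int.cast_add, neg_add_cancel, Int.cast_zero,
          AddChar.map_zero_eq_one]
      calc (ZMod.stdAddChar (((-θ e : ℤ)) : ZMod M) : ℂ) =
            ZMod.stdAddChar (((-θ e : ℤ)) : ZMod M) * (ZMod.stdAddChar ((θ e : ℤ) : ZMod M) *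
              (ZMod.stdAddChar (z.1 * c e) * ZMod.stdAddChar (z.2 * c' e))) := by
              rw [h2, mul_one]
        _ = (ZMod.stdAddChar (((-θ e : ℤ)) : ZMod M) * ZMod.stdAddChar ((θ e : ℤ) : ZMod M)) *
              (ZMod.stdAddChar (z.1 * c e) * ZMod.stdAddChar (z.2 * c' e)) := by ring
        _ = _ := by rw [h3, one_mul]
  have e3 : |∑ a : J → ZMod M, WW H a * (ind hM c a * ind hM' c' a)| =
      ‖((∑ a : J → ZMod M, WW H a * (ind hM c a * ind hM' c' a) : ℝ) : ℂ)‖ := by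
    rw [Complex.norm_real, Real.norm_eq_abs]
  rw [e3, e1, norm_mul]
  have e4 : ‖(1 / ((p : ℂ) * q))‖ = 1 / ((p : ℝ) * q) := by
    rw [norm_div, norm_one, norm_mul, Complex.norm_natCast, Complex.norm_natCast]
  have e5 : ‖∑ z ∈ (univ : Finset (ZMod p)).erase 0 ×ˢ (univ : Finset (ZMod q)).erase 0,
      ∑ a : J → ZMod M, (WW H a : ℂ) * (chr hM c z.1 a * chr hM' c' z.2 a)‖ ≤
      ZZ J M H * (Lam M H c c').card := by
    refine (norm_sum_le _ _).trans ((Finset.sum_le_sum e2).trans ?_)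
    rw [← Finset.sum_filter, Finset.sum_const, nsmul_eq_mul, mul_comm]
    apply mul_le_mul_of_nonneg_left _ ZZ_nonneg
    have : ((univ : Finset (ZMod p)).erase 0 ×ˢ (univ : Finset (ZMod q)).erase 0).filter
        (fun z => z ∈ Lam M H c c') ⊆ Lam M H c c' := fun z hz => (Finset.mem_filter.1 hz).2
    exact_mod_cast Finset.card_le_card this
  rw [e4]
  calc 1 / ((p : ℝ) * q) * _ ≤ 1 / ((p : ℝ) * q) * (ZZ J M H * (Lam M H c c').card) :=
        mul_le_mul_of_nonneg_left e5 (by positivity)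
    _ = _ := by ring

/-- the multiples of `N` in the interval -/
noncomputable def mlt (N H : ℕ) : Finset ℤ := (Finset.Icc (-(H : ℤ)) H).filter fun x => (N : ℤ) ∣ x

lemma card_mlt {N : ℕ} (hN : 1 ≤ N) (H : ℕ) : ((mlt N H).card : ℝ) ≤ 1 + 2 * H / N := by
  have h1 : mlt N H ⊆ (Finset.Icc (-((H / N : ℕ) : ℤ)) ((H / N : ℕ) : ℤ)).image
      fun k => (N : ℤ) * k := by
    intro x hx
    unfold mlt at hx
    rw [Finset.mem_filter, Finset.mem_Icc] at hx
    obtain ⟨⟨h1, h2⟩, k, rfl⟩ := hx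
    rw [Finset.mem_image]
    refine ⟨k, ?_, rfl⟩
    have hN' : (0 : ℤ) < N := by exact_mod_cast hN
    rw [Finset.mem_Icc]
    push_cast
    constructor
    · have : -k ≤ (H : ℤ) / N := by
        rw [Int.le_ediv_iff_mul_le hN']
        nlinarith
      linarith
    · rw [Int.le_ediv_iff_mul_le hN']
      nlinarith
  have h2 := (Finset.card_le_card h1).trans Finset.card_image_le
  rw [Int.card_Icc] at h2
  have h3 : (mlt N H).card ≤ 2 * (H / N) + 1 := by omega
  have h4 : ((H / N : ℕ) : ℝ) ≤ (H : ℝ) / N := Nat.cast_div_le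
  have h5 : ((mlt N H).card : ℝ) ≤ 2 * ((H / N : ℕ) : ℝ) + 1 := by exact_mod_cast h3
  calc ((mlt N H).card : ℝ) ≤ 2 * ((H : ℝ) / N) + 1 := by linarith
    _ = _ := by ring

lemma dvd_freq {θ : J → ℤ} {c : J → ZMod p} {c' : J → ZMod q} {l : ZMod p} {l' : ZMod q}
    (h : ∀ e, ZMod.stdAddChar ((θ e : ℤ) : ZMod M) =
      (ZMod.stdAddChar (l * c e) * ZMod.stdAddChar (l' * c' e) : ℂ)) (e : J) (P : ℤ)
    (h1 : (P : ZMod p) * c e = 0) (h2 : (P : ZMod q) * c' e = 0) : (M : ℤ) ∣ P * θ e := by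
  have h3 := comb2 h (Finset.range 1) (fun _ => P) (fun _ => e)
  rw [Finset.sum_range_one, Finset.sum_range_one, Finset.sum_range_one, h1, h2, mul_zero, mul_zero,
    AddChar.map_zero_eq_one, AddChar.map_zero_eq_one, mul_one] at h3
  exact (dvd_iff _).2 h3

lemma dvd_div {N P : ℕ} {x : ℤ} (hP : 0 < P) (hM : M = P * N) (h : (M : ℤ) ∣ P * x) :
    (N : ℤ) ∣ x := by
  rw [hM] at h
  push_cast at h
  exact Int.dvd_of_mul_dvd_mul_left (by exact_mod_cast hP.ne') h

/-- a common coordinate -/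
lemma card_lam_one (hM : p ∣ M) (hM' : q ∣ M) (hpq : p ≠ q) (H : ℕ) {c : J → ZMod p}
    {c' : J → ZMod q} {e : J} (hc : c e ≠ 0) (hc' : c' e ≠ 0) :
    ((Lam M H c c').card : ℝ) ≤ 1 + 2 * H * ((p : ℝ) * q) / M := by
  classical
  have hp := (Fact.out : p.Prime)
  have hq := (Fact.out : q.Prime)
  have hcop : Nat.Coprime p q := (Nat.coprime_primes hp hq).2 hpq
  obtain ⟨N, hN⟩ := hcop.mul_dvd_of_dvd_of_dvd hM hM'
  have hM0 : 0 < M := Nat.pos_of_ne_zero (NeZero.ne M)
  have hN1 : 1 ≤ N := by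
    rcases Nat.eq_zero_or_pos N with h | h
    · rw [h, mul_zero] at hN; omega
    · exact h
  have hpos : 0 < p * q := Nat.mul_pos hp.pos hq.pos
  have hex : ∀ z : ZMod p × ZMod q, ∃ θ : J → ℤ, z ∈ Lam M H c c' → (∀ e, |θ e| ≤ (H : ℤ)) ∧
      ∀ e, ZMod.stdAddChar ((θ e : ℤ) : ZMod M) =
        (ZMod.stdAddChar (z.1 * c e) * ZMod.stdAddChar (z.2 * c' e) : ℂ) := by
    intro z
    by_cases hz : z ∈ Lam M H c c'
    · obtain ⟨θ, hθ⟩ := (Finset.mem_filter.1 hz).2.2.2
      exact ⟨θ, fun _ => hθ⟩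
    · exact ⟨fun _ => 0, fun h => absurd h hz⟩
  choose θ hθ using hex
  have h1 : (Lam M H c c').card ≤ (mlt N H).card := by
    refine Finset.card_le_card_of_injOn (fun z => θ z e) (fun z hz => ?_) (fun z hz w hw hzw => ?_)
    · have h2 := hθ z hz
      have h3 := abs_le.1 (h2.1 e)
      unfold mlt
      rw [Finset.mem_coe, Finset.mem_filter, Finset.mem_Icc]
      refine ⟨h3, dvd_div hpos hN (dvd_freq h2.2 e _ ?_ ?_)⟩
      · push_cast; rw [CharP.cast_eq_zero (ZMod p) p, zero_mul, zero_mul]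
      · push_cast; rw [CharP.cast_eq_zero (ZMod q) q, mul_zero, zero_mul]
    · have h2 := (hθ z hz).2 e
      have h3 := (hθ w hw).2 e
      simp only at hzw
      rw [hzw, h3] at h2
      have h4 : (ZMod.stdAddChar ((z.1 - w.1) * c e) * ZMod.stdAddChar ((z.2 - w.2) * c' e) : ℂ) =
          1 := by
        have a1 : (ZMod.stdAddChar (w.1 * c e) * ZMod.stdAddChar (w.2 * c' e) : ℂ) *
            (ZMod.stdAddChar ((z.1 - w.1) * c e) * ZMod.stdAddChar ((z.2 - w.2) * c' e)) =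
            ZMod.stdAddChar (w.1 * c e) * ZMod.stdAddChar (w.2 * c' e) := by
          calc _ = (ZMod.stdAddChar (w.1 * c e) * ZMod.stdAddChar ((z.1 - w.1) * c e) : ℂ) *
                (ZMod.stdAddChar (w.2 * c' e) * ZMod.stdAddChar ((z.2 - w.2) * c' e)) := by ring
            _ = ZMod.stdAddChar (z.1 * c e) * ZMod.stdAddChar (z.2 * c' e) := by
                rw [← AddChar.map_add_eq_mul, ← AddChar.map_add_eq_mul]
                congr 2 <;> ring
            _ = _ := h2.symm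
        have a2 : (ZMod.stdAddChar (w.1 * c e) * ZMod.stdAddChar (w.2 * c' e) : ℂ) ≠ 0 := by
          rw [← norm_ne_zero_iff, norm_mul, AddChar.norm_apply, AddChar.norm_apply]
          norm_num
        exact mul_left_cancel₀ a2 (by rw [a1, mul_one])
      rw [prod_one_ne hpq] at h4
      exact Prod.ext (sub_eq_zero.1 ((mul_eq_zero.1 h4.1).resolve_right hc))
        (sub_eq_zero.1 ((mul_eq_zero.1 h4.2).resolve_right hc'))
  have h2 := card_mlt hN1 H
  have h3 : ((Lam M H c c').card : ℝ) ≤ (mlt N H).card := by exact_mod_cast h1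
  refine h3.trans (h2.trans (le_of_eq ?_))
  have hNr : (N : ℝ) ≠ 0 := by exact_mod_cast (by omega : N ≠ 0)
  have hpr : (p : ℝ) ≠ 0 := by exact_mod_cast hp.ne_zero
  have hqr : (q : ℝ) ≠ 0 := by exact_mod_cast hq.ne_zero
  rw [hN]
  push_cast
  field_simp

/-- no common coordinate -/
lemma card_lam_two (hM : p ∣ M) (hM' : q ∣ M) (H : ℕ) {c : J → ZMod p}
    {c' : J → ZMod q} {e e' : J} (hc : c e ≠ 0) (hc0 : c' e = 0) (hc0' : c e' = 0)
    (hc' : c' e' ≠ 0) :
    ((Lam M H c c').card : ℝ) ≤ (1 + 2 * H * (p : ℝ) / M) * (1 + 2 * H * (q : ℝ) / M) := by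
  classical
  have hp := (Fact.out : p.Prime)
  have hq := (Fact.out : q.Prime)
  obtain ⟨N, hN⟩ := hM
  obtain ⟨N', hN'⟩ := hM'
  have hM0 : 0 < M := Nat.pos_of_ne_zero (NeZero.ne M)
  have hN1 : 1 ≤ N := by
    rcases Nat.eq_zero_or_pos N with h | h
    · rw [h, mul_zero] at hN; omega
    · exact h
  have hN1' : 1 ≤ N' := by
    rcases Nat.eq_zero_or_pos N' with h | h
    · rw [h, mul_zero] at hN'; omega
    · exact h
  have hex : ∀ z : ZMod p × ZMod q, ∃ θ : J → ℤ, z ∈ Lam M H c c' → (∀ e, |θ e| ≤ (H : ℤ)) ∧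
      ∀ e, ZMod.stdAddChar ((θ e : ℤ) : ZMod M) =
        (ZMod.stdAddChar (z.1 * c e) * ZMod.stdAddChar (z.2 * c' e) : ℂ) := by
    intro z
    by_cases hz : z ∈ Lam M H c c'
    · obtain ⟨θ, hθ⟩ := (Finset.mem_filter.1 hz).2.2.2
      exact ⟨θ, fun _ => hθ⟩
    · exact ⟨fun _ => 0, fun h => absurd h hz⟩
  choose θ hθ using hex
  have h1 : (Lam M H c c').card ≤ (mlt N H ×ˢ mlt N' H).card := by
    refine Finset.card_le_card_of_injOn (fun z => (θ z e, θ z e')) (fun z hz => ?_)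
      (fun z hz w hw hzw => ?_)
    · have h2 := hθ z hz
      have h3 := abs_le.1 (h2.1 e)
      have h4 := abs_le.1 (h2.1 e')
      unfold mlt
      rw [Finset.mem_coe, Finset.mem_product, Finset.mem_filter, Finset.mem_filter, Finset.mem_Icc,
        Finset.mem_Icc]
      refine ⟨⟨h3, dvd_div hp.pos hN (dvd_freq h2.2 e _ ?_ ?_)⟩,
        ⟨h4, dvd_div hq.pos hN' (dvd_freq h2.2 e' _ ?_ ?_)⟩⟩
      · rw [Int.cast_natCast, CharP.cast_eq_zero (ZMod p) p, zero_mul]
      · rw [hc0, mul_zero]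
      · rw [hc0', mul_zero]
      · rw [Int.cast_natCast, CharP.cast_eq_zero (ZMod q) q, zero_mul]
    · simp only [Prod.mk.injEq] at hzw
      have h2 := (hθ z hz).2 e
      have h3 := (hθ w hw).2 e
      have h4 := (hθ z hz).2 e'
      have h5 := (hθ w hw).2 e'
      rw [hzw.1, h3, hc0, mul_zero, mul_zero, AddChar.map_zero_eq_one, mul_one, mul_one] at h2
      rw [hzw.2, h5, hc0', mul_zero, mul_zero, AddChar.map_zero_eq_one, one_mul, one_mul] at h4
      have h6 := ZMod.injective_stdAddChar h2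
      have h7 := ZMod.injective_stdAddChar h4
      exact Prod.ext (mul_right_cancel₀ hc h6.symm) (mul_right_cancel₀ hc' h7.symm)
  rw [Finset.card_product] at h1
  have h3 : ((Lam M H c c').card : ℝ) ≤ (mlt N H).card * (mlt N' H).card := by exact_mod_cast h1
  have hNr : (N : ℝ) ≠ 0 := by exact_mod_cast (by omega : N ≠ 0)
  have hNr' : (N' : ℝ) ≠ 0 := by exact_mod_cast (by omega : N' ≠ 0)
  have hpr : (p : ℝ) ≠ 0 := by exact_mod_cast hp.ne_zero
  have hqr : (q : ℝ) ≠ 0 := by exact_mod_cast hq.ne_zero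
  have e1 : 2 * H * (p : ℝ) / M = 2 * H / N := by
    rw [hN]; push_cast; field_simp
  have e2 : 2 * H * (q : ℝ) / M = 2 * H / N' := by
    rw [hN']; push_cast; field_simp
  rw [e1, e2]
  exact h3.trans (mul_le_mul (card_mlt hN1 H) (card_mlt hN1' H) (Nat.cast_nonneg _) (by positivity))

end Cx

end Pool.Agent.LL
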