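import Pool.Agent.LL.Main
import Pool.Agent.S12.Cpt
import Pool.Agent.Helper80.SU.Base

/-!
Local form of the `O(log log N)` theorem: one partition of an infinite set (helper29).
-/

set_option autoImplicit false
set_option linter.unusedSectionVars false

namespace Pool.Agent.LL

open Finset
open scoped ENNReal

section Iota

variable {ι : Type*} [Fintype ι] [DecidableEq ι] {Γ : Type*} [AddCommGroup Γ]

/-- Classes with a small ternary gas. -/
theorem classes_iota (b : ι → Γ) {c : ℝ} (hc : 0 < c) (hc1 : c ≤ 1)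
    (hP : ∀ B : Finset ι, ∃ D ⊆ B, Dis b D ∧ c * (B.card : ℝ) ≤ D.card)
    (N : ℕ) (hN : 1 ≤ N)
    (K : ℕ) (hK : 2 * (3 / c * Real.log (1 + 12 / c * Real.log (4 * N)) + 2) ≤ K) :
    ∃ g : ι → Fin K, ∀ C : Finset ι, (∀ x ∈ C, ∀ y ∈ C, g x = g y) →
      T b (1 / 4) C 0 ≤ ENNReal.ofReal (1 + 1 / (8 * N)) ^ C.card := by
  classical
  have hNr : (1 : ℝ) ≤ N := by exact_mod_cast hN
  have hM : (4 : ℝ) ≤ 4 * N := by linarith
  set q : ℝ := 3 / c * Real.log (1 + 12 / c * Real.log (4 * N)) with hq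
  have hq0 : 0 ≤ q := by
    have h1 : 0 ≤ Real.log (4 * N) := Real.log_nonneg (by linarith)
    have h2 : 0 ≤ 12 / c * Real.log (4 * N) := by positivity
    have h3 : 0 ≤ Real.log (1 + 12 / c * Real.log (4 * N)) := Real.log_nonneg (by linarith)
    positivity
  have hKpos : 0 < K := by
    have : (0 : ℝ) < K := by linarith
    exact_mod_cast this
  obtain ⟨g, hg⟩ := Pool.Agent.S12.absorb (univ : Finset ι)
    (fun S u => Spn b (1 / (4 * N)) u (S.erase u))
    (fun S T u hST h => Spn_mono b _ u (Finset.erase_subset_erase u hST) h)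
    (q + 1) K (by linarith) hKpos (by
      intro S T _ _ hT
      have h1 : ((T \ S).card : ℝ) ≤ q * S.card := by
        apply Spn_size b hc hc1 hP hM
        intro u hu
        have hu' := Finset.mem_sdiff.1 hu
        have := hT u hu'.1
        rwa [Finset.erase_eq_of_notMem hu'.2] at this
      have h2 : (T.card : ℝ) ≤ (T \ S).card + S.card := by
        have : T.card ≤ (T \ S).card + S.card := by
          calc T.card ≤ ((T \ S) ∪ S).card := Finset.card_le_card (by
                intro x hx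
                by_cases hxS : x ∈ S
                · exact Finset.mem_union_right _ hxS
                · exact Finset.mem_union_left _ (Finset.mem_sdiff.2 ⟨hx, hxS⟩))
            _ ≤ _ := Finset.card_union_le _ _
        exact_mod_cast this
      calc (T.card : ℝ) ≤ (T \ S).card + S.card := h2
        _ ≤ q * S.card + S.card := by linarith
        _ = _ := by ring)
  refine ⟨g, fun C hmono => ?_⟩
  have h1 := T_core_bound b (1 / 4) (ENNReal.ofReal (1 / (4 * N))) C (by
    intro C' hC' hne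
    obtain ⟨u, hu, hnot⟩ := hg C' (Finset.subset_univ _) hne
      (fun x hx y hy => hmono x (hC' hx) y (hC' hy))
    refine ⟨u, hu, ?_⟩
    rw [Finset.erase_idem] at hnot
    by_contra hcon
    rw [not_le] at hcon
    exact hnot ⟨C'.erase u, Finset.Subset.refl _, hcon.le⟩)
  have h2 : (1 + 2 * (1 / 4) * ENNReal.ofReal (1 / (4 * N))) =
      ENNReal.ofReal (1 + 1 / (8 * N)) := by
    rw [ENNReal.ofReal_add (by norm_num) (by positivity), ENNReal.ofReal_one]
    congr 1
    have : (1 : ℝ) / (8 * N) = (1 / 2) * (1 / (4 * N)) := by field_simp; norm_num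
    rw [this, ENNReal.ofReal_mul (by norm_num)]
    congr 1
    rw [ENNReal.ofReal_div_of_pos (by norm_num)]
    simp only [ENNReal.ofReal_one, ENNReal.ofReal_ofNat]
    rw [one_div, one_div]
    have h4 : (4 : ℝ≥0∞) = 2 * 2 := by norm_num
    rw [h4, ENNReal.mul_inv (by norm_num) (by norm_num), ← mul_assoc,
      ENNReal.mul_inv_cancel (by norm_num) (by norm_num), one_mul]
  rwa [h2] at h1

/-- Sets with a small ternary gas are unions of four dissociated sets. -/
theorem four_of_small (b : ι → Γ) (N : ℕ) (hN : 1 ≤ N) (C : Finset ι)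
    (h1 : T b (1 / 4) C 0 ≤ ENNReal.ofReal (1 + 1 / (8 * N)) ^ C.card) (hCN : C.card ≤ N) :
    ∃ f : ι → Fin 4, ∀ k, Dis b (C.filter (fun i => f i = k)) := by
  apply exists_four b C
  have hNr : (1 : ℝ) ≤ N := by exact_mod_cast hN
  have h3 : ENNReal.ofReal (1 + 1 / (8 * N)) ^ C.card ≤ ENNReal.ofReal (6 / 5) := by
    rw [← ENNReal.ofReal_pow (by positivity)]
    apply ENNReal.ofReal_le_ofReal
    have h4 : (1 + 1 / (8 * N) : ℝ) ≤ Real.exp (1 / (8 * N)) := by
      have := Real.add_one_le_exp (1 / (8 * (N : ℝ)))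
      linarith
    calc (1 + 1 / (8 * N) : ℝ) ^ C.card ≤ Real.exp (1 / (8 * N)) ^ C.card :=
          pow_le_pow_left₀ (by positivity) h4 _
      _ = Real.exp (C.card * (1 / (8 * N))) := by rw [← Real.exp_nat_mul]
      _ ≤ Real.exp (1 / 8) := by
          apply Real.exp_le_exp.2
          have : (C.card : ℝ) ≤ N := by exact_mod_cast hCN
          rw [mul_one_div, div_le_div_iff₀ (by positivity) (by norm_num)]
          linarith
      _ ≤ 6 / 5 := by
          have h5 : Real.exp (1 / 8) ≤ 1 / (1 - 1 / 8) := by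
            have := Real.add_one_le_exp (-(1 / 8 : ℝ))
            rw [Real.exp_neg] at this
            rw [le_div_iff₀ (by norm_num)]
            have hpos := Real.exp_pos (1 / 8 : ℝ)
            have h6 : (-(1 / 8 : ℝ) + 1) * Real.exp (1 / 8) ≤ 1 := by
              calc (-(1 / 8 : ℝ) + 1) * Real.exp (1 / 8) ≤
                    (Real.exp (1 / 8))⁻¹ * Real.exp (1 / 8) :=
                    mul_le_mul_of_nonneg_right this hpos.le
                _ = 1 := inv_mul_cancel₀ hpos.ne'
            linarith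
          linarith
  refine lt_of_le_of_lt (h1.trans h3) ?_
  have h7 : (5 / 4 : ℝ≥0∞) = ENNReal.ofReal (5 / 4) := by
    rw [ENNReal.ofReal_div_of_pos (by norm_num)]
    simp
  rw [h7, ENNReal.ofReal_lt_ofReal_iff (by norm_num)]
  norm_num

/-- Sets with a very small ternary gas are dissociated. -/
theorem dis_of_small (b : ι → Γ) (L : ℕ) (C : Finset ι)
    (h1 : T b (1 / 4) C 0 ≤ ENNReal.ofReal (1 + 1 / (8 * ((8 ^ L : ℕ) : ℝ))) ^ C.card)
    (hCL : C.card ≤ L) : Dis b C := by
  classical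
  intro X Y hX hY hXY
  by_contra hne
  set c : ι → ℤ := fun i => (if i ∈ X then 1 else 0) - (if i ∈ Y then 1 else 0) with hc
  have hc0 : c ≠ 0 := by
    intro h0
    apply hne
    ext i
    have := congrFun h0 i
    by_cases h1 : i ∈ X <;> by_cases h2 : i ∈ Y <;> simp [hc, h1, h2] at this ⊢
  have hphi : phi b c = 0 := by
    rw [phi_apply]
    have : ∀ i, c i • b i = (if i ∈ X then b i else 0) - (if i ∈ Y then b i else 0) := by
      intro i
      by_cases h1 : i ∈ X <;> by_cases h2 : i ∈ Y <;> simp [hc, h1, h2]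
    simp_rw [this]
    rw [Finset.sum_sub_distrib, Finset.sum_ite_mem, Finset.sum_ite_mem, Finset.univ_inter,
      Finset.univ_inter, hXY, sub_self]
  have htern : ∀ i, c i = 0 ∨ c i = 1 ∨ c i = -1 := by
    intro i
    by_cases h1 : i ∈ X <;> by_cases h2 : i ∈ Y <;> simp [hc, h1, h2]
  have hsp : sp c ⊆ C := by
    intro i hi
    simp only [sp, Finset.mem_filter, Finset.mem_univ, true_and] at hi
    by_cases h1 : i ∈ X
    · exact hX h1
    · by_cases h2 : i ∈ Y
      · exact hY h2
      · exact absurd (by simp [hc, h1, h2]) hi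
  have hlow : 1 + (1 / 4 : ℝ≥0∞) ^ L ≤ T b (1 / 4) C 0 := by
    have h2 : ∑ d ∈ ({0, c} : Finset (ι → ℤ)), (if phi b d = 0 then tw (1 / 4) C d else 0) ≤
        T b (1 / 4) C 0 := ENNReal.sum_le_tsum _
    rw [Finset.sum_pair (Ne.symm hc0), if_pos (map_zero _), if_pos hphi] at h2
    have h3 : tw (1 / 4) C (0 : ι → ℤ) = 1 := by simp [tw]
    rw [h3, tw_quarter htern hsp] at h2
    refine le_trans ?_ h2
    have h14 : (1 / 4 : ℝ≥0∞) ≤ 1 := by
      rw [one_div, ENNReal.inv_le_one]; norm_num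
    exact add_le_add le_rfl
      (pow_le_pow_right_of_le_one' h14 ((Finset.card_le_card hsp).trans hCL))
  have hN : (0 : ℝ) < ((8 ^ L : ℕ) : ℝ) := by positivity
  have hup : ENNReal.ofReal (1 + 1 / (8 * ((8 ^ L : ℕ) : ℝ))) ^ C.card <
      1 + (1 / 4 : ℝ≥0∞) ^ L := by
    have e1 : (1 : ℝ≥0∞) + (1 / 4 : ℝ≥0∞) ^ L = ENNReal.ofReal (1 + (1 / 4) ^ L) := by
      rw [ENNReal.ofReal_add (by norm_num) (by positivity), ENNReal.ofReal_one,
        ENNReal.ofReal_pow (by norm_num)]
      congr 2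
      rw [ENNReal.ofReal_div_of_pos (by norm_num)]
      simp
    rw [e1, ← ENNReal.ofReal_pow (by positivity), ENNReal.ofReal_lt_ofReal_iff (by positivity)]
    have hx : (1 : ℝ) + 1 / (8 * ((8 ^ L : ℕ) : ℝ)) ≤ Real.exp (1 / (8 * ((8 ^ L : ℕ) : ℝ))) := by
      have := Real.add_one_le_exp (1 / (8 * ((8 ^ L : ℕ) : ℝ)))
      linarith
    have hL2 : (L : ℝ) ≤ 2 ^ L := by
      have : L ≤ 2 ^ L := Nat.lt_two_pow_self.le
      exact_mod_cast this
    set t : ℝ := C.card * (1 / (8 * ((8 ^ L : ℕ) : ℝ))) with ht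
    have ht0 : 0 ≤ t := by positivity
    have ht1 : t ≤ 1 / 8 * (1 / 4) ^ L := by
      have h4 : (C.card : ℝ) ≤ 2 ^ L := le_trans (by exact_mod_cast hCL) hL2
      have h5 : (((8 ^ L : ℕ) : ℝ)) = 2 ^ L * 4 ^ L := by
        push_cast
        rw [← mul_pow]
        norm_num
      rw [ht, h5, one_div_pow, mul_one_div, div_le_iff₀ (by positivity)]
      calc (C.card : ℝ) ≤ 2 ^ L := h4
        _ = 1 / 8 * (1 / 4 ^ L) * (8 * (2 ^ L * 4 ^ L)) := by field_simp
    have ht2 : t ≤ 1 / 8 := ht1.trans (by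
      have : ((1 : ℝ) / 4) ^ L ≤ 1 := pow_le_one₀ (by norm_num) (by norm_num)
      linarith)
    have hexp : Real.exp t ≤ 1 + 2 * t := by
      have h6 := Real.add_one_le_exp (-t)
      rw [Real.exp_neg] at h6
      have hpos := Real.exp_pos t
      have h7 : (-t + 1) * Real.exp t ≤ 1 := by
        calc (-t + 1) * Real.exp t ≤ (Real.exp t)⁻¹ * Real.exp t :=
              mul_le_mul_of_nonneg_right h6 hpos.le
          _ = 1 := inv_mul_cancel₀ hpos.ne'
      nlinarith
    calc (1 + 1 / (8 * ((8 ^ L : ℕ) : ℝ))) ^ C.card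
        ≤ Real.exp (1 / (8 * ((8 ^ L : ℕ) : ℝ))) ^ C.card :=
          pow_le_pow_left₀ (by positivity) hx _
      _ = Real.exp t := by rw [← Real.exp_nat_mul]
      _ ≤ 1 + 2 * t := hexp
      _ < 1 + (1 / 4) ^ L := by
          have : (0 : ℝ) < (1 / 4) ^ L := by positivity
          linarith
  exact absurd (hlow.trans h1) (not_le.2 hup)

end Iota

section Group

variable {A : Type*} [AddCommGroup A] [DecidableEq A]

open Pool.Agent.Helper80.SU

/-- transport of dissociated families -/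
theorem Dis.diss {V : Finset A} {D : Finset {x // x ∈ V}}
    (h : Dis (fun x : {x // x ∈ V} => (x : A)) D) :
    Diss (D.map (Function.Embedding.subtype _)) := by
  intro X Y hX hY hXY
  have key : ∀ Z : Finset A, Z ⊆ D.map (Function.Embedding.subtype _) →
      ∃ Z' ⊆ D, Z'.map (Function.Embedding.subtype _) = Z := by
    intro Z hZ
    refine ⟨D.filter (fun x : {x // x ∈ V} => (x : A) ∈ Z), Finset.filter_subset _ _, ?_⟩
    ext a
    rw [Finset.mem_map]
    constructor
    · rintro ⟨x, hx, rfl⟩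
      exact (Finset.mem_filter.1 hx).2
    · intro ha
      obtain ⟨x, hx, hxa⟩ := Finset.mem_map.1 (hZ ha)
      refine ⟨x, Finset.mem_filter.2 ⟨hx, ?_⟩, hxa⟩
      have : (x : A) = a := hxa
      rw [this]; exact ha
  obtain ⟨X', hX', rfl⟩ := key X hX
  obtain ⟨Y', hY', rfl⟩ := key Y hY
  rw [Finset.sum_map, Finset.sum_map] at hXY
  rw [h X' Y' hX' hY' hXY]

theorem Diss.dis {V : Finset A} {D : Finset {x // x ∈ V}}
    (h : Diss (D.map (Function.Embedding.subtype _))) :
    Dis (fun x : {x // x ∈ V} => (x : A)) D := by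
  intro X Y hX hY hXY
  have h1 := h (X.map (Function.Embedding.subtype _)) (Y.map (Function.Embedding.subtype _))
    (Finset.map_subset_map.2 hX) (Finset.map_subset_map.2 hY) (by
      rw [Finset.sum_map, Finset.sum_map]
      exact hXY)
  exact Finset.map_injective _ h1

/-- One partition of a set (possibly infinite): all monochromatic sets with at most `L` elements are
dissociated and all monochromatic sets with at most `8 ^ L` elements are unions of four dissociated
sets. -/
theorem local_main (W : Set A) {c : ℝ} (hc : 0 < c) (hc1 : c ≤ 1)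
    (hW : ∀ B : Finset A, (B : Set A) ⊆ W → ∃ D ⊆ B, Diss D ∧ c * (B.card : ℝ) ≤ D.card)
    (L K : ℕ)
    (hK : 2 * (3 / c * Real.log (1 + 12 / c * Real.log (4 * ((8 ^ L : ℕ) : ℝ))) + 2) ≤ K) :
    ∃ f : A → Fin K, ∀ B : Finset A, (B : Set A) ⊆ W → (∀ x ∈ B, ∀ y ∈ B, f x = f y) →
      (B.card ≤ L → Diss B) ∧
      (B.card ≤ 8 ^ L → ∃ h : A → Fin 4, ∀ k, Diss (B.filter (fun x => h x = k))) := by
  classical
  have hN1 : 1 ≤ 8 ^ L := Nat.one_le_pow _ _ (by norm_num)
  have hKpos : 0 < K := by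
    have h0 : (1 : ℝ) ≤ ((8 ^ L : ℕ) : ℝ) := by exact_mod_cast hN1
    have h1 : 0 ≤ Real.log (4 * ((8 ^ L : ℕ) : ℝ)) := Real.log_nonneg (by linarith)
    have h2 : 0 ≤ 12 / c * Real.log (4 * ((8 ^ L : ℕ) : ℝ)) := by positivity
    have h3 : 0 ≤ Real.log (1 + 12 / c * Real.log (4 * ((8 ^ L : ℕ) : ℝ))) :=
      Real.log_nonneg (by linarith)
    have h4 : 0 ≤ 3 / c * Real.log (1 + 12 / c * Real.log (4 * ((8 ^ L : ℕ) : ℝ))) := by
      positivity
    have : (0 : ℝ) < K := by linarith
    exact_mod_cast this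
  refine Pool.Agent.S12.compactness K W _ (fun V hV => ?_)
  obtain ⟨g, hg⟩ := classes_iota (fun x : {x // x ∈ V} => (x : A)) hc hc1 (by
    intro B
    obtain ⟨D, hDB, hD, hcard⟩ := hW (B.map (Function.Embedding.subtype _)) (by
      intro a ha
      obtain ⟨x, -, rfl⟩ := Finset.mem_map.1 (Finset.mem_coe.1 ha)
      exact hV x.2)
    have hDe : (B.filter (fun x : {x // x ∈ V} => (x : A) ∈ D)).map (Function.Embedding.subtype _) = D := by
      ext a
      rw [Finset.mem_map]
      constructor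
      · rintro ⟨x, hx, rfl⟩
        exact (Finset.mem_filter.1 hx).2
      · intro ha
        obtain ⟨x, hx, hxa⟩ := Finset.mem_map.1 (hDB ha)
        refine ⟨x, Finset.mem_filter.2 ⟨hx, ?_⟩, hxa⟩
        have : (x : A) = a := hxa
        rw [this]; exact ha
    refine ⟨B.filter (fun x : {x // x ∈ V} => (x : A) ∈ D), Finset.filter_subset _ _, Diss.dis ?_, ?_⟩
    · rw [hDe]; exact hD
    · have h1 : (B.filter (fun x : {x // x ∈ V} => (x : A) ∈ D)).card = D.card := by
        rw [← Finset.card_map (Function.Embedding.subtype _), hDe]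
      rw [h1]
      rw [Finset.card_map] at hcard
      exact hcard) (8 ^ L) hN1 K hK
  refine ⟨fun a => if h : a ∈ V then g ⟨a, h⟩ else ⟨0, hKpos⟩, fun B hB hmono => ?_⟩
  -- the subset of the subtype
  set B' : Finset {x // x ∈ V} := univ.filter (fun x => (x : A) ∈ B) with hB'
  have hBe : B'.map (Function.Embedding.subtype _) = B := by
    ext a
    rw [Finset.mem_map]
    constructor
    · rintro ⟨x, hx, rfl⟩
      exact (Finset.mem_filter.1 hx).2
    · intro ha
      exact ⟨⟨a, hB ha⟩, Finset.mem_filter.2 ⟨Finset.mem_univ _, ha⟩, rfl⟩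
  have hcard : B'.card = B.card := by
    rw [← Finset.card_map (Function.Embedding.subtype _), hBe]
  have hT := hg B' (by
    intro x hx y hy
    have h1 := hmono x (Finset.mem_filter.1 hx).2 y (Finset.mem_filter.1 hy).2
    simp only [x.2, y.2, dif_pos] at h1
    exact h1)
  refine ⟨fun hBL => ?_, fun hBN => ?_⟩
  · have h1 := dis_of_small (fun x : {x // x ∈ V} => (x : A)) L B' hT (by rw [hcard]; exact hBL)
    have h2 := Dis.diss h1
    rwa [hBe] at h2
  · obtain ⟨f, hf⟩ := four_of_small (fun x : {x // x ∈ V} => (x : A)) (8 ^ L) hN1 B' hT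
      (by rw [hcard]; exact hBN)
    refine ⟨fun a => if h : a ∈ V then f ⟨a, h⟩ else 0, fun k => ?_⟩
    have h2 := Dis.diss (hf k)
    refine fun X Y hX hY => h2 X Y ?_ ?_
    · intro a ha
      have h3 := Finset.mem_filter.1 (hX ha)
      have haV := hB h3.1
      simp only [haV, dif_pos] at h3
      exact Finset.mem_map.2 ⟨⟨a, haV⟩, Finset.mem_filter.2
        ⟨Finset.mem_filter.2 ⟨Finset.mem_univ _, h3.1⟩, h3.2⟩, rfl⟩
    · intro a ha
      have h3 := Finset.mem_filter.1 (hY ha)
      have haV := hB h3.1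
      simp only [haV, dif_pos] at h3
      exact Finset.mem_map.2 ⟨⟨a, haV⟩, Finset.mem_filter.2
        ⟨Finset.mem_filter.2 ⟨Finset.mem_univ _, h3.1⟩, h3.2⟩, rfl⟩

/-- The number of classes is `O(log L)`. -/
theorem numeric {c : ℝ} (hc : 0 < c) (L : ℕ) :
    2 * (3 / c * Real.log (1 + 12 / c * Real.log (4 * ((8 ^ L : ℕ) : ℝ))) + 2) ≤
      ((⌈2 * (3 / c * (Real.log (1 + 12 / c) + 4) + 2)⌉₊ * (Nat.log 2 L + 1) : ℕ) : ℝ) := by
  set m : ℕ := Nat.log 2 L with hm
  have hlog2 : 0 < Real.log 2 := Real.log_pos (by norm_num)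
  have hlog2' : Real.log 2 ≤ 1 := by
    have := Real.log_two_lt_d9
    linarith
  have hL : L < 2 ^ (m + 1) := Nat.lt_pow_succ_log_self (by norm_num) L
  have hLr : (L : ℝ) ≤ 2 ^ (m + 1) := by exact_mod_cast hL.le
  have h1 : Real.log (4 * ((8 ^ L : ℕ) : ℝ)) = (3 * L + 2) * Real.log 2 := by
    have : (4 * ((8 ^ L : ℕ) : ℝ)) = 2 ^ (3 * L + 2) := by
      push_cast
      rw [pow_add, pow_mul]
      norm_num
      ring
    rw [this, Real.log_pow]
    push_cast
    ring
  have hmr : (1 : ℝ) ≤ 2 ^ m := one_le_pow₀ (by norm_num)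
  have h2 : Real.log (4 * ((8 ^ L : ℕ) : ℝ)) ≤ 2 ^ (m + 4) := by
    rw [h1]
    have h3 : (3 * (L : ℝ) + 2) ≤ 2 ^ (m + 4) := by
      have e1 : (2 : ℝ) ^ (m + 4) = 16 * 2 ^ m := by rw [pow_add]; norm_num; ring
      have e2 : (2 : ℝ) ^ (m + 1) = 2 * 2 ^ m := by rw [pow_succ]; ring
      rw [e1]
      rw [e2] at hLr
      linarith
    have h4 : (0 : ℝ) ≤ 3 * (L : ℝ) + 2 := by positivity
    nlinarith
  have h0 : 0 ≤ Real.log (4 * ((8 ^ L : ℕ) : ℝ)) := by
    rw [h1]; positivity
  have hc12 : 0 < 12 / c := by positivity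
  have hp : (1 : ℝ) ≤ 2 ^ (m + 4) := one_le_pow₀ (by norm_num)
  have h5 : Real.log (1 + 12 / c * Real.log (4 * ((8 ^ L : ℕ) : ℝ))) ≤
      Real.log (1 + 12 / c) + (m + 4) := by
    calc Real.log (1 + 12 / c * Real.log (4 * ((8 ^ L : ℕ) : ℝ)))
        ≤ Real.log ((1 + 12 / c) * 2 ^ (m + 4)) := by
          apply Real.log_le_log (by positivity)
          nlinarith [mul_le_mul_of_nonneg_left h2 hc12.le]
      _ = Real.log (1 + 12 / c) + (m + 4) * Real.log 2 := by
          rw [Real.log_mul (by positivity) (by positivity), Real.log_pow]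
          push_cast
          ring
      _ ≤ Real.log (1 + 12 / c) + (m + 4) := by
          have h6 : (0 : ℝ) ≤ (m : ℝ) + 4 := by positivity
          nlinarith
  have h7 : 0 ≤ Real.log (1 + 12 / c) := Real.log_nonneg (by linarith)
  have h8 : Real.log (1 + 12 / c) + (m + 4) ≤ (Real.log (1 + 12 / c) + 4) * (m + 1) := by
    have : (0 : ℝ) ≤ m := Nat.cast_nonneg _
    nlinarith
  have h9 : (0 : ℝ) ≤ 3 / c := by positivity
  have hm0 : (0 : ℝ) ≤ m := Nat.cast_nonneg _
  calc 2 * (3 / c * Real.log (1 + 12 / c * Real.log (4 * ((8 ^ L : ℕ) : ℝ))) + 2)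
      ≤ 2 * (3 / c * ((Real.log (1 + 12 / c) + 4) * (m + 1)) + 2) := by
        have := mul_le_mul_of_nonneg_left (h5.trans h8) h9
        linarith
    _ ≤ (2 * (3 / c * (Real.log (1 + 12 / c) + 4) + 2)) * (m + 1) := by nlinarith
    _ ≤ _ := by
        push_cast
        exact mul_le_mul_of_nonneg_right (Nat.le_ceil _) (by positivity)

end Group

end Pool.Agent.LL
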