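import Pool.Agent.LL.Colour
import Pool.Agent.S12.TT

/-!
Finite sets in which all subsets contain proportionate dissociated sets: `O(log log N)` classes.
-/

set_option autoImplicit false
set_option linter.unusedSectionVars false

namespace Pool.Agent.LL

open Finset
open scoped ENNReal

variable {ι : Type*} [Fintype ι] [DecidableEq ι] {Γ : Type*} [AddCommGroup Γ]

/-- The quotients increase when the temperature increases. -/
theorem scale (b : ι → Γ) {β δ : ℝ} (hβ : 0 < β) (hδ : 0 < δ) (B : Finset ι) (v : Γ)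
    (h : ENNReal.ofReal δ * Z b β B 0 ≤ Z b β B v) (j : ℕ) :
    ENNReal.ofReal (δ ^ ((1 / 2 : ℝ) ^ j)) * Z b (β / 2 ^ j) B 0 ≤ Z b (β / 2 ^ j) B v := by
  induction j with
  | zero => simpa using h
  | succ j ih =>
    have hβ' : 0 < β / 2 ^ (j + 1) := by positivity
    have hβ2 : 2 * (β / 2 ^ (j + 1)) = β / 2 ^ j := by
      rw [pow_succ]; field_simp
    have hd := doubling b (β / 2 ^ (j + 1)) B v
    rw [hβ2] at hd
    set γ := β / 2 ^ (j + 1) with hγ
    have hγ' : 0 < β / 2 ^ j := by positivity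
    have h0 : Z b (β / 2 ^ j) B 0 ≠ 0 :=
      (lt_of_lt_of_le zero_lt_one (Z_zero_ge b _ B)).ne'
    have h1 : Z b (β / 2 ^ j) B 0 * (ENNReal.ofReal (δ ^ ((1 / 2 : ℝ) ^ j)) * Z b γ B 0 ^ 2) ≤
        Z b (β / 2 ^ j) B 0 * Z b γ B v ^ 2 := by
      calc _ = Z b γ B 0 ^ 2 * (ENNReal.ofReal (δ ^ ((1 / 2 : ℝ) ^ j)) * Z b (β / 2 ^ j) B 0) := by
            ring
        _ ≤ Z b γ B 0 ^ 2 * Z b (β / 2 ^ j) B v := by gcongr
        _ ≤ _ := hd
    have h2 := (ENNReal.mul_le_mul_iff_right h0 (Z_ne_top b hγ' B 0)).1 h1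
    have h3 : δ ^ ((1 / 2 : ℝ) ^ j) = (δ ^ ((1 / 2 : ℝ) ^ (j + 1))) ^ 2 := by
      rw [← Real.rpow_natCast (δ ^ ((1 / 2 : ℝ) ^ (j + 1))) 2, ← Real.rpow_mul hδ.le]
      congr 1
      rw [pow_succ]
      push_cast
      ring
    rw [h3, ENNReal.ofReal_pow (Real.rpow_nonneg hδ.le _), ← mul_pow] at h2
    by_contra hcon
    rw [not_le] at hcon
    have := ENNReal.pow_lt_pow_left two_ne_zero hcon
    exact absurd h2 (not_le.2 this)

/-- The span relation. -/
def Spn (b : ι → Γ) (δ : ℝ) (v : ι) (B : Finset ι) : Prop :=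
  ∃ B' ⊆ B, ENNReal.ofReal δ * T b (1 / 4) B' 0 ≤ T b (1 / 4) B' (b v)

theorem Spn_mono (b : ι → Γ) (δ : ℝ) (v : ι) {B B' : Finset ι} (h : B ⊆ B')
    (hs : Spn b δ v B) : Spn b δ v B' := by
  obtain ⟨A, hA, hA'⟩ := hs
  exact ⟨A, hA.trans h, hA'⟩

theorem tw_le_one (c : ι → ℤ) (B : Finset ι) : tw (1 / 4) B c ≤ 1 := by
  unfold tw
  apply Finset.prod_le_one' 
  intro i _
  split_ifs
  · exact le_rfl
  · rw [one_div, ENNReal.inv_le_one]; norm_num
  · exact zero_le

open Classical in
theorem T_ne_top (b : ι → Γ) (B : Finset ι) (y : Γ) : T b (1 / 4) B y ≠ ⊤ := by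
  unfold T
  rw [tsum_eq_sum (s := Fintype.piFinset (fun _ : ι => ({0, 1, -1} : Finset ℤ)))]
  · refine ENNReal.sum_ne_top.2 fun c _ => ?_
    split_ifs
    · exact ne_top_of_le_ne_top ENNReal.one_ne_top (tw_le_one c B)
    · exact ENNReal.zero_ne_top
  · intro c hc
    rw [Fintype.mem_piFinset] at hc
    push Not at hc
    obtain ⟨i, hi⟩ := hc
    simp only [Finset.mem_insert, Finset.mem_singleton, not_or] at hi
    have : tw (1 / 4) B c = 0 := by
      unfold tw
      apply Finset.prod_eq_zero (Finset.mem_univ i)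
      rw [if_neg hi.1, if_neg]
      rintro ⟨_, h | h⟩
      · exact hi.2.1 h
      · exact hi.2.2 h
    rw [this]
    simp

/-- Spanned elements have large Gaussian quotients. -/
theorem Spn_gauss (b : ι → Γ) {δ β : ℝ} (hβ : Real.exp (-β) = 1 / 2) {v : ι} {B : Finset ι}
    (h : Spn b δ v B) : ENNReal.ofReal δ * Z b β B 0 ≤ Z b β B (b v) := by
  obtain ⟨B', hB', h'⟩ := h
  have hc := comp b hβ hB' (b v)
  have h0 : T b (1 / 4) B' 0 ≠ 0 := (lt_of_lt_of_le zero_lt_one (T_zero_ge b _ B')).ne'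
  have h1 : T b (1 / 4) B' 0 * (ENNReal.ofReal δ * Z b β B 0) ≤
      T b (1 / 4) B' 0 * Z b β B (b v) := by
    calc _ = ENNReal.ofReal δ * T b (1 / 4) B' 0 * Z b β B 0 := by ring
      _ ≤ T b (1 / 4) B' (b v) * Z b β B 0 := by gcongr
      _ ≤ _ := hc
      _ = _ := mul_comm _ _
  exact (ENNReal.mul_le_mul_iff_right h0 (T_ne_top b B' 0)).1 h1

/-- The size of the span. -/
theorem Spn_size (b : ι → Γ) {c : ℝ} (hc : 0 < c) (hc1 : c ≤ 1)
    (hP : ∀ B : Finset ι, ∃ D ⊆ B, Dis b D ∧ c * (B.card : ℝ) ≤ D.card)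
    {M : ℝ} (hM : 4 ≤ M) (L B : Finset ι) (hL : ∀ u ∈ L, Spn b (1 / M) u B) :
    (L.card : ℝ) ≤ 3 / c * Real.log (1 + 12 / c * Real.log M) * B.card := by
  have hlog2 : 0 < Real.log 2 := Real.log_pos (by norm_num)
  have hlogM : 1 < Real.log M := by
    have h1 : Real.log 4 ≤ Real.log M := Real.log_le_log (by norm_num) hM
    have h2 : Real.log 4 = 2 * Real.log 2 := by
      rw [show (4 : ℝ) = 2 ^ 2 by norm_num, Real.log_pow]; norm_num
    have := Real.log_two_gt_d9
    linarith
  set β : ℝ := Real.log 2 with hβ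
  have hβ0 : 0 < β := hlog2
  have hβe : Real.exp (-β) = 1 / 2 := by
    rw [Real.exp_neg, Real.exp_log (by norm_num)]; norm_num
  -- the number of doublings
  set x : ℝ := 2 / c * Real.log M with hx
  have hx1 : 1 ≤ x := by
    have : 2 ≤ 2 / c := by
      rw [le_div_iff₀ hc]; linarith
    rw [hx]; nlinarith
  obtain ⟨j, hj1, hj2⟩ : ∃ j : ℕ, x ≤ 2 ^ j ∧ (2 : ℝ) ^ j ≤ 2 * x := by
    have hex : ∃ j : ℕ, x ≤ (2 : ℝ) ^ j := (pow_unbounded_of_one_lt x (by norm_num)).imp
      (fun _ h => h.le)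
    classical
    refine ⟨Nat.find hex, Nat.find_spec hex, ?_⟩
    rcases Nat.eq_zero_or_pos (Nat.find hex) with h0 | hpos
    · rw [h0, pow_zero]; linarith
    · obtain ⟨k, hk⟩ := Nat.exists_eq_succ_of_ne_zero hpos.ne'
      have hk2 : ¬ (x ≤ (2 : ℝ) ^ k) := Nat.find_min hex (by omega)
      rw [hk, pow_succ]
      linarith
  have hpow : (0 : ℝ) < 2 ^ j := by positivity
  have hκ : ∀ l ∈ L, ENNReal.ofReal (1 - c / 2) * Z b (β / 2 ^ j) B 0 ≤
      Z b (β / 2 ^ j) B (b l) := by
    intro l hl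
    have h1 := scale b hβ0 (show (0 : ℝ) < 1 / M by positivity) B (b l)
      (Spn_gauss b hβe (hL l hl)) j
    refine le_trans ?_ h1
    gcongr
    -- 1 - c/2 ≤ (1/M)^(2^-j)
    have h2 : (1 / M : ℝ) ^ ((1 / 2 : ℝ) ^ j) = Real.exp (-(Real.log M / 2 ^ j)) := by
      rw [Real.rpow_def_of_pos (by positivity)]
      congr 1
      rw [one_div, Real.log_inv, one_div, inv_pow]
      ring
    rw [h2]
    have h3 : Real.log M / 2 ^ j ≤ c / 2 := by
      rw [div_le_iff₀ hpow]
      have : c / 2 * x = Real.log M := by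
        rw [hx]; field_simp
      nlinarith
    have h4 := Real.add_one_le_exp (-(Real.log M / 2 ^ j))
    linarith
  obtain ⟨D, hD, hDis, hcard⟩ := hP L
  have hmain := closure_bound b (show 0 < β / 2 ^ j by positivity) hc hc1 L B D hD hDis hcard hκ
  refine hmain.trans ?_
  gcongr
  have hβlow : (0.69 : ℝ) < β := by
    have := Real.log_two_gt_d9
    rw [hβ]; linarith
  have h5 : 2 / (β / 2 ^ j) = 2 * 2 ^ j / β := by field_simp
  rw [h5, div_le_iff₀ hβ0]
  have h6 : 2 * (2 : ℝ) ^ j ≤ 8 / c * Real.log M := by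
    have : 2 * (2 * x) = 8 / c * Real.log M := by rw [hx]; ring
    linarith
  have h7 : 0 ≤ Real.log M / c := by positivity
  have h8 : 8 / c * Real.log M = 8 * (Real.log M / c) := by ring
  have h9 : 12 / c * Real.log M * β = 12 * (Real.log M / c) * β := by ring
  rw [h9]
  rw [h8] at h6
  nlinarith [mul_le_mul_of_nonneg_left hβlow.le h7]

/-- The main theorem for families. -/
theorem main_iota (b : ι → Γ) {c : ℝ} (hc : 0 < c) (hc1 : c ≤ 1)
    (hP : ∀ B : Finset ι, ∃ D ⊆ B, Dis b D ∧ c * (B.card : ℝ) ≤ D.card)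
    (N : ℕ) (hN : 1 ≤ N) (hcard : Fintype.card ι ≤ N)
    (K : ℕ) (hK : 2 * (3 / c * Real.log (1 + 12 / c * Real.log (4 * N)) + 2) ≤ K) :
    ∃ f : ι → Fin (4 * K), ∀ k, Dis b (univ.filter (fun i => f i = k)) := by
  classical
  have hNr : (1 : ℝ) ≤ N := by exact_mod_cast hN
  have hM : (4 : ℝ) ≤ 4 * N := by linarith
  set q : ℝ := 3 / c * Real.log (1 + 12 / c * Real.log (4 * N)) with hq
  have hq0 : 0 ≤ q := by
    have h1 : 0 ≤ Real.log (4 * N) := Real.log_nonneg (by linarith)
    have h2 : 0 ≤ 12 / c * Real.log (4 * N) := by positivity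
    have h3 : 0 ≤ Real.log (1 + 12 / c * Real.log (4 * N)) := Real.log_nonneg (by linarith)
    positivity
  have hKpos : 0 < K := by
    have : (0 : ℝ) < K := by linarith
    exact_mod_cast this
  obtain ⟨g, hg⟩ := Pool.Agent.S12.absorb (univ : Finset ι)
    (fun S u => Spn b (1 / (4 * N)) u (S.erase u))
    (fun S T u hST h => Spn_mono b _ u (Finset.erase_subset_erase u hST) h)
    (q + 1) K (by linarith) hKpos (by
      intro S T _ _ hT
      have h1 : ((T \ S).card : ℝ) ≤ q * S.card := by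
        apply Spn_size b hc hc1 hP hM
        intro u hu
        have hu' := Finset.mem_sdiff.1 hu
        have := hT u hu'.1
        rwa [Finset.erase_eq_of_notMem hu'.2] at this
      have h2 : (T.card : ℝ) ≤ (T \ S).card + S.card := by
        have : T.card ≤ (T \ S).card + S.card := by
          calc T.card ≤ ((T \ S) ∪ S).card := Finset.card_le_card (by
                intro x hx
                by_cases hxS : x ∈ S
                · exact Finset.mem_union_right _ hxS
                · exact Finset.mem_union_left _ (Finset.mem_sdiff.2 ⟨hx, hxS⟩))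
            _ ≤ _ := Finset.card_union_le _ _
        exact_mod_cast this
      calc (T.card : ℝ) ≤ (T \ S).card + S.card := h2
        _ ≤ q * S.card + S.card := by linarith
        _ = _ := by ring)
  -- every class has a small ternary gas
  have hclass : ∀ k : Fin K, T b (1 / 4) (univ.filter (fun i => g i = k)) 0 < 5 / 4 := by
    intro k
    set C : Finset ι := univ.filter (fun i => g i = k) with hC
    have h1 := T_core_bound b (1 / 4) (ENNReal.ofReal (1 / (4 * N))) C (by
      intro C' hC' hne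
      obtain ⟨u, hu, hnot⟩ := hg C' (Finset.subset_univ _) hne (by
        intro x hx y hy
        rw [(Finset.mem_filter.1 (hC' hx)).2, (Finset.mem_filter.1 (hC' hy)).2])
      refine ⟨u, hu, ?_⟩
      rw [Finset.erase_idem] at hnot
      by_contra hcon
      rw [not_le] at hcon
      exact hnot ⟨C'.erase u, Finset.Subset.refl _, hcon.le⟩)
    have hCN : C.card ≤ N := (Finset.card_le_univ C).trans hcard
    have h2 : (1 + 2 * (1 / 4) * ENNReal.ofReal (1 / (4 * N))) =
        ENNReal.ofReal (1 + 1 / (8 * N)) := by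
      rw [ENNReal.ofReal_add (by norm_num) (by positivity), ENNReal.ofReal_one]
      congr 1
      have : (1 : ℝ) / (8 * N) = (1 / 2) * (1 / (4 * N)) := by field_simp; norm_num
      rw [this, ENNReal.ofReal_mul (by norm_num)]
      congr 1
      rw [ENNReal.ofReal_div_of_pos (by norm_num)]
      simp only [ENNReal.ofReal_one, ENNReal.ofReal_ofNat]
      rw [one_div, one_div]
      have h4 : (4 : ℝ≥0∞) = 2 * 2 := by norm_num
      rw [h4, ENNReal.mul_inv (by norm_num) (by norm_num), ← mul_assoc,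
        ENNReal.mul_inv_cancel (by norm_num) (by norm_num), one_mul]
    rw [h2] at h1
    have h3 : ENNReal.ofReal (1 + 1 / (8 * N)) ^ C.card ≤ ENNReal.ofReal (6 / 5) := by
      rw [← ENNReal.ofReal_pow (by positivity)]
      apply ENNReal.ofReal_le_ofReal
      have h4 : (1 + 1 / (8 * N) : ℝ) ≤ Real.exp (1 / (8 * N)) := by
        have := Real.add_one_le_exp (1 / (8 * (N : ℝ)))
        linarith
      calc (1 + 1 / (8 * N) : ℝ) ^ C.card ≤ Real.exp (1 / (8 * N)) ^ C.card :=
            pow_le_pow_left₀ (by positivity) h4 _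
        _ = Real.exp (C.card * (1 / (8 * N))) := by rw [← Real.exp_nat_mul]
        _ ≤ Real.exp (1 / 8) := by
            apply Real.exp_le_exp.2
            have : (C.card : ℝ) ≤ N := by exact_mod_cast hCN
            rw [mul_one_div, div_le_div_iff₀ (by positivity) (by norm_num)]
            linarith
        _ ≤ 6 / 5 := by
            have h5 : Real.exp (1 / 8) ≤ 1 / (1 - 1 / 8) := by
              have := Real.add_one_le_exp (-(1 / 8 : ℝ))
              rw [Real.exp_neg] at this
              rw [le_div_iff₀ (by norm_num)]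
              have hpos := Real.exp_pos (1 / 8 : ℝ)
              have h6 : (-(1 / 8 : ℝ) + 1) * Real.exp (1 / 8) ≤ 1 := by
                calc (-(1 / 8 : ℝ) + 1) * Real.exp (1 / 8) ≤
                      (Real.exp (1 / 8))⁻¹ * Real.exp (1 / 8) :=
                      mul_le_mul_of_nonneg_right this hpos.le
                  _ = 1 := inv_mul_cancel₀ hpos.ne'
              linarith
            linarith
    refine lt_of_le_of_lt (h1.trans h3) ?_
    have h7 : (5 / 4 : ℝ≥0∞) = ENNReal.ofReal (5 / 4) := by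
      rw [ENNReal.ofReal_div_of_pos (by norm_num)]
      simp
    rw [h7, ENNReal.ofReal_lt_ofReal_iff (by norm_num)]
    norm_num
  choose h hh using fun k : Fin K => exists_four b (univ.filter (fun i => g i = k)) (hclass k)
  refine ⟨fun i => finProdFinEquiv (h (g i) i, g i), fun k => ?_⟩
  obtain ⟨⟨s, t⟩, rfl⟩ := finProdFinEquiv.surjective k
  have hsub : (univ.filter (fun i => finProdFinEquiv (h (g i) i, g i) =
      (finProdFinEquiv (s, t) : Fin (4 * K)))) ⊆
      (univ.filter (fun i => g i = t)).filter (fun i => h t i = s) := by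
    intro i hi
    have hi' := (Finset.mem_filter.1 hi).2
    have := finProdFinEquiv.injective hi'
    simp only [Prod.mk.injEq] at this
    obtain ⟨h1, h2⟩ := this
    rw [Finset.mem_filter, Finset.mem_filter]
    refine ⟨⟨Finset.mem_univ _, h2⟩, ?_⟩
    rw [← h2]; exact h1
  intro X Y hX hY hXY
  exact hh t s X Y (hX.trans hsub) (hY.trans hsub) hXY

end Pool.Agent.LL
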