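import Pool.Agent.Helper28.TL.Rec

/-! Long-range Lefschetz: the minimal annihilator of a finite sequence. -/

set_option autoImplicit false

namespace Pool.Agent.LL

open Polynomial Finset
open Pool.Agent.Helper28.TL (lam lam_add lam_C_mul lam_sum lam_mul exists_primitive)

/-- `G` annihilates the sequence `θ 0, .., θ L` -/
def Ann (L : ℕ) (θ : ℕ → ℤ) (G : ℤ[X]) : Prop :=
  ∀ i, i + G.natDegree ≤ L → ∑ j ∈ range (G.natDegree + 1), G.coeff j * θ (i + j) = 0

/-- the same for rational polynomials -/
def AnnQ (L : ℕ) (θ : ℕ → ℤ) (P : ℚ[X]) : Prop :=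
  ∀ i, i + P.natDegree ≤ L → lam θ L (X ^ i * P) = 0

lemma lam_X_pow_mul (θ : ℕ → ℤ) {L i : ℕ} {P : ℚ[X]} (h : i + P.natDegree ≤ L) :
    lam θ L (X ^ i * P) = ∑ j ∈ range (P.natDegree + 1), P.coeff j * (θ (i + j) : ℚ) := by
  unfold lam
  have h1 : ∀ j ∈ range (L + 1), (θ j : ℚ) * (X ^ i * P).coeff j =
      if i ≤ j then (θ j : ℚ) * P.coeff (j - i) else 0 := by
    intro j _
    rw [coeff_X_pow_mul']
    split_ifs <;> simp
  rw [Finset.sum_congr rfl h1, ← Finset.sum_filter]
  have h2 : ∑ j ∈ (range (P.natDegree + 1)).image (fun j => i + j), (θ j : ℚ) * P.coeff (j - i) =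
      ∑ j ∈ (range (L + 1)).filter (fun j => i ≤ j), (θ j : ℚ) * P.coeff (j - i) := by
    apply Finset.sum_subset
    · intro j hj
      obtain ⟨k, hk, rfl⟩ := Finset.mem_image.1 hj
      rw [Finset.mem_range] at hk
      rw [Finset.mem_filter, Finset.mem_range]
      omega
    · intro j hj hj'
      rw [Finset.mem_filter, Finset.mem_range] at hj
      have : P.coeff (j - i) = 0 := by
        apply coeff_eq_zero_of_natDegree_lt
        by_contra hcon
        push Not at hcon
        apply hj'
        rw [Finset.mem_image]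
        exact ⟨j - i, Finset.mem_range.2 (by omega), by omega⟩
      rw [this, mul_zero]
  rw [← h2, Finset.sum_image (fun a _ b _ hab => by simpa using hab)]
  refine Finset.sum_congr rfl fun j _ => ?_
  rw [Nat.add_sub_cancel_left, mul_comm]

lemma ann_iff {L : ℕ} {θ : ℕ → ℤ} {G : ℤ[X]} :
    Ann L θ G ↔ AnnQ L θ (G.map (Int.castRingHom ℚ)) := by
  have hinj : Function.Injective (Int.castRingHom ℚ) := Int.cast_injective
  have hd : (G.map (Int.castRingHom ℚ)).natDegree = G.natDegree :=
    natDegree_map_eq_of_injective hinj _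
  unfold Ann AnnQ
  rw [hd]
  refine forall_congr' fun i => forall_congr' fun hi => ?_
  rw [lam_X_pow_mul θ (by rw [hd]; exact hi), hd]
  have : ∑ j ∈ range (G.natDegree + 1), (G.map (Int.castRingHom ℚ)).coeff j * (θ (i + j) : ℚ) =
      ((∑ j ∈ range (G.natDegree + 1), G.coeff j * θ (i + j) : ℤ) : ℚ) := by
    push_cast
    refine Finset.sum_congr rfl fun j _ => ?_
    rw [coeff_map, eq_intCast]
  rw [this]
  exact Int.cast_eq_zero.symm

lemma annQ_C_mul {L : ℕ} {θ : ℕ → ℤ} {P : ℚ[X]} {c : ℚ} (hc : c ≠ 0) (h : AnnQ L θ P) :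
    AnnQ L θ (C c * P) := by
  intro i hi
  rw [natDegree_C_mul hc] at hi
  have : X ^ i * (C c * P) = C c * (X ^ i * P) := by ring
  rw [this, lam_C_mul, h i hi, mul_zero]

/-- an annihilator of minimal degree divides all annihilators which are not too long -/
lemma annQ_dvd {L : ℕ} {θ : ℕ → ℤ} {g P : ℚ[X]} (hg0 : g ≠ 0) (hg : AnnQ L θ g)
    (hmin : ∀ R : ℚ[X], R ≠ 0 → AnnQ L θ R → g.natDegree ≤ R.natDegree)
    (hP : AnnQ L θ P) (hdeg : P.natDegree + g.natDegree ≤ L + 1) : g ∣ P := by
  by_contra hnd
  have hP0 : P ≠ 0 := by rintro rfl; exact hnd (dvd_zero _)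
  set R := P % g with hR
  have hR0 : R ≠ 0 := by
    intro h
    exact hnd (EuclideanDomain.mod_eq_zero.1 h)
  have hRdeg : R.natDegree < g.natDegree := by
    have hlt : R.degree < g.degree := EuclideanDomain.mod_lt P hg0
    exact natDegree_lt_natDegree hR0 hlt
  have hdm : P = g * (P / g) + R := (EuclideanDomain.div_add_mod P g).symm
  have hmul : ∀ A : ℚ[X], (A * g).natDegree ≤ L → lam θ L (A * g) = 0 := fun A hA =>
    lam_mul hg0 hg hA
  have hquo : (g * (P / g)).natDegree ≤ P.natDegree := by
    by_cases hq : P / g = 0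
    · rw [hq, mul_zero, natDegree_zero]; exact Nat.zero_le _
    · have h1 : R.natDegree < (g * (P / g)).natDegree := by
        rw [natDegree_mul hg0 hq]; omega
      have h2 := natDegree_add_eq_left_of_natDegree_lt h1
      rw [← hdm] at h2
      exact h2.ge
  have hsmall : ∀ i, i + P.natDegree ≤ L → lam θ L (X ^ i * R) = 0 := by
    intro i hi
    have e : X ^ i * P = (X ^ i * (P / g)) * g + X ^ i * R := by
      rw [mul_assoc, mul_comm (P / g) g, ← mul_add, ← hdm]
    have h1 := hP i hi
    rw [e, lam_add, hmul, zero_add] at h1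
    · exact h1
    · have : X ^ i * (P / g) * g = X ^ i * (g * (P / g)) := by ring
      rw [this]
      refine natDegree_mul_le.trans ?_
      rw [natDegree_X_pow]
      omega
  have hall : ∀ i, i + R.natDegree ≤ L → lam θ L (X ^ i * R) = 0 := by
    intro i
    induction i using Nat.strong_induction_on with
    | _ i ih =>
      intro hi
      by_cases hig : i < g.natDegree
      · exact hsmall i (by omega)
      · push Not at hig
        have h1 : lam θ L ((X ^ (i - g.natDegree) * R) * g) = 0 := by
          apply hmul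
          refine natDegree_mul_le.trans ?_
          have := natDegree_mul_le (p := (X : ℚ[X]) ^ (i - g.natDegree)) (q := R)
          rw [natDegree_X_pow] at this
          omega
        have h2 : (X ^ (i - g.natDegree) * R) * g =
            ∑ k ∈ range (g.natDegree + 1), C (g.coeff k) * (X ^ (i - g.natDegree + k) * R) := by
          conv_lhs => enter [2]; rw [g.as_sum_range_C_mul_X_pow]
          rw [Finset.mul_sum]
          refine Finset.sum_congr rfl fun k _ => ?_
          rw [pow_add]; ring
        rw [h2, lam_sum, Finset.sum_range_succ, Finset.sum_eq_zero, zero_add, lam_C_mul] at h1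
        · have h3 : i - g.natDegree + g.natDegree = i := by omega
          rw [h3] at h1
          rcases mul_eq_zero.1 h1 with h4 | h4
          · exact absurd h4 (by
              rw [coeff_natDegree]
              exact leadingCoeff_ne_zero.2 hg0)
          · exact h4
        · intro k hk
          rw [Finset.mem_range] at hk
          rw [lam_C_mul, ih (i - g.natDegree + k) (by omega) (by omega), mul_zero]
  exact absurd (hmin R hR0 hall) (by omega)

end Pool.Agent.LL
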