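import Pool.Agent.LL.Main

/-!
The theorem for finite subsets of a group and for finite sets of natural numbers.
-/

set_option autoImplicit false
set_option linter.unusedSectionVars false

namespace Pool.Agent.LL

open Finset

/-- Finite subsets of an abelian group. -/
theorem main_fin {G : Type*} [AddCommGroup G] [DecidableEq G] (V : Finset G) {c : ℝ}
    (hc : 0 < c)
    (hP : ∀ B : Finset G, B ⊆ V → ∃ D : Finset G, D ⊆ B ∧
      (∀ X Y : Finset G, X ⊆ D → Y ⊆ D → X.sum id = Y.sum id → X = Y) ∧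
      c * (B.card : ℝ) ≤ (D.card : ℝ))
    (K : ℕ) (hK : 6 / c * Real.log (1 + 12 / c * Real.log (4 * V.card)) + 4 ≤ K) :
    ∃ f : G → Fin (4 * K), ∀ k, ∀ X Y : Finset G, X ⊆ V.filter (fun v => f v = k) →
      Y ⊆ V.filter (fun v => f v = k) → X.sum id = Y.sum id → X = Y := by
  classical
  rcases V.eq_empty_or_nonempty with rfl | hne
  · have hKpos : 0 < K := by
      rcases Nat.eq_zero_or_pos K with h | h
      · subst h
        exfalso
        simp at hK
        linarith
      · exact h
    refine ⟨fun _ => ⟨0, by omega⟩, fun k X Y hX hY _ => ?_⟩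
    have hX' : X = ∅ := Finset.subset_empty.1 (by simpa using hX)
    have hY' : Y = ∅ := Finset.subset_empty.1 (by simpa using hY)
    rw [hX', hY']
  have hN : 1 ≤ V.card := hne.card_pos
  have hc1 : c ≤ 1 := by
    obtain ⟨v, hv⟩ := hne
    obtain ⟨D, hD, -, hcard⟩ := hP {v} (Finset.singleton_subset_iff.2 hv)
    have := Finset.card_le_card hD
    rw [Finset.card_singleton] at this hcard
    have h2 : (D.card : ℝ) ≤ 1 := by exact_mod_cast this
    push_cast at hcard
    linarith
  let b : {x // x ∈ V} → G := Subtype.val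
  have hsum : ∀ X : Finset {x // x ∈ V}, (X.map (Function.Embedding.subtype _)).sum id =
      ∑ i ∈ X, b i := by
    intro X
    rw [Finset.sum_map]
    rfl
  have hP' : ∀ B : Finset {x // x ∈ V}, ∃ D ⊆ B, Dis b D ∧ c * (B.card : ℝ) ≤ D.card := by
    intro B
    obtain ⟨D, hD, hdis, hcard⟩ := hP (B.map (Function.Embedding.subtype _)) (by
      intro x hx
      obtain ⟨y, _, rfl⟩ := Finset.mem_map.1 hx
      exact y.2)
    have hDV : ∀ x ∈ D, x ∈ V := by
      intro x hx
      obtain ⟨y, _, rfl⟩ := Finset.mem_map.1 (hD hx)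
      exact y.2
    refine ⟨D.subtype (fun x => x ∈ V), ?_, ?_, ?_⟩
    · intro x hx
      have hx' := hD (Finset.mem_subtype.1 hx)
      obtain ⟨y, hy, hyx⟩ := Finset.mem_map.1 hx'
      have : y = x := Subtype.ext hyx
      rwa [← this]
    · intro X Y hX hY hXY
      have hX' : X.map (Function.Embedding.subtype _) ⊆ D := by
        intro x hx
        obtain ⟨y, hy, rfl⟩ := Finset.mem_map.1 hx
        exact Finset.mem_subtype.1 (hX hy)
      have hY' : Y.map (Function.Embedding.subtype _) ⊆ D := by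
        intro x hx
        obtain ⟨y, hy, rfl⟩ := Finset.mem_map.1 hx
        exact Finset.mem_subtype.1 (hY hy)
      exact Finset.map_injective _ (hdis _ _ hX' hY' (by rw [hsum, hsum, hXY]))
    · rw [Finset.card_map] at hcard
      rw [Finset.card_subtype, Finset.filter_true_of_mem hDV]
      exact hcard
  obtain ⟨f, hf⟩ := main_iota b hc hc1 hP' V.card hN (by simp) K (by
    have : 2 * (3 / c * Real.log (1 + 12 / c * Real.log (4 * V.card)) + 2) =
        6 / c * Real.log (1 + 12 / c * Real.log (4 * V.card)) + 4 := by ring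
    rw [this]
    exact hK)
  obtain ⟨v0, hv0⟩ := hne
  refine ⟨fun v => if h : v ∈ V then f ⟨v, h⟩ else f ⟨v0, hv0⟩, fun k X Y hX hY hXY => ?_⟩
  have hXV : ∀ x ∈ X, x ∈ V := fun x hx => (Finset.mem_filter.1 (hX hx)).1
  have hYV : ∀ x ∈ Y, x ∈ V := fun x hx => (Finset.mem_filter.1 (hY hx)).1
  have eX : (X.subtype (fun x => x ∈ V)).map (Function.Embedding.subtype _) = X := by
    rw [Finset.subtype_map, Finset.filter_true_of_mem hXV]
  have eY : (Y.subtype (fun x => x ∈ V)).map (Function.Embedding.subtype _) = Y := by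
    rw [Finset.subtype_map, Finset.filter_true_of_mem hYV]
  have key := hf k (X.subtype (fun x => x ∈ V)) (Y.subtype (fun x => x ∈ V)) (by
      intro x hx
      have h1 := (Finset.mem_filter.1 (hX (Finset.mem_subtype.1 hx))).2
      simp only [x.2, dif_pos] at h1
      exact Finset.mem_filter.2 ⟨Finset.mem_univ _, h1⟩) (by
      intro x hx
      have h1 := (Finset.mem_filter.1 (hY (Finset.mem_subtype.1 hx))).2
      simp only [x.2, dif_pos] at h1
      exact Finset.mem_filter.2 ⟨Finset.mem_univ _, h1⟩) (by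
      rw [← hsum, ← hsum, eX, eY, hXY])
  rw [← eX, ← eY, key]

/-- Finite sets of natural numbers. -/
theorem main_nat (V : Finset ℕ) {c : ℝ} (hc : 0 < c)
    (hP : ∀ B : Finset ℕ, B ⊆ V → ∃ D : Finset ℕ, D ⊆ B ∧
      (∀ X Y : Finset ℕ, X ⊆ D → Y ⊆ D → X ≠ Y → X.sum id ≠ Y.sum id) ∧
      c * (B.card : ℝ) ≤ (D.card : ℝ))
    (K : ℕ) (hK : 6 / c * Real.log (1 + 12 / c * Real.log (4 * V.card)) + 4 ≤ K) :
    ∃ F : Fin (4 * K) → Finset ℕ,
      (∀ i, ∀ X Y : Finset ℕ, X ⊆ F i → Y ⊆ F i → X ≠ Y → X.sum id ≠ Y.sum id) ∧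
      V = Finset.univ.biUnion F := by
  classical
  let e : ℕ ↪ ℤ := ⟨fun n => (n : ℤ), Nat.cast_injective⟩
  have hsum : ∀ X : Finset ℕ, (X.map e).sum id = ((X.sum id : ℕ) : ℤ) := by
    intro X
    rw [Finset.sum_map]
    simp [e]
  obtain ⟨f, hf⟩ := main_fin (V.map e) hc (by
    intro B hB
    have hB1 : (V.filter (fun v : ℕ => e v ∈ B)).map e = B := by
      ext x
      simp only [Finset.mem_map, Finset.mem_filter]
      constructor
      · rintro ⟨y, ⟨_, hy⟩, rfl⟩; exact hy
      · intro hx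
        obtain ⟨y, hy, rfl⟩ := Finset.mem_map.1 (hB hx)
        exact ⟨y, ⟨hy, hx⟩, rfl⟩
    obtain ⟨D, hD, hdis, hcard⟩ := hP (V.filter (fun v : ℕ => e v ∈ B)) (Finset.filter_subset _ _)
    refine ⟨D.map e, ?_, ?_, ?_⟩
    · rw [← hB1]; exact Finset.map_subset_map.2 hD
    · intro X Y hX hY hXY
      have hX1 : (D.filter (fun v : ℕ => e v ∈ X)).map e = X := by
        ext x
        simp only [Finset.mem_map, Finset.mem_filter]
        constructor
        · rintro ⟨y, ⟨_, hy⟩, rfl⟩; exact hy
        · intro hx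
          obtain ⟨y, hy, rfl⟩ := Finset.mem_map.1 (hX hx)
          exact ⟨y, ⟨hy, hx⟩, rfl⟩
      have hY1 : (D.filter (fun v : ℕ => e v ∈ Y)).map e = Y := by
        ext x
        simp only [Finset.mem_map, Finset.mem_filter]
        constructor
        · rintro ⟨y, ⟨_, hy⟩, rfl⟩; exact hy
        · intro hx
          obtain ⟨y, hy, rfl⟩ := Finset.mem_map.1 (hY hx)
          exact ⟨y, ⟨hy, hx⟩, rfl⟩
      rw [← hX1, ← hY1, hsum, hsum] at hXY
      have hXY' := Nat.cast_injective hXY
      by_contra hne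
      have hne' : D.filter (fun v : ℕ => e v ∈ X) ≠ D.filter (fun v : ℕ => e v ∈ Y) := by
        intro h
        apply hne
        rw [← hX1, ← hY1, h]
      exact hdis _ _ (Finset.filter_subset _ _) (Finset.filter_subset _ _) hne' hXY'
    · rw [Finset.card_map]
      have : B.card = (V.filter (fun v : ℕ => e v ∈ B)).card := by
        conv_lhs => rw [← hB1, Finset.card_map]
      rw [this]
      exact hcard) K (by rw [Finset.card_map]; exact hK)
  refine ⟨fun k => V.filter (fun v : ℕ => f (e v) = k), ?_, ?_⟩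
  · intro k X Y hX hY hne hXY
    apply hne
    have hmap : ∀ Z : Finset ℕ, Z ⊆ V.filter (fun v : ℕ => f (e v) = k) →
        Z.map e ⊆ (V.map e).filter (fun v => f v = k) := by
      intro Z hZ x hx
      obtain ⟨y, hy, rfl⟩ := Finset.mem_map.1 hx
      have := Finset.mem_filter.1 (hZ hy)
      exact Finset.mem_filter.2 ⟨Finset.mem_map_of_mem e this.1, this.2⟩
    exact Finset.map_injective e (hf k _ _ (hmap X hX) (hmap Y hY) (by rw [hsum, hsum, hXY]))
  · ext x
    simp only [Finset.mem_biUnion, Finset.mem_univ, true_and, Finset.mem_filter]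
    constructor
    · intro hx; exact ⟨f (e x), hx, rfl⟩
    · rintro ⟨_, hx, _⟩; exact hx

end Pool.Agent.LL
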