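import Pool.Agent.LL.Lam

/-! Long-range Lefschetz: counting the exceptional points and pairs. -/

set_option autoImplicit false
set_option linter.unusedSectionVars false

namespace Pool.Agent.LL

open Finset Polynomial

section Cnt

/-- the number of vectors with ratios in a given set -/
lemma cnt {A : Type} [Monoid A] [DecidableEq A] {n : ℕ} (U S : Finset A)
    (B : Finset (Fin n → A)) (hB : ∀ z ∈ B, ∃ k₀ : Fin n, ∃ a ∈ U, ∃ f : Fin n → A, f k₀ = 1 ∧
      (∀ u, u ≠ k₀ → f u ∈ S) ∧ z = fun u => a * f u) :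
    B.card ≤ n * (U.card * S.card ^ (n - 1)) := by
  classical
  have h1 : B ⊆ (univ : Finset (Fin n)).biUnion fun k₀ =>
      (U ×ˢ Fintype.piFinset fun u : Fin n => if u = k₀ then ({1} : Finset A) else S).image
        fun z : A × (Fin n → A) => fun u => z.1 * z.2 u := by
    intro z hz
    obtain ⟨k₀, a, ha, f, hf1, hf, rfl⟩ := hB z hz
    rw [Finset.mem_biUnion]
    refine ⟨k₀, Finset.mem_univ _, ?_⟩
    rw [Finset.mem_image]
    refine ⟨(a, f), ?_, rfl⟩
    rw [Finset.mem_product, Fintype.mem_piFinset]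
    refine ⟨ha, fun u => ?_⟩
    split_ifs with hu
    · rw [Finset.mem_singleton, hu]; exact hf1
    · exact hf u hu
  refine (Finset.card_le_card h1).trans (Finset.card_biUnion_le.trans ?_)
  have h2 : ∀ k₀ : Fin n, ((U ×ˢ Fintype.piFinset fun u : Fin n =>
      if u = k₀ then ({1} : Finset A) else S).image
        fun z : A × (Fin n → A) => fun u => z.1 * z.2 u).card ≤ U.card * S.card ^ (n - 1) := by
    intro k₀
    refine Finset.card_image_le.trans ?_
    rw [Finset.card_product, Fintype.card_piFinset]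
    apply le_of_eq
    congr 1
    rw [← Finset.mul_prod_erase univ _ (Finset.mem_univ k₀), if_pos rfl, Finset.card_singleton,
      one_mul]
    rw [Finset.prod_congr rfl (g := fun _ => S.card) (fun u hu => by
      rw [if_neg (Finset.ne_of_mem_erase hu)]), Finset.prod_const,
      Finset.card_erase_of_mem (Finset.mem_univ _), Finset.card_univ, Fintype.card_fin]
  refine (Finset.sum_le_sum fun k₀ _ => h2 k₀).trans ?_
  rw [Finset.sum_const, Finset.card_univ, Fintype.card_fin, smul_eq_mul]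

variable {n : ℕ} {p q : ℕ} [Fact p.Prime] [Fact q.Prime]

lemma card_erase_zero : ((univ : Finset (ZMod p)).erase 0).card = p - 1 := by
  rw [Finset.card_erase_of_mem (Finset.mem_univ _), Finset.card_univ, ZMod.card]

/-- the number of exceptional points -/
lemma cnt_sg {𝒢 : Finset ℤ[X]} (B : Finset (Fin n → ZMod p)) (hB : ∀ x ∈ B, Sg 𝒢 x) :
    B.card ≤ n * ((p - 1) * (allRts 𝒢 (ZMod p)).card ^ (n - 1)) := by
  rw [← card_erase_zero]
  refine cnt _ _ B fun x hx => ?_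
  obtain ⟨k₀, hk, h⟩ := hB x hx
  refine ⟨k₀, x k₀, Finset.mem_erase.2 ⟨hk, Finset.mem_univ _⟩, fun u => x u / x k₀,
    div_self hk, h, ?_⟩
  funext u
  field_simp

/-- the number of exceptional pairs -/
lemma cnt_prs {S : Finset (ZMod p × ZMod q)} (B : Finset ((Fin n → ZMod p) × (Fin n → ZMod q)))
    (hB : ∀ z ∈ B, ∃ k₀, z.1 k₀ ≠ 0 ∧ z.2 k₀ ≠ 0 ∧
      ∀ u, u ≠ k₀ → (z.1 u / z.1 k₀, z.2 u / z.2 k₀) ∈ S) :
    B.card ≤ n * (((p - 1) * (q - 1)) * S.card ^ (n - 1)) := by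
  classical
  have h1 : B.card = (B.image fun z => fun u => (z.1 u, z.2 u)).card := by
    rw [Finset.card_image_of_injective]
    intro z w hzw
    have h : ∀ u, (z.1 u, z.2 u) = (w.1 u, w.2 u) := fun u => congrFun hzw u
    exact Prod.ext (funext fun u => (Prod.mk.inj (h u)).1) (funext fun u => (Prod.mk.inj (h u)).2)
  rw [h1, ← card_erase_zero (p := p), ← card_erase_zero (p := q), ← Finset.card_product]
  refine cnt _ _ _ fun x hx => ?_
  obtain ⟨z, hz, rfl⟩ := Finset.mem_image.1 hx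
  obtain ⟨k₀, hk, hk', h⟩ := hB z hz
  refine ⟨k₀, (z.1 k₀, z.2 k₀), ?_, fun u => (z.1 u / z.1 k₀, z.2 u / z.2 k₀), ?_, h, ?_⟩
  · rw [Finset.mem_product]
    exact ⟨Finset.mem_erase.2 ⟨hk, Finset.mem_univ _⟩, Finset.mem_erase.2 ⟨hk', Finset.mem_univ _⟩⟩
  · change (z.1 k₀ / z.1 k₀, z.2 k₀ / z.2 k₀) = 1
    rw [div_self hk, div_self hk']; rfl
  · funext u
    rw [Prod.mk_mul_mk]
    congr 1 <;> field_simp

end Cnt

section Real

lemma sqrt_form {E C N Q n : ℕ} (h : E ^ (2 * n) ≤ C * (N * Q ^ 2)) :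
    (E : ℝ) ^ n ≤ C * (Real.sqrt N * Q) := by
  have h1 : ((E : ℝ) ^ n) ^ 2 ≤ (C * (Real.sqrt N * Q)) ^ 2 := by
    have e1 : (C * (Real.sqrt N * Q) : ℝ) ^ 2 = C ^ 2 * (N * Q ^ 2) := by
      rw [mul_pow, mul_pow, Real.sq_sqrt (Nat.cast_nonneg _)]
    rw [e1, ← pow_mul, mul_comm n 2]
    have h2 : ((E ^ (2 * n) : ℕ) : ℝ) ≤ ((C * (N * Q ^ 2) : ℕ) : ℝ) := by exact_mod_cast h
    push_cast at h2
    refine h2.trans ?_
    apply mul_le_mul_of_nonneg_right _ (by positivity)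
    rcases Nat.eq_zero_or_pos C with h3 | h3
    · rw [h3]; norm_num
    · have : (1 : ℝ) ≤ C := by exact_mod_cast h3
      nlinarith
  exact (abs_le_of_sq_le_sq' h1 (by positivity)).2

lemma le_of_pow {Q N m : ℕ} (hm : 1 ≤ m) (h : Q ^ m ≤ N) : Q ≤ N :=
  (Nat.le_self_pow (by omega) Q).trans h

/-- the size condition in the form which is used -/
lemma size3 {Q N m s H M : ℕ} (hm : 1 ≤ m) (hs : 1 ≤ s) (hM : 0 < M)
    (h : Q ^ m ≤ N) (h1 : N * (s * H) ^ m < M ^ m) : (Q : ℝ) * (1 + 2 * H * N / M) ≤ 3 * N := by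
  have h2 : (Q * (s * H)) ^ m < M ^ m := by
    rw [mul_pow]
    exact lt_of_le_of_lt (Nat.mul_le_mul_right _ h) h1
  have h3 : Q * (s * H) < M := lt_of_pow_lt_pow_left₀ m (Nat.zero_le _) h2
  have h4 : Q * H ≤ M := by
    refine le_trans ?_ h3.le
    apply Nat.mul_le_mul_left
    calc H = 1 * H := (one_mul H).symm
      _ ≤ s * H := Nat.mul_le_mul_right _ hs
  have h5 : (Q : ℝ) ≤ N := by exact_mod_cast le_of_pow hm h
  have h6 : ((Q : ℝ) * H) ≤ M := by exact_mod_cast h4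
  have hM' : (0 : ℝ) < M := by exact_mod_cast hM
  have h7 : (Q : ℝ) * (2 * H * N / M) ≤ 2 * N := by
    rw [← mul_div_assoc, div_le_iff₀ hM']
    have hN : (0 : ℝ) ≤ N := Nat.cast_nonneg _
    nlinarith
  rw [mul_add, mul_one]
  linarith

end Real

end Pool.Agent.LL
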