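import Pool.Agent.LL.Num
import Pool.Agent.LL.Key2

/-! Long-range Lefschetz: the sums over pairs of points for different primes. -/

set_option autoImplicit false
set_option linter.unusedSectionVars false

namespace Pool.Agent.LL

open Finset Polynomial
open Pool.Agent.Helper28.TC (WW WW_nonneg)
open Pool.Agent.Helper28.TL (eth eth_add WW_eq ZZ ZZ_nonneg)
open Pool.Agent.Helper29.LN (Mono ver)

section Sums

variable {M : ℕ} [NeZero M] {J : Type} [Fintype J] [DecidableEq J]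

/-- a sum over terms of two exceptional types -/
lemma sum_two {Z : Type} (S B₁ B₂ : Finset Z) (T : Z → ℝ) {b₁ b₂ : ℝ} (h1 : 0 ≤ b₁) (h2 : 0 ≤ b₂)
    (hB₁ : ∀ z ∈ B₁, |T z| ≤ b₁) (hB₂ : ∀ z ∈ B₂, |T z| ≤ b₂)
    (hB : ∀ z ∈ S, T z ≠ 0 → z ∈ B₁ ∨ z ∈ B₂) :
    |∑ z ∈ S, T z| ≤ B₁.card * b₁ + B₂.card * b₂ := by
  classical
  have h3 : ∀ z ∈ S, |T z| ≤ (if z ∈ B₁ then b₁ else 0) + (if z ∈ B₂ then b₂ else 0) := by
    intro z hz
    by_cases hT : T z = 0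
    · rw [hT, abs_zero]
      positivity
    · rcases hB z hz hT with h | h
      · rw [if_pos h]
        have : 0 ≤ (if z ∈ B₂ then b₂ else 0) := by split_ifs <;> [exact h2; exact le_rfl]
        linarith [hB₁ z h]
      · rw [if_pos h]
        have : 0 ≤ (if z ∈ B₁ then b₁ else 0) := by split_ifs <;> [exact h1; exact le_rfl]
        linarith [hB₂ z h]
  refine (Finset.abs_sum_le_sum_abs _ _).trans ((Finset.sum_le_sum h3).trans ?_)
  rw [Finset.sum_add_distrib, ← Finset.sum_filter, ← Finset.sum_filter, Finset.sum_const,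
    Finset.sum_const, nsmul_eq_mul, nsmul_eq_mul]
  have e1 : (S.filter fun z => z ∈ B₁) ⊆ B₁ := fun z hz => (Finset.mem_filter.1 hz).2
  have e2 : (S.filter fun z => z ∈ B₂) ⊆ B₂ := fun z hz => (Finset.mem_filter.1 hz).2
  have e3 : ((S.filter fun z => z ∈ B₁).card : ℝ) ≤ B₁.card := by
    exact_mod_cast Finset.card_le_card e1
  have e4 : ((S.filter fun z => z ∈ B₂).card : ℝ) ≤ B₂.card := by
    exact_mod_cast Finset.card_le_card e2
  nlinarith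

/-- the sum of the centred indicators -/
noncomputable def SS {n k d s p : ℕ} [Fact p.Prime] (hM : p ∣ M) (U : Finset (Fin n → ZMod p))
    (α : (Fin n → ZMod p) → Fin k × Fin d → ZMod p)
    (a : (Fin k × Mono n s) × Fin d → ZMod M) : ℝ := ∑ x ∈ U, ind hM (cof (α x) x) a

lemma sum_SS_SS {n k d s p q : ℕ} [Fact p.Prime] [Fact q.Prime] (hM : p ∣ M) (hM' : q ∣ M) (H : ℕ)
    (U : Finset (Fin n → ZMod p)) (U' : Finset (Fin n → ZMod q))
    (α : (Fin n → ZMod p) → Fin k × Fin d → ZMod p)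
    (α' : (Fin n → ZMod q) → Fin k × Fin d → ZMod q) :
    ∑ a : (Fin k × Mono n s) × Fin d → ZMod M, WW H a * (SS hM U α a * SS hM' U' α' a) =
      ∑ z ∈ U ×ˢ U', ∑ a : (Fin k × Mono n s) × Fin d → ZMod M,
        WW H a * (ind hM (cof (α z.1) z.1) a * ind hM' (cof (α' z.2) z.2) a) := by
  rw [Finset.sum_comm]
  refine Finset.sum_congr rfl fun a _ => ?_
  unfold SS
  rw [Finset.sum_mul_sum, Finset.mul_sum, Finset.sum_product]
  refine Finset.sum_congr rfl fun x _ => ?_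
  rw [Finset.mul_sum]

/-- **The pairs of different primes.** -/
theorem off {n s m k d : ℕ} (hn : 2 ≤ n) (hm : 2 ≤ m) (hms : m + 1 ≤ s)
    (hD : ∀ j, 1 ≤ j → j + 1 ≤ m → 2 * (n - 1) * ((m - j) * (j + 1)) ≤ (m + 2) * (s + 1 - 2 * j)) :
    ∃ C : ℝ, 0 ≤ C ∧ ∀ (p q : ℕ) [Fact p.Prime] [Fact q.Prime], p ≠ q → ∀ (M : ℕ) [NeZero M]
      (hM : p ∣ M) (hM' : q ∣ M) (H : ℕ), p * q * (s * H) ^ m < M ^ m →
      ∀ (U : Finset (Fin n → ZMod p)) (U' : Finset (Fin n → ZMod q))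
        (α : (Fin n → ZMod p) → Fin k × Fin d → ZMod p)
        (α' : (Fin n → ZMod q) → Fin k × Fin d → ZMod q),
        (∀ x ∈ U, x ≠ 0 ∧ ∃ i j, α x (i, j) ≠ 0) → (∀ x ∈ U', x ≠ 0 ∧ ∃ i j, α' x (i, j) ≠ 0) →
        |∑ a : (Fin k × Mono n s) × Fin d → ZMod M, WW H a * (SS hM U α a * SS hM' U' α' a)| ≤
          ZZ ((Fin k × Mono n s) × Fin d) M H *
            (C * (((p : ℝ) - 1) * ((q : ℝ) - 1) * Real.sqrt (p * q))) := by
  classical
  obtain ⟨L, hL⟩ : ∃ L, s = L + 1 := ⟨s - 1, by omega⟩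
  have hmL : m ≤ L := by omega
  obtain ⟨C, hC⟩ := hits2 (m := m) (D := 2 * (n - 1)) (L := L) (t := 2)
    (by omega) hmL (by omega) (fun j h1 h2 => by
      have := hD j h1 h2
      have e : L + 2 - 2 * j = s + 1 - 2 * j := by omega
      rw [e]
      exact this)
  refine ⟨3 * n * C + 9 * n ^ 2 * C ^ 2, by positivity, ?_⟩
  intro p q _ _ hpq M _ hM hM' H hsize U U' α α' hU hU'
  have hp := (Fact.out : p.Prime)
  have hq := (Fact.out : q.Prime)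
  have hM0 : 0 < M := Nat.pos_of_ne_zero (NeZero.ne M)
  have hs1 : 1 ≤ s := by omega
  obtain ⟨Qp, hQp1, hQp2, 𝒢p, hp1, -, hp3⟩ := hC p hp.one_le
  obtain ⟨Qb, hQb1, hQb2, 𝒢q, hq1, -, hq3⟩ := hC q hq.one_le
  obtain ⟨Q, hQ1, hQ2, 𝒢, -, hg2, hg3⟩ := hC (p * q) (Nat.mul_pos hp.pos hq.pos)
  have hsp : p * (s * H) ^ m < M ^ m := size_le hq.one_le hsize
  have hsq : q * (s * H) ^ m < M ^ m := size_le' hp.one_le hsize
  have s1 := sqrt_form (hg2 (ZMod p) (ZMod q))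
  have s2 := sqrt_form (hp1 (ZMod p))
  have s3 := sqrt_form (hq1 (ZMod q))
  have t1 := size3 (by omega) hs1 hM0 hQ2 hsize
  have t2 := size3 (by omega) hs1 hM0 hQp2 hsp
  have t3 := size3 (by omega) hs1 hM0 hQb2 hsq
  have hpr : (1 : ℝ) ≤ p := by exact_mod_cast hp.one_le
  have hqr : (1 : ℝ) ≤ q := by exact_mod_cast hq.one_le
  have hpp : (0 : ℝ) < p := by linarith
  have hqp : (0 : ℝ) < q := by linarith
  have hp1c : ((p - 1 : ℕ) : ℝ) = (p : ℝ) - 1 := by rw [Nat.cast_sub hp.one_le, Nat.cast_one]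
  have hq1c : ((q - 1 : ℕ) : ℝ) = (q : ℝ) - 1 := by rw [Nat.cast_sub hq.one_le, Nat.cast_one]
  obtain ⟨Zt, hZt⟩ : ∃ Zt, Zt = ZZ ((Fin k × Mono n s) × Fin d) M H := ⟨_, rfl⟩
  have hZ0 : 0 ≤ Zt := by rw [hZt]; exact ZZ_nonneg
  -- the two types
  obtain ⟨P1, hP1⟩ : ∃ P1 : (Fin n → ZMod p) × (Fin n → ZMod q) → Prop, P1 = fun z =>
      (∃ k₀, z.1 k₀ ≠ 0 ∧ z.2 k₀ ≠ 0 ∧ ∀ u, u ≠ k₀ →
        (z.1 u / z.1 k₀, z.2 u / z.2 k₀) ∈ allPairs 𝒢 (ZMod p) (ZMod q)) ∧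
      ∃ e : (Fin k × Mono n s) × Fin d, cof (α z.1) z.1 e ≠ 0 ∧ cof (α' z.2) z.2 e ≠ 0 := ⟨_, rfl⟩
  obtain ⟨P2, hP2⟩ : ∃ P2 : (Fin n → ZMod p) × (Fin n → ZMod q) → Prop, P2 = fun z =>
      Sg 𝒢p z.1 ∧ Sg 𝒢q z.2 ∧
      (∃ e : (Fin k × Mono n s) × Fin d, cof (α z.1) z.1 e ≠ 0 ∧ cof (α' z.2) z.2 e = 0) ∧
      ∃ e : (Fin k × Mono n s) × Fin d, cof (α z.1) z.1 e = 0 ∧ cof (α' z.2) z.2 e ≠ 0 := ⟨_, rfl⟩
  obtain ⟨B₁, hB₁⟩ : ∃ B₁, B₁ = (U ×ˢ U').filter P1 := ⟨_, rfl⟩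
  obtain ⟨B₂, hB₂⟩ : ∃ B₂, B₂ = (U ×ˢ U').filter P2 := ⟨_, rfl⟩
  obtain ⟨T, hT⟩ : ∃ T : (Fin n → ZMod p) × (Fin n → ZMod q) → ℝ, T = fun z =>
      ∑ a : (Fin k × Mono n s) × Fin d → ZMod M,
        WW H a * (ind hM (cof (α z.1) z.1) a * ind hM' (cof (α' z.2) z.2) a) := ⟨_, rfl⟩
  have hTb : ∀ z, |T z| ≤ Zt * ((Lam M H (cof (s := s) (α z.1) z.1) (cof (α' z.2) z.2)).card /
      ((p : ℝ) * q)) := by
    intro z
    rw [hT, hZt]
    exact abs_pair hM hM' H _ _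
  have hM0r : (0 : ℝ) < M := by exact_mod_cast hM0
  have b1 : ∀ z ∈ B₁, |T z| ≤ Zt * ((1 + 2 * H * ((p : ℝ) * q) / M) / ((p : ℝ) * q)) := by
    intro z hz
    rw [hB₁, Finset.mem_filter, hP1] at hz
    obtain ⟨-, -, e, he, he'⟩ := hz
    refine (hTb z).trans (mul_le_mul_of_nonneg_left ?_ hZ0)
    exact div_le_div_of_nonneg_right (card_lam_one hM hM' hpq H he he') (by positivity)
  have b2 : ∀ z ∈ B₂, |T z| ≤ Zt * (((1 + 2 * H * (p : ℝ) / M) * (1 + 2 * H * (q : ℝ) / M)) /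
      ((p : ℝ) * q)) := by
    intro z hz
    rw [hB₂, Finset.mem_filter, hP2] at hz
    obtain ⟨-, -, -, ⟨e, he, he0⟩, e', he0', he'⟩ := hz
    refine (hTb z).trans (mul_le_mul_of_nonneg_left ?_ hZ0)
    exact div_le_div_of_nonneg_right (card_lam_two hM hM' H he he0 he0' he') (by positivity)
  have hB : ∀ z ∈ U ×ˢ U', T z ≠ 0 → z ∈ B₁ ∨ z ∈ B₂ := by
    intro z hz hne
    rw [hT] at hne
    obtain ⟨θ, l, l', hθ, hl, hl', h⟩ := freq2 hM hM' hne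
    rw [Finset.mem_product] at hz
    have h1 := exc_ne (L := L) hp3 hq3 hg3 hmL hL hpq (hU z.1 hz.1).2 (hU' z.2 hz.2).2 (hU z.1 hz.1).1
      (hU' z.2 hz.2).1 hθ hl hl' h (by rw [← hL]; exact hsize)
    rcases h1 with h1 | h1
    · left
      rw [hB₁, Finset.mem_filter, hP1, Finset.mem_product]
      exact ⟨hz, h1⟩
    · right
      rw [hB₂, Finset.mem_filter, hP2, Finset.mem_product]
      exact ⟨hz, h1⟩
  have c1 : (B₁.card : ℝ) ≤ n * (((p : ℝ) - 1) * ((q : ℝ) - 1) *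
      (C * (Real.sqrt (p * q) * Q))) := by
    have h1 := cnt_prs (S := allPairs 𝒢 (ZMod p) (ZMod q)) B₁ fun z hz => by
      rw [hB₁, Finset.mem_filter, hP1] at hz
      exact hz.2.1
    have h2 : (B₁.card : ℝ) ≤ n * ((((p - 1 : ℕ) : ℝ) * ((q - 1 : ℕ) : ℝ)) *
        ((allPairs 𝒢 (ZMod p) (ZMod q)).card : ℝ) ^ (n - 1)) := by exact_mod_cast h1
    rw [hp1c, hq1c] at h2
    refine h2.trans (mul_le_mul_of_nonneg_left ?_ (Nat.cast_nonneg _))
    apply mul_le_mul_of_nonneg_left _ (mul_nonneg (by linarith) (by linarith))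
    rw [Nat.cast_mul] at s1
    exact s1
  have c2 : (B₂.card : ℝ) ≤ (n * (((p : ℝ) - 1) * (C * (Real.sqrt p * Qp)))) *
      (n * (((q : ℝ) - 1) * (C * (Real.sqrt q * Qb)))) := by
    have h1 : B₂ ⊆ (U.filter fun x => Sg 𝒢p x) ×ˢ (U'.filter fun x => Sg 𝒢q x) := by
      intro z hz
      rw [hB₂, Finset.mem_filter, hP2, Finset.mem_product] at hz
      rw [Finset.mem_product, Finset.mem_filter, Finset.mem_filter]
      exact ⟨⟨hz.1.1, hz.2.1⟩, ⟨hz.1.2, hz.2.2.1⟩⟩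
    have h2 := Finset.card_le_card h1
    rw [Finset.card_product] at h2
    have h3 := cnt_sg (U.filter fun x => Sg 𝒢p x) fun x hx => (Finset.mem_filter.1 hx).2
    have h4 := cnt_sg (U'.filter fun x => Sg 𝒢q x) fun x hx => (Finset.mem_filter.1 hx).2
    have h5 : (((U.filter fun x => Sg 𝒢p x).card : ℕ) : ℝ) ≤
        n * (((p : ℝ) - 1) * (C * (Real.sqrt p * Qp))) := by
      have h6 : (((U.filter fun x => Sg 𝒢p x).card : ℕ) : ℝ) ≤ n * (((p - 1 : ℕ) : ℝ) *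
          ((allRts 𝒢p (ZMod p)).card : ℝ) ^ (n - 1)) := by exact_mod_cast h3
      rw [hp1c] at h6
      refine h6.trans (mul_le_mul_of_nonneg_left ?_ (Nat.cast_nonneg _))
      exact mul_le_mul_of_nonneg_left s2 (by linarith)
    have h6 : (((U'.filter fun x => Sg 𝒢q x).card : ℕ) : ℝ) ≤
        n * (((q : ℝ) - 1) * (C * (Real.sqrt q * Qb))) := by
      have h6 : (((U'.filter fun x => Sg 𝒢q x).card : ℕ) : ℝ) ≤ n * (((q - 1 : ℕ) : ℝ) *
          ((allRts 𝒢q (ZMod q)).card : ℝ) ^ (n - 1)) := by exact_mod_cast h4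
      rw [hq1c] at h6
      refine h6.trans (mul_le_mul_of_nonneg_left ?_ (Nat.cast_nonneg _))
      exact mul_le_mul_of_nonneg_left s3 (by linarith)
    have h7 : (B₂.card : ℝ) ≤ ((U.filter fun x => Sg 𝒢p x).card : ℝ) *
        ((U'.filter fun x => Sg 𝒢q x).card : ℝ) := by exact_mod_cast h2
    exact h7.trans (mul_le_mul h5 h6 (Nat.cast_nonneg _) ((Nat.cast_nonneg _).trans h5))
  have hmain := sum_two (U ×ˢ U') B₁ B₂ T (by positivity) (by positivity) b1 b2 hB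
  rw [sum_SS_SS, ← hZt]
  rw [hT] at hmain
  refine hmain.trans ?_
  -- numerical part
  obtain ⟨W, hW⟩ : ∃ W, W = ((p : ℝ) - 1) * ((q : ℝ) - 1) * Real.sqrt (p * q) := ⟨_, rfl⟩
  have hW0 : 0 ≤ W := by
    rw [hW]
    exact mul_nonneg (mul_nonneg (by linarith) (by linarith)) (Real.sqrt_nonneg _)
  rw [Nat.cast_mul] at t1
  have f1 : (B₁.card : ℝ) * (Zt * ((1 + 2 * H * ((p : ℝ) * q) / M) / ((p : ℝ) * q))) ≤
      Zt * (3 * n * C * W) := by
    have g1 : (Q : ℝ) * ((1 + 2 * H * ((p : ℝ) * q) / M) / ((p : ℝ) * q)) ≤ 3 := by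
      rw [← mul_div_assoc, div_le_iff₀ (by positivity)]
      exact t1
    calc (B₁.card : ℝ) * (Zt * ((1 + 2 * H * ((p : ℝ) * q) / M) / ((p : ℝ) * q))) ≤
          (n * (((p : ℝ) - 1) * ((q : ℝ) - 1) * (C * (Real.sqrt (p * q) * Q)))) *
            (Zt * ((1 + 2 * H * ((p : ℝ) * q) / M) / ((p : ℝ) * q))) :=
          mul_le_mul_of_nonneg_right c1 (by positivity)
      _ = Zt * (n * C * W) * (Q * ((1 + 2 * H * ((p : ℝ) * q) / M) / ((p : ℝ) * q))) := by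
          rw [hW]; ring
      _ ≤ Zt * (n * C * W) * 3 := mul_le_mul_of_nonneg_left g1 (by positivity)
      _ = _ := by ring
  have f2 : (B₂.card : ℝ) * (Zt * (((1 + 2 * H * (p : ℝ) / M) * (1 + 2 * H * (q : ℝ) / M)) /
      ((p : ℝ) * q))) ≤ Zt * (9 * n ^ 2 * C ^ 2 * W) := by
    have g1 : (Qp : ℝ) * ((1 + 2 * H * (p : ℝ) / M) / (p : ℝ)) ≤ 3 := by
      rw [← mul_div_assoc, div_le_iff₀ (by positivity)]
      exact t2
    have g2 : (Qb : ℝ) * ((1 + 2 * H * (q : ℝ) / M) / (q : ℝ)) ≤ 3 := by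
      rw [← mul_div_assoc, div_le_iff₀ (by positivity)]
      exact t3
    have g3 := mul_le_mul g1 g2 (by positivity) (by norm_num : (0 : ℝ) ≤ 3)
    have e1 : Real.sqrt (p * q) = Real.sqrt p * Real.sqrt q := Real.sqrt_mul (by positivity) _
    calc (B₂.card : ℝ) * (Zt * (((1 + 2 * H * (p : ℝ) / M) * (1 + 2 * H * (q : ℝ) / M)) /
          ((p : ℝ) * q))) ≤ ((n * (((p : ℝ) - 1) * (C * (Real.sqrt p * Qp)))) *
            (n * (((q : ℝ) - 1) * (C * (Real.sqrt q * Qb))))) *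
            (Zt * (((1 + 2 * H * (p : ℝ) / M) * (1 + 2 * H * (q : ℝ) / M)) / ((p : ℝ) * q))) :=
          mul_le_mul_of_nonneg_right c2 (by positivity)
      _ = Zt * (n ^ 2 * C ^ 2 * W) * ((Qp * ((1 + 2 * H * (p : ℝ) / M) / (p : ℝ))) *
            (Qb * ((1 + 2 * H * (q : ℝ) / M) / (q : ℝ)))) := by
          rw [hW, e1]
          field_simp
      _ ≤ Zt * (n ^ 2 * C ^ 2 * W) * (3 * 3) := mul_le_mul_of_nonneg_left g3 (by positivity)
      _ = _ := by ring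
  rw [← hW]
  calc _ ≤ Zt * (3 * n * C * W) + Zt * (9 * n ^ 2 * C ^ 2 * W) := add_le_add f1 f2
    _ = _ := by ring

end Sums

end Pool.Agent.LL
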