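import Pool.Agent.LL.Dia
import Pool.Agent.Helper29.LN.Hp
import Pool.Agent.Helper29.LN.Fam

/-! Long-range Lefschetz: the sums over the points of `W` outside the base locus. -/

set_option autoImplicit false
set_option linter.unusedSectionVars false

namespace Pool.Agent.LL

open Finset
open Pool.Agent.Helper28.TC (WW WW_nonneg up up_cast)
open Pool.Agent.Helper28.TL (ZZ ZZ_nonneg)
open Pool.Agent.Helper29.LN (Mono ver evg DD XU gv XU_prop coord map_coord exists_ne_zero hom_finite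
  card_hom_le)
open Pool.Agent.Helper29.TT (lf ci)

section Link

variable {R : Type} [CommRing R] {r c k s d : ℕ} {p : ℕ} [Fact p.Prime]

/-- The sum of the centred indicators over the points of `W` outside of the base locus. -/
noncomputable def DP (b : Fin d → R) (h : Fin c → MvPolynomial (Fin (r + 4)) R)
    (g : Fin k → MvPolynomial (Fin (r + 4)) R) (φ : R →+* ZMod p)
    (a : (Fin k × Mono (r + 4) s) × Fin d → ℤ) : ℝ :=
  DD (XU h g φ) (gv g φ) fun j => φ (coord b a j)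

lemma DP_congr (b : Fin d → R) (h : Fin c → MvPolynomial (Fin (r + 4)) R)
    (g : Fin k → MvPolynomial (Fin (r + 4)) R) (φ : R →+* ZMod p)
    {a a' : (Fin k × Mono (r + 4) s) × Fin d → ℤ} (haa : ∀ e, ((a e : ℤ) : ZMod p) = a' e) :
    DP b h g φ a = DP b h g φ a' := by
  unfold DP
  congr 1
  funext j
  rw [map_coord, map_coord]
  exact Finset.sum_congr rfl fun i _ => by rw [haa]

variable {M : ℕ} [NeZero M]

lemma DP_mod (hM : p ∣ M) (b : Fin d → R) (h : Fin c → MvPolynomial (Fin (r + 4)) R)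
    (g : Fin k → MvPolynomial (Fin (r + 4)) R) (φ : R →+* ZMod p)
    (a : (Fin k × Mono (r + 4) s) × Fin d → ℤ) :
    DP b h g φ (up fun m => ((a m : ℤ) : ZMod M)) = DP b h g φ a := by
  refine DP_congr b h g φ fun e => ?_
  rw [up_cast hM]
  exact map_intCast _ _

/-- the coefficients -/
noncomputable def alp (b : Fin d → R) (g : Fin k → MvPolynomial (Fin (r + 4)) R) (φ : R →+* ZMod p)
    (x : Fin (r + 4) → ZMod p) : Fin k × Fin d → ZMod p := fun il => gv g φ x il.1 * φ (b il.2)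

lemma DP_up (hM : p ∣ M) (b : Fin d → R) (h : Fin c → MvPolynomial (Fin (r + 4)) R)
    (g : Fin k → MvPolynomial (Fin (r + 4)) R) (φ : R →+* ZMod p)
    (a : (Fin k × Mono (r + 4) s) × Fin d → ZMod M) :
    DP b h g φ (up a) = SS hM (XU h g φ) (alp b g φ) a := by
  unfold DP DD SS
  refine Finset.sum_congr rfl fun x _ => ?_
  have h1 : lf (evg (gv g φ x) x) (fun j : Fin k × Mono (r + 4) s => φ (coord b (up a) j)) =
      lin hM (cof (alp b g φ x) x) a := by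
    rw [Pool.Agent.Helper29.TT.lf_apply]
    unfold lin cof alp evg
    conv_rhs => rw [Fintype.sum_prod_type]
    refine Finset.sum_congr rfl fun j _ => ?_
    rw [map_coord, Finset.sum_mul]
    refine Finset.sum_congr rfl fun i _ => ?_
    rw [up_cast hM]
    ring
  unfold ci ind
  rw [h1, ZMod.card]

lemma XU_alp (b : Module.Basis (Fin d) ℤ R) (h : Fin c → MvPolynomial (Fin (r + 4)) R)
    (g : Fin k → MvPolynomial (Fin (r + 4)) R) (φ : R →+* ZMod p) :
    ∀ x ∈ XU h g φ, x ≠ 0 ∧ ∃ i j, alp b g φ x (i, j) ≠ 0 := by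
  intro x hx
  obtain ⟨h1, h2⟩ := XU_prop h g φ x hx
  obtain ⟨i, hi⟩ := Function.ne_iff.1 h2
  obtain ⟨j, hj⟩ := exists_ne_zero b φ
  exact ⟨h1, i, j, mul_ne_zero hi hj⟩

end Link

section Main

/-- **The pairs of different primes.** -/
theorem ho {R : Type} [CommRing R] {r c k s d m : ℕ} (b : Module.Basis (Fin d) ℤ R)
    (h : Fin c → MvPolynomial (Fin (r + 4)) R) (g : Fin k → MvPolynomial (Fin (r + 4)) R)
    (hm : 2 ≤ m) (hms : m + 1 ≤ s)
    (hD : ∀ j, 1 ≤ j → j + 1 ≤ m → 2 * (r + 3) * ((m - j) * (j + 1)) ≤ (m + 2) * (s + 1 - 2 * j)) :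
    ∃ C : ℝ, 0 ≤ C ∧ ∀ (p q : ℕ) [Fact p.Prime] [Fact q.Prime], p ≠ q → ∀ (M : ℕ) [NeZero M]
      (_ : p ∣ M) (_ : q ∣ M) (H : ℕ), p * q * (s * H) ^ m < M ^ m →
      ∀ (φ : R →+* ZMod p) (φ' : R →+* ZMod q),
        |∑ a : (Fin k × Mono (r + 4) s) × Fin d → ZMod M,
          WW H a * (DP b h g φ (up a) * DP b h g φ' (up a))| ≤
          ZZ ((Fin k × Mono (r + 4) s) × Fin d) M H *
            (C * (((p : ℝ) - 1) * ((q : ℝ) - 1) * Real.sqrt (p * q))) := by
  obtain ⟨C, hC, h1⟩ := off (n := r + 4) (s := s) (m := m) (k := k) (d := d) (by omega) hm hms hD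
  refine ⟨C, hC, fun p q _ _ hpq M _ hM hM' H hsize φ φ' => ?_⟩
  have h2 := h1 p q hpq M hM hM' H hsize (XU h g φ) (XU h g φ') (alp b g φ) (alp b g φ')
    (XU_alp b h g φ) (XU_alp b h g φ')
  simp_rw [DP_up hM, DP_up hM']
  exact h2

/-- **The second moment for one prime.** -/
theorem hd {R : Type} [CommRing R] {r c k s d m : ℕ} (b : Module.Basis (Fin d) ℤ R)
    (h : Fin c → MvPolynomial (Fin (r + 4)) R) (g : Fin k → MvPolynomial (Fin (r + 4)) R)
    (hm : 2 ≤ m) (hms : m + 1 ≤ s)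
    (hD : ∀ j, 1 ≤ j → j + 1 ≤ m → 2 * (r + 3) * ((m - j) * (j + 1)) ≤ (m + 2) * (s + 1 - 2 * j)) :
    ∃ C : ℝ, 0 ≤ C ∧ ∀ (p : ℕ) [Fact p.Prime] (M : ℕ) [NeZero M] (_ : p ∣ M) (H : ℕ),
      p * p * (s * H) ^ m < M ^ m → ∀ (φ : R →+* ZMod p) (C₁ : ℝ), 0 ≤ C₁ →
        ((XU h g φ).card : ℝ) ≤ C₁ * (((p : ℝ) - 1) * (p : ℝ) ^ 3) →
        ∑ a : (Fin k × Mono (r + 4) s) × Fin d → ZMod M, WW H a * DP b h g φ (up a) ^ 2 ≤
          ZZ ((Fin k × Mono (r + 4) s) × Fin d) M H * ((C + C₁) * (p : ℝ) ^ 4) := by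
  obtain ⟨C, hC, h1⟩ := dia (n := r + 4) (s := s) (m := m) (k := k) (d := d) (by omega) hm hms hD
  refine ⟨C, hC, fun p _ M _ hM H hsize φ C₁ hC₁ hc => ?_⟩
  have h2 := h1 p M hM H hsize (XU h g φ) (alp b g φ) C₁ (XU_alp b h g φ) hC₁ hc
  simp_rw [DP_up hM]
  exact h2

end Main

end Pool.Agent.LL
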