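import Pool.Agent.LL.Key

/-! Long-range Lefschetz: roots of the polynomials of the key lemma in finite fields. -/

set_option autoImplicit false

namespace Pool.Agent.LL

open Polynomial Finset

open Classical in
/-- the roots of an integer polynomial in a finite field -/
noncomputable def rts (G : ℤ[X]) (F : Type) [Field F] [Fintype F] : Finset F :=
  univ.filter fun x : F => aeval x G = 0

lemma mem_rts {G : ℤ[X]} {F : Type} [Field F] [Fintype F] {x : F} : x ∈ rts G F ↔ aeval x G = 0 := by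
  classical
  unfold rts
  rw [Finset.mem_filter]
  exact ⟨fun h => h.2, fun h => ⟨Finset.mem_univ _, h⟩⟩

/-- a primitive polynomial of degree less than `m` has at most `m` roots in a finite field -/
lemma card_rts {G : ℤ[X]} {m : ℕ} (hG : G.IsPrimitive) (hm : G.natDegree < m)
    (F : Type) [Field F] [Fintype F] : (rts G F).card ≤ m := by
  classical
  obtain ⟨p, hp⟩ := CharP.exists F
  have hpp : p.Prime := CharP.char_is_prime F p
  have hne : G.map (Int.castRingHom F) ≠ 0 := by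
    intro h0
    have h1 : C (p : ℤ) ∣ G := by
      rw [C_dvd_iff_dvd_coeff]
      intro n
      have h2 : (G.map (Int.castRingHom F)).coeff n = 0 := by rw [h0, coeff_zero]
      rw [coeff_map, eq_intCast] at h2
      exact (CharP.intCast_eq_zero_iff F p _).1 h2
    have h3 := hG _ h1
    have h4 := Int.isUnit_iff_natAbs_eq.1 h3
    rw [Int.natAbs_natCast] at h4
    exact hpp.one_lt.ne' h4
  have hsub : rts G F ⊆ (G.map (Int.castRingHom F)).roots.toFinset := by
    intro x hx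
    rw [Multiset.mem_toFinset, mem_roots hne, IsRoot.def, eval_map]
    have h1 := mem_rts.1 hx
    rw [aeval_def] at h1
    exact h1
  exact (Finset.card_le_card hsub).trans ((Multiset.toFinset_card_le _).trans
    ((card_roots' _).trans (natDegree_map_le.trans hm.le)))

open Classical in
/-- all roots of the polynomials of a finite set -/
noncomputable def allRts (𝒢 : Finset ℤ[X]) (F : Type) [Field F] [Fintype F] : Finset F :=
  𝒢.biUnion fun G => rts G F

open Classical in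
/-- all pairs of roots of the same polynomial of a finite set -/
noncomputable def allPairs (𝒢 : Finset ℤ[X]) (F F' : Type) [Field F] [Fintype F] [Field F'] [Fintype F'] :
    Finset (F × F') := 𝒢.biUnion fun G => rts G F ×ˢ rts G F'

lemma mem_allRts {𝒢 : Finset ℤ[X]} {F : Type} [Field F] [Fintype F] {x : F} :
    x ∈ allRts 𝒢 F ↔ ∃ G ∈ 𝒢, aeval x G = 0 := by
  unfold allRts
  simp only [Finset.mem_biUnion, mem_rts]

lemma mem_allPairs {𝒢 : Finset ℤ[X]} {F F' : Type} [Field F] [Fintype F] [Field F'] [Fintype F']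
    {x : F × F'} : x ∈ allPairs 𝒢 F F' ↔ ∃ G ∈ 𝒢, aeval x.1 G = 0 ∧ aeval x.2 G = 0 := by
  unfold allPairs
  simp only [Finset.mem_biUnion, Finset.mem_product, mem_rts]

lemma card_allRts {𝒢 : Finset ℤ[X]} {m : ℕ}
    (h : ∀ G ∈ 𝒢, G.IsPrimitive ∧ 1 ≤ G.natDegree ∧ G.natDegree < m)
    (F : Type) [Field F] [Fintype F] : (allRts 𝒢 F).card ≤ 𝒢.card * m := by
  classical
  unfold allRts
  refine Finset.card_biUnion_le.trans ?_
  refine (Finset.sum_le_sum fun G hG => card_rts (h G hG).1 (h G hG).2.2 F).trans ?_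
  rw [Finset.sum_const, smul_eq_mul]

lemma card_allPairs {𝒢 : Finset ℤ[X]} {m : ℕ}
    (h : ∀ G ∈ 𝒢, G.IsPrimitive ∧ 1 ≤ G.natDegree ∧ G.natDegree < m)
    (F F' : Type) [Field F] [Fintype F] [Field F'] [Fintype F'] :
    (allPairs 𝒢 F F').card ≤ 𝒢.card * (m * m) := by
  classical
  unfold allPairs
  refine Finset.card_biUnion_le.trans ?_
  refine (Finset.sum_le_sum fun G hG => ?_).trans (le_of_eq (by
    rw [Finset.sum_const, smul_eq_mul]))
  rw [Finset.card_product]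
  exact Nat.mul_le_mul (card_rts (h G hG).1 (h G hG).2.2 F) (card_rts (h G hG).1 (h G hG).2.2 F')

/-- the root of the size of the ring -/
lemma exists_q {N m : ℕ} (hN : 1 ≤ N) (hm : 1 ≤ m) : ∃ q, 1 ≤ q ∧ q ^ m ≤ N ∧ N < (q + 1) ^ m := by
  classical
  have hex : ∃ q, N < (q + 1) ^ m := by
    refine ⟨N, lt_of_lt_of_le (Nat.lt_succ_self N) ?_⟩
    exact Nat.le_self_pow (by omega) _
  refine ⟨Nat.find hex, ?_, ?_, Nat.find_spec hex⟩
  · rw [Nat.one_le_iff_ne_zero]
    intro h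
    have h1 := Nat.find_spec hex
    rw [h, zero_add, one_pow] at h1
    omega
  · by_contra hcon
    push Not at hcon
    have h1 : Nat.find hex ≠ 0 := by
      intro h
      have h1 := Nat.find_spec hex
      rw [h, zero_add, one_pow] at h1
      omega
    have h2 := Nat.find_min hex (m := Nat.find hex - 1) (by omega)
    apply h2
    have h3 : Nat.find hex - 1 + 1 = Nat.find hex := by omega
    rw [h3]
    exact hcon

/-- The key lemma with the size `N` of the ring: a set of polynomials with few roots. -/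
theorem key' {m e D L t : ℕ} (hm : 1 ≤ m) (hme : m ≤ e + 1) (hL : L + 2 = e + m) (hD0 : 1 ≤ D)
    (hD : ∀ k, 1 ≤ k → k + 1 ≤ m → D * ((m - k) * (k + 1)) ≤ (m + t) * (e + 1 - k)) :
    ∃ C : ℕ, ∀ N : ℕ, 1 ≤ N → ∃ q : ℕ, 1 ≤ q ∧ q ^ m ≤ N ∧ ∃ 𝒢 : Finset ℤ[X],
      (∀ (F : Type) [Field F] [Fintype F], (allRts 𝒢 F).card ^ D ≤ C * (N * q ^ t)) ∧
      (∀ (F F' : Type) [Field F] [Fintype F] [Field F'] [Fintype F'],
        (allPairs 𝒢 F F').card ^ D ≤ C * (N * q ^ t)) ∧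
      (∀ G ∈ 𝒢, G.IsPrimitive ∧ 1 ≤ G.natDegree ∧ G.natDegree < m) ∧
      ∀ (𝓡 : Type) [CommRing 𝓡] [Fintype 𝓡] (τ : 𝓡) (θ : ℕ → ℤ) (H M : ℕ),
        Fintype.card 𝓡 = N → (∀ j ≤ L, |θ j| ≤ (H : ℤ)) → N * ((L + 1) * H) ^ m < M ^ m →
        (∃ j ≤ L, θ j ≠ 0) →
        (∀ G : ℤ[X], aeval τ G = 0 → ∀ i, i + G.natDegree ≤ L →
          (M : ℤ) ∣ ∑ j ∈ range (G.natDegree + 1), G.coeff j * θ (i + j)) →
        ∃ G ∈ 𝒢, Ann L θ G := by
  obtain ⟨C, hC⟩ := key hm hme hL hD0 hD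
  refine ⟨(m * m) ^ D * C, fun N hN => ?_⟩
  obtain ⟨q, hq1, hq2, hq3⟩ := exists_q hN hm
  obtain ⟨𝒢, h1, h2, h3⟩ := hC q hq1
  have hmain : ∀ n : ℕ, n ≤ 𝒢.card * (m * m) → n ^ D ≤ (m * m) ^ D * C * (N * q ^ t) := by
    intro n hn
    calc n ^ D ≤ (𝒢.card * (m * m)) ^ D := Nat.pow_le_pow_left hn _
      _ = (m * m) ^ D * 𝒢.card ^ D := by rw [mul_pow, mul_comm]
      _ ≤ (m * m) ^ D * (C * q ^ (m + t)) := Nat.mul_le_mul_left _ h1
      _ ≤ (m * m) ^ D * (C * (N * q ^ t)) := by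
          rw [pow_add]
          exact Nat.mul_le_mul_left _ (Nat.mul_le_mul_left _ (Nat.mul_le_mul_right _ hq2))
      _ = _ := by ring
  refine ⟨q, hq1, hq2, 𝒢, ?_, ?_, h2, ?_⟩
  · intro F _ _
    apply hmain
    refine (card_allRts h2 F).trans (Nat.mul_le_mul_left _ (Nat.le_mul_of_pos_left _ hm))
  · intro F F' _ _ _ _
    exact hmain _ (card_allPairs h2 F F')
  · intro 𝓡 _ _ τ θ H M hcard hθ hM hne hdiv
    refine h3 𝓡 τ θ H M (by rw [hcard]; exact hq3) hθ ?_ hne hdiv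
    have h4 : ((L + 1) * (q * H)) ^ m < M ^ m := by
      refine lt_of_le_of_lt ?_ hM
      calc ((L + 1) * (q * H)) ^ m = q ^ m * ((L + 1) * H) ^ m := by rw [← mul_pow]; ring
        _ ≤ _ := Nat.mul_le_mul_right _ hq2
    exact lt_of_pow_lt_pow_left₀ m (Nat.zero_le _) h4

/-- The form of the key lemma which is used: `θ` is given on `0, .., L`, and is divisible by `M` on
the polynomials which vanish at `τ`; if conversely divisibility on `P` and on `X P` implies that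
`P` vanishes at `τ`, then `τ` is a root of one of the polynomials. -/
def HitsRoot (𝒢 : Finset ℤ[X]) (m L N : ℕ) : Prop :=
  ∀ (𝓡 : Type) [CommRing 𝓡] [Nontrivial 𝓡] [Fintype 𝓡] (τ : 𝓡) (θ : ℕ → ℤ) (H M : ℕ),
    Fintype.card 𝓡 = N → (∀ j ≤ L, |θ j| ≤ (H : ℤ)) → N * ((L + 1) * H) ^ m < M ^ m →
    (∀ P : ℤ[X], P.natDegree ≤ L → aeval τ P = 0 →
      (M : ℤ) ∣ ∑ j ∈ range (L + 1), P.coeff j * θ j) →
    (∀ P : ℤ[X], P.natDegree < m → (M : ℤ) ∣ ∑ j ∈ range (L + 1), P.coeff j * θ j →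
      (M : ℤ) ∣ ∑ j ∈ range (L + 1), (X * P).coeff j * θ j → aeval τ P = 0) →
    ∃ G ∈ 𝒢, aeval τ G = 0

lemma sum_shift {L i : ℕ} {P : ℤ[X]} (θ : ℕ → ℤ) (h : i + P.natDegree ≤ L) :
    ∑ j ∈ range (L + 1), (X ^ i * P).coeff j * θ j =
      ∑ j ∈ range (P.natDegree + 1), P.coeff j * θ (i + j) := by
  have h1 : ∑ j ∈ range (L + 1), (X ^ i * P).coeff j * θ j =
      ∑ j ∈ (range (P.natDegree + 1)).image (fun j => i + j), (X ^ i * P).coeff j * θ j := by
    symm
    apply Finset.sum_subset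
    · intro j hj
      obtain ⟨k, hk, rfl⟩ := Finset.mem_image.1 hj
      rw [Finset.mem_range] at hk ⊢
      omega
    · intro j hj hj'
      rw [Finset.mem_range] at hj
      rw [coeff_X_pow_mul']
      split_ifs with hij
      · rw [coeff_eq_zero_of_natDegree_lt, zero_mul]
        by_contra hcon
        push Not at hcon
        apply hj'
        rw [Finset.mem_image]
        exact ⟨j - i, Finset.mem_range.2 (by omega), by omega⟩
      · rw [zero_mul]
  rw [h1, Finset.sum_image (fun a _ b _ hab => by simpa using hab)]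
  refine Finset.sum_congr rfl fun j _ => ?_
  rw [coeff_X_pow_mul', if_pos (Nat.le_add_right i j), Nat.add_sub_cancel_left]

/-- **Key lemma.** -/
theorem hits {m e D L t : ℕ} (hm : 1 ≤ m) (hme : m ≤ e + 1) (hL : L + 2 = e + m) (hmL : m ≤ L)
    (hD0 : 1 ≤ D)
    (hD : ∀ k, 1 ≤ k → k + 1 ≤ m → D * ((m - k) * (k + 1)) ≤ (m + t) * (e + 1 - k)) :
    ∃ C : ℕ, ∀ N : ℕ, 1 ≤ N → ∃ q : ℕ, 1 ≤ q ∧ q ^ m ≤ N ∧ ∃ 𝒢 : Finset ℤ[X],
      (∀ (F : Type) [Field F] [Fintype F], (allRts 𝒢 F).card ^ D ≤ C * (N * q ^ t)) ∧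
      (∀ (F F' : Type) [Field F] [Fintype F] [Field F'] [Fintype F'],
        (allPairs 𝒢 F F').card ^ D ≤ C * (N * q ^ t)) ∧ HitsRoot 𝒢 m L N := by
  obtain ⟨C, hC⟩ := key' hm hme hL hD0 hD
  refine ⟨C, fun N hN => ?_⟩
  obtain ⟨q, hq1, hq2, 𝒢, h1, h2, h3, h4⟩ := hC N hN
  refine ⟨q, hq1, hq2, 𝒢, h1, h2, ?_⟩
  intro 𝓡 _ _ _ τ θ H M hcard hθ hM hz hr
  have hne : ∃ j ≤ L, θ j ≠ 0 := by
    by_contra hcon
    push Not at hcon
    have h5 : ∀ P : ℤ[X], ∑ j ∈ range (L + 1), P.coeff j * θ j = 0 := by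
      intro P
      refine Finset.sum_eq_zero fun j hj => ?_
      rw [Finset.mem_range] at hj
      rw [hcon j (by omega), mul_zero]
    have h6 := hr 1 (by rw [natDegree_one]; omega) (by rw [h5]; exact dvd_zero _)
      (by rw [h5]; exact dvd_zero _)
    rw [map_one] at h6
    exact one_ne_zero h6
  obtain ⟨G, hG, hA⟩ := h4 𝓡 τ θ H M hcard hθ hM hne (by
    intro G hG i hi
    rw [← sum_shift θ hi]
    apply hz
    · refine natDegree_mul_le.trans ?_
      rw [natDegree_X_pow]; exact hi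
    · rw [map_mul, hG, mul_zero])
  obtain ⟨g1, g2, g3⟩ := h3 G hG
  refine ⟨G, hG, hr G g3 ?_ ?_⟩
  · have h5 := hA 0 (by omega)
    rw [← sum_shift (L := L) (i := 0) (P := G) θ (by omega), pow_zero, one_mul] at h5
    rw [h5]; exact dvd_zero _
  · have h5 := hA 1 (by omega)
    rw [← sum_shift (L := L) (i := 1) (P := G) θ (by omega), pow_one] at h5
    rw [h5]; exact dvd_zero _

end Pool.Agent.LL
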