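import Pool.Agent.LL.GL

/-!
The inequality `2 Z_x Z_y ≤ Z_0 (Z_{x+y} + Z_{x-y})` and the scaling of the Gaussian gas.
-/

set_option autoImplicit false
set_option linter.unusedSectionVars false

namespace Pool.Agent.LL

open Finset
open scoped ENNReal

variable {ι : Type*} [Fintype ι] [DecidableEq ι] {Γ : Type*} [AddCommGroup Γ]

theorem phi_apply (b : ι → Γ) (c : ι → ℤ) : phi b c = ∑ i, c i • b i := rfl

theorem cst_add (c d : ι → ℤ) : cst (c + d) = cst c + cst d := by
  ext i; simp [cst]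

theorem cst_sub (c d : ι → ℤ) : cst (c - d) = cst c - cst d := by
  ext i; simp [cst]

theorem cst_neg (c : ι → ℤ) : cst (-c) = -cst c := by
  ext i; simp [cst]

@[simp] theorem cst_zero : cst (0 : ι → ℤ) = 0 := by
  ext i; simp [cst]

/-- The kernel lattice has no 2-torsion. -/
theorem ker_tors (b : ι → Γ) (m : (phi b).ker) (h : m + m = 0) : m = 0 := by
  have h1 : (m : ι → ℤ) + (m : ι → ℤ) = 0 := by
    have := congrArg Subtype.val h
    simpa using this
  ext i
  have := congrFun h1 i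
  simp only [Pi.add_apply, Pi.zero_apply] at this
  simp only [ZeroMemClass.coe_zero, Pi.zero_apply]
  omega

/-- The rotation identity of the weight. -/
theorem E_rot (β : ℝ) (B : Finset ι) (u v : ι → ℝ) :
    E β B (u + v) * E β B (u - v) = E (2 * β) B u * E (2 * β) B v := by
  classical
  unfold E
  by_cases hu : ∀ i ∉ B, u i = 0
  · by_cases hv : ∀ i ∉ B, v i = 0
    · have h1 : ∀ i ∉ B, (u + v) i = 0 := fun i hi => by simp [hu i hi, hv i hi]
      have h2 : ∀ i ∉ B, (u - v) i = 0 := fun i hi => by simp [hu i hi, hv i hi]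
      rw [if_pos h1, if_pos h2, if_pos hu, if_pos hv, ← ENNReal.ofReal_mul (Real.exp_nonneg _),
        ← ENNReal.ofReal_mul (Real.exp_nonneg _), ← Real.exp_add, ← Real.exp_add]
      congr 2
      have : ∑ i, (u + v) i ^ 2 + ∑ i, (u - v) i ^ 2 = 2 * ∑ i, u i ^ 2 + 2 * ∑ i, v i ^ 2 := by
        rw [← Finset.sum_add_distrib, Finset.mul_sum, Finset.mul_sum, ← Finset.sum_add_distrib]
        refine Finset.sum_congr rfl fun i _ => ?_
        simp only [Pi.add_apply, Pi.sub_apply]; ring
      linear_combination (-β) * this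
    · rw [if_neg hv, mul_zero]
      by_cases h1 : ∀ i ∉ B, (u + v) i = 0
      · exfalso
        apply hv
        intro i hi
        have := h1 i hi
        rw [Pi.add_apply, hu i hi, zero_add] at this
        exact this
      · rw [if_neg h1, zero_mul]
  · rw [if_neg hu, zero_mul]
    by_cases h1 : ∀ i ∉ B, (u + v) i = 0
    · by_cases h2 : ∀ i ∉ B, (u - v) i = 0
      · exfalso
        apply hu
        intro i hi
        have e1 := h1 i hi
        have e2 := h2 i hi
        rw [Pi.add_apply] at e1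
        rw [Pi.sub_apply] at e2
        linarith
      · rw [if_neg h2, mul_zero]
    · rw [if_neg h1, zero_mul]

theorem E_neg (β : ℝ) (B : Finset ι) (u : ι → ℝ) : E β B (-u) = E β B u := by
  unfold E
  simp

/-- Shifting by a lattice vector. -/
theorem R_shift (b : ι → Γ) (β : ℝ) (B : Finset ι) (x : ι → ℝ) (m : (phi b).ker) :
    R b β B (x + cst (m : ι → ℤ)) = R b β B x := by
  unfold R
  rw [← (Equiv.addLeft m).tsum_eq (fun l : (phi b).ker => E β B (x + cst (l : ι → ℤ)))]
  refine tsum_congr fun l => ?_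
  congr 1
  rw [Equiv.coe_addLeft, AddSubgroup.coe_add, cst_add]
  abel

theorem R_rsd (b : ι → Γ) (β : ℝ) (B : Finset ι) (x y : ι → ℝ) :
    2 * (R b (2 * β) B x * R b (2 * β) B y) ≤
      R b (2 * β) B 0 * (R b (2 * β) B (x + y) + R b (2 * β) B (x - y)) := by
  have key := gl (ker_tors b) (fun l => E β B (x + y + cst (l : ι → ℤ)))
    (fun l => E β B (x - y + cst (l : ι → ℤ)))
  have prodR : ∀ u v : ι → ℝ, R b (2 * β) B u * R b (2 * β) B v =
      ∑' (l : (phi b).ker) (m : (phi b).ker),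
        E (2 * β) B (u + cst (l : ι → ℤ)) * E (2 * β) B (v + cst (m : ι → ℤ)) := by
    intro u v
    unfold R
    rw [← ENNReal.tsum_mul_right]
    refine tsum_congr fun l => ?_
    rw [← ENNReal.tsum_mul_left]
  have a1 : ∑' (l : (phi b).ker) (m : (phi b).ker),
      E β B (x + y + cst ((l + m : (phi b).ker) : ι → ℤ)) *
        E β B (x - y + cst ((l - m : (phi b).ker) : ι → ℤ)) = R b (2 * β) B x * R b (2 * β) B y := by
    rw [prodR]
    refine tsum_congr fun l => tsum_congr fun m => ?_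
    rw [← E_rot]
    congr 2
    · rw [AddSubgroup.coe_add, cst_add]; abel
    · rw [AddSubgroup.coe_sub, cst_sub]; abel
  have a2 : ∀ z : ι → ℝ, ∑' (l : (phi b).ker) (m : (phi b).ker),
      E β B (z + cst ((l + m : (phi b).ker) : ι → ℤ)) *
        E β B (z + cst ((l - m : (phi b).ker) : ι → ℤ)) = R b (2 * β) B z * R b (2 * β) B 0 := by
    intro z
    rw [prodR]
    refine tsum_congr fun l => tsum_congr fun m => ?_
    rw [← E_rot]
    congr 2
    · rw [AddSubgroup.coe_add, cst_add]; abel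
    · rw [AddSubgroup.coe_sub, cst_sub]; abel
  rw [a1, a2, a2] at key
  calc _ ≤ _ := key
    _ = _ := by ring

/-- `Z` as a coset sum. -/
theorem Z_eq_R (b : ι → Γ) (β : ℝ) (B : Finset ι) {y : Γ} {a : ι → ℤ} (ha : phi b a = y) :
    Z b β B y = R b β B (cst a) := by
  classical
  unfold Z R
  have hinj : Function.Injective (fun l : (phi b).ker => a + (l : ι → ℤ)) := by
    intro l m hlm
    exact Subtype.ext (add_left_cancel hlm)
  rw [← hinj.tsum_eq (f := fun c : ι → ℤ => if phi b c = y then E β B (cst c) else 0)]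
  · refine tsum_congr fun l => ?_
    have hl : phi b (l : ι → ℤ) = 0 := l.2
    rw [if_pos (by rw [map_add, ha, hl, add_zero]), cst_add]
  · intro c hc
    have hc' : phi b c = y := by
      by_contra hne
      exact hc (if_neg hne)
    refine ⟨⟨c - a, ?_⟩, ?_⟩
    · rw [AddMonoidHom.mem_ker, map_sub, hc', ha, sub_self]
    · simp

theorem Z_eq_zero (b : ι → Γ) (β : ℝ) (B : Finset ι) {y : Γ} (h : ∀ a : ι → ℤ, phi b a ≠ y) :
    Z b β B y = 0 := by
  classical
  unfold Z
  rw [ENNReal.tsum_eq_zero]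
  intro c
  exact if_neg (h c)

theorem Z_zero_eq (b : ι → Γ) (β : ℝ) (B : Finset ι) : Z b β B 0 = R b β B 0 := by
  rw [Z_eq_R b β B (a := 0) (map_zero _), cst_zero]

/-- Row 1. -/
theorem Z_rsd (b : ι → Γ) (β : ℝ) (B : Finset ι) (x y : Γ) :
    2 * (Z b β B x * Z b β B y) ≤ Z b β B 0 * (Z b β B (x + y) + Z b β B (x - y)) := by
  by_cases hx : ∃ a : ι → ℤ, phi b a = x
  · by_cases hy : ∃ a : ι → ℤ, phi b a = y
    · obtain ⟨a, ha⟩ := hx
      obtain ⟨a', ha'⟩ := hy
      have h1 : phi b (a + a') = x + y := by rw [map_add, ha, ha']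
      have h2 : phi b (a - a') = x - y := by rw [map_sub, ha, ha']
      rw [Z_eq_R b β B ha, Z_eq_R b β B ha', Z_eq_R b β B h1, Z_eq_R b β B h2, Z_zero_eq,
        cst_add, cst_sub]
      have := R_rsd b (β / 2) B (cst a) (cst a')
      rwa [mul_div_cancel₀ β (two_ne_zero)] at this
    · rw [Z_eq_zero b β B (y := y) (fun a ha => hy ⟨a, ha⟩)]
      simp
  · rw [Z_eq_zero b β B (y := x) (fun a ha => hx ⟨a, ha⟩)]
    simp

open Classical in
/-- A representative of a class modulo doubles. -/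
noncomputable def rep {M : Type*} [AddCommGroup M] (q : M ⧸ dbl M) : M := Quotient.out q

theorem mk_rep {M : Type*} [AddCommGroup M] (q : M ⧸ dbl M) :
    (QuotientAddGroup.mk (rep q) : M ⧸ dbl M) = q := Quotient.out_eq' q

open Classical in
/-- Double sums in terms of classes of differences. -/
theorem diff_eq {M : Type*} [AddCommGroup M] (h2 : ∀ m : M, m + m = 0 → m = 0)
    (F : M → M → ℝ≥0∞) :
    ∑' (l : M) (m : M), F l m =
      ∑' (q : M ⧸ dbl M) (u : M) (d : M), F (u + d + rep q) (u - d) := by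
  have e1 : ∀ l m : M, F l m =
      ∑' q : M ⧸ dbl M, if (QuotientAddGroup.mk (l - m) : M ⧸ dbl M) = q then F l m else 0 := by
    intro l m
    rw [tsum_eq_single (QuotientAddGroup.mk (l - m) : M ⧸ dbl M)]
    · rw [if_pos rfl]
    · intro q hq
      rw [if_neg (fun h => hq h.symm)]
  have e2 : ∑' (l : M) (m : M), F l m = ∑' (q : M ⧸ dbl M) (l : M) (m : M),
      if (QuotientAddGroup.mk (l - m) : M ⧸ dbl M) = q then F l m else 0 := by
    calc ∑' (l : M) (m : M), F l m = ∑' (l : M) (m : M) (q : M ⧸ dbl M),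
          (if (QuotientAddGroup.mk (l - m) : M ⧸ dbl M) = q then F l m else 0) :=
          tsum_congr fun l => tsum_congr fun m => e1 l m
      _ = ∑' (l : M) (q : M ⧸ dbl M) (m : M),
          (if (QuotientAddGroup.mk (l - m) : M ⧸ dbl M) = q then F l m else 0) :=
          tsum_congr fun l => ENNReal.tsum_comm
      _ = _ := ENNReal.tsum_comm
  rw [e2]
  refine tsum_congr fun q => ?_
  rw [← ENNReal.tsum_prod (f := fun l m =>
      if (QuotientAddGroup.mk (l - m) : M ⧸ dbl M) = q then F l m else 0),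
    ← ENNReal.tsum_prod (f := fun u d => F (u + d + rep q) (u - d))]
  let g : M × M → M × M := fun z => (z.1 + z.2 + rep q, z.1 - z.2)
  have hg : Function.Injective g := by
    rintro ⟨x, y⟩ ⟨x', y'⟩ hxy
    simp only [g, Prod.mk.injEq] at hxy
    obtain ⟨ha, hb⟩ := hxy
    have ha := add_right_cancel ha
    have hx : x = x' := by
      have : (x - x') + (x - x') = 0 := by
        have : (x + y) + (x - y) = (x' + y') + (x' - y') := by rw [ha, hb]
        have h3 : x + x = x' + x' := by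
          calc x + x = (x + y) + (x - y) := by abel
            _ = (x' + y') + (x' - y') := this
            _ = x' + x' := by abel
        calc (x - x') + (x - x') = (x + x) - (x' + x') := by abel
          _ = 0 := by rw [h3, sub_self]
      exact sub_eq_zero.1 (h2 _ this)
    subst hx
    have : y = y' := add_left_cancel ha
    rw [this]
  rw [← hg.tsum_eq (f := fun z : M × M =>
      if (QuotientAddGroup.mk (z.1 - z.2) : M ⧸ dbl M) = q then F z.1 z.2 else 0)]
  · refine tsum_congr fun z => ?_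
    have : (QuotientAddGroup.mk ((g z).1 - (g z).2) : M ⧸ dbl M) = q := by
      conv_rhs => rw [← mk_rep q]
      rw [QuotientAddGroup.eq]
      refine mem_dbl.2 ⟨-z.2, ?_⟩
      simp only [g]; abel
    rw [if_pos this]
  · rintro ⟨l, m⟩ hlm
    have hlm' : (QuotientAddGroup.mk (l - m) : M ⧸ dbl M) = q := by
      by_contra hne
      exact hlm (if_neg hne)
    rw [← mk_rep q, QuotientAddGroup.eq] at hlm'
    obtain ⟨y, hy⟩ := mem_dbl.1 hlm'
    refine ⟨(m - y, -y), ?_⟩
    have hr : rep q = y + y + (l - m) := by rw [hy]; abel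
    simp only [g, Prod.mk.injEq]
    refine ⟨?_, by abel⟩
    rw [hr]; abel

/-- The square of a coset sum. -/
theorem R_sq (b : ι → Γ) (β : ℝ) (B : Finset ι) (x : ι → ℝ) :
    R b β B x ^ 2 = ∑' q : (phi b).ker ⧸ dbl (phi b).ker,
      R b (2 * β) B (x + (1 / 2 : ℝ) • cst ((rep q : (phi b).ker) : ι → ℤ)) *
        R b (2 * β) B ((1 / 2 : ℝ) • cst ((rep q : (phi b).ker) : ι → ℤ)) := by
  have h1 : R b β B x ^ 2 = ∑' (l : (phi b).ker) (m : (phi b).ker),
      E β B (x + cst (l : ι → ℤ)) * E β B (x + cst (m : ι → ℤ)) := by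
    rw [sq]
    unfold R
    rw [← ENNReal.tsum_mul_right]
    refine tsum_congr fun l => ?_
    rw [← ENNReal.tsum_mul_left]
  rw [h1, diff_eq (ker_tors b)]
  refine tsum_congr fun q => ?_
  unfold R
  rw [← ENNReal.tsum_mul_right]
  refine tsum_congr fun u => ?_
  rw [← ENNReal.tsum_mul_left]
  refine tsum_congr fun d => ?_
  rw [← E_rot]
  have hh : ∀ z : ι → ℝ, z = (1 / 2 : ℝ) • z + (1 / 2 : ℝ) • z := by
    intro z
    rw [← add_smul]; norm_num
  congr 2
  · rw [AddSubgroup.coe_add, AddSubgroup.coe_add, cst_add, cst_add]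
    conv_lhs => rw [hh (cst ((rep q : (phi b).ker) : ι → ℤ))]
    abel
  · rw [AddSubgroup.coe_sub, cst_sub]
    abel

/-- Row 3. -/
theorem doubling (b : ι → Γ) (β : ℝ) (B : Finset ι) (v : Γ) :
    Z b β B 0 ^ 2 * Z b (2 * β) B v ≤ Z b (2 * β) B 0 * Z b β B v ^ 2 := by
  by_cases hv : ∃ a : ι → ℤ, phi b a = v
  · obtain ⟨a, ha⟩ := hv
    rw [Z_eq_R b β B ha, Z_eq_R b (2 * β) B ha, Z_zero_eq, Z_zero_eq, R_sq, R_sq,
      ← ENNReal.tsum_mul_right, ← ENNReal.tsum_mul_left]
    refine ENNReal.tsum_le_tsum fun q => ?_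
    have h1 := R_rsd b β B (cst a) ((1 / 2 : ℝ) • cst ((rep q : (phi b).ker) : ι → ℤ))
    have h2 : R b (2 * β) B (cst a - (1 / 2 : ℝ) • cst ((rep q : (phi b).ker) : ι → ℤ)) =
        R b (2 * β) B (cst a + (1 / 2 : ℝ) • cst ((rep q : (phi b).ker) : ι → ℤ)) := by
      rw [← R_shift b (2 * β) B _ (rep q)]
      congr 1
      ext i
      simp only [Pi.add_apply, Pi.sub_apply, Pi.smul_apply, smul_eq_mul]
      ring
    rw [h2] at h1
    have h3 : R b (2 * β) B (cst a) * R b (2 * β) B
        ((1 / 2 : ℝ) • cst ((rep q : (phi b).ker) : ι → ℤ)) ≤ R b (2 * β) B 0 *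
          R b (2 * β) B (cst a + (1 / 2 : ℝ) • cst ((rep q : (phi b).ker) : ι → ℤ)) := by
      have h4 : 2 * (R b (2 * β) B (cst a) * R b (2 * β) B
          ((1 / 2 : ℝ) • cst ((rep q : (phi b).ker) : ι → ℤ))) ≤ 2 * (R b (2 * β) B 0 *
          R b (2 * β) B (cst a + (1 / 2 : ℝ) • cst ((rep q : (phi b).ker) : ι → ℤ))) := by
        calc _ ≤ _ := h1
          _ = _ := by ring
      exact (ENNReal.mul_le_mul_iff_right (by norm_num) (by norm_num)).1 h4
    rw [zero_add]
    calc _ = R b (2 * β) B (cst a) * R b (2 * β) B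
          ((1 / 2 : ℝ) • cst ((rep q : (phi b).ker) : ι → ℤ)) * R b (2 * β) B
            ((1 / 2 : ℝ) • cst ((rep q : (phi b).ker) : ι → ℤ)) := by ring
      _ ≤ _ := mul_le_mul_left h3 _
      _ = _ := by ring
  · rw [Z_eq_zero b (2 * β) B (y := v) (fun a ha => hv ⟨a, ha⟩)]
    simp

end Pool.Agent.LL
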