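import Pool.Agent.LL.Local
import Pool.Agent.S12.SidonThm

/-!
Sidon sets: `O(log log N)` quasi-independent sets (helper29).
-/

set_option autoImplicit false
set_option linter.unusedSectionVars false

namespace Pool.Agent.LL

open Finset Pool.Agent.Helper80.SU

open Pool.Agent.Helper72.Sidon

/-- one partition of a Sidon set -/
theorem sidon_local (C : ℝ) :
    ∃ K : ℕ, ∀ (G : Type*) [CommGroup G] [TopologicalSpace G] (Λ : Set (PontryaginDual G)),
      1 ∉ Λ → IsSidonWith C Λ → ∀ n : ℕ,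
        ∃ E : Fin (K * (Nat.log 2 n + 1)) → Set (PontryaginDual G), Λ = ⋃ i, E i ∧
          ∀ (i : Fin (K * (Nat.log 2 n + 1))) (B : Finset (PontryaginDual G)),
            (B : Set (PontryaginDual G)) ⊆ E i →
              (B.card ≤ n → QuasiIndependent (B : Set (PontryaginDual G))) ∧
              (B.card ≤ 8 ^ n → ∃ F : Fin 4 → Finset (PontryaginDual G),
                (∀ j, F j ⊆ B ∧ QuasiIndependent (F j : Set (PontryaginDual G))) ∧
                ∀ γ ∈ B, ∃ j, γ ∈ F j) := by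
  classical
  obtain ⟨c₀, hc₀, hsid⟩ := Pool.Agent.S12.sidon_prop C
  set c : ℝ := min c₀ 1 with hcdef
  have hc : 0 < c := lt_min hc₀ one_pos
  have hc1 : c ≤ 1 := min_le_right _ _
  refine ⟨⌈2 * (3 / c * (Real.log (1 + 12 / c) + 4) + 2)⌉₊, fun G _ _ Λ h1 hS n => ?_⟩
  set W : Set (Additive (PontryaginDual G)) := {x | x.toMul ∈ Λ} with hW
  obtain ⟨col, hcol⟩ := local_main (A := Additive (PontryaginDual G)) W hc hc1 (by
    intro B hB
    obtain ⟨D, hDB, hD, hcard⟩ := hsid G Λ h1 hS B fun b hb => hB hb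
    refine ⟨D, hDB, hD, le_trans ?_ hcard⟩
    exact mul_le_mul_of_nonneg_right (min_le_left _ _) (Nat.cast_nonneg _)) n
    (⌈2 * (3 / c * (Real.log (1 + 12 / c) + 4) + 2)⌉₊ * (Nat.log 2 n + 1)) (numeric hc n)
  refine ⟨fun i => {γ | γ ∈ Λ ∧ col (Additive.ofMul γ) = i}, ?_, ?_⟩
  · ext γ
    rw [Set.mem_iUnion]
    exact ⟨fun h => ⟨_, h, rfl⟩, fun ⟨_, h, _⟩ => h⟩
  intro i B hB
  set B' : Finset (Additive (PontryaginDual G)) := B.map Additive.ofMul.toEmbedding with hB'
  have hcard : B'.card = B.card := card_map _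
  obtain ⟨ha, hb⟩ := hcol B' (by
    intro x hx
    rw [mem_coe, hB', mem_map] at hx
    obtain ⟨g, hg, rfl⟩ := hx
    exact (hB hg).1) (by
    intro x hx y hy
    rw [hB', mem_map] at hx hy
    obtain ⟨g, hg, rfl⟩ := hx
    obtain ⟨g', hg', rfl⟩ := hy
    exact (hB hg).2.trans (hB hg').2.symm)
  rw [hcard] at ha hb
  refine ⟨fun h => ?_, fun h => ?_⟩
  · refine Pool.Agent.S12.quasi_of_dis (D := B') ?_ (ha h)
    intro g hg
    rw [hB', mem_map]
    exact ⟨g, hg, rfl⟩
  · obtain ⟨f, hf⟩ := hb h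
    refine ⟨fun j => B.filter (fun γ => f (Additive.ofMul γ) = j), fun j => ⟨filter_subset _ _, ?_⟩,
      fun γ hγ => ⟨f (Additive.ofMul γ), mem_filter.2 ⟨hγ, rfl⟩⟩⟩
    refine Pool.Agent.S12.quasi_of_dis (D := B'.filter (fun x => f x = j)) ?_ (hf j)
    intro g hg
    rw [mem_filter] at hg ⊢
    refine ⟨?_, hg.2⟩
    rw [hB', mem_map]
    exact ⟨g, hg.1, rfl⟩

theorem log_bound (N : ℕ) :
    4 * (Nat.log 2 (Nat.log 2 N + 1) + 1) ≤ 8 * (Nat.log 2 (Nat.log 2 N) + 1) := by
  have h1 : Nat.log 2 (Nat.log 2 N + 1) ≤ Nat.log 2 (Nat.log 2 N) + 1 := by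
    rcases Nat.eq_zero_or_pos (Nat.log 2 N) with h | h
    · rw [h]
      norm_num
    · have h2 : Nat.log 2 N + 1 ≤ 2 * Nat.log 2 N := by omega
      calc Nat.log 2 (Nat.log 2 N + 1) ≤ Nat.log 2 (2 * Nat.log 2 N) := Nat.log_mono_right h2
        _ = Nat.log 2 (Nat.log 2 N) + 1 := by
          rw [mul_comm, Nat.log_mul_base (by norm_num) (by omega)]
  omega

/-- **Sidon sets: `O(log log N)` quasi-independent sets for the parts with `N` elements, and one
partition of the whole set.** -/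
theorem sidon_loglog (C : ℝ) :
    ∃ K : ℕ, ∀ (G : Type*) [CommGroup G] [TopologicalSpace G] (Λ : Set (PontryaginDual G)),
      1 ∉ Λ → IsSidonWith C Λ →
        (∀ V : Finset (PontryaginDual G), (V : Set (PontryaginDual G)) ⊆ Λ →
          ∃ E : Fin (K * (Nat.log 2 (Nat.log 2 V.card) + 1)) → Set (PontryaginDual G),
            (∀ i, QuasiIndependent (E i)) ∧ (V : Set (PontryaginDual G)) = ⋃ i, E i) ∧
        (∀ n : ℕ, ∃ E : Fin (K * (Nat.log 2 n + 1)) → Set (PontryaginDual G), Λ = ⋃ i, E i ∧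
          ∀ (i : Fin (K * (Nat.log 2 n + 1))) (B : Finset (PontryaginDual G)),
            (B : Set (PontryaginDual G)) ⊆ E i →
              (B.card ≤ n → QuasiIndependent (B : Set (PontryaginDual G))) ∧
              (B.card ≤ 8 ^ n → ∃ F : Fin 4 → Set (PontryaginDual G),
                (∀ j, QuasiIndependent (F j)) ∧ (B : Set (PontryaginDual G)) = ⋃ j, F j)) := by
  classical
  obtain ⟨K, hK⟩ := sidon_local C
  refine ⟨8 * K, fun G _ _ Λ h1 hS => ⟨fun V hV => ?_, fun n => ?_⟩⟩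
  · set N := V.card with hN
    obtain ⟨m, hm⟩ : ∃ m : ℕ, m = K * (Nat.log 2 (Nat.log 2 N + 1) + 1) := ⟨_, rfl⟩
    have hex := hK G Λ h1 hS (Nat.log 2 N + 1)
    rw [← hm] at hex
    obtain ⟨E, hE, hE2⟩ := hex
    -- the parts of `V`
    have hpart : ∀ i : Fin m, ∃ F : Fin 4 → Finset (PontryaginDual G),
        (∀ j, F j ⊆ V.filter (fun γ => γ ∈ E i) ∧ QuasiIndependent (F j : Set (PontryaginDual G))) ∧
        ∀ γ ∈ V.filter (fun γ => γ ∈ E i), ∃ j, γ ∈ F j := by
      intro i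
      refine (hE2 i (V.filter (fun γ => γ ∈ E i)) ?_).2 ?_
      · intro γ hγ
        exact (mem_filter.1 (mem_coe.1 hγ)).2
      · refine (card_filter_le _ _).trans ?_
        have h2 : N < 2 ^ (Nat.log 2 N + 1) := Nat.lt_pow_succ_log_self (by norm_num) N
        refine h2.le.trans ?_
        exact Nat.pow_le_pow_left (by norm_num) _
    choose F hF1 hF2 using hpart
    have hle : 4 * m ≤ 8 * K * (Nat.log 2 (Nat.log 2 N) + 1) := by
      have h3 := log_bound N
      calc 4 * m = K * (4 * (Nat.log 2 (Nat.log 2 N + 1) + 1)) := by rw [hm]; ring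
        _ ≤ K * (8 * (Nat.log 2 (Nat.log 2 N) + 1)) := Nat.mul_le_mul_left _ h3
        _ = 8 * K * (Nat.log 2 (Nat.log 2 N) + 1) := by ring
    refine ⟨fun x => if h : (x : ℕ) < 4 * m then
      (F (finProdFinEquiv.symm (⟨x, h⟩ : Fin (4 * m))).2
        (finProdFinEquiv.symm (⟨x, h⟩ : Fin (4 * m))).1 : Set (PontryaginDual G)) else ∅, ?_, ?_⟩
    · intro x
      by_cases h : (x : ℕ) < 4 * m
      · simp only [h, dif_pos]
        exact (hF1 _ _).2
      · simp only [h, dif_neg, not_false_eq_true]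
        intro s hs e he _ γ hγ
        exact absurd (hs hγ) (Set.notMem_empty γ)
    · ext γ
      rw [Set.mem_iUnion]
      constructor
      · intro hγ
        have h4 : γ ∈ ⋃ i, E i := by rw [← hE]; exact hV hγ
        obtain ⟨i, hi⟩ := Set.mem_iUnion.1 h4
        obtain ⟨j, hj⟩ := hF2 i γ (mem_filter.2 ⟨mem_coe.1 hγ, hi⟩)
        have h5 : ((finProdFinEquiv (j, i) : Fin (4 * m)) : ℕ) < 4 * m :=
          (finProdFinEquiv (j, i) : Fin (4 * m)).2
        refine ⟨⟨(finProdFinEquiv (j, i) : Fin (4 * m)), h5.trans_le hle⟩, ?_⟩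
        simp only [h5, dif_pos, Fin.eta, Equiv.symm_apply_apply]
        exact hj
      · rintro ⟨x, hx⟩
        by_cases h : (x : ℕ) < 4 * m
        · simp only [h, dif_pos] at hx
          exact (mem_filter.1 ((hF1 _ _).1 hx)).1
        · simp only [h, dif_neg, not_false_eq_true] at hx
          exact absurd hx (Set.notMem_empty γ)
  · obtain ⟨E, hE, hE2⟩ := hK G Λ h1 hS n
    have hle : K * (Nat.log 2 n + 1) ≤ 8 * K * (Nat.log 2 n + 1) := by
      rw [mul_assoc]
      exact Nat.le_mul_of_pos_left _ (by norm_num)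
    refine ⟨fun x => if h : (x : ℕ) < K * (Nat.log 2 n + 1) then E ⟨x, h⟩ else ∅, ?_, ?_⟩
    · ext γ
      rw [Set.mem_iUnion, hE, Set.mem_iUnion]
      constructor
      · rintro ⟨i, hi⟩
        refine ⟨⟨i, i.2.trans_le hle⟩, ?_⟩
        simp only [i.2, dif_pos, Fin.eta]
        exact hi
      · rintro ⟨x, hx⟩
        by_cases h : (x : ℕ) < K * (Nat.log 2 n + 1)
        · simp only [h, dif_pos] at hx
          exact ⟨_, hx⟩
        · simp only [h, dif_neg, not_false_eq_true] at hx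
          exact absurd hx (Set.notMem_empty γ)
    · intro x B hB
      by_cases h : (x : ℕ) < K * (Nat.log 2 n + 1)
      · simp only [h, dif_pos] at hB
        obtain ⟨h2, h3⟩ := hE2 ⟨x, h⟩ B hB
        refine ⟨h2, fun h4 => ?_⟩
        obtain ⟨F, hF, hF'⟩ := h3 h4
        refine ⟨fun j => (F j : Set (PontryaginDual G)), fun j => (hF j).2, ?_⟩
        ext γ
        rw [Set.mem_iUnion]
        exact ⟨fun hγ => hF' γ hγ, fun ⟨j, hj⟩ => (hF j).1 hj⟩
      · simp only [h, dif_neg, not_false_eq_true] at hB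
        have hBe : B = ∅ := by
          rw [← Finset.coe_eq_empty]
          exact Set.subset_empty_iff.1 hB
        have hq : QuasiIndependent (∅ : Set (PontryaginDual G)) := by
          intro s hs e he _ γ hγ
          exact absurd (hs hγ) (Set.notMem_empty γ)
        subst hBe
        refine ⟨fun _ => by rw [Finset.coe_empty]; exact hq, fun _ => ⟨fun _ => ∅, fun _ => hq, ?_⟩⟩
        simp

end Pool.Agent.LL
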